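import Pool.Agent.T2h98.PS.Stm
import Pool.Agent.T2h98.KU.KREA

/-! Good energies: the mean of the integrand of the variance. -/

set_option autoImplicit false
set_option linter.unusedSectionVars false

open scoped BigOperators Matrix Topology
open MeasureTheory ProbabilityTheory Filter

namespace Pool.Agent.T2h98.PS

open Pool.Agent.W788.MFP.Four (T e NN adj K)
open Pool.Agent.W788.BK (nsq hs PP JJ hi Low cr)
open Pool.Agent.T2h98.QD
open Pool.Agent.T2h98.AC (TX RX mX sy Rb Fk)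
open Pool.Agent.T2h98.KU

namespace PLI

theorem dn_bdd (hD : T_DOS) (d : ℕ) (hd : 3 ≤ d) : ∃ B : ℝ, 0 ≤ B ∧ ∀ E, dn d E ≤ B := by
  obtain ⟨hc, -, h0, -, hz, -⟩ := hD d hd
  obtain ⟨B, hB⟩ := (isCompact_Icc (a := -(2 * (d : ℝ))) (b := 2 * (d : ℝ))).exists_bound_of_continuousOn
    hc.continuousOn
  refine ⟨max B 0, le_max_right _ _, fun E => ?_⟩
  by_cases hE : |E| ≤ 2 * (d : ℝ)
  · have h1 := hB E (abs_le.1 hE)
    rw [Real.norm_eq_abs] at h1
    exact ((le_abs_self _).trans h1).trans (le_max_left _ _)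
  · push Not at hE
    rw [(hz E hE.le).1]
    exact le_max_right _ _

/-- the elementary estimate -/
theorem est (W D M ξ ζ c0 η r1 T2 : ℝ) (I : ℂ) (hWD : |W| ≤ D) (hc0 : 0 < c0) (hD : c0 ≤ D)
    (hM : |M - D| ≤ ζ) (hζ0 : 0 ≤ ζ) (hζ : ζ ≤ c0 / 2) (hI : ‖I - (W : ℂ)‖ ≤ ξ) (hξ : 0 ≤ ξ)
    (hξc : ξ ≤ c0) (hT : |T2 - Complex.normSq I / M| ≤ r1)
    (hη : r1 + (8 * ξ + 3 * ζ) ≤ η) :
    |T2 - 2 * (W / D) * I.re + (W / D) ^ 2 * M| ≤ η := by
  have hD0 : 0 < D := hc0.trans_le hD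
  have hM1 : D / 2 ≤ M := by
    have := (abs_le.1 hM).1
    linarith
  have hM0 : 0 < M := by linarith
  have hre : |I.re - W| ≤ ξ := by
    have h1 := Complex.abs_re_le_norm (I - (W : ℂ))
    rw [Complex.sub_re, Complex.ofReal_re] at h1
    exact h1.trans hI
  have hns : |Complex.normSq I - W ^ 2| ≤ ξ * (2 * D + ξ) := by
    have h1 : Complex.normSq I = ‖I‖ ^ 2 := Complex.normSq_eq_norm_sq I
    have h2 : |‖I‖ - ‖(W : ℂ)‖| ≤ ξ := (abs_norm_sub_norm_le _ _).trans hI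
    rw [Complex.norm_real, Real.norm_eq_abs] at h2
    have h3 : Complex.normSq I - W ^ 2 = (‖I‖ - |W|) * (‖I‖ + |W|) := by
      rw [h1, ← sq_abs W]
      ring
    rw [h3, abs_mul]
    have h4 : |(‖I‖ + |W| : ℝ)| ≤ 2 * D + ξ := by
      rw [abs_of_nonneg (by positivity)]
      have := (abs_le.1 h2).2
      linarith
    exact mul_le_mul h2 h4 (abs_nonneg _) hξ
  -- the first term
  have a1 : |Complex.normSq I / M - W ^ 2 / D| ≤ 6 * ξ + 2 * ζ := by
    have e1 : Complex.normSq I / M - W ^ 2 / D =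
        ((Complex.normSq I - W ^ 2) + (W ^ 2 / D) * (D - M)) / M := by
      field_simp
      ring
    rw [e1, abs_div, abs_of_pos hM0, div_le_iff₀ hM0]
    have h5 : W ^ 2 / D ≤ D := by
      rw [div_le_iff₀ hD0]
      have := abs_le.1 hWD
      nlinarith
    have h6 : 0 ≤ W ^ 2 / D := by positivity
    have h7 : |(W ^ 2 / D) * (D - M)| ≤ D * ζ := by
      rw [abs_mul, abs_of_nonneg h6, abs_sub_comm]
      exact mul_le_mul h5 hM (abs_nonneg _) hD0.le
    have h8 := abs_add_le (Complex.normSq I - W ^ 2) ((W ^ 2 / D) * (D - M))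
    have h9 : ξ * (2 * D + ξ) + D * ζ ≤ (6 * ξ + 2 * ζ) * M := by
      have h10 : ξ * ξ ≤ ξ * D := mul_le_mul_of_nonneg_left (hξc.trans hD) hξ
      have h11 : (6 * ξ + 2 * ζ) * (D / 2) ≤ (6 * ξ + 2 * ζ) * M :=
        mul_le_mul_of_nonneg_left hM1 (by positivity)
      nlinarith
    linarith
  have hc : |W / D| ≤ 1 := by
    rw [abs_div, abs_of_pos hD0]
    exact (div_le_one hD0).2 hWD
  have a2 : |2 * (W / D) * I.re - 2 * (W / D) * W| ≤ 2 * ξ := by
    rw [← mul_sub, abs_mul, abs_mul, abs_two]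
    have := mul_le_mul hc hre (abs_nonneg _) zero_le_one
    nlinarith
  have a3 : |(W / D) ^ 2 * M - (W / D) ^ 2 * D| ≤ ζ := by
    rw [← mul_sub, abs_mul, abs_of_nonneg (sq_nonneg (W / D))]
    have h1 : (W / D) ^ 2 ≤ 1 := by
      rw [← sq_abs]
      exact pow_le_one₀ (abs_nonneg _) hc
    have := mul_le_mul h1 hM (abs_nonneg _) zero_le_one
    linarith
  have e2 : T2 - 2 * (W / D) * I.re + (W / D) ^ 2 * M =
      (T2 - Complex.normSq I / M) + (Complex.normSq I / M - W ^ 2 / D) -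
        (2 * (W / D) * I.re - 2 * (W / D) * W) + ((W / D) ^ 2 * M - (W / D) ^ 2 * D) := by
    field_simp
    ring
  rw [e2]
  have b1 := abs_le.1 hT
  have b2 := abs_le.1 a1
  have b3 := abs_le.1 a2
  have b4 := abs_le.1 a3
  rw [abs_le]
  constructor <;> linarith

end PLI

open PLI in
theorem t_PLI (hG : T_KGE) (hL : T_PREL) (hB : T_PRB) (hC : T_PCAU) (hW : T_PWD) (hS : T_PSY)
    (hM : T_PWM) (hD : T_DOS) : T_PLI := by
  intro κ d hd h hh0 hh a ha m c0 η hc0 hη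
  obtain ⟨B, hB0, hBd⟩ := dn_bdd hD d hd
  have hpi := Real.pi_pos
  have hpi3 := Real.pi_gt_three
  obtain ⟨η1, hη1⟩ : ∃ x : ℝ, x = min (1 / 4) (min (η / 80) (c0 / 4)) := ⟨_, rfl⟩
  have e0 : 0 < η1 := by
    rw [hη1]
    exact lt_min (by norm_num) (lt_min (by positivity) (by positivity))
  have e1 : η1 ≤ 1 / 4 := by rw [hη1]; exact min_le_left _ _
  have e2 : η1 ≤ η / 80 := by rw [hη1]; exact (min_le_right _ _).trans (min_le_left _ _)
  have e3 : η1 ≤ c0 / 4 := by rw [hη1]; exact (min_le_right _ _).trans (min_le_right _ _)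
  obtain ⟨r, hr, hC3⟩ := hC d hd m (a / 4) η1 (by positivity) e0
  obtain ⟨ζ, hζ⟩ : ∃ ζ : ℝ, ζ = min η1 r := ⟨_, rfl⟩
  have hζ0 : 0 < ζ := by rw [hζ]; exact lt_min e0 hr
  have hζ2 : ζ ≤ η1 := by rw [hζ]; exact min_le_left _ _
  have hζ3 : ζ ≤ r := by rw [hζ]; exact min_le_right _ _
  have hh' : h < (if d = 3 then 1 else 2) / 3 := by
    split_ifs
    · linarith
    · linarith
  obtain ⟨m0, hm0, hm1, hev⟩ := hG κ d hd h hh0 hh' a ha c0 ζ hc0 hζ0 (hζ2.trans e1)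
  have hmp : 0 < m0 ^ (1 + a / 4) := Real.rpow_pos_of_pos hm0 _
  obtain ⟨x1, hx1⟩ : ∃ x : ℝ, x = η * m0 / (8 * (Real.pi * B + 2)) := ⟨_, rfl⟩
  have hpB : 0 < Real.pi * B + 2 := by positivity
  have hx1p : 0 < x1 := by rw [hx1]; positivity
  filter_upwards [hev, self_mem_nhdsWithin, ev_sq (x := r / 2) (by positivity),
    ev_pow (p := a / 2) (x := m0 ^ (1 + a / 4)) (by positivity) hmp,
    ev_pow (p := h) (x := x1) hh0 hx1p, ev_lt (x := 1) one_pos] with σ h1 h2 h3 h4 h10 h11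
  have hσ : 0 < σ := h2
  intro L _ hL1 hL2 E hE
  obtain ⟨δ, t, Q, g, p0, Ω, hg, h5⟩ := h1 L hL1 hL2
  obtain ⟨ε, hε⟩ : ∃ x : ℝ, x = σ ^ (2 + h) := ⟨_, rfl⟩
  have hσ2 : 0 < σ ^ 2 := by positivity
  have hε0 : 0 < ε := by rw [hε]; exact Real.rpow_pos_of_pos hσ _
  have hεe : ε = σ ^ 2 * σ ^ h := by
    rw [hε, Real.rpow_add hσ]
    congr 1
    rw [← Real.rpow_natCast]
    norm_num
  have hσh1 : σ ^ h ≤ 1 := Real.rpow_le_one hσ.le h11.le hh0.le
  have hσh0 : 0 < σ ^ h := Real.rpow_pos_of_pos hσ _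
  have hε2 : ε ≤ σ ^ 2 := by
    rw [hεe]
    exact mul_le_of_le_one_right hσ2.le hσh1
  rw [← hε]
  obtain ⟨hP, hSm, h6⟩ := h5 ε hε.symm.le hε2
  obtain ⟨hGE, h7⟩ := h6 E hE
  obtain ⟨hS1, hS2, -, -⟩ := hS d L m
  have hnq : ∀ k : T d L, ‖chm m k‖ ≤ 1 := fun k => (hS1 k).1.le
  have hnp : ∀ k : T d L, ‖star (chm m k)‖ ≤ 1 := fun k => by rw [norm_star]; exact hnq k
  obtain ⟨w1, w2, w3, w4, w5, w6, w7, w8⟩ := hW d L E ε σ hε0
  obtain ⟨M, hMd⟩ : ∃ x : ℝ, x = (me d L false E ε σ).im := ⟨_, rfl⟩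
  rw [← hMd] at h7 w8
  obtain ⟨D, hDd⟩ : ∃ x : ℝ, x = Real.pi * dn d E := ⟨_, rfl⟩
  rw [← hDd] at h7
  have hDc : c0 ≤ D := by
    rw [hDd]
    exact hE.trans (le_mul_of_one_le_left (hc0.le.trans hE) (by linarith))
  have hD0 : 0 < D := hc0.trans_le hDc
  have hMpos : 0 < M := by
    have := (abs_le.1 h7).1
    linarith
  -- the estimate of the Cauchy sum
  have hre : |(me d L false E ε σ).re| ≤ 2 * g := (Complex.abs_re_le_norm _).trans hGE.h1
  have him : |(me d L false E ε σ).im| ≤ 2 * g := (Complex.abs_im_le_norm _).trans hGE.h1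
  have hk2 := hSm.k2
  have hEs : |E - Es d L E ε σ| < r := by
    have e1 : E - Es d L E ε σ = -(σ ^ 2 * (me d L false E ε σ).re) := by
      unfold Es
      ring
    rw [e1, abs_neg, abs_mul, abs_of_pos hσ2]
    have q1 := mul_le_mul_of_nonneg_left hre hσ2.le
    have q2 : σ ^ 2 * (2 * g) = 4 * σ ^ 2 * g / 2 := by ring
    linarith
  have hGa0 : 0 < Ga d L E ε σ := lt_of_lt_of_le (by positivity) hGE.h2
  have hGar : Ga d L E ε σ < r := by
    unfold Ga
    have q1 := mul_le_mul_of_nonneg_left ((le_abs_self _).trans him) hσ2.le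
    have q2 : σ ^ 2 * (2 * g) = 4 * σ ^ 2 * g / 2 := by ring
    linarith
  have hLG : 1 / (L : ℝ) ≤ Ga d L E ε σ ^ (1 + a / 4) := by
    refine (inv_L hσ hL1).trans ?_
    have e1 : σ ^ (2 + a) = σ ^ (a / 2) * (σ ^ 2) ^ (1 + a / 4) := by
      rw [← Real.rpow_natCast σ 2, ← Real.rpow_mul hσ.le, ← Real.rpow_add hσ]
      congr 1
      push_cast
      ring
    rw [e1]
    calc σ ^ (a / 2) * (σ ^ 2) ^ (1 + a / 4) ≤ m0 ^ (1 + a / 4) * (σ ^ 2) ^ (1 + a / 4) :=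
          mul_le_mul_of_nonneg_right h4.le (Real.rpow_nonneg hσ2.le _)
      _ = (m0 * σ ^ 2) ^ (1 + a / 4) := (Real.mul_rpow hm0.le hσ2.le).symm
      _ ≤ _ := Real.rpow_le_rpow (by positivity) hGE.h2 (by positivity)
  have h9 := hC3 E (Es d L E ε σ) (Ga d L E ε σ) L hEs hGa0 hGar hLG
  -- the mean of `Iv`
  have h8 := hB d L σ δ ε t Q g p0 m0 ζ E Ω hP hSm hGE (chm m) hnq
  have hsum : ((NN d L : ℝ) : ℂ)⁻¹ * ∑ k : T d L, chm m k * ((be false E ε σ k).im : ℂ) =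
      (((((NN d L : ℝ) : ℂ)⁻¹ * ∑ k : T d L, ((cqm m k : ℝ) : ℂ) *
        (((adj k - Es d L E ε σ : ℝ) : ℂ) - ((Ga d L E ε σ : ℝ) : ℂ) * Complex.I)⁻¹).im : ℝ) :
        ℂ) := by
    have k1 := hS2 (fun x => (((((x - Es d L E ε σ : ℝ) : ℂ) -
      ((Ga d L E ε σ : ℝ) : ℂ) * Complex.I)⁻¹).im : ℂ))
    simp only [be_eq]
    rw [k1, ← Complex.ofReal_inv, Complex.im_ofReal_mul, Complex.im_sum]
    push_cast
    congr 1
    refine Finset.sum_congr rfl fun k _ => ?_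
    rw [Complex.im_ofReal_mul]
    push_cast
    rfl
  rw [hsum] at h8
  obtain ⟨X, hX⟩ : ∃ X : ℂ, X = ((NN d L : ℝ) : ℂ)⁻¹ * ∑ k : T d L, ((cqm m k : ℝ) : ℂ) *
        (((adj k - Es d L E ε σ : ℝ) : ℂ) - ((Ga d L E ε σ : ℝ) : ℂ) * Complex.I)⁻¹ := ⟨_, rfl⟩
  rw [← hX] at h8 h9
  obtain ⟨I, hI⟩ : ∃ I : ℂ, I = ∫ V, Iv (chm m) E ε σ V ∂(GP (T d L)) := ⟨_, rfl⟩
  rw [← hI] at h8
  obtain ⟨W, hWd⟩ : ∃ x : ℝ, x = Real.pi * wm d m E := ⟨_, rfl⟩
  have hWc : (cm d m E).im = W := by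
    rw [hWd]
    unfold wm
    field_simp
  have hIW : ‖I - (W : ℂ)‖ ≤ ζ + η1 := by
    have q1 : |X.im - W| ≤ η1 := by
      rw [← hWc, ← Complex.sub_im]
      exact (Complex.abs_im_le_norm _).trans h9
    have q2 : I - (W : ℂ) = (I - ((X.im : ℝ) : ℂ)) + ((X.im - W : ℝ) : ℂ) := by
      push_cast
      ring
    rw [q2]
    refine (norm_add_le _ _).trans (add_le_add h8 ?_)
    rw [Complex.norm_real, Real.norm_eq_abs]
    exact q1
  have hWD : |W| ≤ D := by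
    rw [hWd, hDd, abs_mul, abs_of_pos hpi]
    exact mul_le_mul_of_nonneg_left ((hM d hd m).2 E) hpi.le
  -- the product of the resolvents
  have hstar : ∫ V, Iv (fun k => star (chm m k)) E ε σ V ∂(GP (T d L)) = star I := by
    rw [hI, Complex.star_def, ← integral_conj]
    exact integral_congr_ae (Filter.Eventually.of_forall fun V => w4 V (chm m))
  have hL1 := hL d L σ δ ε t Q g p0 m0 ζ E Ω hP hSm hGE (by rw [← hMd]; exact hMpos)
    (fun k => star (chm m k)) (chm m) hnp hnq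
  rw [← hMd, hstar, ← hI] at hL1
  obtain ⟨Y, hY⟩ : ∃ Y : ℂ, Y = ∫ V, Tp (fun k => star (chm m k)) (chm m) E ε σ V
    ∂(GP (T d L)) := ⟨_, rfl⟩
  rw [← hY] at hL1
  have hMB : M + 1 ≤ Real.pi * B + 2 := by
    have q1 := (abs_le.1 h7).2
    have q2 : D ≤ Real.pi * B := by
      rw [hDd]
      exact mul_le_mul_of_nonneg_left (hBd E) hpi.le
    linarith
  have hr1 : 4 * (ε / σ ^ 2) * ((M + 1) / m0) ≤ η / 2 := by
    have q1 : ε / σ ^ 2 = σ ^ h := by
      rw [hεe]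
      field_simp
    rw [q1]
    have q2 : 4 * σ ^ h * ((M + 1) / m0) ≤ 4 * x1 * ((Real.pi * B + 2) / m0) := by
      apply mul_le_mul
      · exact mul_le_mul_of_nonneg_left h10.le (by norm_num)
      · exact div_le_div_of_nonneg_right hMB hm0.le
      · positivity
      · positivity
    refine q2.trans (le_of_eq ?_)
    rw [hx1]
    have := hpB.ne'
    field_simp
    ring
  have hT2 : |ε * Y.re - Complex.normSq I / M| ≤ η / 2 := by
    refine le_trans ?_ (hL1.trans hr1)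
    have q1 : ε * Y.re - Complex.normSq I / M =
        ((ε : ℂ) * Y - star I * I / ((M : ℝ) : ℂ)).re := by
      rw [Complex.star_def, ← Complex.normSq_eq_conj_mul_self, ← Complex.ofReal_div,
        Complex.sub_re, Complex.re_ofReal_mul, Complex.ofReal_re]
    rw [q1]
    exact Complex.abs_re_le_norm _
  refine ⟨?_, ?_⟩
  · have hcf : cf d m c0 E = W / D := by
      unfold cf
      rw [max_eq_left hE, hWd, hDd, mul_div_mul_left _ _ hpi.ne']
    have i1 := (w6 (fun k => star (chm m k)) (chm m)).1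
    have i2 := (w6 (fun k => star (chm m k)) (chm m)).2
    have r1 : ∫ V : T d L → ℝ, (Tp (fun k => star (chm m k)) (chm m) E ε σ V).re ∂(GP (T d L)) =
        Y.re := by
      rw [hY]
      exact integral_re i1
    have r2 : ∫ V : T d L → ℝ, (Iv (chm m) E ε σ V).re ∂(GP (T d L)) = I.re := by
      rw [hI]
      exact integral_re i2
    have hPh : ∫ V : T d L → ℝ, Ph m (cf d m c0) ε σ V E ∂(GP (T d L)) =
        ε * Y.re - 2 * (W / D) * I.re + (W / D) ^ 2 * M := by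
      unfold Ph
      rw [hcf]
      have j1 : Integrable (fun V : T d L → ℝ =>
          ε * (Tp (fun k => star (chm m k)) (chm m) E ε σ V).re) (GP (T d L)) :=
        i1.re.const_mul ε
      have j2 : Integrable (fun V : T d L → ℝ =>
          2 * (W / D) * (Iv (chm m) E ε σ V).re) (GP (T d L)) :=
        i2.re.const_mul (2 * (W / D))
      have j3 : Integrable (fun V : T d L → ℝ => (W / D) ^ 2 * DS E ε σ V) (GP (T d L)) :=
        w7.const_mul ((W / D) ^ 2)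
      have j4 : Integrable (fun V : T d L → ℝ =>
          ε * (Tp (fun k => star (chm m k)) (chm m) E ε σ V).re -
            2 * (W / D) * (Iv (chm m) E ε σ V).re) (GP (T d L)) := j1.sub j2
      rw [integral_add j4 j3, integral_sub j1 j2, integral_const_mul,
        integral_const_mul, integral_const_mul, r1, r2, w8]
    rw [hPh]
    refine est W D M (ζ + η1) ζ c0 η (η / 2) (ε * Y.re) I hWD hc0 hDc h7 hζ0.le ?_ hIW ?_ ?_ hT2 ?_
    · linarith
    · linarith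
    · linarith
    · linarith
  · rw [← hMd, ← hDd]
    refine h7.trans ?_
    linarith

end Pool.Agent.T2h98.PS
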