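import Pool.Agent.T2h98.PS.Stm

/-! All energies. -/

set_option autoImplicit false
set_option linter.unusedSectionVars false

open scoped BigOperators Matrix Topology
open MeasureTheory ProbabilityTheory Filter

namespace Pool.Agent.T2h98.PS

open Pool.Agent.W788.MFP.Four (T e NN adj K)
open Pool.Agent.W788.BK (nsq hs PP JJ hi Low cr)
open Pool.Agent.T2h98.QD
open Pool.Agent.T2h98.AC (TX RX mX sy Rb Fk)
open Pool.Agent.T2h98.KU

namespace PTOP

/-- the set of the good energies is contained in an interval -/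
theorem sub_Icc {d : ℕ} (hz : ∀ E, 2 * (d : ℝ) ≤ |E| → dn d E = 0) {c : ℝ} (hc : 0 < c) :
    {E : ℝ | c ≤ dn d E} ⊆ Set.Icc (-(2 * (d : ℝ))) (2 * d) := by
  intro E hE
  have h1 : ¬ 2 * (d : ℝ) ≤ |E| := by
    intro h
    have h2 : c ≤ dn d E := hE
    rw [hz E h] at h2
    linarith
  rw [not_le] at h1
  exact abs_le.1 h1.le

theorem vol_le {d : ℕ} (hz : ∀ E, 2 * (d : ℝ) ≤ |E| → dn d E = 0) {c : ℝ} (hc : 0 < c) :
    volume {E : ℝ | c ≤ dn d E} ≤ ENNReal.ofReal (4 * d) := by
  refine (measure_mono (sub_Icc hz hc)).trans ?_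
  rw [Real.volume_Icc]
  refine ENNReal.ofReal_le_ofReal ?_
  linarith

/-- the integral over the bad energies -/
theorem bad {d : ℕ} (hcont : Continuous (dn d)) (h0 : ∀ E, 0 ≤ dn d E)
    (hz : ∀ E, 2 * (d : ℝ) ≤ |E| → dn d E = 0) (hint : Integrable (dn d))
    (h1 : ∫ E, dn d E = 1) {c η : ℝ} (hc : 0 < c) (hη : 0 ≤ η) (F : ℝ → ℝ) (hF : Integrable F)
    (hFpi : ∫ E, F E = Real.pi) (hFg : ∀ E, c ≤ dn d E → |F E - Real.pi * dn d E| ≤ η) :
    ∫ E in {E : ℝ | c ≤ dn d E}ᶜ, F E ≤ Real.pi * (c * (4 * d)) + η * (4 * d) := by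
  set S : Set ℝ := {E : ℝ | c ≤ dn d E} with hS
  have hSm : MeasurableSet S := (isClosed_le continuous_const hcont).measurableSet
  have hv : volume S ≤ ENNReal.ofReal (4 * d) := vol_le hz hc
  have hvf : volume S < ⊤ := lt_of_le_of_lt hv ENNReal.ofReal_lt_top
  have hd0 : (0 : ℝ) ≤ 4 * d := by positivity
  have hvr : volume.real S ≤ 4 * d := ENNReal.toReal_le_of_le_ofReal hd0 hv
  have hpi := Real.pi_pos
  have a1 := integral_add_compl hSm hF
  have a2 := integral_add_compl hSm hint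
  -- good energies
  have a3 : Real.pi * (∫ E in S, dn d E) - η * (4 * d) ≤ ∫ E in S, F E := by
    have b1 : ∫ E in S, (Real.pi * dn d E - η) ≤ ∫ E in S, F E := by
      refine setIntegral_mono_on ?_ hF.integrableOn hSm fun E hE => ?_
      · exact (hint.const_mul _).integrableOn.sub (integrableOn_const hvf.ne)
      · have := hFg E hE
        rw [abs_le] at this
        linarith [this.1]
    have b2 : ∫ E in S, (Real.pi * dn d E - η) =
        Real.pi * (∫ E in S, dn d E) - volume.real S * η := by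
      rw [integral_sub (hint.const_mul _).integrableOn (integrableOn_const hvf.ne),
        integral_const_mul, setIntegral_const, smul_eq_mul]
    have b3 : volume.real S * η ≤ η * (4 * d) := by
      rw [mul_comm]
      exact mul_le_mul_of_nonneg_left hvr hη
    linarith
  -- the density on the bad energies
  have a4 : ∫ E in Sᶜ, dn d E ≤ c * (4 * d) := by
    have b1 : ∫ E in Sᶜ, dn d E = ∫ E in Sᶜ ∩ Set.Icc (-(2 * (d : ℝ))) (2 * d), dn d E := by
      refine setIntegral_eq_of_subset_of_forall_sdiff_eq_zero hSm.compl Set.inter_subset_left ?_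
      intro E hE
      apply hz
      by_contra hcon
      rw [not_le] at hcon
      exact hE.2 ⟨hE.1, abs_le.1 hcon.le⟩
    rw [b1]
    have hfin : volume (Sᶜ ∩ Set.Icc (-(2 * (d : ℝ))) (2 * d)) ≤ ENNReal.ofReal (4 * d) := by
      refine (measure_mono Set.inter_subset_right).trans ?_
      rw [Real.volume_Icc]
      refine ENNReal.ofReal_le_ofReal ?_
      linarith
    have hfr : volume.real (Sᶜ ∩ Set.Icc (-(2 * (d : ℝ))) (2 * d)) ≤ 4 * d :=
      ENNReal.toReal_le_of_le_ofReal hd0 hfin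
    have b2 : ∫ E in Sᶜ ∩ Set.Icc (-(2 * (d : ℝ))) (2 * d), dn d E ≤
        ∫ E in Sᶜ ∩ Set.Icc (-(2 * (d : ℝ))) (2 * d), c := by
      refine setIntegral_mono_on hint.integrableOn
        (integrableOn_const (lt_of_le_of_lt hfin ENNReal.ofReal_lt_top).ne)
        (hSm.compl.inter measurableSet_Icc) fun E hE => ?_
      have h3 : ¬ c ≤ dn d E := hE.1
      exact (not_le.1 h3).le
    refine b2.trans ?_
    rw [setIntegral_const, smul_eq_mul, mul_comm]
    exact mul_le_mul_of_nonneg_left hfr hc.le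
  have a5 : Real.pi * ∫ E in Sᶜ, dn d E ≤ Real.pi * (c * (4 * d)) :=
    mul_le_mul_of_nonneg_left a4 hpi.le
  have a6 : Real.pi * (∫ E in S, dn d E) + Real.pi * ∫ E in Sᶜ, dn d E = Real.pi := by
    rw [← mul_add, a2, h1, mul_one]
  linarith

end PTOP

open PTOP

theorem pto (hL : T_PLI) (hF : T_PFU) (hM : T_PWM) (hD : T_DOS) (hA : T_LAP) (hW : T_PWD) :
    T_PTO := by
  intro κ d hd h hh hh3 a ha m c0 η hc0 hη
  obtain ⟨hdc, -, hd0, -, hdz, -⟩ := hD d hd
  have hz : ∀ E, 2 * (d : ℝ) ≤ |E| → dn d E = 0 := fun E hE => (hdz E hE).1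
  obtain ⟨-, -, hdi, hd1, -⟩ := hA d hd (fun _ => 0)
  obtain ⟨hwc, hwd⟩ := hM d hd m
  have hdR : (3 : ℝ) ≤ d := by exact_mod_cast hd
  set η1 : ℝ := η / (20 * d) with hη1
  have hη1p : 0 < η1 := by positivity
  have e20 : 20 * d * η1 = η := by
    rw [hη1]
    field_simp
  filter_upwards [hL κ d hd h hh hh3 a ha m c0 η1 hc0 hη1p, self_mem_nhdsWithin] with σ hσL hσ
  intro L _ hL1 hL2
  have hσ0 : 0 < σ := hσ
  have hε : 0 < σ ^ (2 + h) := Real.rpow_pos_of_pos hσ0 _
  set ε := σ ^ (2 + h) with hεdef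
  have hmax : ∀ E, 0 < max (dn d E) c0 := fun E => lt_of_lt_of_le hc0 (le_max_right _ _)
  have hcc : Continuous (cf d m c0) := by
    unfold cf
    exact hwc.div (hdc.max continuous_const) fun E => (hmax E).ne'
  have hc1 : ∀ E, |cf d m c0 E| ≤ 1 := by
    intro E
    unfold cf
    rw [abs_div, abs_of_pos (hmax E), div_le_one (hmax E)]
    exact (hwd E).trans (le_max_left _ _)
  obtain ⟨f1, -, f3, f4, f5, -, f7, -⟩ := hF d L m (cf d m c0) ε σ hε hσ0 hcc hc1
  have hgood := hσL L hL1 hL2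
  have bad1 := bad hdc hd0 hz hdi hd1 hc0 hη1p.le (fun E => (me d L false E ε σ).im) f5 f7
    (fun E hE => (hgood E hE).2)
  have bad2 := bad hdc hd0 hz hdi hd1 (c := 2 * c0) (by positivity) hη1p.le
    (fun E => (me d L false E ε σ).im) f5 f7 (fun E hE => (hgood E (by linarith)).2)
  have hpi4 : Real.pi ≤ 4 := Real.pi_le_four
  have hpi3 : 0 ≤ Real.pi := Real.pi_pos.le
  have hdc0 : 0 ≤ c0 * (4 * (d : ℝ)) := by positivity
  have hp1 : Real.pi * (c0 * (4 * d)) ≤ 4 * (c0 * (4 * (d : ℝ))) :=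
    mul_le_mul_of_nonneg_right hpi4 hdc0
  constructor
  · rw [f3]
    set S : Set ℝ := {E : ℝ | c0 ≤ dn d E} with hS
    have hSm : MeasurableSet S := (isClosed_le continuous_const hdc).measurableSet
    have hv : volume S ≤ ENNReal.ofReal (4 * d) := vol_le hz hc0
    have hvf : volume S < ⊤ := lt_of_le_of_lt hv ENNReal.ofReal_lt_top
    have hd4 : (0 : ℝ) ≤ 4 * d := by positivity
    have hvr : volume.real S ≤ 4 * d := ENNReal.toReal_le_of_le_ofReal hd4 hv
    have hprob : IsProbabilityMeasure (GP (T d L)) := by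
      unfold GP PP
      infer_instance
    rw [← integral_add_compl hSm f4]
    have g1 : ∫ E in S, ∫ V : T d L → ℝ, Ph m (cf d m c0) ε σ V E ∂(GP (T d L)) ≤ 4 * d * η1 := by
      have b1 : ∫ E in S, ∫ V : T d L → ℝ, Ph m (cf d m c0) ε σ V E ∂(GP (T d L)) ≤
          ∫ E in S, η1 := by
        refine setIntegral_mono_on f4.integrableOn (integrableOn_const hvf.ne) hSm fun E hE => ?_
        exact (le_abs_self _).trans (hgood E hE).1
      refine b1.trans ?_
      rw [setIntegral_const, smul_eq_mul]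
      exact mul_le_mul_of_nonneg_right hvr hη1p.le
    have g2 : ∫ E in Sᶜ, ∫ V : T d L → ℝ, Ph m (cf d m c0) ε σ V E ∂(GP (T d L)) ≤
        4 * ∫ E in Sᶜ, (me d L false E ε σ).im := by
      rw [← integral_const_mul]
      refine setIntegral_mono_on f4.integrableOn (f5.const_mul 4).integrableOn hSm.compl
        fun E _ => ?_
      obtain ⟨-, -, -, -, -, -, w7, w8⟩ := hW d L E ε σ hε
      rw [← w8, ← integral_const_mul]
      refine (le_abs_self _).trans ?_
      rw [← Real.norm_eq_abs]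
      refine norm_integral_le_of_norm_le (w7.const_mul 4) (Filter.Eventually.of_forall fun V => ?_)
      rw [Real.norm_eq_abs]
      exact f1 V E
    linarith
  · have hset : {E : ℝ | dn d E < 2 * c0} = {E : ℝ | 2 * c0 ≤ dn d E}ᶜ := by
      ext E
      simp
    rw [hset]
    linarith

end Pool.Agent.T2h98.PS
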