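import Pool.Agent.T2h98.PS.Stm

/-! Characters and flips of the coordinates (part PSY). -/

set_option autoImplicit false
set_option linter.unusedSectionVars false

open scoped BigOperators Matrix

namespace Pool.Agent.T2h98.PS

open Pool.Agent.W788.MFP.Four (T e NN adj e_add e_neg sum_e NN_pos)
open Pool.Agent.T2h98.QD

namespace PSYa

variable {d L : ℕ} [NeZero L]

theorem norm_add_char (x : ZMod L) : ‖(ZMod.stdAddChar x : ℂ)‖ = 1 := by
  rw [ZMod.stdAddChar_apply]
  exact Circle.norm_coe _

theorem add_char_neg (x : ZMod L) :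
    (ZMod.stdAddChar (-x) : ℂ) = (starRingEnd ℂ) (ZMod.stdAddChar x : ℂ) := by
  rw [ZMod.stdAddChar_apply, ZMod.stdAddChar_apply, AddChar.map_neg_eq_inv,
    Circle.coe_inv_eq_conj]

theorem char_sum (s : Finset (Fin d)) (f : Fin d → ZMod L) :
    (ZMod.stdAddChar (∑ i ∈ s, f i) : ℂ) = ∏ i ∈ s, (ZMod.stdAddChar (f i) : ℂ) := by
  classical
  induction s using Finset.induction_on with
  | empty => simp
  | insert a s ha ih =>
    rw [Finset.sum_insert ha, Finset.prod_insert ha, AddChar.map_add_eq_mul, ih]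

theorem chm_eq (m : Fin d → ℤ) (k : T d L) :
    chm m k = ∏ i, (ZMod.stdAddChar (-(((m i : ℤ) : ZMod L) * k i)) : ℂ) := by
  unfold chm e
  rw [char_sum]
  refine Finset.prod_congr rfl fun i _ => ?_
  congr 1
  ring

/-- the flip of the coordinates -/
def fl (s : Fin d → Bool) (k : T d L) : T d L := fun i => if s i = true then -k i else k i

theorem fl_fl (s : Fin d → Bool) (k : T d L) : fl s (fl s k) = k := by
  funext i
  unfold fl
  by_cases h : s i = true
  · simp [h]
  · simp [h]

theorem adj_fl (s : Fin d → Bool) (k : T d L) : adj (fl s k) = adj k := by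
  unfold adj
  refine Finset.sum_congr rfl fun i _ => ?_
  unfold fl
  by_cases h : s i = true
  · rw [if_pos h, add_char_neg, Complex.conj_re]
  · rw [if_neg h]

theorem sum_fl (s : Fin d → Bool) (G : T d L → ℂ) : ∑ k, G (fl s k) = ∑ k, G k :=
  Equiv.sum_comp (⟨fl s, fl s, fl_fl s, fl_fl s⟩ : Equiv (T d L) (T d L)) G

theorem sum_chm (m : Fin d → ℤ) (k : T d L) :
    ∑ s : Fin d → Bool, chm m (fl s k) = 2 ^ d * ((cqm m k : ℝ) : ℂ) := by
  have h1 : ∀ s : Fin d → Bool, chm m (fl s k) = ∏ i, (fun (i : Fin d) (b : Bool) =>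
      if b = true then (ZMod.stdAddChar (((m i : ℤ) : ZMod L) * k i) : ℂ) else
        (starRingEnd ℂ) (ZMod.stdAddChar (((m i : ℤ) : ZMod L) * k i) : ℂ)) i (s i) := by
    intro s
    rw [chm_eq]
    refine Finset.prod_congr rfl fun i _ => ?_
    unfold fl
    by_cases h : s i = true
    · simp only [h, if_true]
      congr 1
      ring
    · simp only [h]
      rw [← add_char_neg]
      simp
  rw [Finset.sum_congr rfl fun s _ => h1 s]
  have h2 := Finset.prod_univ_sum (fun _ : Fin d => (Finset.univ : Finset Bool))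
    (fun (i : Fin d) (b : Bool) =>
      if b = true then (ZMod.stdAddChar (((m i : ℤ) : ZMod L) * k i) : ℂ) else
        (starRingEnd ℂ) (ZMod.stdAddChar (((m i : ℤ) : ZMod L) * k i) : ℂ))
  rw [Fintype.piFinset_univ] at h2
  rw [← h2]
  unfold cqm
  rw [Complex.ofReal_prod]
  have h3 : (2 : ℂ) ^ d = ∏ _i : Fin d, (2 : ℂ) := by simp
  rw [h3, ← Finset.prod_mul_distrib]
  refine Finset.prod_congr rfl fun i _ => ?_
  rw [Fintype.sum_bool]
  simp only [if_true, Bool.false_eq_true, if_false]
  rw [Complex.add_conj]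
  push_cast
  ring

end PSYa

open PSYa

theorem t_PSY : T_PSY := by
  intro d L _ m
  refine ⟨?_, ?_, ?_, ?_⟩
  · intro k
    constructor
    · unfold chm e
      exact norm_add_char _
    · unfold cqm
      rw [Finset.abs_prod]
      refine Finset.prod_le_one (fun i _ => abs_nonneg _) fun i _ => ?_
      exact (Complex.abs_re_le_norm _).trans (norm_add_char _).le
  · intro F
    have h1 : ∀ s : Fin d → Bool, ∑ k : T d L, chm m (fl s k) * F (adj k) =
        ∑ k : T d L, chm m k * F (adj k) := by
      intro s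
      rw [← sum_fl s fun k => chm m k * F (adj k)]
      exact Finset.sum_congr rfl fun k _ => by rw [adj_fl]
    have h2 : (2 : ℂ) ^ d * ∑ k : T d L, chm m k * F (adj k) =
        2 ^ d * ∑ k : T d L, ((cqm m k : ℝ) : ℂ) * F (adj k) := by
      have h3 : ∑ s : Fin d → Bool, ∑ k : T d L, chm m (fl s k) * F (adj k) =
          2 ^ d * ∑ k : T d L, chm m k * F (adj k) := by
        rw [Finset.sum_congr rfl fun s _ => h1 s, Finset.sum_const, Finset.card_univ,
          nsmul_eq_mul]
        congr 1
        simp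
      rw [← h3, Finset.sum_comm, Finset.mul_sum]
      refine Finset.sum_congr rfl fun k _ => ?_
      rw [← Finset.sum_mul, sum_chm]
      ring
    exact mul_left_cancel₀ (pow_ne_zero d (two_ne_zero : (2 : ℂ) ≠ 0)) h2
  · intro u x
    unfold Mo Matrix.mulVec dotProduct
    simp only [Matrix.of_apply]
    have h1 : ∀ y : T d L, (((NN d L : ℝ) : ℂ)⁻¹ * ∑ k, chm m k * e k (y - x)) =
        if y = x + (fun i => ((m i : ℤ) : ZMod L)) then 1 else 0 := by
      intro y
      have h2 : ∀ k : T d L, chm m k * e k (y - x) =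
          e k (y - (x + fun i => ((m i : ℤ) : ZMod L))) := by
        intro k
        unfold chm
        rw [← e_add]
        congr 1
        funext i
        simp only [Pi.add_apply, Pi.sub_apply]
        ring
      rw [Finset.sum_congr rfl fun k _ => h2 k, sum_e]
      have h0 : ((NN d L : ℝ) : ℂ) ≠ 0 := by exact_mod_cast NN_pos.ne'
      by_cases h : y = x + (fun i => ((m i : ℤ) : ZMod L))
      · rw [if_pos h, if_pos (sub_eq_zero.2 h), inv_mul_cancel₀ h0]
      · rw [if_neg h, if_neg (fun hc => h (sub_eq_zero.1 hc)), mul_zero]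
    rw [Finset.sum_congr rfl fun y _ => by rw [h1 y]]
    simp
  · intro q
    ext x y
    unfold Mo
    simp only [Matrix.of_apply, Matrix.conjTranspose_apply, star_mul', star_sum, star_inv₀]
    congr 1
    · simp
    · refine Finset.sum_congr rfl fun k _ => ?_
      have h1 : y - x = -(x - y) := by ring
      rw [h1, e_neg]
      rfl

end Pool.Agent.T2h98.PS
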