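import Pool.Agent.T2h98.PS.Stm

/-! Quantum ergodicity in phase space, smaller tori. -/

set_option autoImplicit false
set_option linter.unusedSectionVars false

open scoped BigOperators Matrix Topology
open MeasureTheory ProbabilityTheory Filter

namespace Pool.Agent.T2h98.PS

open Pool.Agent.W788.MFP.Four (T e NN adj K)
open Pool.Agent.W788.BK (nsq hs PP JJ hi Low cr)
open Pool.Agent.T2h98.QD
open Pool.Agent.T2h98.AC (TX RX mX sy Rb Fk)
open Pool.Agent.T2h98.KU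

/-- the statement of `QD.QE.qeF` (`QD/All6.lean`) -/
def T_QES : Prop := ∀ (d : ℕ), 3 ≤ d → ∀ a b : ℝ, 0 < a → b < (if d = 3 then 1 / 5 else 2 / 5) →
  ∀ (f : (Fin d → UnitAddCircle) → ℂ), Continuous f → ∀ η : ℝ, 0 < η →
    ∀ᶠ σ : ℝ in 𝓝[>] 0, ∀ (L : ℕ) [NeZero L], σ ^ (-2 - a) ≤ (L : ℝ) → (L : ℝ) ≤ σ ^ (-2 - b) →
      ∃ Ω : Set (T d L → ℝ), MeasurableSet Ω ∧ 1 - η ≤ (GP (T d L)).real Ω ∧
        ∀ V ∈ Ω, ∀ (u : T d L → T d L → ℂ) (E : T d L → ℝ),
        (∀ j, HT (d := d) (L := L) σ V *ᵥ u j = (E j : ℂ) • u j) →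
        (∀ j k, star (u j) ⬝ᵥ u k = if j = k then 1 else 0) →
        ({j | η < ‖∑ x, f (QE.pt x) * ((‖u j x‖ ^ 2 : ℝ) : ℂ) -
          ∫ x in Set.Icc (0 : Fin d → ℝ) 1, f (fun i => (x i : UnitAddCircle))‖}.ncard : ℝ) ≤
          η * NN d L

namespace PB

variable {d L : ℕ} [NeZero L]

theorem norm_one {u : T d L → ℂ} (h : star u ⬝ᵥ u = 1) : ∑ x, ‖u x‖ ^ 2 = 1 := by
  have h1 : ((∑ x, ‖u x‖ ^ 2 : ℝ) : ℂ) = 1 := by
    rw [← h]
    push_cast
    refine Finset.sum_congr rfl fun x _ => ?_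
    rw [Pi.star_apply]
    exact (Complex.conj_mul' (u x)).symm
  exact_mod_cast h1

theorem sum_shift (u : T d L → ℂ) (v : T d L) (h : ∑ x, ‖u x‖ ^ 2 = 1) :
    ∑ x, ‖star (u x) * u (x + v)‖ ≤ 1 := by
  have h1 : ∑ x, ‖u (x + v)‖ ^ 2 = 1 := by
    rw [← h]
    exact Equiv.sum_comp (Equiv.addRight v) fun x => ‖u x‖ ^ 2
  have h2 : ∑ x, ‖star (u x) * u (x + v)‖ ≤ ∑ x, (‖u x‖ ^ 2 + ‖u (x + v)‖ ^ 2) / 2 := by
    refine Finset.sum_le_sum fun x _ => ?_
    rw [norm_mul, norm_star]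
    nlinarith [sq_nonneg (‖u x‖ - ‖u (x + v)‖)]
  rw [← Finset.sum_div, Finset.sum_add_distrib, h, h1] at h2
  linarith

theorem e_step (μ : Fin d → ℤ) (x : T d L) (i : Fin d) :
    e (fun i => (μ i : ZMod L)) (x + Pi.single i 1) =
      e (fun i => (μ i : ZMod L)) x * (ZMod.stdAddChar ((μ i : ℤ) : ZMod L) : ℂ) := by
  unfold e
  rw [← AddChar.map_add_eq_mul]
  congr 1
  have h1 : ∑ j, ((μ j : ℤ) : ZMod L) * (x + Pi.single i (1 : ZMod L) : T d L) j =
      ∑ j, (((μ j : ℤ) : ZMod L) * x j + ((μ j : ℤ) : ZMod L) * (Pi.single i (1 : ZMod L) : T d L) j) := by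
    refine Finset.sum_congr rfl fun j _ => ?_
    rw [Pi.add_apply, mul_add]
  rw [h1, Finset.sum_add_distrib]
  congr 1
  rw [Finset.sum_eq_single i]
  · simp
  · intro j _ hj
    rw [Pi.single_eq_of_ne hj, mul_zero]
  · intro h
    exact absurd (Finset.mem_univ i) h

theorem char_sub (n : ℤ) : ‖(ZMod.stdAddChar ((n : ℤ) : ZMod L) : ℂ) - 1‖ ≤
    2 * Real.pi * |(n : ℝ)| / L := by
  have hL : (0 : ℝ) < L := by exact_mod_cast Nat.pos_of_ne_zero (NeZero.ne L)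
  rw [ZMod.stdAddChar_coe]
  have h1 : (2 * Real.pi * Complex.I * n / L : ℂ) =
      Complex.I * ((2 * Real.pi * n / L : ℝ) : ℂ) := by
    push_cast
    ring
  rw [h1]
  refine (Real.norm_exp_I_mul_ofReal_sub_one_le).trans ?_
  rw [Real.norm_eq_abs, abs_div, abs_mul, abs_mul, abs_of_pos Real.pi_pos, abs_of_pos hL]
  norm_num

end PB

open PB in
theorem pb (hA : T_PA) (hQ : T_QES) (hW : T_PWM) : T_PB := by
  intro d hd a b ha hb m f hf η hη
  obtain ⟨S, c, hc⟩ := QE.approx f hf (η / 8) (by positivity)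
  obtain ⟨C, hC⟩ : ∃ C : ℝ, C = ∑ μ ∈ S, ‖c μ‖ := ⟨_, rfl⟩
  have hC0 : 0 ≤ C := by rw [hC]; exact Finset.sum_nonneg fun _ _ => norm_nonneg _
  obtain ⟨D, hD⟩ : ∃ D : ℝ, D = ∑ μ ∈ S, ‖c μ‖ * (2 * Real.pi * ∑ i, |(μ i : ℝ)|) := ⟨_, rfl⟩
  have hD0 : 0 ≤ D := by
    rw [hD]
    refine Finset.sum_nonneg fun _ _ => ?_
    have : 0 ≤ Real.pi := Real.pi_pos.le
    positivity
  obtain ⟨ζ, hζ⟩ : ∃ ζ : ℝ, ζ = η / (4 * (2 + C)) := ⟨_, rfl⟩
  have hζ0 : 0 < ζ := by rw [hζ]; positivity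
  have hζ1 : (2 + C) * ζ = η / 4 := by rw [hζ]; field_simp
  have hζ2 : ζ ≤ η / 8 := by
    have : 2 * ζ ≤ (2 + C) * ζ := mul_le_mul_of_nonneg_right (by linarith) hζ0.le
    linarith
  have hb1 : b < 1 := by
    split_ifs at hb <;> linarith
  have e1 := hA 3 d hd (a / 2) (by positivity) m ζ hζ0
  have e2 := hQ d hd a b ha hb f hf ζ hζ0
  have e3 : ∀ᶠ σ : ℝ in 𝓝[>] 0, D * σ ^ (a / 2) < 1 := by
    have h1 : Tendsto (fun σ : ℝ => D * σ ^ (a / 2)) (𝓝[>] 0) (𝓝 (D * (0 : ℝ) ^ (a / 2))) :=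
      ((Real.continuousAt_rpow_const 0 (a / 2) (Or.inr (by positivity))).tendsto.const_mul
        D).mono_left nhdsWithin_le_nhds
    rw [Real.zero_rpow (by positivity), mul_zero] at h1
    exact h1.eventually_lt_const one_pos
  have e4 : ∀ᶠ σ : ℝ in 𝓝[>] 0, σ < 1 := by
    have : Set.Iio (1 : ℝ) ∈ 𝓝 (0 : ℝ) := Iio_mem_nhds one_pos
    exact mem_nhdsWithin_of_mem_nhds this
  have e5 : ∀ᶠ σ : ℝ in 𝓝[>] 0, 0 < σ := self_mem_nhdsWithin
  filter_upwards [e1, e2, e3, e4, e5] with σ h1 h2 h3 h4 h5 L _ hL1 hL2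
  have hL : (0 : ℝ) < L := by exact_mod_cast Nat.pos_of_ne_zero (NeZero.ne L)
  obtain ⟨Ω1, hm1, hp1, hΩ1⟩ := h1 L
    ((Real.rpow_le_rpow_of_exponent_ge h5 h4.le (by linarith)).trans hL1)
    (hL2.trans (Real.rpow_le_rpow_of_exponent_ge h5 h4.le (by norm_num; linarith)))
  obtain ⟨Ω2, hm2, hp2, hΩ2⟩ := h2 L hL1 hL2
  refine ⟨Ω1 ∩ Ω2, hm1.inter hm2, ?_, ?_⟩
  · have k1 : (GP (T d L)).real (Ω1 ∩ Ω2)ᶜ ≤ (GP (T d L)).real Ω1ᶜ + (GP (T d L)).real Ω2ᶜ := by
      rw [Set.compl_inter]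
      exact measureReal_union_le _ _
    rw [probReal_compl_eq_one_sub (hm1.inter hm2), probReal_compl_eq_one_sub hm1,
      probReal_compl_eq_one_sub hm2] at k1
    linarith
  · intro V hV u w hu
    have q1 := (hΩ1 V hV.1 u w hu).2
    have q2 := hΩ2 V hV.2 u w hu.1 hu.2
    obtain ⟨p, hp⟩ : ∃ p : T d L → ℂ, p = fun x => ∑ μ ∈ S, c μ *
      UnitAddTorus.mFourier μ (QE.pt x) := ⟨_, rfl⟩
    have hpe : ∀ x, p x = ∑ μ ∈ S, c μ * e (fun i => (μ i : ZMod L)) x := by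
      intro x
      rw [hp]
      exact Finset.sum_congr rfl fun μ _ => by rw [QE.mf_pt]
    have hfp : ∀ x : T d L, ‖f (QE.pt x) - p x‖ ≤ η / 8 := by
      intro x
      rw [hp]
      exact hc _
    obtain ⟨F, hF⟩ : ∃ F : T d L → ℂ, F = fun x => (((1 + C : ℝ)) : ℂ)⁻¹ * p x := ⟨_, rfl⟩
    have hne : ((1 + C : ℝ) : ℂ) ≠ 0 := by
      exact_mod_cast (by linarith : (0 : ℝ) < 1 + C).ne'
    have hpF : ∀ x, p x = ((1 + C : ℝ) : ℂ) * F x := by
      intro x
      rw [hF]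
      simp only
      rw [mul_inv_cancel_left₀ hne]
    have hn : ‖(((1 + C : ℝ)) : ℂ)⁻¹‖ = (1 + C)⁻¹ := by
      rw [norm_inv, Complex.norm_real, Real.norm_of_nonneg (by linarith)]
    have hF1 : ∀ x, ‖F x‖ ≤ 1 := by
      intro x
      rw [hF]
      simp only
      rw [norm_mul, hn, inv_mul_le_iff₀ (by linarith), mul_one, hpe x]
      refine (norm_sum_le _ _).trans ?_
      have : ∑ μ ∈ S, ‖c μ * e (fun i => (μ i : ZMod L)) x‖ = C := by
        rw [hC]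
        exact Finset.sum_congr rfl fun μ _ => by rw [norm_mul, e_norm, mul_one]
      rw [this]
      linarith
    have hF2 : ∀ x i, ‖F (x + Pi.single i 1) - F x‖ ≤ σ ^ (2 + a / 2) := by
      intro x i
      have k1 : F (x + Pi.single i 1) - F x = (((1 + C : ℝ)) : ℂ)⁻¹ *
          ∑ μ ∈ S, c μ * (e (fun i => (μ i : ZMod L)) x *
            ((ZMod.stdAddChar ((μ i : ℤ) : ZMod L) : ℂ) - 1)) := by
        rw [hF]
        simp only
        rw [← mul_sub, hpe, hpe, ← Finset.sum_sub_distrib]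
        congr 1
        refine Finset.sum_congr rfl fun μ _ => ?_
        rw [e_step]
        ring
      have k2 : ‖F (x + Pi.single i 1) - F x‖ ≤ D / L := by
        rw [k1, norm_mul, hn]
        have k3 : ‖∑ μ ∈ S, c μ * (e (fun i => (μ i : ZMod L)) x *
            ((ZMod.stdAddChar ((μ i : ℤ) : ZMod L) : ℂ) - 1))‖ ≤ D / L := by
          refine (norm_sum_le _ _).trans ?_
          rw [hD, Finset.sum_div]
          refine Finset.sum_le_sum fun μ _ => ?_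
          rw [norm_mul, norm_mul, e_norm, one_mul, mul_div_assoc]
          refine mul_le_mul_of_nonneg_left ((char_sub (μ i)).trans ?_) (norm_nonneg _)
          have k4 : |(μ i : ℝ)| ≤ ∑ i, |(μ i : ℝ)| :=
            Finset.single_le_sum (f := fun i => |(μ i : ℝ)|) (fun _ _ => abs_nonneg _)
              (Finset.mem_univ i)
          have := Real.pi_pos
          gcongr
        have k5 : (1 + C)⁻¹ ≤ 1 := inv_le_one_of_one_le₀ (by linarith)
        have k6 : 0 ≤ D / L := by positivity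
        calc (1 + C)⁻¹ * ‖∑ μ ∈ S, c μ * (e (fun i => (μ i : ZMod L)) x *
            ((ZMod.stdAddChar ((μ i : ℤ) : ZMod L) : ℂ) - 1))‖ ≤ 1 * (D / L) :=
              mul_le_mul k5 k3 (norm_nonneg _) zero_le_one
          _ = D / L := one_mul _
      refine k2.trans ?_
      have k7 : 1 / (L : ℝ) ≤ σ ^ (2 + a) := by
        rw [div_le_iff₀ hL]
        have k8 : σ ^ (2 + a) * σ ^ (-2 - a) = 1 := by
          rw [← Real.rpow_add h5]
          norm_num
        have k9 : 0 < σ ^ (2 + a) := Real.rpow_pos_of_pos h5 _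
        calc (1 : ℝ) = σ ^ (2 + a) * σ ^ (-2 - a) := k8.symm
          _ ≤ σ ^ (2 + a) * L := mul_le_mul_of_nonneg_left hL1 k9.le
      have k10 : σ ^ (2 + a) = σ ^ (2 + a / 2) * σ ^ (a / 2) := by
        rw [← Real.rpow_add h5]
        congr 1
        ring
      have k11 : 0 < σ ^ (2 + a / 2) := Real.rpow_pos_of_pos h5 _
      calc D / L = D * (1 / L) := by ring
        _ ≤ D * σ ^ (2 + a) := mul_le_mul_of_nonneg_left k7 hD0
        _ = σ ^ (2 + a / 2) * (D * σ ^ (a / 2)) := by rw [k10]; ring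
        _ ≤ σ ^ (2 + a / 2) * 1 := mul_le_mul_of_nonneg_left h3.le k11.le
        _ = σ ^ (2 + a / 2) := mul_one _
    have q3 := q1 F hF1 hF2
    -- the exceptional sets
    have hN : 0 ≤ NN d L := (Pool.Agent.W788.MFP.Four.NN_pos (d := d) (L := L)).le
    refine le_trans ?_ (show ζ * NN d L + ζ * NN d L ≤ η * NN d L by nlinarith)
    refine le_trans ?_ (add_le_add q3 q2)
    rw [← Nat.cast_add]
    refine Nat.cast_le.2 (le_trans (Set.ncard_le_ncard ?_ (Set.toFinite _))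
      (Set.ncard_union_le _ _))
    intro j hj
    by_contra hcon
    rw [Set.mem_union, not_or] at hcon
    obtain ⟨c1, c2⟩ := hcon
    have c1' : ‖∑ x, F x * (star (u j x) * u j (x + fun i => ((m i : ℤ) : ZMod L))) -
        ((wm d m (w j) / dn d (w j) : ℝ) : ℂ) * ∑ x, F x * ((‖u j x‖ ^ 2 : ℝ) : ℂ)‖ ≤ ζ := by
      by_contra hc1
      exact c1 (not_le.1 hc1)
    have c2' : ‖∑ x, f (QE.pt x) * ((‖u j x‖ ^ 2 : ℝ) : ℂ) -
          ∫ x in Set.Icc (0 : Fin d → ℝ) 1, f (fun i => (x i : UnitAddCircle))‖ ≤ ζ := by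
      by_contra hc2
      exact c2 (not_le.1 hc2)
    have hj' : η < ‖∑ x, f (QE.pt x) * (star (u j x) * u j (x + fun i => ((m i : ℤ) : ZMod L))) -
        ((wm d m (w j) / dn d (w j) : ℝ) : ℂ) *
          ∫ x in Set.Icc (0 : Fin d → ℝ) 1, f (fun i => (x i : UnitAddCircle))‖ := hj
    have n1 : ∑ x, ‖u j x‖ ^ 2 = 1 := norm_one (by rw [hu.2 j j, if_pos rfl])
    obtain ⟨r, hr⟩ : ∃ r : ℂ, r = ((wm d m (w j) / dn d (w j) : ℝ) : ℂ) := ⟨_, rfl⟩
    have hr1 : ‖r‖ ≤ 1 := by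
      rw [hr, Complex.norm_real, Real.norm_eq_abs, abs_div]
      have w1 := (hW d hd m).2 (w j)
      have w2 : 0 ≤ dn d (w j) := (abs_nonneg _).trans w1
      rw [abs_of_nonneg w2]
      exact div_le_one_of_le₀ w1 w2
    rw [← hr] at hj' c1'
    obtain ⟨I, hI⟩ : ∃ I : ℂ, I = ∫ x in Set.Icc (0 : Fin d → ℝ) 1,
      f (fun i => (x i : UnitAddCircle)) := ⟨_, rfl⟩
    rw [← hI] at hj' c2'
    obtain ⟨G, hG⟩ : ∃ G : T d L → ℂ, G = fun x => star (u j x) *
      u j (x + fun i => ((m i : ℤ) : ZMod L)) := ⟨_, rfl⟩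
    obtain ⟨H, hH⟩ : ∃ H : T d L → ℂ, H = fun x => ((‖u j x‖ ^ 2 : ℝ) : ℂ) := ⟨_, rfl⟩
    have hj2 : η < ‖∑ x, f (QE.pt x) * G x - r * I‖ := by rw [hG]; exact hj'
    have c12 : ‖∑ x, F x * G x - r * ∑ x, F x * H x‖ ≤ ζ := by rw [hG, hH]; exact c1'
    have c22 : ‖∑ x, f (QE.pt x) * H x - I‖ ≤ ζ := by rw [hH]; exact c2'
    have s1 : ‖∑ x, (f (QE.pt x) - p x) * G x‖ ≤ η / 8 := by
      refine (norm_sum_le _ _).trans ?_
      calc ∑ x, ‖(f (QE.pt x) - p x) * G x‖ ≤ ∑ x, η / 8 * ‖G x‖ := by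
            refine Finset.sum_le_sum fun x _ => ?_
            rw [norm_mul]
            exact mul_le_mul_of_nonneg_right (hfp x) (norm_nonneg _)
        _ = η / 8 * ∑ x, ‖G x‖ := by rw [Finset.mul_sum]
        _ ≤ η / 8 * 1 := by
            refine mul_le_mul_of_nonneg_left ?_ (by positivity)
            rw [hG]
            exact sum_shift (u j) _ n1
        _ = η / 8 := mul_one _
    have s2 : ‖∑ x, (p x - f (QE.pt x)) * H x‖ ≤ η / 8 := by
      refine (norm_sum_le _ _).trans ?_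
      calc ∑ x, ‖(p x - f (QE.pt x)) * H x‖ ≤ ∑ x, η / 8 * ‖u j x‖ ^ 2 := by
            refine Finset.sum_le_sum fun x _ => ?_
            rw [norm_mul, norm_sub_rev]
            have : ‖H x‖ = ‖u j x‖ ^ 2 := by
              rw [hH]
              simp only
              rw [Complex.norm_real, Real.norm_of_nonneg (sq_nonneg _)]
            rw [this]
            exact mul_le_mul_of_nonneg_right (hfp x) (sq_nonneg _)
        _ = η / 8 := by rw [← Finset.mul_sum, n1, mul_one]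
    have s3 : ∑ x, f (QE.pt x) * G x - r * I = ∑ x, (f (QE.pt x) - p x) * G x +
        ((1 + C : ℝ) : ℂ) * (∑ x, F x * G x - r * ∑ x, F x * H x) +
        r * ∑ x, (p x - f (QE.pt x)) * H x + r * (∑ x, f (QE.pt x) * H x - I) := by
      have t1 : ∑ x, (f (QE.pt x) - p x) * G x = ∑ x, f (QE.pt x) * G x -
          ((1 + C : ℝ) : ℂ) * ∑ x, F x * G x := by
        rw [Finset.mul_sum, ← Finset.sum_sub_distrib]
        exact Finset.sum_congr rfl fun x _ => by rw [hpF x]; ring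
      have t2 : ∑ x, (p x - f (QE.pt x)) * H x = ((1 + C : ℝ) : ℂ) * ∑ x, F x * H x -
          ∑ x, f (QE.pt x) * H x := by
        rw [Finset.mul_sum, ← Finset.sum_sub_distrib]
        exact Finset.sum_congr rfl fun x _ => by rw [hpF x]; ring
      rw [t1, t2]
      ring
    have s4 : ‖∑ x, f (QE.pt x) * G x - r * I‖ ≤ η / 8 + (1 + C) * ζ + η / 8 + ζ := by
      rw [s3]
      refine (norm_add_le _ _).trans (add_le_add ((norm_add_le _ _).trans (add_le_add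
        ((norm_add_le _ _).trans (add_le_add s1 ?_)) ?_)) ?_)
      · rw [norm_mul, Complex.norm_real, Real.norm_of_nonneg (by linarith)]
        exact mul_le_mul_of_nonneg_left c12 (by linarith)
      · rw [norm_mul]
        calc ‖r‖ * ‖∑ x, (p x - f (QE.pt x)) * H x‖ ≤ 1 * (η / 8) :=
              mul_le_mul hr1 s2 (norm_nonneg _) zero_le_one
          _ = η / 8 := one_mul _
      · rw [norm_mul]
        calc ‖r‖ * ‖∑ x, f (QE.pt x) * H x - I‖ ≤ 1 * ζ :=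
              mul_le_mul hr1 c22 (norm_nonneg _) zero_le_one
          _ = ζ := one_mul _
    nlinarith

end Pool.Agent.T2h98.PS
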