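import Pool.Agent.T2h98.PS.Stm
import Pool.Agent.T2h98.QD.Bes

/-! Bessel functions with weights: decay (PBE). -/

set_option autoImplicit false
set_option linter.unusedSectionVars false

open scoped BigOperators Topology
open MeasureTheory Filter Set

namespace Pool.Agent.T2h98.PS

open Pool.Agent.T2h98.QD
open Pool.Agent.T2h98.QD.Bes0

namespace PBE0

/-- the weight -/
noncomputable def wt (n : ℤ) (k : ℝ) : ℝ := Real.cos (n * k)

lemma wt_abs (n : ℤ) (k : ℝ) : |wt n k| ≤ 1 := Real.abs_cos_le_one _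

lemma wt_cont (n : ℤ) : Continuous (wt n) := by unfold wt; fun_prop

lemma wt_norm (n : ℤ) (k : ℝ) : ‖((wt n k : ℝ) : ℂ)‖ ≤ 1 := by
  rw [Complex.norm_real, Real.norm_eq_abs]; exact wt_abs n k

lemma wt_deriv (n : ℤ) (k : ℝ) : HasDerivAt (wt n) (-(n * Real.sin (n * k))) k := by
  have h1 : HasDerivAt (fun k : ℝ => (n : ℝ) * k) (n : ℝ) k := by
    simpa using (hasDerivAt_id k).const_mul (n : ℝ)
  have h2 := h1.cos
  refine h2.congr_deriv ?_
  ring

lemma wt_neg (n : ℤ) (k : ℝ) : wt n (-k) = wt n k := by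
  unfold wt; rw [mul_neg, Real.cos_neg]

lemma wt_pi (n : ℤ) (k : ℝ) : wt n (Real.pi - k) = (-1 : ℝ) ^ n * wt n k := by
  unfold wt
  rw [mul_sub, Real.cos_int_mul_pi_sub]

/-- the part away from the critical point -/
lemma away (n : ℤ) {s δ : ℝ} (hs : s ≠ 0) (h0 : 0 < δ) (h1 : δ ≤ Real.pi / 2) :
    ‖∫ k in δ..(Real.pi / 2), ((wt n k : ℝ) : ℂ) * ex s k‖ ≤
      (1 + |(n : ℝ)|) * Real.pi / (2 * |s| * δ) := by
  have hpi := Real.pi_pos
  have hsin : ∀ k ∈ Set.Icc δ (Real.pi / 2), 0 < Real.sin k := fun k hk =>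
    Real.sin_pos_of_pos_of_lt_pi (by linarith [hk.1]) (by linarith [hk.2])
  have hcos : ∀ k ∈ Set.Icc δ (Real.pi / 2), 0 ≤ Real.cos k := fun k hk =>
    Real.cos_nonneg_of_neg_pi_div_two_le_of_le (by linarith [hk.1]) hk.2
  have hU : Set.uIcc δ (Real.pi / 2) = Set.Icc δ (Real.pi / 2) := Set.uIcc_of_le h1
  have hsd : 0 < Real.sin δ := hsin δ ⟨le_rfl, h1⟩
  have hur : ∀ k ∈ Set.uIcc δ (Real.pi / 2), HasDerivAt (fun k : ℝ => (Real.sin k)⁻¹)
      (-Real.cos k / Real.sin k ^ 2) k := fun k hk => by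
    rw [hU] at hk
    exact (Real.hasDerivAt_sin k).inv (hsin k hk).ne'
  have hw : ∀ k ∈ Set.uIcc δ (Real.pi / 2), HasDerivAt (fun k : ℝ => wt n k * (Real.sin k)⁻¹)
      (-(n * Real.sin (n * k)) * (Real.sin k)⁻¹ + wt n k * (-Real.cos k / Real.sin k ^ 2)) k :=
    fun k hk => (wt_deriv n k).mul (hur k hk)
  have hu : ∀ k ∈ Set.uIcc δ (Real.pi / 2),
      HasDerivAt (fun k : ℝ => ((wt n k * (Real.sin k)⁻¹ : ℝ) : ℂ))
      ((-(n * Real.sin (n * k)) * (Real.sin k)⁻¹ + wt n k * (-Real.cos k / Real.sin k ^ 2) : ℝ) :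
        ℂ) k := fun k hk => (hw k hk).ofReal_comp
  have hint0 : ContinuousOn (fun k : ℝ => -Real.cos k / Real.sin k ^ 2)
      (Set.uIcc δ (Real.pi / 2)) := by
    rw [hU]
    refine (Real.continuous_cos.neg.continuousOn).div (Real.continuous_sin.pow 2).continuousOn ?_
    intro k hk
    exact pow_ne_zero 2 (hsin k hk).ne'
  have hint1 : ContinuousOn (fun k : ℝ => (Real.sin k)⁻¹) (Set.uIcc δ (Real.pi / 2)) := by
    rw [hU]
    exact Real.continuous_sin.continuousOn.inv₀ fun k hk => (hsin k hk).ne'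
  have hint : ContinuousOn (fun k : ℝ => -(n * Real.sin (n * k)) * (Real.sin k)⁻¹ +
      wt n k * (-Real.cos k / Real.sin k ^ 2)) (Set.uIcc δ (Real.pi / 2)) := by
    refine ContinuousOn.add (ContinuousOn.mul ?_ hint1)
      ((wt_cont n).continuousOn.mul hint0)
    exact Continuous.continuousOn (by fun_prop)
  have hu' : IntervalIntegrable (fun k : ℝ => ((-(n * Real.sin (n * k)) * (Real.sin k)⁻¹ +
      wt n k * (-Real.cos k / Real.sin k ^ 2) : ℝ) : ℂ)) volume δ
      (Real.pi / 2) := (Complex.continuous_ofReal.comp_continuousOn hint).intervalIntegrable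
  have hv' : IntervalIntegrable (fun k : ℝ => ((-(2 * s * Real.sin k) : ℝ) : ℂ) * Complex.I *
      ex s k) volume δ (Real.pi / 2) := by
    apply Continuous.intervalIntegrable
    have := ex_cont s
    fun_prop
  have hparts := intervalIntegral.integral_mul_deriv_eq_deriv_mul hu (fun k _ => ex_deriv s k)
    hu' hv'
  have hlhs : ∫ k in δ..(Real.pi / 2), ((wt n k * (Real.sin k)⁻¹ : ℝ) : ℂ) *
      (((-(2 * s * Real.sin k) : ℝ) : ℂ) * Complex.I * ex s k) =
      (-(2 * s : ℝ) * Complex.I) * ∫ k in δ..(Real.pi / 2), ((wt n k : ℝ) : ℂ) * ex s k := by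
    rw [← intervalIntegral.integral_const_mul]
    apply intervalIntegral.integral_congr
    intro k hk
    rw [hU] at hk
    have h2 := (hsin k hk).ne'
    have h3 : (Real.sin k : ℂ) ≠ 0 := by exact_mod_cast h2
    simp only
    push_cast
    push_cast at h3
    field_simp
  rw [hlhs] at hparts
  have hint2 : ∫ k in δ..(Real.pi / 2), (|(n : ℝ)| * (Real.sin δ)⁻¹ +
      Real.cos k / Real.sin k ^ 2) =
      |(n : ℝ)| * (Real.sin δ)⁻¹ * (Real.pi / 2 - δ) + ((Real.sin δ)⁻¹ - 1) := by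
    have h2 : ∀ k ∈ Set.uIcc δ (Real.pi / 2), HasDerivAt (fun k : ℝ => -(Real.sin k)⁻¹)
        (Real.cos k / Real.sin k ^ 2) k := fun k hk => by
      have := (hur k hk).neg
      refine this.congr_deriv ?_
      ring
    have h3 : IntervalIntegrable (fun k : ℝ => Real.cos k / Real.sin k ^ 2) volume δ
        (Real.pi / 2) := by
      have := hint0.neg.intervalIntegrable (μ := volume)
      refine this.congr (fun k _ => ?_)
      simp only [Pi.neg_apply]
      ring
    rw [intervalIntegral.integral_add (by simp) h3,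
      intervalIntegral.integral_eq_sub_of_hasDerivAt h2 h3, Real.sin_pi_div_two]
    simp
    ring
  have hbound : ‖∫ k in δ..(Real.pi / 2), ((-(n * Real.sin (n * k)) * (Real.sin k)⁻¹ +
      wt n k * (-Real.cos k / Real.sin k ^ 2) : ℝ) : ℂ) * ex s k‖ ≤
      |(n : ℝ)| * (Real.sin δ)⁻¹ * (Real.pi / 2 - δ) + ((Real.sin δ)⁻¹ - 1) := by
    rw [← hint2]
    apply intervalIntegral.norm_integral_le_of_norm_le h1
    · refine ae_of_all _ fun k hk => ?_
      have hk' : k ∈ Set.Icc δ (Real.pi / 2) := ⟨hk.1.le, hk.2⟩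
      have hs0 := hsin k hk'
      rw [norm_mul, ex_norm, mul_one, Complex.norm_real, Real.norm_eq_abs]
      refine (abs_add_le _ _).trans ?_
      have e1 : |(-(n * Real.sin (n * k)) * (Real.sin k)⁻¹ : ℝ)| ≤
          |(n : ℝ)| * (Real.sin δ)⁻¹ := by
        rw [abs_mul, abs_neg, abs_mul, abs_of_pos (inv_pos.2 hs0)]
        have e2 : |(n : ℝ)| * |Real.sin (n * k)| ≤ |(n : ℝ)| :=
          mul_le_of_le_one_right (abs_nonneg _) (Real.abs_sin_le_one _)
        have e3 : (Real.sin k)⁻¹ ≤ (Real.sin δ)⁻¹ := by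
          apply inv_anti₀ hsd
          exact Real.sin_le_sin_of_le_of_le_pi_div_two (by linarith) hk'.2 hk'.1
        have := inv_pos.2 hs0
        exact mul_le_mul e2 e3 this.le (abs_nonneg _)
      have e4 : |wt n k * (-Real.cos k / Real.sin k ^ 2)| ≤ Real.cos k / Real.sin k ^ 2 := by
        rw [abs_mul, abs_div, abs_neg, abs_of_nonneg (hcos k hk'),
          abs_of_nonneg (sq_nonneg (Real.sin k))]
        exact mul_le_of_le_one_left (div_nonneg (hcos k hk') (sq_nonneg _)) (wt_abs n k)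
      exact add_le_add e1 e4
    · refine IntervalIntegrable.add (by simp) ?_
      have := hint0.neg.intervalIntegrable (μ := volume)
      refine this.congr (fun k _ => ?_)
      simp only [Pi.neg_apply]
      ring
  have hpi4 := Real.pi_lt_four
  have hsd' := inv_pos.2 hsd
  have hn : ‖(-(2 * s : ℝ) * Complex.I) * ∫ k in δ..(Real.pi / 2),
      ((wt n k : ℝ) : ℂ) * ex s k‖ ≤ 2 * (1 + |(n : ℝ)|) * (Real.sin δ)⁻¹ := by
    rw [hparts]
    refine (norm_sub_le _ _).trans ?_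
    have h2 : ‖((wt n (Real.pi / 2) * (Real.sin (Real.pi / 2))⁻¹ : ℝ) : ℂ) * ex s (Real.pi / 2) -
        ((wt n δ * (Real.sin δ)⁻¹ : ℝ) : ℂ) * ex s δ‖ ≤ 1 + (Real.sin δ)⁻¹ := by
      refine (norm_sub_le _ _).trans ?_
      rw [norm_mul, norm_mul, ex_norm, ex_norm, Complex.norm_real, Complex.norm_real,
        Real.sin_pi_div_two, Real.norm_eq_abs, Real.norm_eq_abs, abs_mul, abs_mul,
        abs_of_pos (inv_pos.2 hsd)]
      have a1 := wt_abs n (Real.pi / 2)
      have a2 := wt_abs n δ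
      have a3 : |wt n δ| * (Real.sin δ)⁻¹ ≤ (Real.sin δ)⁻¹ :=
        mul_le_of_le_one_left hsd'.le a2
      simp only [inv_one, abs_one, mul_one]
      linarith
    have h5 : |(n : ℝ)| * (Real.sin δ)⁻¹ * (Real.pi / 2 - δ) ≤
        |(n : ℝ)| * (Real.sin δ)⁻¹ * 2 :=
      mul_le_mul_of_nonneg_left (by linarith) (by positivity)
    linarith
  rw [norm_mul, norm_mul, norm_neg, Complex.norm_real, Complex.norm_I, mul_one, Real.norm_eq_abs,
    abs_mul, abs_of_pos (by norm_num : (0:ℝ) < 2)] at hn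
  have hs0 : 0 < |s| := abs_pos.2 hs
  have h2 : (Real.sin δ)⁻¹ ≤ Real.pi / (2 * δ) := by
    rw [inv_le_comm₀ hsd (by positivity), inv_div]
    have := Real.mul_le_sin h0.le h1
    calc 2 * δ / Real.pi = 2 / Real.pi * δ := by ring
      _ ≤ _ := this
  have hN : 0 < 1 + |(n : ℝ)| := by positivity
  have h3 : 2 * |s| * ‖∫ k in δ..(Real.pi / 2), ((wt n k : ℝ) : ℂ) * ex s k‖ ≤
      2 * (1 + |(n : ℝ)|) * (Real.pi / (2 * δ)) :=
    hn.trans (mul_le_mul_of_nonneg_left h2 (by positivity))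
  rw [le_div_iff₀ (by positivity)]
  have h4 : 2 * (1 + |(n : ℝ)|) * (Real.pi / (2 * δ)) * δ = (1 + |(n : ℝ)|) * Real.pi := by
    field_simp
  nlinarith

/-- a quarter of the period -/
lemma quarter (n : ℤ) {s : ℝ} (hs : 1 ≤ |s|) :
    ‖∫ k in (0:ℝ)..(Real.pi / 2), ((wt n k : ℝ) : ℂ) * ex s k‖ ≤
      (1 + (1 + |(n : ℝ)|) * Real.pi / 2) / Real.sqrt |s| := by
  have hs0 : 0 < |s| := by linarith
  have hsne : s ≠ 0 := abs_pos.1 hs0
  set q := Real.sqrt |s| with hq
  have hq0 : 0 < q := Real.sqrt_pos.2 hs0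
  have hq2 : q ^ 2 = |s| := Real.sq_sqrt hs0.le
  have hq1 : 1 ≤ q := by nlinarith
  have hd : (1 / q : ℝ) ≤ Real.pi / 2 := by
    have h1 : 1 / q ≤ 1 := by rw [div_le_one hq0]; exact hq1
    have := Real.pi_gt_three
    linarith
  have hci : ∀ a b : ℝ, IntervalIntegrable (fun k => ((wt n k : ℝ) : ℂ) * ex s k) volume a b :=
    fun a b => (((Complex.continuous_ofReal.comp (wt_cont n)).mul
      (ex_cont s))).intervalIntegrable a b
  have h1 := intervalIntegral.integral_add_adjacent_intervals (hci 0 (1 / q))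
    (hci (1 / q) (Real.pi / 2))
  rw [← h1]
  refine (norm_add_le _ _).trans ?_
  have h2 : ‖∫ k in (0:ℝ)..(1 / q), ((wt n k : ℝ) : ℂ) * ex s k‖ ≤ 1 * |1 / q - 0| :=
    intervalIntegral.norm_integral_le_of_norm_le_const fun k _ => by
      rw [norm_mul, ex_norm, mul_one]; exact wt_norm n k
  rw [sub_zero, abs_of_pos (by positivity), one_mul] at h2
  have h3 := away n (s := s) hsne (by positivity : 0 < 1 / q) hd
  have h4 : (1 + |(n : ℝ)|) * Real.pi / (2 * |s| * (1 / q)) =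
      ((1 + |(n : ℝ)|) * Real.pi / 2) / q := by
    rw [← hq2]
    field_simp
  rw [h4] at h3
  calc _ ≤ 1 / q + ((1 + |(n : ℝ)|) * Real.pi / 2) / q := add_le_add h2 h3
    _ = _ := by ring

lemma full (n : ℤ) (s : ℝ) : ∫ k in (-Real.pi)..Real.pi, ((wt n k : ℝ) : ℂ) * ex s k =
    2 * ((∫ k in (0:ℝ)..(Real.pi / 2), ((wt n k : ℝ) : ℂ) * ex s k) +
      (((-1 : ℝ) ^ n : ℝ) : ℂ) * ∫ k in (0:ℝ)..(Real.pi / 2), ((wt n k : ℝ) : ℂ) * ex (-s) k) := by
  have hci : ∀ a b : ℝ, IntervalIntegrable (fun k => ((wt n k : ℝ) : ℂ) * ex s k) volume a b :=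
    fun a b => (((Complex.continuous_ofReal.comp (wt_cont n)).mul
      (ex_cont s))).intervalIntegrable a b
  have h1 := intervalIntegral.integral_add_adjacent_intervals (hci (-Real.pi) 0) (hci 0 Real.pi)
  have h2 := intervalIntegral.integral_add_adjacent_intervals (hci 0 (Real.pi / 2))
    (hci (Real.pi / 2) Real.pi)
  have h3 : ∫ k in (-Real.pi)..(0:ℝ), ((wt n k : ℝ) : ℂ) * ex s k =
      ∫ k in (0:ℝ)..Real.pi, ((wt n k : ℝ) : ℂ) * ex s k := by
    have h4 := intervalIntegral.integral_comp_neg (a := (0:ℝ)) (b := Real.pi)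
      (fun k => ((wt n k : ℝ) : ℂ) * ex s k)
    rw [neg_zero] at h4
    rw [← h4]
    simp only [ex_neg, wt_neg]
  have h5 : ∫ k in (Real.pi / 2)..Real.pi, ((wt n k : ℝ) : ℂ) * ex s k =
      (((-1 : ℝ) ^ n : ℝ) : ℂ) * ∫ k in (0:ℝ)..(Real.pi / 2), ((wt n k : ℝ) : ℂ) * ex (-s) k := by
    have h6 := intervalIntegral.integral_comp_sub_left (a := (0:ℝ)) (b := Real.pi / 2)
      (fun k => ((wt n k : ℝ) : ℂ) * ex s k) Real.pi
    simp only [ex_pi, wt_pi, sub_zero] at h6
    have e : Real.pi - Real.pi / 2 = Real.pi / 2 := by ring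
    rw [e] at h6
    rw [← h6, ← intervalIntegral.integral_const_mul]
    apply intervalIntegral.integral_congr
    intro k _
    simp only
    rw [Complex.ofReal_mul]
    ring
  rw [← h1, h3, ← h2, h5]
  ring

lemma jm_eq (n : ℤ) (s : ℝ) : jm n s = ((2 * Real.pi : ℝ) : ℂ)⁻¹ *
    ∫ k in (-Real.pi)..Real.pi, ((wt n k : ℝ) : ℂ) * ex s k := rfl

lemma sign_norm (n : ℤ) : ‖(((-1 : ℝ) ^ n : ℝ) : ℂ)‖ = 1 := by
  rw [Complex.norm_real, Real.norm_eq_abs, abs_zpow, abs_neg, abs_one, one_zpow]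

lemma jm_large (n : ℤ) {s : ℝ} (hs : 1 ≤ |s|) :
    ‖jm n s‖ ≤ (2 + |(n : ℝ)|) / Real.sqrt |s| := by
  have hpi := Real.pi_pos
  have hpi3 := Real.pi_gt_three
  have h1 := quarter n hs
  have h2 := quarter n (s := -s) (by rwa [abs_neg])
  rw [abs_neg] at h2
  rw [jm_eq, full, norm_mul, norm_inv, Complex.norm_real, Real.norm_eq_abs,
    abs_of_pos (by positivity), norm_mul]
  have h3 : ‖(2 : ℂ)‖ = 2 := by norm_num
  rw [h3]
  have h4 : ‖(∫ k in (0:ℝ)..(Real.pi / 2), ((wt n k : ℝ) : ℂ) * ex s k) +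
      (((-1 : ℝ) ^ n : ℝ) : ℂ) * ∫ k in (0:ℝ)..(Real.pi / 2), ((wt n k : ℝ) : ℂ) * ex (-s) k‖ ≤
      2 * ((1 + (1 + |(n : ℝ)|) * Real.pi / 2) / Real.sqrt |s|) := by
    refine (norm_add_le _ _).trans ?_
    rw [norm_mul, sign_norm, one_mul]
    linarith
  have hs0 : 0 < Real.sqrt |s| := Real.sqrt_pos.2 (by linarith)
  calc (2 * Real.pi)⁻¹ * (2 * ‖_‖) ≤ (2 * Real.pi)⁻¹ * (2 * (2 * ((1 + (1 + |(n : ℝ)|) *
        Real.pi / 2) / Real.sqrt |s|))) := by gcongr
    _ = (2 / Real.pi + (1 + |(n : ℝ)|)) / Real.sqrt |s| := by field_simp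
    _ ≤ (2 + |(n : ℝ)|) / Real.sqrt |s| := by
        apply div_le_div_of_nonneg_right _ hs0.le
        have : 2 / Real.pi ≤ 1 := by rw [div_le_one hpi]; linarith
        linarith

lemma jm_norm (n : ℤ) (s : ℝ) : ‖jm n s‖ ≤ 1 := by
  rw [jm_eq]
  exact Poi0.mean_norm fun k => by rw [norm_mul, ex_norm, mul_one]; exact wt_norm n k

lemma jm_cont (n : ℤ) : Continuous (jm n) := by
  unfold jm
  refine continuous_const.mul ?_
  apply intervalIntegral.continuous_parametric_intervalIntegral_of_continuous'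
  simp only [Function.uncurry_def]
  fun_prop

lemma jm_neg (n : ℤ) (s : ℝ) : jm n (-s) = star (jm n s) := by
  rw [jm_eq, jm_eq, star_mul', Complex.star_def, map_inv₀, Complex.conj_ofReal,
    ← intervalIntegral.intervalIntegral_conj]
  congr 1
  apply intervalIntegral.integral_congr
  intro k _
  simp only [ex]
  rw [map_mul, Complex.conj_ofReal, ← Complex.exp_conj, map_mul, Complex.conj_ofReal,
    Complex.conj_I]
  congr 2
  push_cast
  ring

lemma jm_zero (s : ℝ) : jm 0 s = jb s := by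
  unfold jm jb
  simp

end PBE0

open PBE0 in
/-- **decay of the Bessel functions with weights** -/
theorem pbe : T_PBE := by
  intro n
  refine ⟨jm_cont n, jm_norm n, jm_neg n, jm_zero, 8 * (1 + |(n : ℝ)|), by positivity,
    fun s => ?_⟩
  have hn := abs_nonneg (n : ℝ)
  have h0 := abs_nonneg s
  rcases le_total 1 |s| with hs | hs
  · have hs0 : 0 < |s| := by linarith
    refine (jm_large n hs).trans ?_
    rw [div_le_div_iff₀ (Real.sqrt_pos.2 hs0) (Real.sqrt_pos.2 (by linarith))]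
    have h1 : Real.sqrt (1 + |s|) ≤ 4 * Real.sqrt |s| := by
      rw [Real.sqrt_le_left (by positivity), mul_pow, Real.sq_sqrt hs0.le]
      linarith
    have h2 := Real.sqrt_nonneg |s|
    calc (2 + |(n : ℝ)|) * Real.sqrt (1 + |s|) ≤ (2 + |(n : ℝ)|) * (4 * Real.sqrt |s|) := by
          gcongr
      _ = (8 + 4 * |(n : ℝ)|) * Real.sqrt |s| := by ring
      _ ≤ 8 * (1 + |(n : ℝ)|) * Real.sqrt |s| := by
          apply mul_le_mul_of_nonneg_right _ h2
          linarith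
  · refine (jm_norm n s).trans ?_
    rw [le_div_iff₀ (Real.sqrt_pos.2 (by linarith)), one_mul]
    refine le_trans ?_ (by linarith : (8 : ℝ) ≤ 8 * (1 + |(n : ℝ)|))
    rw [Real.sqrt_le_left (by norm_num)]
    linarith

end Pool.Agent.T2h98.PS
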