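import Pool.Agent.T2h98.PS.Stm
import Pool.Agent.T2h98.KU.KCAU

/-! Cauchy sums with characters (PCAU). -/

set_option autoImplicit false
set_option linter.unusedSectionVars false

open scoped BigOperators Topology ComplexConjugate
open MeasureTheory Filter Set

namespace Pool.Agent.T2h98.PS

open Pool.Agent.W788.MFP.Four (T NN adj)
open Pool.Agent.W788.BK (cr)
open Pool.Agent.T2h98.QD
open Pool.Agent.T2h98.KU

namespace Pcau

open Pool.Agent.T2h98.QD.Poi0 Pool.Agent.T2h98.KU.Kcau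

/-- telescoping -/
lemma prod_sub_le {ι : Type} (s : Finset ι) (a b : ι → ℂ) (ha : ∀ i, ‖a i‖ ≤ 1)
    (hb : ∀ i, ‖b i‖ ≤ 1) : ‖∏ i ∈ s, a i - ∏ i ∈ s, b i‖ ≤ ∑ i ∈ s, ‖a i - b i‖ := by
  classical
  induction s using Finset.induction_on with
  | empty => simp
  | insert i s hi ih =>
    rw [Finset.prod_insert hi, Finset.prod_insert hi, Finset.sum_insert hi]
    have e : a i * ∏ j ∈ s, a j - b i * ∏ j ∈ s, b j =
        (a i - b i) * ∏ j ∈ s, a j + b i * (∏ j ∈ s, a j - ∏ j ∈ s, b j) := by ring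
    have h1 : ‖∏ j ∈ s, a j‖ ≤ 1 := by
      rw [norm_prod]
      exact Finset.prod_le_one (fun j _ => norm_nonneg _) (fun j _ => ha j)
    rw [e]
    refine (norm_add_le _ _).trans (add_le_add ?_ ?_)
    · rw [norm_mul]
      exact mul_le_of_le_one_right (norm_nonneg _) h1
    · rw [norm_mul]
      exact (mul_le_of_le_one_left (norm_nonneg _) (hb i)).trans ih

end Pcau

open Pool.Agent.T2h98.QD.Poi0 Pool.Agent.T2h98.KU.Kcau Pcau in
/-- **Cauchy sums** -/
theorem pcau (hb : T_PBE) (hj : T_PJL) : T_PCAU := by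
  intro d hd m θ η hθ hη
  have hd1 : (1 : ℝ) ≤ d := by exact_mod_cast (by omega : 1 ≤ d)
  choose C1 hC1 hB1 using fun i => (hb (m i)).2.2.2.2
  choose C2 hC2 hJ using fun i => hj (m i)
  set C : ℝ := 1 + ∑ i, C1 i with hCdef
  set C' : ℝ := 1 + ∑ i, C2 i with hC'def
  have hC : 0 < C := by
    have : 0 ≤ ∑ i, C1 i := Finset.sum_nonneg fun i _ => (hC1 i).le
    linarith
  have hC' : 0 < C' := by
    have : 0 ≤ ∑ i, C2 i := Finset.sum_nonneg fun i _ => (hC2 i).le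
    linarith
  have hCi : ∀ i, C1 i ≤ C := fun i => by
    have := Finset.single_le_sum (f := C1) (fun i _ => (hC1 i).le) (Finset.mem_univ i)
    linarith
  have hC'i : ∀ i, C2 i ≤ C' := fun i => by
    have := Finset.single_le_sum (f := C2) (fun i _ => (hC2 i).le) (Finset.mem_univ i)
    linarith
  have jc : ∀ i, Continuous (jm (m i)) := fun i => (hb (m i)).1
  have jn : ∀ i s, ‖jm (m i) s‖ ≤ 1 := fun i => (hb (m i)).2.1
  have jd : ∀ i s, ‖jm (m i) s‖ ≤ C / Real.sqrt (1 + |s|) := fun i s =>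
    (hB1 i s).trans (div_le_div_of_nonneg_right (hCi i) (Real.sqrt_nonneg _))
  have decay : ∀ s : ℝ, (C / Real.sqrt (1 + |s|)) ^ 3 = C ^ 3 * (1 + ‖s‖) ^ (-(3 / 2) : ℝ) := by
    intro s
    have h0 : (0 : ℝ) ≤ 1 + |s| := by positivity
    rw [div_pow, Real.sqrt_eq_rpow, ← Real.rpow_natCast ((1 + |s|) ^ (1 / 2 : ℝ)),
      ← Real.rpow_mul h0, div_eq_mul_inv, ← Real.rpow_neg h0, Real.norm_eq_abs]
    norm_num
  have dec1 : ∀ s, ‖∏ i, jm (m i) s‖ ≤ C ^ 3 * (1 + ‖s‖) ^ (-(3 / 2) : ℝ) := by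
    intro s
    rw [norm_prod, ← decay]
    have hx0 : 0 ≤ C / Real.sqrt (1 + |s|) := by positivity
    calc ∏ i, ‖jm (m i) s‖ ≤ ∏ _i : Fin d, min 1 (C / Real.sqrt (1 + |s|)) :=
          Finset.prod_le_prod (fun i _ => norm_nonneg _) fun i _ => le_min (jn i s) (jd i s)
      _ = (min 1 (C / Real.sqrt (1 + |s|))) ^ d := by simp
      _ ≤ (min 1 (C / Real.sqrt (1 + |s|))) ^ 3 :=
          pow_le_pow_of_le_one (le_min zero_le_one hx0) (min_le_left _ _) hd
      _ ≤ (C / Real.sqrt (1 + |s|)) ^ 3 :=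
          pow_le_pow_left₀ (le_min zero_le_one hx0) (min_le_right _ _) 3
  set D : ℝ := 4 * d * (C' + 8) with hD
  have hD0 : 0 < D := by positivity
  obtain ⟨r₀, hr₀, htail⟩ := Poi3.tail hθ (η := η / 2 / (16 * D)) (by positivity)
  have hI := I54_nonneg
  set K3 : ℝ := 3 * C ^ 3 * I54 + 1 with hK3
  have hK0 : 0 < K3 := by positivity
  refine ⟨min 1 (min r₀ ((η / 2 / K3) ^ 4)), by positivity, ?_⟩
  set r : ℝ := min 1 (min r₀ ((η / 2 / K3) ^ 4)) with hr
  have hr1 : r ≤ 1 := min_le_left _ _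
  have hr2 : r ≤ r₀ := (min_le_right _ _).trans (min_le_left _ _)
  have hr0 : 0 < r := by positivity
  have hr3 : 3 * C ^ 3 * r ^ (1 / 4 : ℝ) * I54 ≤ η / 2 := by
    have h1 : r ≤ (η / 2 / K3) ^ 4 := (min_le_right _ _).trans (min_le_right _ _)
    have h2 : r ^ (1 / 4 : ℝ) ≤ η / 2 / K3 := by
      calc r ^ (1 / 4 : ℝ) ≤ ((η / 2 / K3) ^ 4) ^ (1 / 4 : ℝ) :=
            Real.rpow_le_rpow hr0.le h1 (by norm_num)
        _ = η / 2 / K3 := by
            rw [← Real.rpow_natCast, ← Real.rpow_mul (by positivity)]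
            norm_num
    have h3 : 3 * C ^ 3 * I54 ≤ K3 := by rw [hK3]; linarith
    calc 3 * C ^ 3 * r ^ (1 / 4 : ℝ) * I54 = (3 * C ^ 3 * I54) * r ^ (1 / 4 : ℝ) := by ring
      _ ≤ K3 * (η / 2 / K3) := by gcongr
      _ = η / 2 := by field_simp
  intro E E' Γ L _ hE hΓ hΓr hLr
  have hL : (0 : ℝ) < L := by exact_mod_cast Nat.pos_of_ne_zero (NeZero.ne L)
  -- the functions
  set cc : Fin d → ZMod L → ℝ := fun i j =>
    (ZMod.stdAddChar (((m i : ℤ) : ZMod L) * j) : ℂ).re with hcc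
  have hcc1 : ∀ i j, |cc i j| ≤ 1 := by
    intro i j
    simp only [hcc]
    refine (Complex.abs_re_le_norm _).trans ?_
    rw [ZMod.stdAddChar_apply]
    exact (Circle.norm_coe _).le
  have mL_norm : ∀ i s, ‖mn (cc i) s‖ ≤ 1 := fun i => mn_norm _ (hcc1 i)
  -- the exponentially small factor
  set u : ℝ := Real.exp (-(Γ * L / 64)) with hu
  have hu0 : 0 < u := Real.exp_pos _
  have hΓ1 : Γ ≤ 1 := by linarith
  have hhalf : (1 / 2 : ℝ) ^ L ≤ u := by
    have h1 : (1 / 2 : ℝ) ≤ Real.exp (-(1 / 64)) := by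
      have := Real.add_one_le_exp (-(1 / 64) : ℝ)
      linarith
    calc (1 / 2 : ℝ) ^ L ≤ Real.exp (-(1 / 64)) ^ L := pow_le_pow_left₀ (by norm_num) h1 L
      _ = Real.exp (-(L / 64)) := by
          rw [← Real.exp_nat_mul]
          congr 1
          ring
      _ ≤ u := by
          rw [hu]
          apply Real.exp_le_exp.2
          have : Γ * L ≤ 1 * L := mul_le_mul_of_nonneg_right hΓ1 hL.le
          linarith
  have hpos1 : ∀ s : ℝ, 1 ≤ Real.exp (Γ / 4 * |s|) := fun s => Real.one_le_exp (by positivity)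
  have hgen : ∀ (s : ℝ) (z : ℂ), (16 * |s| ≤ L → ‖z‖ ≤ C' * (1 / 2) ^ L) → ‖z‖ ≤ 8 →
      ‖z‖ ≤ (C' + 8) * (Real.exp (Γ / 4 * |s|) * u) := by
    intro s z h1 h2
    have h3 := hpos1 s
    rcases le_or_gt (16 * |s|) (L : ℝ) with h | h
    · calc ‖z‖ ≤ C' * (1 / 2) ^ L := h1 h
        _ ≤ C' * (1 * u) := by rw [one_mul]; gcongr
        _ ≤ (C' + 8) * (Real.exp (Γ / 4 * |s|) * u) := by gcongr; linarith
    · have h4 : 1 ≤ Real.exp (Γ / 4 * |s|) * u := by
        rw [hu, ← Real.exp_add]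
        apply Real.one_le_exp
        have h5 : Γ * L ≤ Γ * (16 * |s|) := mul_le_mul_of_nonneg_left h.le hΓ.le
        linarith
      nlinarith
  have jsub : ∀ i s, ‖mn (cc i) s - jm (m i) s‖ ≤ (C' + 8) * (Real.exp (Γ / 4 * |s|) * u) := by
    intro i s
    refine hgen s _ (fun hs => ?_) ?_
    · have h1 := hJ i L s hs
      refine le_trans (le_of_eq ?_) (h1.trans ?_)
      · rfl
      · exact mul_le_mul_of_nonneg_right (hC'i i) (by positivity)
    · refine (norm_sub_le _ _).trans ?_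
      have := mL_norm i s
      have := jn i s
      linarith
  have hmain : 16 * D * (u / Γ) ≤ η / 2 := by
    have h1 := htail Γ hΓ (hΓr.trans_le hr2)
    have h2 : Γ ^ (-θ) ≤ Γ * L := by
      have h3 : 1 ≤ Γ ^ (1 + θ) * L := by
        rw [div_le_iff₀ hL] at hLr
        exact hLr
      have h4 : Γ ^ (1 + θ) = Γ * Γ ^ θ := by
        rw [Real.rpow_add hΓ, Real.rpow_one]
      have h5 : 0 < Γ ^ θ := Real.rpow_pos_of_pos hΓ _
      rw [Real.rpow_neg hΓ.le, inv_le_iff_one_le_mul₀ h5]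
      rw [h4] at h3
      linarith
    have h6 : u / Γ ≤ η / 2 / (16 * D) := by
      refine le_trans ?_ h1
      apply div_le_div_of_nonneg_right _ hΓ.le
      rw [hu]
      apply Real.exp_le_exp.2
      linarith
    rw [le_div_iff₀ (by positivity)] at h6
    linarith
  have g1 : ∀ s, ‖∏ i, mn (cc i) s - ∏ i, jm (m i) s‖ ≤ D * (Real.exp (Γ / 4 * |s|) * u) := by
    intro s
    refine (prod_sub_le Finset.univ (fun i => mn (cc i) s) (fun i => jm (m i) s)
      (fun i => mL_norm i s) (fun i => jn i s)).trans ?_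
    refine (Finset.sum_le_sum fun i _ => jsub i s).trans ?_
    rw [Finset.sum_const, Finset.card_univ, Fintype.card_fin, nsmul_eq_mul]
    calc (d : ℝ) * ((C' + 8) * (Real.exp (Γ / 4 * |s|) * u)) ≤
          (4 * d) * ((C' + 8) * (Real.exp (Γ / 4 * |s|) * u)) := by
          gcongr; linarith
      _ = D * (Real.exp (Γ / 4 * |s|) * u) := by rw [hD]; ring
  have g3 : ∀ s, ‖∏ i, mn (cc i) s‖ ≤ 4 := by
    intro s
    rw [norm_prod]
    exact (Finset.prod_le_one (fun j _ => norm_nonneg _) (fun j _ => mL_norm j s)).trans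
      (by norm_num)
  have h1 := mainH (Ψ := fun s => ∏ i, jm (m i) s) (ΨL := fun s => ∏ i, mn (cc i) s)
    (continuous_finsetProd _ fun i _ => jc i) (continuous_finsetProd _ fun i _ => mn_cont _)
    (by positivity) hD0.le hu0.le g1 dec1 g3 hΓ hE hΓr
  have h2 := mean_eqH (L := L) (d := d) cc (E' := E') hΓ
  have h3 : ((NN d L : ℝ) : ℂ)⁻¹ * ∑ k : T d L, ((cqm m k : ℝ) : ℂ) *
      (((adj k - E' : ℝ) : ℂ) - (Γ : ℂ) * Complex.I)⁻¹ =
      ((NN d L : ℝ) : ℂ)⁻¹ * ∑ k : T d L, ((∏ i, cc i (k i) : ℝ) : ℂ) *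
      (((adj k - E' : ℝ) : ℂ) - (Γ : ℂ) * Complex.I)⁻¹ := rfl
  rw [h3, h2]
  unfold cm
  rw [← mul_sub, norm_mul, Complex.norm_I, one_mul]
  refine le_trans h1 ?_
  linarith

end Pool.Agent.T2h98.PS
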