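import Pool.Agent.T2h98.PS.Stm
import Pool.Agent.T2h98.QD.Cmp

/-! Slowly varying functions and shifts: from the matrix elements to the eigenvectors. -/

set_option autoImplicit false
set_option linter.unusedSectionVars false

open scoped BigOperators Matrix Topology
open MeasureTheory ProbabilityTheory Filter

namespace Pool.Agent.T2h98.PS

open Pool.Agent.W788.MFP.Four (T e NN adj K)
open Pool.Agent.T2h98.QD

namespace Pco

section abs

variable {ι : Type} [Fintype ι] [DecidableEq ι]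

theorem complete {u : ι → ι → ℂ} (hu : ∀ j k, star (u j) ⬝ᵥ u k = if j = k then 1 else 0)
    (x y : ι) : ∑ l, u l x * star (u l y) = if x = y then 1 else 0 := by
  have h1 : (Matrix.of fun j x => star (u j x) : Matrix ι ι ℂ) *
      (Matrix.of fun x j => u j x : Matrix ι ι ℂ) = (1 : Matrix ι ι ℂ) := by
    ext j k
    rw [Matrix.mul_apply, Matrix.one_apply]
    exact hu j k
  have h2 := Matrix.ext_iff.2 (mul_eq_one_comm.1 h1) x y
  rw [Matrix.mul_apply, Matrix.one_apply] at h2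
  exact h2

theorem parseval {u : ι → ι → ℂ} (hu : ∀ j k, star (u j) ⬝ᵥ u k = if j = k then 1 else 0)
    (a b : ι → ℂ) : ∑ l, (∑ x, a x * u l x) * (∑ y, star (u l y) * b y) = ∑ x, a x * b x := by
  have h1 : ∀ l, (∑ x, a x * u l x) * (∑ y, star (u l y) * b y) =
      ∑ x, ∑ y, (a x * b y) * (u l x * star (u l y)) := by
    intro l
    rw [Finset.sum_mul_sum]
    exact Finset.sum_congr rfl fun x _ => Finset.sum_congr rfl fun y _ => by ring
  rw [Finset.sum_congr rfl fun l _ => h1 l, Finset.sum_comm]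
  refine Finset.sum_congr rfl fun x _ => ?_
  rw [Finset.sum_comm]
  have h2 : ∀ y, ∑ l, (a x * b y) * (u l x * star (u l y)) =
      if x = y then a x * b y else 0 := by
    intro y
    rw [← Finset.mul_sum, complete hu]
    split_ifs <;> simp
  rw [Finset.sum_congr rfl fun y _ => h2 y, Finset.sum_ite_eq]
  simp

theorem parseval_sq {u : ι → ι → ℂ} (hu : ∀ j k, star (u j) ⬝ᵥ u k = if j = k then 1 else 0)
    (a : ι → ℂ) : ∑ l, ‖∑ x, a x * u l x‖ ^ 2 = ∑ x, ‖a x‖ ^ 2 := by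
  have h1 := parseval hu a (fun y => star (a y))
  have h2 : ∀ l, (∑ x, a x * u l x) * (∑ y, star (u l y) * star (a y)) =
      ((‖∑ x, a x * u l x‖ ^ 2 : ℝ) : ℂ) := by
    intro l
    have h3 : ∑ y, star (u l y) * star (a y) = star (∑ x, a x * u l x) := by
      rw [star_sum]
      exact Finset.sum_congr rfl fun y _ => by rw [star_mul']; ring
    rw [h3]
    push_cast
    exact Complex.mul_conj' _
  have h3 : ∀ x, a x * star (a x) = ((‖a x‖ ^ 2 : ℝ) : ℂ) := by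
    intro x
    push_cast
    exact Complex.mul_conj' _
  rw [Finset.sum_congr rfl fun l _ => h2 l, Finset.sum_congr rfl fun x _ => h3 x,
    ← Complex.ofReal_sum, ← Complex.ofReal_sum] at h1
  exact Complex.ofReal_injective h1

theorem parseval_sq' {u : ι → ι → ℂ} (hu : ∀ j k, star (u j) ⬝ᵥ u k = if j = k then 1 else 0)
    (v : ι → ℂ) : ∑ l, ‖star (u l) ⬝ᵥ v‖ ^ 2 = ∑ x, ‖v x‖ ^ 2 := by
  have h1 := parseval_sq hu (fun x => star (v x))
  have h2 : ∀ l, ‖star (u l) ⬝ᵥ v‖ = ‖∑ x, star (v x) * u l x‖ := by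
    intro l
    rw [← norm_star (star (u l) ⬝ᵥ v)]
    congr 1
    unfold dotProduct
    rw [star_sum]
    exact Finset.sum_congr rfl fun x _ => by rw [star_mul', Pi.star_apply, star_star]; ring
  rw [Finset.sum_congr rfl fun l _ => by rw [h2 l], h1]
  exact Finset.sum_congr rfl fun x _ => by rw [norm_star]

theorem cs (a b : ι → ℂ) : ‖∑ l, a l * b l‖ ^ 2 ≤ (∑ l, ‖a l‖ ^ 2) * ∑ l, ‖b l‖ ^ 2 := by
  have h1 : ‖∑ l, a l * b l‖ ≤ ∑ l, ‖a l‖ * ‖b l‖ :=
    (norm_sum_le _ _).trans (le_of_eq (Finset.sum_congr rfl fun l _ => norm_mul _ _))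
  calc ‖∑ l, a l * b l‖ ^ 2 ≤ (∑ l, ‖a l‖ * ‖b l‖) ^ 2 := pow_le_pow_left₀ (norm_nonneg _) h1 2
    _ ≤ _ := Finset.sum_mul_sq_le_sq_mul_sq _ _ _

theorem core {u : ι → ι → ℂ} (hu : ∀ j k, star (u j) ⬝ᵥ u k = if j = k then 1 else 0)
    (w : ι → ℝ) (c : ℂ) {ε : ℝ} (hε : 0 < ε) (j : ι) (f v h : ι → ℂ) (hf : ∀ x, ‖f x‖ ≤ 1)
    (hv : ∑ x, ‖v x‖ ^ 2 ≤ 1)
    (hh : ∀ l, ((w j - w l : ℝ) : ℂ) * ∑ x, (f x * star (u j x)) * u l x = ∑ x, h x * u l x)
    {B : ℝ} (hB : ∑ x, ‖h x‖ ^ 2 ≤ (2 * ε) ^ 2 * B) :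
    ‖∑ x, f x * (star (u j x) * v x) - c * ∑ x, f x * ((‖u j x‖ ^ 2 : ℝ) : ℂ)‖ ^ 2 ≤
      2 * ∑ l, ‖(star (u l) ⬝ᵥ v) *
        (((2 * ε : ℝ) : ℂ) / (((2 * ε : ℝ) : ℂ) - ((w l - w j : ℝ) : ℂ) * Complex.I)) -
        if l = j then c else 0‖ ^ 2 + 2 * B := by
  obtain ⟨F, hF⟩ : ∃ F : ι → ℂ, F = fun l => ∑ x, (f x * star (u j x)) * u l x := ⟨_, rfl⟩
  obtain ⟨A, hA⟩ : ∃ A : ι → ℂ, A = fun l => star (u l) ⬝ᵥ v := ⟨_, rfl⟩
  obtain ⟨D, hD⟩ : ∃ D : ι → ℂ, D = fun l =>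
    (((2 * ε : ℝ) : ℂ) - ((w l - w j : ℝ) : ℂ) * Complex.I) := ⟨_, rfl⟩
  obtain ⟨X, hX⟩ : ∃ X : ι → ℂ, X = fun l => A l * (((2 * ε : ℝ) : ℂ) / D l) -
    if l = j then c else 0 := ⟨_, rfl⟩
  have hXX : (∑ l, ‖(star (u l) ⬝ᵥ v) *
        (((2 * ε : ℝ) : ℂ) / (((2 * ε : ℝ) : ℂ) - ((w l - w j : ℝ) : ℂ) * Complex.I)) -
        if l = j then c else 0‖ ^ 2) = ∑ l, ‖X l‖ ^ 2 := by
    rw [hX, hA, hD]
  rw [hXX]
  have h1 : ∑ x, f x * (star (u j x) * v x) = ∑ l, F l * A l := by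
    have h := parseval hu (fun x => f x * star (u j x)) v
    rw [hF, hA]
    unfold dotProduct
    simp only [Pi.star_apply]
    rw [h]
    exact Finset.sum_congr rfl fun x _ => by ring
  have h2 : ∑ x, f x * ((‖u j x‖ ^ 2 : ℝ) : ℂ) = F j := by
    rw [hF]
    refine Finset.sum_congr rfl fun x _ => ?_
    have : star (u j x) * u j x = ((‖u j x‖ ^ 2 : ℝ) : ℂ) := by
      push_cast
      rw [mul_comm]
      exact Complex.mul_conj' _
    rw [mul_assoc, this]
  have hD0 : ∀ l, 2 * ε ≤ ‖D l‖ := by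
    intro l
    have h3 := Complex.abs_re_le_norm (D l)
    have h4 : (D l).re = 2 * ε := by
      rw [hD]
      simp
    rw [h4, abs_of_pos (by positivity)] at h3
    exact h3
  have hD1 : ∀ l, D l ≠ 0 := fun l h => by
    have := hD0 l
    rw [h, norm_zero] at this
    linarith
  have h3 : ∑ l, F l * A l - c * F j = ∑ l, F l * X l +
      ∑ l, (F l * (1 - ((2 * ε : ℝ) : ℂ) / D l)) * A l := by
    have h4 : ∑ l, F l * X l = ∑ l, F l * (A l * (((2 * ε : ℝ) : ℂ) / D l)) - c * F j := by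
      have h5 : ∀ l, F l * X l = F l * (A l * (((2 * ε : ℝ) : ℂ) / D l)) -
          if l = j then c * F l else 0 := by
        intro l
        rw [hX]
        dsimp only
        split_ifs <;> ring
      rw [Finset.sum_congr rfl fun l _ => h5 l, Finset.sum_sub_distrib, Finset.sum_ite_eq']
      simp
    rw [h4]
    have h5 : ∑ l, F l * A l = ∑ l, F l * (A l * (((2 * ε : ℝ) : ℂ) / D l)) +
        ∑ l, (F l * (1 - ((2 * ε : ℝ) : ℂ) / D l)) * A l := by
      rw [← Finset.sum_add_distrib]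
      exact Finset.sum_congr rfl fun l _ => by ring
    rw [h5]
    ring
  have h4 : ‖∑ l, F l * X l‖ ^ 2 ≤ ∑ l, ‖X l‖ ^ 2 := by
    refine (cs F X).trans ?_
    have h5 : ∑ l, ‖F l‖ ^ 2 ≤ 1 := by
      rw [hF]
      have h := parseval_sq hu (fun x => f x * star (u j x))
      dsimp only at h ⊢
      rw [h]
      have h6 := hu j j
      rw [if_pos rfl] at h6
      have h7 : ∑ x, ‖u j x‖ ^ 2 = 1 := by
        have h8 : ((∑ x, ‖u j x‖ ^ 2 : ℝ) : ℂ) = 1 := by
          rw [← h6]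
          unfold dotProduct
          push_cast
          refine Finset.sum_congr rfl fun x _ => ?_
          rw [Pi.star_apply, mul_comm]
          exact (Complex.mul_conj' _).symm
        exact_mod_cast h8
      rw [← h7]
      refine Finset.sum_le_sum fun x _ => ?_
      rw [norm_mul, norm_star, mul_pow]
      have h8 : ‖f x‖ ^ 2 ≤ 1 := pow_le_one₀ (norm_nonneg _) (hf x)
      nlinarith [sq_nonneg ‖u j x‖]
    have h6 : 0 ≤ ∑ l, ‖X l‖ ^ 2 := Finset.sum_nonneg fun l _ => by positivity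
    nlinarith
  have hB0 : 0 ≤ B := by
    have h5 : 0 ≤ ∑ x, ‖h x‖ ^ 2 := Finset.sum_nonneg fun l _ => by positivity
    have h6 : 0 < (2 * ε) ^ 2 := by positivity
    nlinarith
  have h5 : ‖∑ l, (F l * (1 - ((2 * ε : ℝ) : ℂ) / D l)) * A l‖ ^ 2 ≤ B := by
    refine (cs _ A).trans ?_
    have h6 : ∑ l, ‖A l‖ ^ 2 ≤ 1 := by
      rw [hA]
      dsimp only
      rw [parseval_sq' hu v]
      exact hv
    have h7 : ∑ l, ‖F l * (1 - ((2 * ε : ℝ) : ℂ) / D l)‖ ^ 2 ≤ B := by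
      have h8 : ∀ l, ‖F l * (1 - ((2 * ε : ℝ) : ℂ) / D l)‖ ^ 2 ≤
          ((2 * ε) ^ 2)⁻¹ * ‖∑ x, h x * u l x‖ ^ 2 := by
        intro l
        have h9 : F l * (1 - ((2 * ε : ℝ) : ℂ) / D l) =
            (((w j - w l : ℝ) : ℂ) * F l) * Complex.I / D l := by
          rw [one_sub_div (hD1 l), hD]
          push_cast
          ring
        rw [h9, hF]
        dsimp only
        rw [hh l, norm_div, norm_mul, Complex.norm_I, mul_one, div_pow, div_eq_inv_mul]
        refine mul_le_mul_of_nonneg_right ?_ (by positivity)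
        exact inv_anti₀ (by positivity) (pow_le_pow_left₀ (by positivity) (hD0 l) 2)
      refine (Finset.sum_le_sum fun l _ => h8 l).trans ?_
      rw [← Finset.mul_sum, parseval_sq hu h, inv_mul_le_iff₀ (by positivity)]
      exact hB
    have h8 : 0 ≤ ∑ l, ‖A l‖ ^ 2 := Finset.sum_nonneg fun l _ => by positivity
    nlinarith
  rw [h1, h2, h3]
  have h6 := norm_add_le (∑ l, F l * X l) (∑ l, (F l * (1 - ((2 * ε : ℝ) : ℂ) / D l)) * A l)
  have h7 := pow_le_pow_left₀ (norm_nonneg _) h6 2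
  nlinarith [sq_nonneg (‖∑ l, F l * X l‖ - ‖∑ l, (F l * (1 - ((2 * ε : ℝ) : ℂ) / D l)) * A l‖)]

end abs


section torus

variable {d L : ℕ} [NeZero L]

theorem norm_sq_sum {u : T d L → T d L → ℂ}
    (hu : ∀ j k, star (u j) ⬝ᵥ u k = if j = k then 1 else 0) (j : T d L) :
    ∑ x, ‖u j x‖ ^ 2 = 1 := by
  have h6 := hu j j
  rw [if_pos rfl] at h6
  have h8 : ((∑ x, ‖u j x‖ ^ 2 : ℝ) : ℂ) = 1 := by
    rw [← h6]
    unfold dotProduct
    push_cast
    refine Finset.sum_congr rfl fun x _ => ?_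
    rw [Pi.star_apply, mul_comm]
    exact (Complex.mul_conj' _).symm
  exact_mod_cast h8

/-- the commutator applied to an eigenvector -/
noncomputable def hc (f v : T d L → ℂ) (x : T d L) : ℂ :=
  ∑ i : Fin d, ((f x - f (x + Pi.single i 1)) * star (v (x + Pi.single i 1)) +
    (f x - f (x - Pi.single i 1)) * star (v (x - Pi.single i 1)))

theorem hc_eq (f v z : T d L → ℂ) (σ : ℝ) (V : T d L → ℝ) (a b : ℝ)
    (hv : HT σ V *ᵥ v = (a : ℂ) • v) (hz : HT σ V *ᵥ z = (b : ℂ) • z) :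
    ((a - b : ℝ) : ℂ) * ∑ x, (f x * star (v x)) * z x = ∑ x, hc f v x * z x := by
  have h1 : ∀ x, (a : ℂ) * star (v x) = ∑ i : Fin d, (star (v (x + Pi.single i 1)) +
      star (v (x - Pi.single i 1))) + ((σ * V x : ℝ) : ℂ) * star (v x) := by
    intro x
    have h2 := congrFun hv x
    rw [Cmp.HT_mulVec, Pi.smul_apply, smul_eq_mul] at h2
    have h3 := congrArg star h2
    rw [star_add, star_sum, star_mul', star_mul'] at h3
    have h4 : ∀ r : ℝ, star (r : ℂ) = (r : ℂ) := fun r => Complex.conj_ofReal r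
    rw [h4, h4] at h3
    rw [← h3]
    congr 1
    exact Finset.sum_congr rfl fun i _ => by rw [star_add]
  have h2 : ∀ x, (b : ℂ) * z x = ∑ i : Fin d, (z (x + Pi.single i 1) +
      z (x - Pi.single i 1)) + ((σ * V x : ℝ) : ℂ) * z x := by
    intro x
    have h2 := congrFun hz x
    rw [Cmp.HT_mulVec, Pi.smul_apply, smul_eq_mul] at h2
    exact h2.symm
  have h3 : ((a - b : ℝ) : ℂ) * ∑ x, (f x * star (v x)) * z x =
      ∑ x, (f x * (∑ i : Fin d, (star (v (x + Pi.single i 1)) + star (v (x - Pi.single i 1)))) *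
        z x - f x * star (v x) * ∑ i : Fin d, (z (x + Pi.single i 1) + z (x - Pi.single i 1))) := by
    rw [Finset.mul_sum]
    refine Finset.sum_congr rfl fun x _ => ?_
    push_cast
    have h4 : ((a : ℂ) - b) * (f x * star (v x) * z x) = f x * ((a : ℂ) * star (v x)) * z x -
      f x * star (v x) * ((b : ℂ) * z x) := by ring
    rw [h4, h1 x, h2 x]
    ring
  rw [h3]
  simp only [Finset.mul_sum, Finset.sum_mul, hc]
  have h8 : ∀ F G H : T d L → Fin d → ℂ, (∀ i, ∑ x, F x i - ∑ x, G x i = ∑ x, H x i) →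
      ∑ x, (∑ i, F x i - ∑ i, G x i) = ∑ x, ∑ i, H x i := by
    intro F G H h
    rw [Finset.sum_sub_distrib, Finset.sum_comm, Finset.sum_comm (f := G),
      ← Finset.sum_sub_distrib, Finset.sum_comm (f := H)]
    exact Finset.sum_congr rfl fun i _ => h i
  refine h8 _ _ _ fun i => ?_
  have h5 : ∑ x, f x * star (v x) * z (x + Pi.single i 1) =
      ∑ x, f (x - Pi.single i 1) * star (v (x - Pi.single i 1)) * z x := by
    refine Fintype.sum_equiv (Equiv.addRight (Pi.single i 1 : T d L)) _ _ fun x => ?_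
    simp
  have h6 : ∑ x, f x * star (v x) * z (x - Pi.single i 1) =
      ∑ x, f (x + Pi.single i 1) * star (v (x + Pi.single i 1)) * z x := by
    refine Fintype.sum_equiv (Equiv.subRight (Pi.single i 1 : T d L)) _ _ fun x => ?_
    simp
  have h7 : ∑ x, f x * star (v x) * (z (x + Pi.single i 1) + z (x - Pi.single i 1)) =
      ∑ x, f (x - Pi.single i 1) * star (v (x - Pi.single i 1)) * z x +
      ∑ x, f (x + Pi.single i 1) * star (v (x + Pi.single i 1)) * z x := by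
    rw [← h5, ← h6, ← Finset.sum_add_distrib]
    exact Finset.sum_congr rfl fun x _ => by ring
  rw [h7, ← Finset.sum_add_distrib, ← Finset.sum_sub_distrib]
  exact Finset.sum_congr rfl fun x _ => by ring

theorem hc_bound (f v : T d L → ℂ) {ℓ : ℝ}
    (hf : ∀ x i, ‖f (x + Pi.single i 1) - f x‖ ≤ ℓ) (hv : ∑ x, ‖v x‖ ^ 2 = 1) :
    ∑ x, ‖hc f v x‖ ^ 2 ≤ 4 * (d * ℓ) ^ 2 := by
  have h1 : ∀ x, ‖hc f v x‖ ^ 2 ≤ d * ∑ i : Fin d, 2 * ℓ ^ 2 *
      (‖v (x + Pi.single i 1)‖ ^ 2 + ‖v (x - Pi.single i 1)‖ ^ 2) := by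
    intro x
    have h2 : ‖hc f v x‖ ≤ ∑ i : Fin d, ℓ * (‖v (x + Pi.single i 1)‖ + ‖v (x - Pi.single i 1)‖) := by
      unfold hc
      refine (norm_sum_le _ _).trans (Finset.sum_le_sum fun i _ => ?_)
      refine (norm_add_le _ _).trans ?_
      rw [norm_mul, norm_mul, norm_star, norm_star, mul_add]
      refine add_le_add (mul_le_mul_of_nonneg_right ?_ (norm_nonneg _))
        (mul_le_mul_of_nonneg_right ?_ (norm_nonneg _))
      · rw [norm_sub_rev]
        exact hf x i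
      · have h3 := hf (x - Pi.single i 1) i
        rwa [sub_add_cancel] at h3
    calc ‖hc f v x‖ ^ 2 ≤ (∑ i : Fin d, ℓ * (‖v (x + Pi.single i 1)‖ +
          ‖v (x - Pi.single i 1)‖)) ^ 2 := pow_le_pow_left₀ (norm_nonneg _) h2 2
      _ ≤ d * ∑ i : Fin d, (ℓ * (‖v (x + Pi.single i 1)‖ + ‖v (x - Pi.single i 1)‖)) ^ 2 := by
          have h3 := sq_sum_le_card_mul_sum_sq (s := (Finset.univ : Finset (Fin d)))
            (f := fun i => ℓ * (‖v (x + Pi.single i 1)‖ + ‖v (x - Pi.single i 1)‖))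
          rw [Finset.card_univ, Fintype.card_fin] at h3
          exact h3
      _ ≤ _ := by
          refine mul_le_mul_of_nonneg_left (Finset.sum_le_sum fun i _ => ?_) (Nat.cast_nonneg d)
          have h3 : 0 ≤ ℓ ^ 2 * (‖v (x + Pi.single i 1)‖ - ‖v (x - Pi.single i 1)‖) ^ 2 := by
            positivity
          nlinarith [h3]
  refine (Finset.sum_le_sum fun x _ => h1 x).trans ?_
  rw [← Finset.mul_sum, Finset.sum_comm]
  have h2 : ∀ i : Fin d, ∑ x : T d L, 2 * ℓ ^ 2 *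
      (‖v (x + Pi.single i 1)‖ ^ 2 + ‖v (x - Pi.single i 1)‖ ^ 2) = 4 * ℓ ^ 2 := by
    intro i
    rw [← Finset.mul_sum, Finset.sum_add_distrib]
    have h3 : ∑ x : T d L, ‖v (x + Pi.single i 1)‖ ^ 2 = 1 := by
      rw [← hv]
      exact Fintype.sum_equiv (Equiv.addRight (Pi.single i 1 : T d L)) _ _ fun x => by simp
    have h4 : ∑ x : T d L, ‖v (x - Pi.single i 1)‖ ^ 2 = 1 := by
      rw [← hv]
      exact Fintype.sum_equiv (Equiv.subRight (Pi.single i 1 : T d L)) _ _ fun x => by simp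
    rw [h3, h4]
    ring
  rw [Finset.sum_congr rfl fun i _ => h2 i, Finset.sum_const, Finset.card_univ, Fintype.card_fin,
    nsmul_eq_mul]
  exact le_of_eq (by ring)

end torus

end Pco

open Pco in
theorem pco (hS : T_PSY) : T_PCO := by
  intro d L _ m c ε σ ℓ hε _ V u w hEB f hf1 hf2
  obtain ⟨hE, hu⟩ := hEB
  obtain ⟨-, -, hsh, -⟩ := hS d L m
  have hN : (0 : ℝ) < NN d L := Pool.Agent.W788.MFP.Four.NN_pos
  have key : ∀ j, ‖∑ x, f x * (star (u j x) * (Mo (chm m) *ᵥ u j) x) -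
      (c (w j) : ℂ) * ∑ x, f x * ((‖u j x‖ ^ 2 : ℝ) : ℂ)‖ ^ 2 ≤
      2 * ∑ l, ‖Xm m c ε u w l j‖ ^ 2 + 2 * (d * ℓ / ε) ^ 2 := by
    intro j
    have hv : ∑ x, ‖(Mo (chm m) *ᵥ u j) x‖ ^ 2 ≤ 1 := by
      rw [Finset.sum_congr rfl fun x _ => by rw [hsh (u j) x]]
      rw [← norm_sq_sum hu j]
      exact le_of_eq (Fintype.sum_equiv (Equiv.addRight
        ((fun i => ((m i : ℤ) : ZMod L)) : T d L)) _ _ fun x => by simp)
    have h1 := core hu w (c (w j) : ℂ) hε j f (Mo (chm m) *ᵥ u j) (hc f (u j)) hf1 hv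
      (fun l => hc_eq f (u j) (u l) σ V (w j) (w l) (hE j) (hE l)) (B := (d * ℓ / ε) ^ 2) (by
        refine (hc_bound f (u j) hf2 (norm_sq_sum hu j)).trans (le_of_eq ?_)
        field_simp
        ring)
    refine h1.trans (le_of_eq ?_)
    congr 2
    refine Finset.sum_congr rfl fun l _ => ?_
    unfold Xm
    by_cases hl : l = j
    · rw [if_pos hl, if_pos hl, hl]
    · rw [if_neg hl, if_neg hl]
  have h2 : ∑ j, ‖∑ x, f x * (star (u j x) * (Mo (chm m) *ᵥ u j) x) -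
      (c (w j) : ℂ) * ∑ x, f x * ((‖u j x‖ ^ 2 : ℝ) : ℂ)‖ ^ 2 ≤
      2 * (∑ j, ∑ l, ‖Xm m c ε u w j l‖ ^ 2) + NN d L * (2 * (d * ℓ / ε) ^ 2) := by
    refine (Finset.sum_le_sum fun j _ => key j).trans (le_of_eq ?_)
    rw [Finset.sum_add_distrib, ← Finset.mul_sum, Finset.sum_comm, Finset.sum_const,
      Finset.card_univ, nsmul_eq_mul, Pool.Agent.W788.MFP.Four.card_T]
  calc _ ≤ (NN d L)⁻¹ * (2 * (∑ j, ∑ l, ‖Xm m c ε u w j l‖ ^ 2) +
        NN d L * (2 * (d * ℓ / ε) ^ 2)) := mul_le_mul_of_nonneg_left h2 (inv_nonneg.2 hN.le)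
    _ = _ := by
        rw [mul_add, inv_mul_cancel_left₀ hN.ne']
        ring

end Pool.Agent.T2h98.PS
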