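import Pool.Agent.T2h98.PS.Stm

/-! # Project PS: counting of the eigenvalues of small density -/

set_option autoImplicit false
set_option linter.all false

open scoped BigOperators Matrix Topology
open MeasureTheory ProbabilityTheory Filter

namespace Pool.Agent.T2h98.PS

open Pool.Agent.W788.MFP.Four (T e NN adj K)
open Pool.Agent.T2h98.QD
open Pool.Agent.T2h98.KU

theorem t_PCT (hG : T_PEG) (hP : T_PPO) (hD : T_DOS) (hI : T_PEI) : T_PCT := by
  intro d hd c0 hc0
  classical
  obtain ⟨hcont, -, h0, -, hsup, -⟩ := hD d hd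
  have hcs : HasCompactSupport (dn d) := by
    refine HasCompactSupport.intro (isCompact_Icc (a := -(2 * (d : ℝ))) (b := 2 * (d : ℝ))) ?_
    intro x hx
    refine (hsup x ?_).1
    by_contra hlt
    push Not at hlt
    exact hx (Set.mem_Icc.2 ⟨(abs_lt.1 hlt).1.le, (abs_lt.1 hlt).2.le⟩)
  have huc : UniformContinuous (dn d) := hcs.uniformContinuous_of_continuous hcont
  obtain ⟨r, hr, hru⟩ := Metric.uniformContinuous_iff.1 huc c0 hc0
  obtain ⟨ε0, hε0, hmain⟩ := hP.2 r hr
  refine ⟨ε0, hε0, ?_⟩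
  intro ε hε hlt L _ σ V u w hEB
  set S : Set ℝ := {E : ℝ | dn d E < 2 * c0} with hS
  have hSm : MeasurableSet S := (isOpen_lt hcont continuous_const).measurableSet
  have hN : (0 : ℝ) < NN d L := by
    have h1 : 0 < L := Nat.pos_of_ne_zero (NeZero.ne L)
    unfold NN
    positivity
  have hint : ∀ j : T d L, Integrable (fun E : ℝ => ε / ((w j - E) ^ 2 + ε ^ 2)) := fun j =>
    (hI (w j) (w j) ε hε).2.2.1
  have hDS : ∫ E in S, DS E ε σ V = (NN d L)⁻¹ * ∑ j, ∫ E in S, ε / ((w j - E) ^ 2 + ε ^ 2) := by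
    rw [← integral_finsetSum _ (fun j _ => (hint j).integrableOn), ← integral_const_mul]
    refine integral_congr_ae (Eventually.of_forall fun E => ?_)
    exact (hG d L E ε σ hε V u w hEB).1
  have hkey : ∀ j : T d L, dn d (w j) < c0 →
      1 ≤ 2 / Real.pi * ∫ E in S, ε / ((w j - E) ^ 2 + ε ^ 2) := by
    intro j hj
    have h1 := hmain ε hε hlt (w j) S hSm (by
      intro y hy
      have h2 := hru (a := y) (b := w j) (by rw [Real.dist_eq, abs_sub_comm]; exact hy)
      rw [Real.dist_eq] at h2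
      have h3 := (abs_lt.1 h2).2
      show dn d y < 2 * c0
      linarith)
    have h4 : 2 / Real.pi * ∫ E in S, ε / ((w j - E) ^ 2 + ε ^ 2) =
        2 * (Real.pi⁻¹ * ∫ E in S, ε / ((w j - E) ^ 2 + ε ^ 2)) := by ring
    rw [h4]
    linarith
  have hnn : ∀ j : T d L, 0 ≤ 2 / Real.pi * ∫ E in S, ε / ((w j - E) ^ 2 + ε ^ 2) := by
    intro j
    refine mul_nonneg (by positivity) (integral_nonneg fun E => ?_)
    show 0 ≤ ε / ((w j - E) ^ 2 + ε ^ 2)
    positivity
  have hR : NN d L * (2 / Real.pi * ∫ E in S, DS E ε σ V) =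
      ∑ j, 2 / Real.pi * ∫ E in S, ε / ((w j - E) ^ 2 + ε ^ 2) := by
    rw [hDS, ← Finset.mul_sum]
    field_simp
  rw [hR]
  have hc : ({j | dn d (w j) < c0}.ncard : ℝ) =
      ∑ j ∈ Finset.univ.filter (fun j : T d L => dn d (w j) < c0), (1 : ℝ) := by
    rw [Finset.sum_const, nsmul_eq_mul, mul_one]
    congr 1
    rw [← Set.ncard_coe_finset]
    congr 1
    ext j
    simp
  rw [hc]
  calc ∑ j ∈ Finset.univ.filter (fun j : T d L => dn d (w j) < c0), (1 : ℝ)
      ≤ ∑ j ∈ Finset.univ.filter (fun j : T d L => dn d (w j) < c0),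
        2 / Real.pi * ∫ E in S, ε / ((w j - E) ^ 2 + ε ^ 2) :=
        Finset.sum_le_sum fun j hj => hkey j (Finset.mem_filter.1 hj).2
    _ ≤ _ := Finset.sum_le_sum_of_subset_of_nonneg (Finset.filter_subset _ _)
        (fun j _ _ => hnn j)

end Pool.Agent.T2h98.PS
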