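import Pool.Agent.T2h98.PS.Stm

/-! The variance in terms of the integral over the energy -/

set_option autoImplicit false
set_option linter.unusedSectionVars false

open scoped BigOperators Matrix Topology
open MeasureTheory ProbabilityTheory Filter

namespace Pool.Agent.T2h98.PS

open Pool.Agent.W788.MFP.Four (T e NN adj K)
open Pool.Agent.W788.BK (nsq hs PP JJ hi Low cr)
open Pool.Agent.T2h98.QD
open Pool.Agent.T2h98.AC (TX RX mX sy Rb Fk)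
open Pool.Agent.T2h98.KU

/-- the adjoint matrix elements -/
theorem pde_adj {d L : ℕ} [NeZero L] (A : Matrix (T d L) (T d L) ℂ) (u v : T d L → ℂ) :
    star u ⬝ᵥ (Aᴴ *ᵥ v) = star (star v ⬝ᵥ (A *ᵥ u)) := by
  rw [← Matrix.star_dotProduct, Matrix.star_mulVec, ← Matrix.dotProduct_mulVec]

/-- the square of the Lorentz factor -/
theorem pde_fac (x ε : ℝ) :
    ‖(((2 * ε : ℝ) : ℂ) / (((2 * ε : ℝ) : ℂ) - ((x : ℝ) : ℂ) * Complex.I))‖ ^ 2 =
      4 * ε ^ 2 / (x ^ 2 + 4 * ε ^ 2) := by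
  rw [norm_div, div_pow, Complex.sq_norm, Complex.sq_norm, Complex.normSq_apply,
    Complex.normSq_apply]
  simp
  congr 1 <;> ring

/-- the real part of the integral -/
theorem pde_re (x ε : ℝ) (hε : 0 < ε) :
    (2 * Real.pi * Complex.I / (((x : ℝ) : ℂ) + ((2 * ε : ℝ) : ℂ) * Complex.I)).re =
      Real.pi / ε * (4 * ε ^ 2 / (x ^ 2 + 4 * ε ^ 2)) := by
  rw [Complex.div_re, Complex.normSq_apply]
  simp
  field_simp
  ring

/-- a diagonal matrix element of a shift -/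
theorem pde_diag (hS : T_PSY) {d L : ℕ} [NeZero L] (m : Fin d → ℤ) (u : T d L → ℂ)
    (hu : star u ⬝ᵥ u = 1) : ‖star u ⬝ᵥ (Mo (chm m) *ᵥ u)‖ ≤ 1 := by
  obtain ⟨-, -, h3, -⟩ := hS d L m
  have h1 : ∑ x, ‖u x‖ ^ 2 = 1 := by
    have h2 : ((∑ x, ‖u x‖ ^ 2 : ℝ) : ℂ) = 1 := by
      rw [← hu]
      simp only [dotProduct, Pi.star_apply]
      push_cast
      refine Finset.sum_congr rfl fun x _ => ?_
      rw [Complex.star_def, mul_comm, Complex.mul_conj, Complex.normSq_eq_norm_sq]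
      push_cast
      rfl
    exact_mod_cast h2
  have h4 : ∑ x, ‖u (x + fun i => ((m i : ℤ) : ZMod L))‖ ^ 2 = 1 := by
    rw [← h1]
    exact Equiv.sum_comp (Equiv.addRight (fun i => ((m i : ℤ) : ZMod L)))
      (fun x => ‖u x‖ ^ 2)
  calc ‖star u ⬝ᵥ (Mo (chm m) *ᵥ u)‖ ≤
      ∑ x, ‖u x‖ * ‖u (x + fun i => ((m i : ℤ) : ZMod L))‖ := by
        unfold dotProduct
        refine (norm_sum_le _ _).trans (Finset.sum_le_sum fun x _ => ?_)
        rw [norm_mul, h3, Pi.star_apply, norm_star]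
    _ ≤ ∑ x, (‖u x‖ ^ 2 + ‖u (x + fun i => ((m i : ℤ) : ZMod L))‖ ^ 2) / 2 := by
        refine Finset.sum_le_sum fun x _ => ?_
        nlinarith [sq_nonneg (‖u x‖ - ‖u (x + fun i => ((m i : ℤ) : ZMod L))‖)]
    _ = 1 := by
        rw [← Finset.sum_div, Finset.sum_add_distrib, h1, h4]
        norm_num

/-- the algebra of the squares -/
theorem pde_sq (A : ℂ) (c : ℝ) : ‖A - (c : ℂ)‖ ^ 2 = ‖A‖ ^ 2 - 2 * c * A.re + c ^ 2 := by
  rw [Complex.sq_norm, Complex.sq_norm, Complex.normSq_apply, Complex.normSq_apply]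
  simp
  ring

theorem T_PDE_of (hG : T_PEG) (hI : T_PEI) (hS : T_PSY) : T_PDE := by
  intro d L _ m c ε σ η hε hc hc1 hp1 hp2 V u w hEB
  obtain ⟨hEB1, hEB2⟩ := id hEB
  have hN : 0 < NN d L := Pool.Agent.W788.MFP.Four.NN_pos
  have hcard : (Fintype.card (T d L) : ℝ) = NN d L := Pool.Agent.W788.MFP.Four.card_T
  have hpi := Real.pi_pos
  have hη : 0 ≤ η := (abs_nonneg _).trans (hp1 0)
  obtain ⟨-, -, -, hS4⟩ := hS d L m
  -- matrix elements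
  set A : T d L → T d L → ℂ := fun j l => star (u j) ⬝ᵥ (Mo (chm m) *ᵥ u l) with hA
  have hAd : ∀ j, ‖A j j‖ ≤ 1 := fun j => by
    refine pde_diag hS m (u j) ?_
    rw [hEB2 j j, if_pos rfl]
  -- the squares of `Xm`
  have hX : ∀ j l, ‖Xm m c ε u w j l‖ ^ 2 =
      ‖A j l‖ ^ 2 * (4 * ε ^ 2 / ((w j - w l) ^ 2 + 4 * ε ^ 2)) +
        if j = l then (- 2 * c (w j) * (A j j).re + c (w j) ^ 2) else 0 := by
    intro j l
    unfold Xm
    by_cases hjl : j = l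
    · subst hjl
      rw [if_pos rfl, if_pos rfl, sub_self]
      have h1 : (((2 * ε : ℝ) : ℂ) / (((2 * ε : ℝ) : ℂ) - ((0 : ℝ) : ℂ) * Complex.I)) = 1 := by
        have : (((2 * ε : ℝ) : ℂ)) ≠ 0 := by
          rw [Complex.ofReal_ne_zero]
          positivity
        rw [Complex.ofReal_zero, zero_mul, sub_zero, div_self this]
      have h2 : 4 * ε ^ 2 / ((0 : ℝ) ^ 2 + 4 * ε ^ 2) = 1 := by
        have : 4 * ε ^ 2 ≠ 0 := by positivity
        rw [zero_pow two_ne_zero, zero_add, div_self this]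
      rw [h1, h2, mul_one, mul_one, pde_sq]
      ring
    · rw [if_neg hjl, if_neg hjl, sub_zero, add_zero, norm_mul, mul_pow, pde_fac]
  have hsumX : ∑ j, ∑ l, ‖Xm m c ε u w j l‖ ^ 2 =
      (∑ j, ∑ l, ‖A j l‖ ^ 2 * (4 * ε ^ 2 / ((w j - w l) ^ 2 + 4 * ε ^ 2))) +
        ∑ j, (- 2 * c (w j) * (A j j).re + c (w j) ^ 2) := by
    rw [← Finset.sum_add_distrib]
    refine Finset.sum_congr rfl fun j _ => ?_
    rw [Finset.sum_congr rfl fun l _ => hX j l, Finset.sum_add_distrib, Finset.sum_ite_eq,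
      if_pos (Finset.mem_univ _)]
  -- the kernel
  have hkI : ∀ j, Integrable (fun E : ℝ => ε / ((w j - E) ^ 2 + ε ^ 2)) := fun j =>
    (hI (w j) (w j) ε hε).2.2.1
  have hck : ∀ j, Integrable (fun E : ℝ => c E * (ε / ((w j - E) ^ 2 + ε ^ 2))) := fun j => by
    refine (hkI j).bdd_mul (c := 1) hc.aestronglyMeasurable ?_
    exact Filter.Eventually.of_forall fun E => by rw [Real.norm_eq_abs]; exact hc1 E
  have hck2 : ∀ j, Integrable (fun E : ℝ => c E ^ 2 * (ε / ((w j - E) ^ 2 + ε ^ 2))) := fun j => by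
    refine (hkI j).bdd_mul (c := 1) (hc.pow 2).aestronglyMeasurable ?_
    refine Filter.Eventually.of_forall fun E => ?_
    rw [Real.norm_eq_abs, abs_pow]
    exact pow_le_one₀ (abs_nonneg _) (hc1 E)
  have hRI : ∀ j l, Integrable (fun E : ℝ => ((((w l - E : ℝ) : ℂ) - (ε : ℂ) * Complex.I)⁻¹ *
      (((w j - E : ℝ) : ℂ) + (ε : ℂ) * Complex.I)⁻¹).re) := fun j l =>
    (hI (w l) (w j) ε hε).1.re
  have hRv : ∀ j l, ∫ E : ℝ, ((((w l - E : ℝ) : ℂ) - (ε : ℂ) * Complex.I)⁻¹ *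
      (((w j - E : ℝ) : ℂ) + (ε : ℂ) * Complex.I)⁻¹).re =
      Real.pi / ε * (4 * ε ^ 2 / ((w j - w l) ^ 2 + 4 * ε ^ 2)) := fun j l => by
    have h1 := (hI (w l) (w j) ε hε).1
    have h2 := (hI (w l) (w j) ε hε).2.1
    have h3 := integral_re h1
    have h4 : ∫ E : ℝ, ((((w l - E : ℝ) : ℂ) - (ε : ℂ) * Complex.I)⁻¹ *
      (((w j - E : ℝ) : ℂ) + (ε : ℂ) * Complex.I)⁻¹).re =
      (∫ E : ℝ, (((w l - E : ℝ) : ℂ) - (ε : ℂ) * Complex.I)⁻¹ *
        (((w j - E : ℝ) : ℂ) + (ε : ℂ) * Complex.I)⁻¹).re := h3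
    rw [h4, h2, pde_re _ _ hε]
  -- the integrand
  have hPh : ∀ E, Ph m c ε σ V E =
      (NN d L)⁻¹ * ((∑ j, ∑ l, ε * ‖A l j‖ ^ 2 *
        ((((w l - E : ℝ) : ℂ) - (ε : ℂ) * Complex.I)⁻¹ *
          (((w j - E : ℝ) : ℂ) + (ε : ℂ) * Complex.I)⁻¹).re) +
        ∑ j, ((-2 * (A j j).re) * (c E * (ε / ((w j - E) ^ 2 + ε ^ 2))) +
          c E ^ 2 * (ε / ((w j - E) ^ 2 + ε ^ 2)))) := by
    intro E
    obtain ⟨g1, g2, g3⟩ := hG d L E ε σ hε V u w hEB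
    unfold Ph
    rw [g1, g2, g3]
    have t1 : (((NN d L : ℝ) : ℂ)⁻¹ * ∑ j, ∑ l,
        (star (u j) ⬝ᵥ (Mo (fun k => star (chm m k)) *ᵥ u l)) *
          (star (u l) ⬝ᵥ (Mo (chm m) *ᵥ u j)) *
          ((((w l - E : ℝ) : ℂ) - (ε : ℂ) * Complex.I)⁻¹ *
            (((w j - E : ℝ) : ℂ) + (ε : ℂ) * Complex.I)⁻¹)).re =
        (NN d L)⁻¹ * ∑ j, ∑ l, ‖A l j‖ ^ 2 *
          ((((w l - E : ℝ) : ℂ) - (ε : ℂ) * Complex.I)⁻¹ *
            (((w j - E : ℝ) : ℂ) + (ε : ℂ) * Complex.I)⁻¹).re := by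
      rw [← Complex.ofReal_inv, Complex.re_ofReal_mul, Complex.re_sum]
      congr 1
      refine Finset.sum_congr rfl fun j _ => ?_
      rw [Complex.re_sum]
      refine Finset.sum_congr rfl fun l _ => ?_
      have h5 : (star (u j) ⬝ᵥ (Mo (fun k => star (chm m k)) *ᵥ u l)) *
          (star (u l) ⬝ᵥ (Mo (chm m) *ᵥ u j)) = ((‖A l j‖ ^ 2 : ℝ) : ℂ) := by
        rw [hS4, pde_adj, mul_comm, Complex.star_def, Complex.mul_conj, Complex.normSq_eq_norm_sq]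
      rw [h5, Complex.re_ofReal_mul]
    have t2 : (((NN d L : ℝ) : ℂ)⁻¹ * ∑ j, (star (u j) ⬝ᵥ (Mo (chm m) *ᵥ u j)) *
        ((ε / ((w j - E) ^ 2 + ε ^ 2) : ℝ) : ℂ)).re =
        (NN d L)⁻¹ * ∑ j, (A j j).re * (ε / ((w j - E) ^ 2 + ε ^ 2)) := by
      rw [← Complex.ofReal_inv, Complex.re_ofReal_mul, Complex.re_sum]
      congr 1
      refine Finset.sum_congr rfl fun j _ => ?_
      rw [Complex.re_mul_ofReal]
    rw [t1, t2]
    have t3 : (∑ j, ∑ l, ε * ‖A l j‖ ^ 2 *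
        ((((w l - E : ℝ) : ℂ) - (ε : ℂ) * Complex.I)⁻¹ *
          (((w j - E : ℝ) : ℂ) + (ε : ℂ) * Complex.I)⁻¹).re) =
        ε * ∑ j, ∑ l, ‖A l j‖ ^ 2 *
        ((((w l - E : ℝ) : ℂ) - (ε : ℂ) * Complex.I)⁻¹ *
          (((w j - E : ℝ) : ℂ) + (ε : ℂ) * Complex.I)⁻¹).re := by
      rw [Finset.mul_sum]
      refine Finset.sum_congr rfl fun j _ => ?_
      rw [Finset.mul_sum]
      exact Finset.sum_congr rfl fun l _ => by ring
    have t4 : ∑ j, ((-2 * (A j j).re) * (c E * (ε / ((w j - E) ^ 2 + ε ^ 2))) +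
          c E ^ 2 * (ε / ((w j - E) ^ 2 + ε ^ 2))) =
        -2 * c E * (∑ j, (A j j).re * (ε / ((w j - E) ^ 2 + ε ^ 2))) +
          c E ^ 2 * ∑ j, ε / ((w j - E) ^ 2 + ε ^ 2) := by
      rw [Finset.sum_add_distrib, Finset.mul_sum, Finset.mul_sum]
      congr 1
      exact Finset.sum_congr rfl fun l _ => by ring
    rw [t3, t4]
    ring
  -- the integral
  have hInt : ∫ E : ℝ, Ph m c ε σ V E =
      (NN d L)⁻¹ * ((∑ j, ∑ l, ε * ‖A l j‖ ^ 2 *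
        (Real.pi / ε * (4 * ε ^ 2 / ((w j - w l) ^ 2 + 4 * ε ^ 2)))) +
        ∑ j, ((-2 * (A j j).re) * (∫ E : ℝ, c E * (ε / ((w j - E) ^ 2 + ε ^ 2))) +
          ∫ E : ℝ, c E ^ 2 * (ε / ((w j - E) ^ 2 + ε ^ 2)))) := by
    simp_rw [hPh]
    rw [integral_const_mul]
    congr 1
    have i1 : ∀ j l : T d L, Integrable (fun E : ℝ => ε * ‖A l j‖ ^ 2 *
        ((((w l - E : ℝ) : ℂ) - (ε : ℂ) * Complex.I)⁻¹ *
          (((w j - E : ℝ) : ℂ) + (ε : ℂ) * Complex.I)⁻¹).re) := fun j l => (hRI j l).const_mul _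
    have i2 : ∀ j : T d L, Integrable (fun E : ℝ => ∑ l, ε * ‖A l j‖ ^ 2 *
        ((((w l - E : ℝ) : ℂ) - (ε : ℂ) * Complex.I)⁻¹ *
          (((w j - E : ℝ) : ℂ) + (ε : ℂ) * Complex.I)⁻¹).re) := fun j =>
      integrable_finsetSum _ fun l _ => i1 j l
    have i3 : ∀ j : T d L, Integrable (fun E : ℝ =>
        (-2 * (A j j).re) * (c E * (ε / ((w j - E) ^ 2 + ε ^ 2)))) := fun j =>
      (hck j).const_mul _
    have i4 : ∀ j : T d L, Integrable (fun E : ℝ =>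
        (-2 * (A j j).re) * (c E * (ε / ((w j - E) ^ 2 + ε ^ 2))) +
          c E ^ 2 * (ε / ((w j - E) ^ 2 + ε ^ 2))) := fun j => (i3 j).add (hck2 j)
    rw [integral_add (integrable_finsetSum _ fun j _ => i2 j)
      (integrable_finsetSum _ fun j _ => i4 j), integral_finsetSum _ fun j _ => i2 j,
      integral_finsetSum _ fun j _ => i4 j]
    congr 1
    · refine Finset.sum_congr rfl fun j _ => ?_
      rw [integral_finsetSum _ fun l _ => i1 j l]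
      refine Finset.sum_congr rfl fun l _ => ?_
      rw [integral_const_mul, hRv]
    · refine Finset.sum_congr rfl fun j _ => ?_
      rw [integral_add (i3 j) (hck2 j), integral_const_mul]
  rw [hInt, hsumX]
  -- exchange of the sums
  have hsw : ∑ j, ∑ l, ε * ‖A l j‖ ^ 2 *
        (Real.pi / ε * (4 * ε ^ 2 / ((w j - w l) ^ 2 + 4 * ε ^ 2))) =
      Real.pi * ∑ j, ∑ l, ‖A j l‖ ^ 2 * (4 * ε ^ 2 / ((w j - w l) ^ 2 + 4 * ε ^ 2)) := by
    rw [Finset.sum_comm, Finset.mul_sum]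
    refine Finset.sum_congr rfl fun j _ => ?_
    rw [Finset.mul_sum]
    refine Finset.sum_congr rfl fun l _ => ?_
    have h1 : (w l - w j) ^ 2 = (w j - w l) ^ 2 := by ring
    rw [h1]
    field_simp
  rw [hsw]
  have hterm : ∀ j, (- 2 * c (w j) * (A j j).re + c (w j) ^ 2) ≤
      Real.pi⁻¹ * ((-2 * (A j j).re) * (∫ E : ℝ, c E * (ε / ((w j - E) ^ 2 + ε ^ 2))) +
          ∫ E : ℝ, c E ^ 2 * (ε / ((w j - E) ^ 2 + ε ^ 2))) + 3 * η := by
    intro j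
    have h1 := hp1 (w j)
    have h2 := hp2 (w j)
    set P := Real.pi⁻¹ * ∫ E : ℝ, c E * (ε / ((w j - E) ^ 2 + ε ^ 2)) with hP
    set Q := Real.pi⁻¹ * ∫ E : ℝ, c E ^ 2 * (ε / ((w j - E) ^ 2 + ε ^ 2)) with hQ
    have h3 : Real.pi⁻¹ * ((-2 * (A j j).re) * (∫ E : ℝ, c E * (ε / ((w j - E) ^ 2 + ε ^ 2))) +
          ∫ E : ℝ, c E ^ 2 * (ε / ((w j - E) ^ 2 + ε ^ 2))) = (-2 * (A j j).re) * P + Q := by
      rw [hP, hQ]
      ring
    rw [h3]
    have h4 : |(A j j).re| ≤ 1 := (Complex.abs_re_le_norm _).trans (hAd j)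
    have h5 : |(A j j).re * (c (w j) - P)| ≤ 1 * η := by
      rw [abs_mul]
      exact mul_le_mul h4 h1 (abs_nonneg _) zero_le_one
    have h6 := (abs_le.mp h5).1
    have h7 := (abs_le.mp h2).2
    nlinarith
  have hsum : ∑ j, (- 2 * c (w j) * (A j j).re + c (w j) ^ 2) ≤
      Real.pi⁻¹ * (∑ j, ((-2 * (A j j).re) * (∫ E : ℝ, c E * (ε / ((w j - E) ^ 2 + ε ^ 2))) +
          ∫ E : ℝ, c E ^ 2 * (ε / ((w j - E) ^ 2 + ε ^ 2)))) + NN d L * (3 * η) := by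
    calc ∑ j, (- 2 * c (w j) * (A j j).re + c (w j) ^ 2) ≤
        ∑ j, (Real.pi⁻¹ * ((-2 * (A j j).re) *
          (∫ E : ℝ, c E * (ε / ((w j - E) ^ 2 + ε ^ 2))) +
          ∫ E : ℝ, c E ^ 2 * (ε / ((w j - E) ^ 2 + ε ^ 2))) + 3 * η) :=
          Finset.sum_le_sum fun j _ => hterm j
      _ = _ := by
          rw [Finset.sum_add_distrib, ← Finset.mul_sum, Finset.sum_const, Finset.card_univ,
            nsmul_eq_mul, hcard]
  have hfin := mul_le_mul_of_nonneg_left hsum (inv_pos.mpr hN).le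
  have h9 : (NN d L)⁻¹ * (NN d L * (3 * η)) = 3 * η := by
    rw [← mul_assoc, inv_mul_cancel₀ hN.ne', one_mul]
  have h10 : ∀ S R : ℝ, Real.pi⁻¹ * ((NN d L)⁻¹ * (Real.pi * S + R)) =
      (NN d L)⁻¹ * S + (NN d L)⁻¹ * (Real.pi⁻¹ * R) := by
    intro S R
    have : Real.pi⁻¹ * ((NN d L)⁻¹ * (Real.pi * S + R)) =
      (Real.pi⁻¹ * Real.pi) * ((NN d L)⁻¹ * S) + (NN d L)⁻¹ * (Real.pi⁻¹ * R) := by ring
    rw [this, inv_mul_cancel₀ hpi.ne', one_mul]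
  rw [h10, mul_add]
  rw [mul_add, h9] at hfin
  linarith

end Pool.Agent.T2h98.PS
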