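import Pool.Agent.T2h98.PS.Stm
import Pool.Agent.T2h98.KU.KEIG

/-! Expressions in terms of the eigenvectors (PEG). -/

set_option autoImplicit false
set_option linter.unusedSectionVars false

open scoped BigOperators Matrix Topology
open MeasureTheory ProbabilityTheory Filter

namespace Pool.Agent.T2h98.PS

open Pool.Agent.W788.MFP.Four (T e NN adj K)
open Pool.Agent.W788.BK (nsq hs PP JJ hi Low cr)
open Pool.Agent.T2h98.QD
open Pool.Agent.T2h98.AC (TX RX mX sy Rb Fk)
open Pool.Agent.T2h98.KU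
open Pool.Agent.T2h98.KU.KEIGh

theorem peg (hR : T_KR) : T_PEG := by
  intro d L _ E ε σ hε V u w hEB
  obtain ⟨hu, ho⟩ := hEB
  have hRR : ∀ b, RE b E ε σ V * TX (xb b E ε) σ V = 1 := fun b => ((hR d L b E ε σ hε).2.1 V).2
  have h1 := IR_eq E ε σ hε V u w hu ho hRR
  have hf := RE_eq false E ε σ hε V u w hu ho (hRR false)
  have ht := RE_eq true E ε σ hε V u w hu ho (hRR true)
  obtain ⟨hU1, hU2⟩ := UM_unit u ho
  refine ⟨?_, fun q => ?_, fun p q => ?_⟩
  · unfold DS
    have h2 : (IR E ε σ V).trace = ((∑ j, ε / ((w j - E) ^ 2 + ε ^ 2) : ℝ) : ℂ) := by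
      rw [h1, Matrix.trace_mul_comm, ← Matrix.mul_assoc, hU1, Matrix.one_mul, Matrix.trace_diagonal]
      push_cast
      rfl
    rw [h2, ← Complex.ofReal_inv, ← Complex.ofReal_mul, Complex.ofReal_re]
  · unfold Iv
    congr 1
    rw [h1]
    have h2 : Mo q * (UM u * (Matrix.diagonal fun a => ((ε / ((w a - E) ^ 2 + ε ^ 2) : ℝ) : ℂ)) * (UM u)ᴴ) =
        (Mo q * UM u * Matrix.diagonal fun a => ((ε / ((w a - E) ^ 2 + ε ^ 2) : ℝ) : ℂ)) * (UM u)ᴴ := by
      simp only [Matrix.mul_assoc]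
    rw [h2, Matrix.trace_mul_comm]
    have h3 : (UM u)ᴴ * (Mo q * UM u * Matrix.diagonal fun a => ((ε / ((w a - E) ^ 2 + ε ^ 2) : ℝ) : ℂ)) =
        ((UM u)ᴴ * Mo q * UM u) * Matrix.diagonal fun a => ((ε / ((w a - E) ^ 2 + ε ^ 2) : ℝ) : ℂ) := by
      simp only [Matrix.mul_assoc]
    rw [h3]
    unfold Matrix.trace
    refine Finset.sum_congr rfl fun j _ => ?_
    rw [Matrix.diag_apply, Matrix.mul_diagonal, UM_star_mul]
  · unfold Tp
    congr 1
    set Df : T d L → ℂ := fun a => ((w a : ℂ) - sh false E ε)⁻¹ with hDf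
    set Dt : T d L → ℂ := fun a => ((w a : ℂ) - sh true E ε)⁻¹ with hDt
    have h2 : Mo p * RE false E ε σ V * Mo q * RE true E ε σ V =
        (Mo p * UM u * Matrix.diagonal Df * ((UM u)ᴴ * Mo q * UM u * Matrix.diagonal Dt)) * (UM u)ᴴ := by
      rw [hf, ht]
      simp only [Matrix.mul_assoc]
    have h3 : (UM u)ᴴ * (Mo p * UM u * Matrix.diagonal Df * ((UM u)ᴴ * Mo q * UM u * Matrix.diagonal Dt)) =
        (((UM u)ᴴ * Mo p * UM u) * Matrix.diagonal Df) *
          (((UM u)ᴴ * Mo q * UM u) * Matrix.diagonal Dt) := by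
      simp only [Matrix.mul_assoc]
    rw [h2, Matrix.trace_mul_comm, h3]
    unfold Matrix.trace
    refine Finset.sum_congr rfl fun j _ => ?_
    rw [Matrix.diag_apply, Matrix.mul_apply]
    refine Finset.sum_congr rfl fun l _ => ?_
    rw [Matrix.mul_diagonal, Matrix.mul_diagonal, UM_star_mul, UM_star_mul]
    have e1 : Df l = (((w l - E : ℝ) : ℂ) - (ε : ℂ) * Complex.I)⁻¹ := by
      rw [hDf]
      show ((w l : ℂ) - sh false E ε)⁻¹ = _
      congr 1
      unfold sh
      simp only [cond_false]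
      push_cast
      ring
    have e2 : Dt j = (((w j - E : ℝ) : ℂ) + (ε : ℂ) * Complex.I)⁻¹ := by
      rw [hDt]
      show ((w j : ℂ) - sh true E ε)⁻¹ = _
      congr 1
      unfold sh
      simp only [cond_true]
      push_cast
      ring
    rw [e1, e2]
    ring

end Pool.Agent.T2h98.PS
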