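import Pool.Agent.T2h98.PS.Stm

/-! Integrals over the energy. -/

set_option autoImplicit false
set_option linter.unusedSectionVars false

open scoped BigOperators Matrix Topology
open MeasureTheory ProbabilityTheory Filter

namespace Pool.Agent.T2h98.PS

namespace PEI

theorem poisson_eq (a ε : ℝ) (hε : 0 < ε) (E : ℝ) :
    ε / ((a - E) ^ 2 + ε ^ 2) = ε⁻¹ * (1 + ((a - E) / ε) ^ 2)⁻¹ := by
  have h1 : 0 < (a - E) ^ 2 + ε ^ 2 := by positivity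
  field_simp
  ring

theorem int1 (a ε : ℝ) (hε : 0 < ε) : Integrable (fun E : ℝ => ε / ((a - E) ^ 2 + ε ^ 2)) := by
  have h1 : Integrable (fun x : ℝ => (1 + (x / ε) ^ 2)⁻¹) :=
    integrable_inv_one_add_sq.comp_div hε.ne'
  have h2 : Integrable (fun E : ℝ => (1 + ((a - E) / ε) ^ 2)⁻¹) := h1.comp_sub_left a
  refine (h2.const_mul ε⁻¹).congr (Eventually.of_forall fun E => ?_)
  exact (poisson_eq a ε hε E).symm

theorem val1 (a ε : ℝ) (hε : 0 < ε) : ∫ E : ℝ, ε / ((a - E) ^ 2 + ε ^ 2) = Real.pi := by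
  simp_rw [poisson_eq a ε hε]
  rw [integral_const_mul, integral_sub_left_eq_self (fun x : ℝ => (1 + (x / ε) ^ 2)⁻¹) volume a,
    Measure.integral_comp_div (fun x : ℝ => (1 + x ^ 2)⁻¹) ε, integral_univ_inv_one_add_sq,
    abs_of_pos hε, smul_eq_mul, ← mul_assoc, inv_mul_cancel₀ hε.ne', one_mul]

theorem lim (a b ε : ℝ) (hε : 0 < ε) (l : Filter ℝ) (hl : Tendsto (fun E : ℝ => |a - E|) l atTop) :
    Tendsto (fun E : ℝ => 1 / 2 * (Real.log ((b - E) ^ 2 + ε ^ 2) - Real.log ((a - E) ^ 2 + ε ^ 2)))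
      l (𝓝 0) := by
  have h1 : Tendsto (fun E : ℝ => (|b - a| * (|b - a| + 2)) * |a - E|⁻¹) l (𝓝 0) := by
    have := (tendsto_inv_atTop_zero.comp hl).const_mul (|b - a| * (|b - a| + 2))
    rw [mul_zero] at this
    exact this
  have h2 : Tendsto (fun E : ℝ => ((b - a) * (b - a + 2 * (a - E))) / ((a - E) ^ 2 + ε ^ 2)) l
      (𝓝 0) := by
    refine squeeze_zero_norm' ?_ h1
    filter_upwards [hl.eventually_ge_atTop 1] with E hE
    have hp : 0 < (a - E) ^ 2 + ε ^ 2 := by positivity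
    have hE0 : 0 < |a - E| := by linarith
    rw [Real.norm_eq_abs, abs_div, abs_of_pos hp, abs_mul, ← div_eq_mul_inv,
      div_le_div_iff₀ hp hE0]
    have h3 : |b - a + 2 * (a - E)| ≤ |b - a| + 2 * |a - E| := by
      refine (abs_add_le _ _).trans ?_
      rw [abs_mul, abs_two]
    have h4 : |b - a| + 2 * |a - E| ≤ (|b - a| + 2) * |a - E| := by
      nlinarith [abs_nonneg (b - a)]
    have h5 : |a - E| * |a - E| = (a - E) ^ 2 := by rw [← sq, sq_abs]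
    calc |b - a| * |b - a + 2 * (a - E)| * |a - E|
        ≤ |b - a| * ((|b - a| + 2) * |a - E|) * |a - E| := by
          have := abs_nonneg (b - a)
          gcongr
          exact h3.trans h4
      _ = |b - a| * (|b - a| + 2) * (a - E) ^ 2 := by rw [← h5]; ring
      _ ≤ |b - a| * (|b - a| + 2) * ((a - E) ^ 2 + ε ^ 2) := by
          have := abs_nonneg (b - a)
          have := sq_nonneg ε
          gcongr
          linarith
  have h3 : Tendsto (fun E : ℝ => 1 / 2 * Real.log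
      (1 + ((b - a) * (b - a + 2 * (a - E))) / ((a - E) ^ 2 + ε ^ 2))) l (𝓝 0) := by
    have h4 := h2.const_add 1
    rw [add_zero] at h4
    have h5 := ((Real.continuousAt_log one_ne_zero).tendsto.comp h4).const_mul (1 / 2)
    rw [Real.log_one, mul_zero] at h5
    exact h5
  refine h3.congr fun E => ?_
  have hp : 0 < (a - E) ^ 2 + ε ^ 2 := by positivity
  have hq : 0 < (b - E) ^ 2 + ε ^ 2 := by positivity
  rw [← Real.log_div hq.ne' hp.ne']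
  congr 2
  field_simp
  ring

theorem der (a ε : ℝ) (hε : 0 < ε) (E : ℝ) :
    HasDerivAt (fun E : ℝ => Real.log ((a - E) ^ 2 + ε ^ 2))
      (-(2 * (a - E)) / ((a - E) ^ 2 + ε ^ 2)) E := by
  have hp : 0 < (a - E) ^ 2 + ε ^ 2 := by positivity
  have h1 : HasDerivAt (fun E : ℝ => (a - E) ^ 2 + ε ^ 2) (-(2 * (a - E))) E := by
    have h2 := (((hasDerivAt_id E).const_sub a).pow 2).add_const (ε ^ 2)
    refine h2.congr_deriv ?_
    simp
  exact h1.log hp.ne'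

theorem normSq_bound (a b ε : ℝ) (hε : 0 < ε) (E : ℝ) :
    ‖(((a - E : ℝ) : ℂ) - (ε : ℂ) * Complex.I)⁻¹ * (((b - E : ℝ) : ℂ) + (ε : ℂ) * Complex.I)⁻¹‖ ≤
      ε⁻¹ * (ε / ((a - E) ^ 2 + ε ^ 2) + ε / ((b - E) ^ 2 + ε ^ 2)) := by
  have e1 : ‖((a - E : ℝ) : ℂ) - (ε : ℂ) * Complex.I‖ ^ 2 = (a - E) ^ 2 + ε ^ 2 := by
    rw [← Complex.normSq_eq_norm_sq, Complex.normSq_apply]
    simp
    ring
  have e2 : ‖((b - E : ℝ) : ℂ) + (ε : ℂ) * Complex.I‖ ^ 2 = (b - E) ^ 2 + ε ^ 2 := by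
    rw [← Complex.normSq_eq_norm_sq, Complex.normSq_apply]
    simp
    ring
  rw [norm_mul, norm_inv, norm_inv, ← e1, ← e2]
  have hx : 0 < ‖((a - E : ℝ) : ℂ) - (ε : ℂ) * Complex.I‖ := by
    have : 0 < ‖((a - E : ℝ) : ℂ) - (ε : ℂ) * Complex.I‖ ^ 2 := by rw [e1]; positivity
    exact lt_of_le_of_ne (norm_nonneg _) fun h => by rw [← h] at this; simp at this
  have hy : 0 < ‖((b - E : ℝ) : ℂ) + (ε : ℂ) * Complex.I‖ := by
    have : 0 < ‖((b - E : ℝ) : ℂ) + (ε : ℂ) * Complex.I‖ ^ 2 := by rw [e2]; positivity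
    exact lt_of_le_of_ne (norm_nonneg _) fun h => by rw [← h] at this; simp at this
  generalize ‖((a - E : ℝ) : ℂ) - (ε : ℂ) * Complex.I‖ = x at *
  generalize ‖((b - E : ℝ) : ℂ) + (ε : ℂ) * Complex.I‖ = y at *
  have h : ε⁻¹ * (ε / x ^ 2 + ε / y ^ 2) = (x⁻¹) ^ 2 + (y⁻¹) ^ 2 := by field_simp
  rw [h]
  nlinarith [sq_nonneg (x⁻¹ - y⁻¹), sq_nonneg x⁻¹, sq_nonneg y⁻¹, inv_pos.2 hx, inv_pos.2 hy]

theorem cont (a b ε : ℝ) (hε : 0 < ε) : Continuous (fun E : ℝ =>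
    (((a - E : ℝ) : ℂ) - (ε : ℂ) * Complex.I)⁻¹ * (((b - E : ℝ) : ℂ) + (ε : ℂ) * Complex.I)⁻¹) := by
  refine Continuous.mul (Continuous.inv₀ (by fun_prop) fun E h => ?_)
    (Continuous.inv₀ (by fun_prop) fun E h => ?_)
  · have := congrArg Complex.im h
    simp at this
    exact hε.ne' this
  · have := congrArg Complex.im h
    simp at this
    exact hε.ne' this

theorem int2 (a b ε : ℝ) (hε : 0 < ε) : Integrable (fun E : ℝ =>
    (((a - E : ℝ) : ℂ) - (ε : ℂ) * Complex.I)⁻¹ * (((b - E : ℝ) : ℂ) + (ε : ℂ) * Complex.I)⁻¹) :=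
  (((int1 a ε hε).add (int1 b ε hε)).const_mul ε⁻¹).mono' (cont a b ε hε).aestronglyMeasurable
    (Eventually.of_forall fun E => normSq_bound a b ε hε E)

theorem split (a b ε : ℝ) (hε : 0 < ε) (E : ℝ) :
    (((a - E : ℝ) : ℂ) - (ε : ℂ) * Complex.I)⁻¹ * (((b - E : ℝ) : ℂ) + (ε : ℂ) * Complex.I)⁻¹ =
      (((b - a : ℝ) : ℂ) + ((2 * ε : ℝ) : ℂ) * Complex.I)⁻¹ *
        (((1 / 2 * (-(2 * (b - E)) / ((b - E) ^ 2 + ε ^ 2) -
          -(2 * (a - E)) / ((a - E) ^ 2 + ε ^ 2)) : ℝ) : ℂ) +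
          ((ε / ((a - E) ^ 2 + ε ^ 2) + ε / ((b - E) ^ 2 + ε ^ 2) : ℝ) : ℂ) * Complex.I) := by
  have hA : ((a - E : ℝ) : ℂ) - (ε : ℂ) * Complex.I ≠ 0 := by
    intro h
    have := congrArg Complex.im h
    simp at this
    exact hε.ne' this
  have hB : ((b - E : ℝ) : ℂ) + (ε : ℂ) * Complex.I ≠ 0 := by
    intro h
    have := congrArg Complex.im h
    simp at this
    exact hε.ne' this
  have hC : ((b - a : ℝ) : ℂ) + ((2 * ε : ℝ) : ℂ) * Complex.I ≠ 0 := by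
    intro h
    have := congrArg Complex.im h
    simp at this
    exact hε.ne' this
  have e1 : (((a - E : ℝ) : ℂ) - (ε : ℂ) * Complex.I) * (((a - E : ℝ) : ℂ) + (ε : ℂ) * Complex.I) =
      (((a - E) ^ 2 + ε ^ 2 : ℝ) : ℂ) := by
    push_cast
    linear_combination (-(ε : ℂ) ^ 2) * Complex.I_sq
  have e2 : (((b - E : ℝ) : ℂ) + (ε : ℂ) * Complex.I) * (((b - E : ℝ) : ℂ) - (ε : ℂ) * Complex.I) =
      (((b - E) ^ 2 + ε ^ 2 : ℝ) : ℂ) := by
    push_cast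
    linear_combination (-(ε : ℂ) ^ 2) * Complex.I_sq
  have hpa : (((a - E) ^ 2 + ε ^ 2 : ℝ) : ℂ) ≠ 0 := by
    have : 0 < (a - E) ^ 2 + ε ^ 2 := by positivity
    exact_mod_cast this.ne'
  have hpb : (((b - E) ^ 2 + ε ^ 2 : ℝ) : ℂ) ≠ 0 := by
    have : 0 < (b - E) ^ 2 + ε ^ 2 := by positivity
    exact_mod_cast this.ne'
  have i1 : (((a - E : ℝ) : ℂ) - (ε : ℂ) * Complex.I)⁻¹ =
      (((a - E : ℝ) : ℂ) + (ε : ℂ) * Complex.I) / (((a - E) ^ 2 + ε ^ 2 : ℝ) : ℂ) := by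
    rw [eq_div_iff hpa, ← e1]
    field_simp
  have i2 : (((b - E : ℝ) : ℂ) + (ε : ℂ) * Complex.I)⁻¹ =
      (((b - E : ℝ) : ℂ) - (ε : ℂ) * Complex.I) / (((b - E) ^ 2 + ε ^ 2 : ℝ) : ℂ) := by
    rw [eq_div_iff hpb, ← e2]
    field_simp
  have h1 : (((a - E : ℝ) : ℂ) - (ε : ℂ) * Complex.I)⁻¹ *
      (((b - E : ℝ) : ℂ) + (ε : ℂ) * Complex.I)⁻¹ =
      (((b - a : ℝ) : ℂ) + ((2 * ε : ℝ) : ℂ) * Complex.I)⁻¹ *
        ((((a - E : ℝ) : ℂ) - (ε : ℂ) * Complex.I)⁻¹ -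
          (((b - E : ℝ) : ℂ) + (ε : ℂ) * Complex.I)⁻¹) := by
    rw [inv_sub_inv hA hB, ← mul_inv]
    have e3 : ((b - E : ℝ) : ℂ) + (ε : ℂ) * Complex.I - (((a - E : ℝ) : ℂ) - (ε : ℂ) * Complex.I) =
        ((b - a : ℝ) : ℂ) + ((2 * ε : ℝ) : ℂ) * Complex.I := by
      push_cast
      ring
    rw [e3, ← mul_div_assoc, inv_mul_cancel₀ hC, one_div]
  rw [h1, i1, i2]
  congr 1
  push_cast
  ring

theorem val2 (a b ε : ℝ) (hε : 0 < ε) : ∫ E : ℝ,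
    (((a - E : ℝ) : ℂ) - (ε : ℂ) * Complex.I)⁻¹ * (((b - E : ℝ) : ℂ) + (ε : ℂ) * Complex.I)⁻¹ =
      2 * Real.pi * Complex.I / (((b - a : ℝ) : ℂ) + ((2 * ε : ℝ) : ℂ) * Complex.I) := by
  have hC : ((b - a : ℝ) : ℂ) + ((2 * ε : ℝ) : ℂ) * Complex.I ≠ 0 := by
    intro h
    have := congrArg Complex.im h
    simp at this
    exact hε.ne' this
  have hP : Integrable (fun E : ℝ => ε / ((a - E) ^ 2 + ε ^ 2) + ε / ((b - E) ^ 2 + ε ^ 2)) :=
    (int1 a ε hε).add (int1 b ε hε)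
  have hR : Integrable (fun E : ℝ => 1 / 2 * (-(2 * (b - E)) / ((b - E) ^ 2 + ε ^ 2) -
      -(2 * (a - E)) / ((a - E) ^ 2 + ε ^ 2))) := by
    have h1 := ((int2 a b ε hε).const_mul
      (((b - a : ℝ) : ℂ) + ((2 * ε : ℝ) : ℂ) * Complex.I)).re
    refine h1.congr (Eventually.of_forall fun E => ?_)
    simp only
    rw [split a b ε hε E, ← mul_assoc, mul_inv_cancel₀ hC, one_mul]
    generalize 1 / 2 * (-(2 * (b - E)) / ((b - E) ^ 2 + ε ^ 2) -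
      -(2 * (a - E)) / ((a - E) ^ 2 + ε ^ 2)) = X
    generalize ε / ((a - E) ^ 2 + ε ^ 2) + ε / ((b - E) ^ 2 + ε ^ 2) = Y
    simp
  have hval : ∫ E : ℝ, 1 / 2 * (-(2 * (b - E)) / ((b - E) ^ 2 + ε ^ 2) -
      -(2 * (a - E)) / ((a - E) ^ 2 + ε ^ 2)) = 0 := by
    have h1 := integral_of_hasDerivAt_of_tendsto (fun E => ((der b ε hε E).sub
      (der a ε hε E)).const_mul (1 / 2 : ℝ)) hR
      (lim a b ε hε atBot (tendsto_abs_atTop_atTop.comp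
        (tendsto_atTop_add_const_left _ a tendsto_neg_atBot_atTop)))
      (lim a b ε hε atTop (tendsto_abs_atBot_atTop.comp
        (tendsto_atBot_add_const_left _ a tendsto_neg_atTop_atBot)))
    rw [sub_self] at h1
    exact h1
  have hR' : Integrable (fun E : ℝ => (((1 / 2 * (-(2 * (b - E)) / ((b - E) ^ 2 + ε ^ 2) -
      -(2 * (a - E)) / ((a - E) ^ 2 + ε ^ 2)) : ℝ) : ℂ))) := hR.ofReal
  have hP' : Integrable (fun E : ℝ =>
      ((ε / ((a - E) ^ 2 + ε ^ 2) + ε / ((b - E) ^ 2 + ε ^ 2) : ℝ) : ℂ) * Complex.I) :=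
    (hP.ofReal (𝕜 := ℂ)).mul_const Complex.I
  simp_rw [split a b ε hε]
  rw [integral_const_mul, integral_add hR' hP',
    integral_mul_const, integral_complex_ofReal, integral_complex_ofReal, hval,
    integral_add (int1 a ε hε) (int1 b ε hε), val1 a ε hε, val1 b ε hε]
  rw [div_eq_inv_mul]
  push_cast
  ring

end PEI

theorem t_PEI : T_PEI := fun a b ε hε =>
  ⟨PEI.int2 a b ε hε, PEI.val2 a b ε hε, PEI.int1 a ε hε, PEI.val1 a ε hε⟩

end Pool.Agent.T2h98.PS
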