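import Pool.Agent.T2h98.PS.Stm

/-! There are eigenvectors. -/

set_option autoImplicit false
set_option linter.unusedSectionVars false

open scoped BigOperators Matrix Topology
open MeasureTheory ProbabilityTheory Filter

namespace Pool.Agent.T2h98.PS

open Pool.Agent.W788.MFP.Four (T e NN adj K)
open Pool.Agent.T2h98.QD

namespace PEX

variable {d L : ℕ} [NeZero L]

theorem Mo_adj_herm : (Mo (fun k : T d L => ((adj k : ℝ) : ℂ))).IsHermitian := by
  unfold Matrix.IsHermitian
  ext x y
  simp only [Mo, Matrix.conjTranspose_apply, Matrix.of_apply, star_mul', star_inv₀, star_sum]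
  congr 1
  · simp
  · refine Finset.sum_congr rfl fun k _ => ?_
    have h1 := Pool.Agent.W788.MFP.Four.e_neg k (x - y)
    rw [neg_sub] at h1
    rw [h1]
    simp

theorem herm (σ : ℝ) (V : T d L → ℝ) : (HT σ V).IsHermitian := by
  unfold HT
  refine Mo_adj_herm.add ?_
  refine Matrix.isHermitian_diagonal_of_self_adjoint _ ?_
  ext x
  simp

end PEX

theorem t_PEX : T_PEX := by
  intro d L _ σ V
  have hA := PEX.herm (d := d) (L := L) σ V
  refine ⟨fun j => (hA.eigenvectorBasis j).ofLp, hA.eigenvalues, fun j => ?_, fun j k => ?_⟩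
  · have h := hA.mulVec_eigenvectorBasis j
    rw [h]
    ext x
    simp
  · have h := hA.eigenvectorBasis.inner_eq_ite j k
    rw [EuclideanSpace.inner_eq_star_dotProduct, dotProduct_comm] at h
    exact h

end Pool.Agent.T2h98.PS
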