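import Pool.Agent.T2h98.PS.Stm

/-! Exchange of the integrals. -/

set_option autoImplicit false
set_option linter.unusedSectionVars false

open scoped BigOperators Matrix Topology
open MeasureTheory ProbabilityTheory Filter

namespace Pool.Agent.T2h98.PS

open Pool.Agent.W788.MFP.Four (T e NN adj K NN_pos sum_e e_normSq)
open Pool.Agent.W788.BK (nsq hs PP JJ hi Low cr)
open Pool.Agent.T2h98.QD
open Pool.Agent.T2h98.AC (TX RX mX sy Rb Fk)
open Pool.Agent.T2h98.KU

namespace PFU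

variable {d L : ℕ} [NeZero L]

theorem RE_shift {σ : ℝ} (hσ : σ ≠ 0) (b : Bool) (E ε : ℝ) (V : T d L → ℝ) :
    RE b E ε σ V = RE b 0 ε σ (fun x => V x - E / σ) := by
  unfold RE RX
  congr 1
  unfold TX
  have h1 : ∀ k : T d L, xb b E ε k = xb b 0 ε k - (E : ℂ) := by
    intro k
    unfold xb
    push_cast
    ring
  have hN : (NN d L : ℂ) ≠ 0 := by exact_mod_cast (NN_pos (d := d) (L := L)).ne'
  have hσ' : (σ : ℂ) ≠ 0 := by exact_mod_cast hσ
  ext x y
  simp only [Matrix.add_apply, Mo, Matrix.of_apply, Matrix.diagonal_apply]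
  simp_rw [h1, sub_mul, Finset.sum_sub_distrib, ← Finset.mul_sum, sum_e]
  by_cases hxy : x = y
  · subst hxy
    rw [if_pos rfl, if_pos rfl, if_pos (sub_self x)]
    push_cast
    field_simp
    ring
  · rw [if_neg hxy, if_neg hxy, if_neg (fun h => hxy (sub_eq_zero.1 h).symm)]
    simp

theorem RE_cont (hR : T_KR) {σ ε : ℝ} (hσ : σ ≠ 0) (hε : 0 < ε) (b : Bool) :
    Continuous fun p : (T d L → ℝ) × ℝ => RE b p.2 ε σ p.1 := by
  refine continuous_matrix fun x y => ?_
  have h := (hR d L b 0 ε σ hε).2.2.2.2.2.2.1 x y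
  have h2 : Continuous fun p : (T d L → ℝ) × ℝ => (fun z => p.1 z - p.2 / σ) := by fun_prop
  have h3 := h.comp h2
  refine h3.congr fun p => ?_
  simp only [Function.comp_apply]
  rw [RE_shift hσ b p.2 ε p.1]

theorem IR_cont (hR : T_KR) {σ ε : ℝ} (hσ : σ ≠ 0) (hε : 0 < ε) :
    Continuous fun p : (T d L → ℝ) × ℝ => IR p.2 ε σ p.1 := by
  unfold IR
  exact ((RE_cont (d := d) (L := L) hR hσ hε false).sub
    (RE_cont (d := d) (L := L) hR hσ hε true)).const_smul ((2 * Complex.I)⁻¹ : ℂ)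

theorem DS_cont (hR : T_KR) {σ ε : ℝ} (hσ : σ ≠ 0) (hε : 0 < ε) :
    Continuous fun p : (T d L → ℝ) × ℝ => DS p.2 ε σ p.1 := by
  unfold DS
  exact Complex.continuous_re.comp
    (continuous_const.mul (IR_cont (d := d) (L := L) hR hσ hε).matrix_trace)

theorem Iv_cont (hR : T_KR) {σ ε : ℝ} (hσ : σ ≠ 0) (hε : 0 < ε) (q : T d L → ℂ) :
    Continuous fun p : (T d L → ℝ) × ℝ => Iv q p.2 ε σ p.1 := by
  unfold Iv
  exact continuous_const.mul
    (continuous_const.matrix_mul (IR_cont (d := d) (L := L) hR hσ hε)).matrix_trace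

theorem Tp_cont (hR : T_KR) {σ ε : ℝ} (hσ : σ ≠ 0) (hε : 0 < ε) (q r : T d L → ℂ) :
    Continuous fun p : (T d L → ℝ) × ℝ => Tp q r p.2 ε σ p.1 := by
  unfold Tp
  exact continuous_const.mul (((continuous_const.matrix_mul
    (RE_cont (d := d) (L := L) hR hσ hε false)).matrix_mul
    continuous_const).matrix_mul (RE_cont (d := d) (L := L) hR hσ hε true)).matrix_trace

theorem Ph_cont (hR : T_KR) {σ ε : ℝ} (hσ : σ ≠ 0) (hε : 0 < ε) (m : Fin d → ℤ) (c : ℝ → ℝ)
    (hc : Continuous c) : Continuous fun p : (T d L → ℝ) × ℝ => Ph m c ε σ p.1 p.2 := by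
  unfold Ph
  have h1 := Complex.continuous_re.comp
    (Tp_cont (d := d) (L := L) hR hσ hε (fun k => star (chm m k)) (chm m))
  have h2 := Complex.continuous_re.comp (Iv_cont (d := d) (L := L) hR hσ hε (chm m))
  have h3 : Continuous fun p : (T d L → ℝ) × ℝ => c p.2 := hc.comp continuous_snd
  exact ((continuous_const.mul h1).sub ((continuous_const.mul h3).mul h2)).add
    ((h3.pow 2).mul (DS_cont hR hσ hε))

theorem norm_e (k x : T d L) : ‖e k x‖ = 1 := by
  have h := e_normSq k x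
  rw [Complex.mul_conj, Complex.normSq_eq_norm_sq] at h
  have h2 : ‖e k x‖ ^ 2 = 1 := by exact_mod_cast h
  exact (pow_eq_one_iff_of_nonneg (norm_nonneg _) two_ne_zero).1 h2

theorem card_eq : (Fintype.card (T d L) : ℝ) = NN d L := by
  unfold NN
  rw [Fintype.card_fun, ZMod.card, Fintype.card_fin]
  push_cast
  rfl

theorem DS_int (hG : T_PEG) (hX : T_PEX) (hI : T_PEI) {σ ε : ℝ} (hε : 0 < ε) (V : T d L → ℝ) :
    Integrable (fun E : ℝ => DS E ε σ V) ∧ ∫ E : ℝ, DS E ε σ V = Real.pi := by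
  obtain ⟨u, w, hEB⟩ := hX d L σ V
  have h : ∀ E : ℝ, DS E ε σ V = (NN d L)⁻¹ * ∑ j, ε / ((w j - E) ^ 2 + ε ^ 2) := fun E =>
    (hG d L E ε σ hε V u w hEB).1
  simp_rw [h]
  have hi : ∀ j ∈ (Finset.univ : Finset (T d L)), Integrable
      (fun E : ℝ => ε / ((w j - E) ^ 2 + ε ^ 2)) := fun j _ => (hI (w j) 0 ε hε).2.2.1
  refine ⟨(integrable_finsetSum _ hi).const_mul _, ?_⟩
  rw [integral_const_mul, integral_finsetSum _ hi]
  have hv : ∀ j : T d L, ∫ E : ℝ, ε / ((w j - E) ^ 2 + ε ^ 2) = Real.pi := fun j =>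
    (hI (w j) 0 ε hε).2.2.2
  simp_rw [hv]
  rw [Finset.sum_const, Finset.card_univ, nsmul_eq_mul, card_eq, ← mul_assoc,
    inv_mul_cancel₀ (NN_pos (d := d) (L := L)).ne', one_mul]

theorem Ph_bound (hW : T_PWD) {σ ε : ℝ} (hε : 0 < ε) (m : Fin d → ℤ) (c : ℝ → ℝ)
    (hc : ∀ E, |c E| ≤ 1) (V : T d L → ℝ) (E : ℝ) : |Ph m c ε σ V E| ≤ 4 * DS E ε σ V := by
  obtain ⟨-, h1, h2, -⟩ := hW d L E ε σ hε
  have hD := (h1 V).1
  have hq : ∀ k : T d L, ‖chm m k‖ ≤ 1 := fun k => (norm_e _ _).le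
  have hq' : ∀ k : T d L, ‖star (chm m k)‖ ≤ 1 := fun k => by rw [norm_star]; exact hq k
  obtain ⟨h3, h4⟩ := h2 V (fun k => star (chm m k)) (chm m) hq' hq
  have h5 : |(Tp (fun k => star (chm m k)) (chm m) E ε σ V).re| ≤
      ‖Tp (fun k => star (chm m k)) (chm m) E ε σ V‖ := Complex.abs_re_le_norm _
  have h6 : |(Iv (chm m) E ε σ V).re| ≤ ‖Iv (chm m) E ε σ V‖ := Complex.abs_re_le_norm _
  have h7 : |ε * (Tp (fun k => star (chm m k)) (chm m) E ε σ V).re| ≤ DS E ε σ V := by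
    rw [abs_mul, abs_of_pos hε]
    exact (mul_le_mul_of_nonneg_left h5 hε.le).trans h4
  have h8 : |2 * c E * (Iv (chm m) E ε σ V).re| ≤ 2 * DS E ε σ V := by
    rw [abs_mul, abs_mul, abs_two, mul_assoc]
    refine mul_le_mul_of_nonneg_left ?_ zero_le_two
    calc |c E| * |(Iv (chm m) E ε σ V).re| ≤ 1 * DS E ε σ V :=
          mul_le_mul (hc E) (h6.trans h3) (abs_nonneg _) zero_le_one
      _ = _ := one_mul _
  have h9 : |c E ^ 2 * DS E ε σ V| ≤ DS E ε σ V := by
    rw [abs_mul, abs_of_nonneg hD, abs_pow]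
    exact mul_le_of_le_one_left hD (pow_le_one₀ (abs_nonneg _) (hc E))
  unfold Ph
  have h10 := abs_add_le (ε * (Tp (fun k => star (chm m k)) (chm m) E ε σ V).re -
    2 * c E * (Iv (chm m) E ε σ V).re) (c E ^ 2 * DS E ε σ V)
  have h11 := abs_sub (ε * (Tp (fun k => star (chm m k)) (chm m) E ε σ V).re)
    (2 * c E * (Iv (chm m) E ε σ V).re)
  linarith

end PFU

open PFU in
theorem t_PFU (hR : T_KR) (hW : T_PWD) (hG : T_PEG) (hX : T_PEX) (hI : T_PEI) : T_PFU := by
  intro d L _ m c ε σ hε hσ hcc hc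
  have hσ' := hσ.ne'
  set μ : Measure (T d L → ℝ) := GP (T d L) with hμ
  have hDnn : ∀ (V : T d L → ℝ) (E : ℝ), 0 ≤ DS E ε σ V := fun V E =>
    ((hW d L E ε σ hε).2.1 V).1
  have hb := Ph_bound (d := d) (L := L) hW (σ := σ) hε m c hc
  have hDi : Integrable (fun p : (T d L → ℝ) × ℝ => DS p.2 ε σ p.1) (μ.prod volume) := by
    rw [integrable_prod_iff (DS_cont hR hσ' hε).aestronglyMeasurable]
    refine ⟨Eventually.of_forall fun V => (DS_int hG hX hI hε V).1, ?_⟩
    have e : (fun V : T d L → ℝ => ∫ E : ℝ, ‖DS E ε σ V‖) = fun _ => Real.pi := by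
      funext V
      rw [← (DS_int hG hX hI (σ := σ) hε V).2]
      refine integral_congr_ae (Eventually.of_forall fun E => ?_)
      exact Real.norm_of_nonneg (hDnn V E)
    rw [e]
    exact integrable_const _
  have hPi : Integrable (fun p : (T d L → ℝ) × ℝ => Ph m c ε σ p.1 p.2) (μ.prod volume) := by
    refine (hDi.const_mul 4).mono' (Ph_cont hR hσ' hε m c hcc).aestronglyMeasurable
      (Eventually.of_forall fun p => ?_)
    rw [Real.norm_eq_abs]
    exact hb p.1 p.2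
  have hme : ∀ E : ℝ, ∫ V : T d L → ℝ, DS E ε σ V ∂μ = (me d L false E ε σ).im := fun E =>
    (hW d L E ε σ hε).2.2.2.2.2.2.2
  refine ⟨hb, hPi.integral_prod_left, integral_integral_swap hPi, hPi.integral_prod_right, ?_, ?_,
    ?_, ?_⟩
  · have h1 := hDi.integral_prod_right
    simp only [hme] at h1
    exact h1
  · intro E
    rw [← hme E]
    exact integral_nonneg fun V => hDnn V E
  · have h1 := integral_integral_swap (f := fun V E => DS E ε σ V) hDi
    simp only [hme] at h1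
    rw [← h1]
    have e : (fun V : T d L → ℝ => ∫ E : ℝ, DS E ε σ V) = fun _ => Real.pi := by
      funext V
      exact (DS_int hG hX hI hε V).2
    show ∫ V : T d L → ℝ, (fun V : T d L → ℝ => ∫ E : ℝ, DS E ε σ V) V ∂μ = _
    rw [e]
    simp
  · intro S hS
    have hDS : Integrable (fun p : (T d L → ℝ) × ℝ => DS p.2 ε σ p.1)
        (μ.prod (volume.restrict S)) := by
      have h1 := hDi.restrict (s := Set.univ ×ˢ S)
      rwa [← Measure.prod_restrict, Measure.restrict_univ] at h1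
    refine ⟨hDS.integral_prod_left, ?_⟩
    have h1 := integral_integral_swap (f := fun V E => DS E ε σ V) hDS
    simp only [hme] at h1
    exact h1

end Pool.Agent.T2h98.PS
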