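import Pool.Agent.T2h98.PS.Stm
import Pool.Agent.T2h98.QD.JL3

/-! Riemann sums of Bessel functions, with exponentially small errors. -/

set_option autoImplicit false
set_option linter.unusedSectionVars false

open scoped BigOperators Matrix Topology
open MeasureTheory ProbabilityTheory Filter

namespace Pool.Agent.T2h98.PS

open Pool.Agent.W788.BK (cr)
open Pool.Agent.T2h98.QD Pool.Agent.T2h98.QD.JL3A

namespace PJLA

/-- the angle of a point of the cyclic group -/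
theorem angle {L : ℕ} [NeZero L] (j : ZMod L) : ∃ θ : ℝ, cr j = Real.cos θ ∧
    ∀ n : ℤ, (ZMod.stdAddChar ((n : ZMod L) * j) : ℂ).re = Real.cos (n * θ) := by
  refine ⟨Complex.arg (ZMod.stdAddChar j), ?_⟩
  set θ : ℝ := Complex.arg (ZMod.stdAddChar j) with hθ
  have h1 : (ZMod.stdAddChar j : ℂ) = Complex.exp ((θ : ℂ) * Complex.I) := by
    have := Complex.norm_mul_exp_arg_mul_I (ZMod.stdAddChar j : ℂ)
    rw [AddChar.norm_apply, Complex.ofReal_one, one_mul] at this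
    exact this.symm
  constructor
  · unfold cr
    rw [h1, Complex.exp_ofReal_mul_I_re]
  · intro n
    rw [← zsmul_eq_mul, AddChar.map_zsmul_eq_zpow, h1, ← Complex.exp_int_mul]
    have : (n : ℂ) * ((θ : ℂ) * Complex.I) = ((n * θ : ℝ) : ℂ) * Complex.I := by
      push_cast
      ring
    rw [this, Complex.exp_ofReal_mul_I_re]

theorem cheb (n : ℤ) (θ : ℝ) : (Polynomial.Chebyshev.T ℂ n).eval ((Real.cos θ : ℝ) : ℂ) =
    ((Real.cos (n * θ) : ℝ) : ℂ) := by
  rw [Complex.ofReal_cos, Polynomial.Chebyshev.T_complex_cos]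
  push_cast
  rfl

theorem cheb_le (n : ℤ) (c : ℝ) (hc : |c| ≤ 1) :
    ‖(Polynomial.Chebyshev.T ℂ n).eval (c : ℂ)‖ ≤ 1 := by
  obtain ⟨h1, h2⟩ := abs_le.1 hc
  rw [← Real.cos_arccos h1 h2, cheb, Complex.norm_real, Real.norm_eq_abs]
  exact Real.abs_cos_le_one _

/-- the remainder -/
theorem TP_err' {L d : ℕ} (hL : 2 * d + 3 ≤ L) (s c : ℝ) (hs : 16 * |s| ≤ L) (hc : |c| ≤ 1) :
    ‖Complex.exp (((2 * s * c : ℝ) : ℂ) * Complex.I) - (TP s (L - (d + 2))).eval (c : ℂ)‖ ≤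
      2 * 8 ^ (d + 2) * (1 / 2) ^ L := by
  have hL3 : (2 * d + 3 : ℝ) ≤ L := by exact_mod_cast hL
  have hd0 : (0 : ℝ) ≤ d := Nat.cast_nonneg _
  have hx : ‖((2 * s * c : ℝ) : ℂ) * Complex.I‖ ≤ L / 8 := by
    rw [norm_mul, Complex.norm_I, mul_one, Complex.norm_real, Real.norm_eq_abs, abs_mul, abs_mul,
      abs_two]
    have := abs_nonneg s
    nlinarith [abs_nonneg c]
  obtain ⟨N, hN⟩ : ∃ N, L = N + (d + 2) := ⟨L - (d + 2), by omega⟩
  have hN' : L - (d + 2) = N := by omega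
  rw [hN']
  have hNL : (L : ℝ) = N + (d + 2) := by
    rw [hN]
    push_cast
    ring
  have h1 := Complex.exp_bound' (x := ((2 * s * c : ℝ) : ℂ) * Complex.I) (n := N) (by
    rw [Nat.succ_eq_add_one, Nat.cast_add, Nat.cast_one, div_le_iff₀ (by positivity)]
    linarith)
  rw [TP_eval]
  refine h1.trans ?_
  have h2 : ‖((2 * s * c : ℝ) : ℂ) * Complex.I‖ ^ N / (N.factorial : ℝ) ≤
      (L / 8) ^ N / (N.factorial : ℝ) := by
    gcongr
  have h3 := Real.pow_div_factorial_le_exp (L : ℝ) (by positivity) N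
  have h4 : ((L : ℝ) / 8) ^ N / (N.factorial : ℝ) ≤ Real.exp L * (1 / 8) ^ N := by
    calc ((L : ℝ) / 8) ^ N / (N.factorial : ℝ) =
        (L : ℝ) ^ N / (N.factorial : ℝ) * (1 / 8) ^ N := by
          rw [div_pow, div_pow, one_pow]
          ring
      _ ≤ _ := by gcongr
  have h5 : Real.exp L * (1 / 8) ^ N ≤ 8 ^ (d + 2) * (1 / 2) ^ L := by
    have e1 : Real.exp L ≤ 4 ^ L := by
      have : Real.exp L = Real.exp 1 ^ L := by
        rw [← Real.exp_nat_mul, mul_one]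
      rw [this]
      apply pow_le_pow_left₀ (Real.exp_pos _).le
      have := Real.exp_one_lt_d9
      linarith
    have e2 : (1 / 8 : ℝ) ^ N = 8 ^ (d + 2) * (1 / 8) ^ L := by
      have e3 : (8 : ℝ) ^ (d + 2) * (1 / 8) ^ (d + 2) = 1 := by
        rw [← mul_pow]
        norm_num
      calc (1 / 8 : ℝ) ^ N = (1 / 8 : ℝ) ^ N * (8 ^ (d + 2) * (1 / 8) ^ (d + 2)) := by
            rw [e3, mul_one]
        _ = 8 ^ (d + 2) * (1 / 8) ^ L := by
            rw [hN, pow_add (1 / 8 : ℝ) N (d + 2)]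
            ring
    rw [e2]
    calc Real.exp (L : ℝ) * (8 ^ (d + 2) * (1 / 8) ^ L) ≤
        4 ^ L * (8 ^ (d + 2) * (1 / 8) ^ L) := by gcongr
      _ = 8 ^ (d + 2) * (4 ^ L * (1 / 8) ^ L) := by ring
      _ = 8 ^ (d + 2) * (1 / 2) ^ L := by
        rw [← mul_pow]
        norm_num
  linarith

end PJLA

open PJLA in
theorem pjl : T_PJL := by
  intro n
  set d : ℕ := (Polynomial.Chebyshev.T ℂ n).natDegree with hd
  refine ⟨4 * 8 ^ (d + 2), by positivity, fun L _ s hs => ?_⟩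
  obtain ⟨g, hg⟩ : ∃ g : ℝ → ℂ, g = fun c : ℝ => (Polynomial.Chebyshev.T ℂ n).eval (c : ℂ) *
    Complex.exp (((2 * s * c : ℝ) : ℂ) * Complex.I) := ⟨_, rfl⟩
  have cg : Continuous g := by
    rw [hg]
    fun_prop
  have jg : jm n s = ((2 * Real.pi : ℝ) : ℂ)⁻¹ * ∫ k in (-Real.pi)..Real.pi, g (Real.cos k) := by
    rw [hg]
    unfold jm
    congr 1
    apply intervalIntegral.integral_congr
    intro k _
    show _ = (Polynomial.Chebyshev.T ℂ n).eval ((Real.cos k : ℝ) : ℂ) * _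
    rw [cheb]
  have sg : ∀ j : ZMod L, (((ZMod.stdAddChar ((n : ZMod L) * j) : ℂ).re : ℝ) : ℂ) *
      Complex.exp (((2 * s * cr j : ℝ) : ℂ) * Complex.I) = g (cr j) := by
    intro j
    obtain ⟨θ, h1, h2⟩ := angle j
    rw [hg]
    show _ = (Polynomial.Chebyshev.T ℂ n).eval ((cr j : ℝ) : ℂ) * _
    rw [h2, h1, cheb]
  rw [jg]
  simp only [sg]
  by_cases hL : 2 * d + 3 ≤ L
  · have hN1 := TP_deg s (L - (d + 2))
    refine (approx g cg (Polynomial.Chebyshev.T ℂ n * TP s (L - (d + 2))) ?_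
        (2 * 8 ^ (d + 2) * (1 / 2) ^ L) fun c hc => ?_).trans ?_
    · refine lt_of_le_of_lt Polynomial.natDegree_mul_le ?_
      rw [← hd]
      omega
    · have e1 : g c - (Polynomial.Chebyshev.T ℂ n * TP s (L - (d + 2))).eval (c : ℂ) =
          (Polynomial.Chebyshev.T ℂ n).eval (c : ℂ) *
            (Complex.exp (((2 * s * c : ℝ) : ℂ) * Complex.I) -
              (TP s (L - (d + 2))).eval (c : ℂ)) := by
        rw [hg, Polynomial.eval_mul]
        ring
      rw [e1, norm_mul, ← one_mul (2 * 8 ^ (d + 2) * (1 / 2 : ℝ) ^ L)]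
      exact mul_le_mul (cheb_le n c hc) (TP_err' hL s c hs hc) (norm_nonneg _) zero_le_one
    · exact le_of_eq (by ring)
  · have hL0 : L ≠ 0 := NeZero.ne L
    have hdeg : (0 : Polynomial ℂ).natDegree < L := by
      rw [Polynomial.natDegree_zero]
      omega
    refine (approx g cg 0 hdeg 1 fun c hc => ?_).trans ?_
    · rw [Polynomial.eval_zero, sub_zero, hg]
      show ‖(Polynomial.Chebyshev.T ℂ n).eval (c : ℂ) * _‖ ≤ 1
      rw [norm_mul, exp_norm, mul_one]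
      exact cheb_le n c hc
    · have e1 : (1 / 2 : ℝ) ^ (2 * d + 3) ≤ (1 / 2) ^ L :=
        pow_le_pow_of_le_one (by norm_num) (by norm_num) (by omega)
      have e2 : (8 : ℝ) ^ (d + 2) = 2 ^ d * 4 ^ d * 64 := by
        rw [pow_add, ← mul_pow]
        norm_num
      have e3 : (1 / 2 : ℝ) ^ (2 * d + 3) = (1 / 4) ^ d * (1 / 8) := by
        rw [pow_add, pow_mul]
        norm_num
      have e4 : (4 : ℝ) ^ d * (1 / 4) ^ d = 1 := by
        rw [← mul_pow]
        norm_num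
      have e5 : (1 : ℝ) ≤ 2 ^ d := one_le_pow₀ (by norm_num)
      calc 2 * (1 : ℝ) ≤ 4 * (2 ^ d * 4 ^ d * 64) * ((1 / 4) ^ d * (1 / 8)) := by
            have : (4 : ℝ) * (2 ^ d * 4 ^ d * 64) * ((1 / 4) ^ d * (1 / 8)) =
                32 * 2 ^ d * (4 ^ d * (1 / 4) ^ d) := by ring
            rw [this, e4]
            linarith
        _ = 4 * 8 ^ (d + 2) * (1 / 2) ^ (2 * d + 3) := by rw [e2, e3]
        _ ≤ _ := by gcongr

end Pool.Agent.T2h98.PS
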