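import Pool.Agent.T2h98.PS.Stm

/-! The microcanonical mean. -/

set_option autoImplicit false
set_option linter.unusedSectionVars false

open scoped BigOperators Matrix Topology
open MeasureTheory ProbabilityTheory Filter

namespace Pool.Agent.T2h98.PS

open Pool.Agent.W788.MFP.Four (T e NN adj K)
open Pool.Agent.W788.BK (nsq hs PP JJ hi Low cr)
open Pool.Agent.T2h98.QD
open Pool.Agent.T2h98.AC (TX RX mX sy Rb Fk)
open Pool.Agent.T2h98.KU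

namespace PLM

variable {d L : ℕ} [NeZero L]

theorem sac (q : ZMod L) : (ZMod.stdAddChar q : ℂ) =
    Complex.exp (((2 * Real.pi * ((q.val : ℝ) / L) : ℝ) : ℂ) * Complex.I) := by
  have h1 : q = (((q.val : ℤ)) : ZMod L) := by
    push_cast
    rw [ZMod.natCast_zmod_val]
  have h2 : (ZMod.stdAddChar q : ℂ) = ZMod.stdAddChar (((q.val : ℤ)) : ZMod L) := by rw [← h1]
  rw [h2, ZMod.stdAddChar_coe]
  congr 1
  push_cast
  ring

theorem adj_val (k : T d L) : adj k = ∑ i, 2 * Real.cos (2 * Real.pi * (((k i).val : ℝ) / L)) := by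
  unfold adj
  refine Finset.sum_congr rfl fun i _ => ?_
  rw [sac, Complex.exp_ofReal_mul_I_re]

theorem chm_neg (m : Fin d → ℤ) (k : T d L) : chm (-m) k =
    Complex.exp (((2 * Real.pi * ∑ i, (m i : ℝ) * (((k i).val : ℝ) / L) : ℝ) : ℂ) * Complex.I) := by
  unfold chm e
  have h1 : ∑ i, k i * -(((-m) i : ℤ) : ZMod L) =
      ((∑ i, m i * ((k i).val : ℤ) : ℤ) : ZMod L) := by
    push_cast
    refine Finset.sum_congr rfl fun i _ => ?_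
    rw [ZMod.natCast_zmod_val]
    simp
    ring
  rw [h1, ZMod.stdAddChar_coe]
  congr 1
  push_cast
  have h2 : ∑ x, (m x : ℂ) * (((k x).val : ℂ) / (L : ℂ)) =
      (∑ x, (m x : ℂ) * ((k x).val : ℂ)) / (L : ℂ) := by
    rw [Finset.sum_div]
    exact Finset.sum_congr rfl fun i _ => by ring
  rw [h2]
  ring

theorem cqm_neg (m : Fin d → ℤ) (k : T d L) : cqm (-m) k = cqm m k := by
  unfold cqm
  refine Finset.prod_congr rfl fun i _ => ?_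
  have h1 : (((-m) i : ℤ) : ZMod L) * k i = -(((m i : ℤ) : ZMod L) * k i) := by
    simp
  rw [h1, ZMod.stdAddChar_apply, ZMod.stdAddChar_apply, AddChar.map_neg_eq_inv]
  simp

theorem im_inv (x Γ : ℝ) : ((((x : ℝ) : ℂ) - (Γ : ℂ) * Complex.I)⁻¹).im = Γ / (x ^ 2 + Γ ^ 2) := by
  rw [Complex.inv_im]
  simp [Complex.normSq_apply]
  ring

/-- the sums with the weights -/
theorem sum_im (w : T d L → ℝ) (E Γ : ℝ) :
    (((NN d L : ℝ) : ℂ)⁻¹ * ∑ k : T d L, ((w k : ℝ) : ℂ) *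
      (((adj k - E : ℝ) : ℂ) - (Γ : ℂ) * Complex.I)⁻¹).im =
    (NN d L)⁻¹ * ∑ k : T d L, w k * (Γ / ((adj k - E) ^ 2 + Γ ^ 2)) := by
  rw [← Complex.ofReal_inv, Complex.im_ofReal_mul, Complex.im_sum]
  congr 1
  refine Finset.sum_congr rfl fun k _ => ?_
  rw [Complex.im_ofReal_mul, im_inv]

theorem est (w : T d L → ℝ) (E Γ η : ℝ) (c : ℂ)
    (h : ‖((NN d L : ℝ) : ℂ)⁻¹ * ∑ k : T d L, ((w k : ℝ) : ℂ) *
      (((adj k - E : ℝ) : ℂ) - (Γ : ℂ) * Complex.I)⁻¹ - c‖ ≤ η) :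
    ‖((NN d L : ℝ) : ℂ)⁻¹ * ∑ k : T d L, ((w k : ℝ) : ℂ) *
      ((Γ / ((adj k - E) ^ 2 + Γ ^ 2) : ℝ) : ℂ) - ((c.im : ℝ) : ℂ)‖ ≤ η := by
  have h1 : ((NN d L : ℝ) : ℂ)⁻¹ * ∑ k : T d L, ((w k : ℝ) : ℂ) *
      ((Γ / ((adj k - E) ^ 2 + Γ ^ 2) : ℝ) : ℂ) - ((c.im : ℝ) : ℂ) =
      (((((NN d L : ℝ) : ℂ)⁻¹ * ∑ k : T d L, ((w k : ℝ) : ℂ) *
      (((adj k - E : ℝ) : ℂ) - (Γ : ℂ) * Complex.I)⁻¹ - c).im : ℝ) : ℂ) := by
    rw [Complex.sub_im, sum_im]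
    push_cast
    rfl
  rw [h1, Complex.norm_real, Real.norm_eq_abs]
  exact (Complex.abs_im_le_norm _).trans h

theorem lim_of {d : ℕ} (hR : T_PRI) (g : ℝ → (Fin d → ℝ) → ℂ) (a : ℝ)
    (hg : ∀ Γ, 0 < Γ → Continuous (g Γ))
    (hS : ∀ η : ℝ, 0 < η → ∃ r : ℝ, 0 < r ∧ ∀ (Γ : ℝ) (L : ℕ) [NeZero L], 0 < Γ → Γ < r →
      1 / (L : ℝ) ≤ Γ ^ ((1 : ℝ) + 1) →
      ‖((NN d L : ℝ) : ℂ)⁻¹ * ∑ k : T d L, g Γ (fun i => ((k i).val : ℝ) / L) - (a : ℂ)‖ ≤ η) :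
    Tendsto (fun Γ => ∫ k in Set.Icc (0 : Fin d → ℝ) 1, g Γ k) (𝓝[>] 0) (𝓝 (a : ℂ)) := by
  rw [Metric.tendsto_nhdsWithin_nhds]
  intro ε hε
  obtain ⟨r, hr, h⟩ := hS (ε / 3) (by positivity)
  refine ⟨r, hr, fun Γ hΓ hd => ?_⟩
  have hΓ0 : (0 : ℝ) < Γ := hΓ
  rw [Real.dist_eq, sub_zero, abs_of_pos hΓ0] at hd
  obtain ⟨L0, hL0⟩ := hR d (g Γ) (hg Γ hΓ0) (ε / 3) (by positivity)
  obtain ⟨L, hL⟩ : ∃ L : ℕ, L = max L0 ⌈1 / Γ ^ 2⌉₊ + 1 := ⟨_, rfl⟩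
  have hLn : NeZero L := ⟨by omega⟩
  have h1 : L0 ≤ L := by
    rw [hL]
    exact (le_max_left _ _).trans (Nat.le_succ _)
  have h2 : 1 / (L : ℝ) ≤ Γ ^ ((1 : ℝ) + 1) := by
    have e1 : Γ ^ ((1 : ℝ) + 1) = Γ ^ 2 := by
      rw [show (1 : ℝ) + 1 = ((2 : ℕ) : ℝ) by norm_num, Real.rpow_natCast]
    have e2 : 1 / Γ ^ 2 ≤ (L : ℝ) := by
      refine (Nat.le_ceil _).trans ?_
      rw [hL]
      exact_mod_cast (le_max_right _ _).trans (Nat.le_succ _)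
    have e3 : (0 : ℝ) < L := by exact_mod_cast Nat.pos_of_ne_zero (NeZero.ne L)
    rw [e1, div_le_iff₀ e3]
    rw [div_le_iff₀ (by positivity)] at e2
    linarith
  have h3 := h Γ L hΓ0 hd h2
  have h4 := hL0 L h1
  rw [dist_eq_norm]
  have h5 : (∫ k in Set.Icc (0 : Fin d → ℝ) 1, g Γ k) - (a : ℂ) =
      (((NN d L : ℝ) : ℂ)⁻¹ * ∑ k : T d L, g Γ (fun i => ((k i).val : ℝ) / L) - (a : ℂ)) -
      (((NN d L : ℝ) : ℂ)⁻¹ * ∑ k : T d L, g Γ (fun i => ((k i).val : ℝ) / L) -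
        ∫ k in Set.Icc (0 : Fin d → ℝ) 1, g Γ k) := by ring
  rw [h5]
  refine (norm_sub_le _ _).trans_lt ?_
  linarith

theorem lz_cont (d : ℕ) (E Γ : ℝ) (hΓ : 0 < Γ) : Continuous (lz d E Γ) := by
  unfold lz
  refine Continuous.div continuous_const ?_ fun k => ?_
  · fun_prop
  · positivity

theorem lz_val (E Γ : ℝ) (k : T d L) : lz d E Γ (fun i => ((k i).val : ℝ) / L) =
    Γ / ((adj k - E) ^ 2 + Γ ^ 2) := by
  unfold lz
  rw [adj_val]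

end PLM

open PLM in
theorem plm (hR : T_PRI) (hC : T_PCAU) (hK : T_KCAU) (hS : T_PSY) : T_PLM := by
  intro d hd m E hE
  have hA : Tendsto (fun Γ => ∫ k in Set.Icc (0 : Fin d → ℝ) 1,
      Complex.exp ((2 * Real.pi * ∑ i, (m i : ℝ) * k i : ℝ) * Complex.I) *
        ((lz d E Γ k : ℝ) : ℂ)) (𝓝[>] 0) (𝓝 ((Real.pi * wm d m E : ℝ) : ℂ)) := by
    refine lim_of hR (fun Γ k => Complex.exp ((2 * Real.pi * ∑ i, (m i : ℝ) * k i : ℝ) * Complex.I) *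
        ((lz d E Γ k : ℝ) : ℂ)) (Real.pi * wm d m E) (fun Γ hΓ => ?_) (fun η hη => ?_)
    · refine Continuous.mul ?_ (Complex.continuous_ofReal.comp (lz_cont d E Γ hΓ))
      refine Complex.continuous_exp.comp ?_
      refine Continuous.mul (Complex.continuous_ofReal.comp ?_) continuous_const
      fun_prop
    · obtain ⟨r, hr, h⟩ := hC d hd m 1 η one_pos hη
      refine ⟨r, hr, fun Γ L _ h0 h1 h2 => ?_⟩
      have h3 := h E E Γ L (by simpa using hr) h0 h1 h2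
      have h4 := est (cqm m) E Γ η (cm d m E) h3
      have h5 : (cm d m E).im = Real.pi * wm d m E := by
        unfold wm
        field_simp
      rw [h5] at h4
      have h6 := (hS d L (-m)).2.1 (fun x => ((Γ / ((x - E) ^ 2 + Γ ^ 2) : ℝ) : ℂ))
      have h7 : ∑ k : T d L, Complex.exp ((2 * Real.pi * ∑ i, (m i : ℝ) *
          (((k i).val : ℝ) / L) : ℝ) * Complex.I) *
          ((lz d E Γ (fun i => ((k i).val : ℝ) / L) : ℝ) : ℂ) =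
          ∑ k : T d L, ((cqm m k : ℝ) : ℂ) * ((Γ / ((adj k - E) ^ 2 + Γ ^ 2) : ℝ) : ℂ) := by
        have h8 : ∑ k : T d L, ((cqm m k : ℝ) : ℂ) * ((Γ / ((adj k - E) ^ 2 + Γ ^ 2) : ℝ) : ℂ) =
            ∑ k : T d L, ((cqm (-m) k : ℝ) : ℂ) * ((Γ / ((adj k - E) ^ 2 + Γ ^ 2) : ℝ) : ℂ) :=
          Finset.sum_congr rfl fun k _ => by rw [cqm_neg m k]
        rw [h8, ← h6]
        refine Finset.sum_congr rfl fun k _ => ?_
        rw [chm_neg, lz_val]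
      show ‖((NN d L : ℝ) : ℂ)⁻¹ * ∑ k : T d L, Complex.exp ((2 * Real.pi * ∑ i, (m i : ℝ) *
          (((k i).val : ℝ) / L) : ℝ) * Complex.I) *
          ((lz d E Γ (fun i => ((k i).val : ℝ) / L) : ℝ) : ℂ) - _‖ ≤ η
      rw [h7]
      exact h4
  have hB : Tendsto (fun Γ => ∫ k in Set.Icc (0 : Fin d → ℝ) 1, ((lz d E Γ k : ℝ) : ℂ)) (𝓝[>] 0)
      (𝓝 ((Real.pi * dn d E : ℝ) : ℂ)) := by
    refine lim_of hR (fun Γ k => ((lz d E Γ k : ℝ) : ℂ)) (Real.pi * dn d E) (fun Γ hΓ => ?_)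
      (fun η hη => ?_)
    · exact Complex.continuous_ofReal.comp (lz_cont d E Γ hΓ)
    · obtain ⟨hi, hk⟩ := hK d hd
      obtain ⟨r, hr, h⟩ := hk 1 η one_pos hη
      refine ⟨r, hr, fun Γ L _ h0 h1 h2 => ?_⟩
      have h3 := (h E E Γ L (by simpa using hr) h0 h1 h2).1
      have h4 := est (fun _ => (1 : ℝ)) E Γ η (cn d E) (by simpa using h3)
      rw [(hi E).1] at h4
      show ‖((NN d L : ℝ) : ℂ)⁻¹ * ∑ k : T d L,
          ((lz d E Γ (fun i => ((k i).val : ℝ) / L) : ℝ) : ℂ) - _‖ ≤ η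
      have h5 : ∑ k : T d L, ((lz d E Γ (fun i => ((k i).val : ℝ) / L) : ℝ) : ℂ) =
          ∑ k : T d L, (((1 : ℝ) : ℝ) : ℂ) * ((Γ / ((adj k - E) ^ 2 + Γ ^ 2) : ℝ) : ℂ) := by
        refine Finset.sum_congr rfl fun k _ => ?_
        rw [lz_val, Complex.ofReal_one, one_mul]
      rw [h5]
      exact h4
  have hne : ((Real.pi * dn d E : ℝ) : ℂ) ≠ 0 := by
    exact_mod_cast (mul_pos Real.pi_pos hE).ne'
  have h := hA.div hB hne
  have e1 : ((Real.pi * wm d m E : ℝ) : ℂ) / ((Real.pi * dn d E : ℝ) : ℂ) =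
      ((wm d m E / dn d E : ℝ) : ℂ) := by
    rw [← Complex.ofReal_div, mul_div_mul_left _ _ Real.pi_ne_zero]
  rw [e1] at h
  exact h

end Pool.Agent.T2h98.PS
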