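import Pool.Agent.T2h98.PS.Stm

/-! Poisson integrals of continuous functions -/

set_option autoImplicit false

open scoped BigOperators Matrix Topology
open MeasureTheory ProbabilityTheory Filter

namespace Pool.Agent.T2h98.PS

/-- the Poisson kernel is integrable with integral `π` -/
theorem ppo_int (x ε : ℝ) (hε : 0 < ε) :
    Integrable (fun E : ℝ => ε / ((x - E) ^ 2 + ε ^ 2)) ∧
    ∫ E : ℝ, ε / ((x - E) ^ 2 + ε ^ 2) = Real.pi := by
  have h : (fun E : ℝ => ε / ((x - E) ^ 2 + ε ^ 2)) =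
      fun E : ℝ => ε⁻¹ * (1 + ((E - x) / ε) ^ 2)⁻¹ := by
    funext E
    have h1 : (x - E) ^ 2 + ε ^ 2 ≠ 0 := by positivity
    have h2 : 1 + ((E - x) / ε) ^ 2 ≠ 0 := by positivity
    field_simp
    ring
  constructor
  · rw [h]
    refine Integrable.const_mul ?_ _
    exact (integrable_inv_one_add_sq.comp_div hε.ne').comp_sub_right x
  · rw [h, integral_const_mul, integral_sub_right_eq_self (fun E : ℝ => (1 + (E / ε) ^ 2)⁻¹) x,
      Measure.integral_comp_div (fun E : ℝ => (1 + E ^ 2)⁻¹) ε, integral_univ_inv_one_add_sq,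
      abs_of_pos hε, smul_eq_mul]
    field_simp

/-- the kernel away from the point -/
theorem ppo_far (x E r ε : ℝ) (hr : 0 < r) (hε : 0 < ε) (h : r ≤ |x - E|) :
    ε / ((x - E) ^ 2 + ε ^ 2) ≤ (2 * ε / r) * (r / ((x - E) ^ 2 + r ^ 2)) := by
  have h1 : r ^ 2 ≤ (x - E) ^ 2 := by
    rw [← sq_abs (x - E)]
    exact pow_le_pow_left₀ hr.le h 2
  have h2 : (2 * ε / r) * (r / ((x - E) ^ 2 + r ^ 2)) = ε * 2 / ((x - E) ^ 2 + r ^ 2) := by
    field_simp
  rw [h2, div_le_div_iff₀ (by positivity) (by positivity)]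
  nlinarith [mul_nonneg hε.le (sub_nonneg.mpr h1), mul_pos hε (pow_pos hε 2)]

theorem T_PPO_holds : T_PPO := by
  constructor
  · intro c hc hs η hη
    obtain ⟨M, hM⟩ := hs.exists_bound_of_continuous hc
    have hM0 : 0 ≤ M := (norm_nonneg _).trans (hM 0)
    have hu : UniformContinuous c := hs.uniformContinuous_of_continuous hc
    obtain ⟨r, hr, hur⟩ := Metric.uniformContinuous_iff.mp hu (η / 2) (half_pos hη)
    refine ⟨η * r / (8 * (M + 1)), by positivity, fun ε hε hε0 x => ?_⟩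
    obtain ⟨hk1, hk2⟩ := ppo_int x ε hε
    obtain ⟨hr1, hr2⟩ := ppo_int x r hr
    have hpi := Real.pi_pos
    have hint : Integrable (fun E : ℝ => c E * (ε / ((x - E) ^ 2 + ε ^ 2))) := by
      refine hk1.bdd_mul (c := M) hc.aestronglyMeasurable ?_
      exact Filter.Eventually.of_forall hM
    have e1 : c x - Real.pi⁻¹ * ∫ E : ℝ, c E * (ε / ((x - E) ^ 2 + ε ^ 2)) =
        Real.pi⁻¹ * ∫ E : ℝ, (c x - c E) * (ε / ((x - E) ^ 2 + ε ^ 2)) := by
      have : ∫ E : ℝ, (c x - c E) * (ε / ((x - E) ^ 2 + ε ^ 2)) =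
          c x * Real.pi - ∫ E : ℝ, c E * (ε / ((x - E) ^ 2 + ε ^ 2)) := by
        rw [← hk2, ← integral_const_mul, ← integral_sub (hk1.const_mul _) hint]
        congr 1
        funext E
        ring
      rw [this, mul_sub, mul_comm (c x) Real.pi, ← mul_assoc, inv_mul_cancel₀ hpi.ne', one_mul]
    have e2 : ‖∫ E : ℝ, (c x - c E) * (ε / ((x - E) ^ 2 + ε ^ 2))‖ ≤
        ∫ E : ℝ, (η / 2 * (ε / ((x - E) ^ 2 + ε ^ 2)) +
          2 * M * (2 * ε / r) * (r / ((x - E) ^ 2 + r ^ 2))) := by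
      refine norm_integral_le_of_norm_le ((hk1.const_mul _).add (hr1.const_mul _)) ?_
      refine Filter.Eventually.of_forall fun E => ?_
      have hk0 : 0 ≤ ε / ((x - E) ^ 2 + ε ^ 2) := by positivity
      have hr0 : 0 ≤ r / ((x - E) ^ 2 + r ^ 2) := by positivity
      show ‖(c x - c E) * (ε / ((x - E) ^ 2 + ε ^ 2))‖ ≤ η / 2 * (ε / ((x - E) ^ 2 + ε ^ 2)) +
          2 * M * (2 * ε / r) * (r / ((x - E) ^ 2 + r ^ 2))
      rw [norm_mul, Real.norm_of_nonneg hk0]
      by_cases hx : |x - E| < r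
      · have h1 : ‖c x - c E‖ ≤ η / 2 := by
          have := hur (a := x) (b := E) (by rw [Real.dist_eq]; exact hx)
          rw [dist_eq_norm] at this
          exact this.le
        have h2 : 0 ≤ 2 * M * (2 * ε / r) * (r / ((x - E) ^ 2 + r ^ 2)) := by positivity
        nlinarith [mul_le_mul_of_nonneg_right h1 hk0]
      · have h1 : ‖c x - c E‖ ≤ 2 * M := by
          calc ‖c x - c E‖ ≤ ‖c x‖ + ‖c E‖ := norm_sub_le _ _
            _ ≤ 2 * M := by linarith [hM x, hM E]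
        have h2 := ppo_far x E r ε hr hε (not_lt.mp hx)
        have h3 : 0 ≤ η / 2 * (ε / ((x - E) ^ 2 + ε ^ 2)) := by positivity
        calc ‖c x - c E‖ * (ε / ((x - E) ^ 2 + ε ^ 2)) ≤
            2 * M * ((2 * ε / r) * (r / ((x - E) ^ 2 + r ^ 2))) := by
              refine mul_le_mul h1 h2 hk0 (by positivity)
          _ ≤ _ := by linarith
    rw [integral_add (hk1.const_mul _) (hr1.const_mul _), integral_const_mul, integral_const_mul,
      hk2, hr2, Real.norm_eq_abs] at e2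
    rw [e1, abs_mul, abs_of_pos (inv_pos.mpr hpi)]
    have e3 : 2 * M * (2 * ε / r) ≤ η / 2 := by
      have h1 : ε * (8 * (M + 1)) < η * r := by
        rwa [lt_div_iff₀ (by positivity)] at hε0
      have h2 : 2 * M * (2 * ε / r) = 4 * M * ε / r := by ring
      rw [h2, div_le_iff₀ hr]
      nlinarith [mul_nonneg hε.le hM0]
    calc Real.pi⁻¹ * |∫ E : ℝ, (c x - c E) * (ε / ((x - E) ^ 2 + ε ^ 2))| ≤
        Real.pi⁻¹ * (η / 2 * Real.pi + 2 * M * (2 * ε / r) * Real.pi) := by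
          exact mul_le_mul_of_nonneg_left e2 (inv_pos.mpr hpi).le
      _ = η / 2 + 2 * M * (2 * ε / r) := by field_simp
      _ ≤ η := by linarith
  · intro r hr
    refine ⟨r / 4, by positivity, fun ε hε hε0 x S hS hxS => ?_⟩
    obtain ⟨hk1, hk2⟩ := ppo_int x ε hε
    obtain ⟨hr1, hr2⟩ := ppo_int x r hr
    have hpi := Real.pi_pos
    have h1 : ∫ E in S, ε / ((x - E) ^ 2 + ε ^ 2) =
        Real.pi - ∫ E in Sᶜ, ε / ((x - E) ^ 2 + ε ^ 2) := by
      rw [← hk2, ← integral_add_compl hS hk1]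
      ring
    have h2 : ∫ E in Sᶜ, ε / ((x - E) ^ 2 + ε ^ 2) ≤
        ∫ E in Sᶜ, (2 * ε / r) * (r / ((x - E) ^ 2 + r ^ 2)) := by
      refine setIntegral_mono_on hk1.integrableOn (hr1.const_mul _).integrableOn hS.compl ?_
      intro E hE
      refine ppo_far x E r ε hr hε ?_
      by_contra hlt
      exact hE (hxS E (not_le.mp hlt))
    have h3 : ∫ E in Sᶜ, (2 * ε / r) * (r / ((x - E) ^ 2 + r ^ 2)) ≤
        ∫ E : ℝ, (2 * ε / r) * (r / ((x - E) ^ 2 + r ^ 2)) := by
      refine setIntegral_le_integral (hr1.const_mul _) ?_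
      exact Filter.Eventually.of_forall fun E => by
        show 0 ≤ (2 * ε / r) * (r / ((x - E) ^ 2 + r ^ 2))
        positivity
    rw [integral_const_mul, integral_const_mul, hr2] at h3
    rw [integral_const_mul] at h2
    have h4 : 2 * ε / r ≤ 1 / 2 := by
      rw [div_le_iff₀ hr]
      linarith
    have h5 : Real.pi / 2 ≤ ∫ E in S, ε / ((x - E) ^ 2 + ε ^ 2) := by
      rw [h1]
      nlinarith [mul_le_mul_of_nonneg_right h4 hpi.le]
    calc (1 : ℝ) / 2 = Real.pi⁻¹ * (Real.pi / 2) := by field_simp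
      _ ≤ _ := mul_le_mul_of_nonneg_left h5 (inv_pos.mpr hpi).le

end Pool.Agent.T2h98.PS
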