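import Pool.Agent.T2h98.PS.Stm

/-! The density of states is positive inside the spectrum (PPS). -/

set_option autoImplicit false
set_option linter.unusedSectionVars false

open scoped BigOperators Topology
open MeasureTheory Filter

namespace Pool.Agent.T2h98.PS

open Pool.Agent.T2h98.QD

namespace Pps

variable {d : ℕ}

/-- the energy -/
noncomputable def F (k : Fin d → ℝ) : ℝ := ∑ i, 2 * Real.cos (k i)

lemma F_cont : Continuous (F (d := d)) := by
  unfold F
  fun_prop

lemma F_sub (k k' : Fin d → ℝ) : |F k - F k'| ≤ 2 * ∑ i, |k i - k' i| := by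
  unfold F
  rw [← Finset.sum_sub_distrib, Finset.mul_sum]
  refine (Finset.abs_sum_le_sum_abs _ _).trans (Finset.sum_le_sum fun i _ => ?_)
  rw [← mul_sub, abs_mul, abs_of_pos (by norm_num : (0 : ℝ) < 2)]
  have := Real.abs_cos_sub_cos_le (k i) (k' i)
  linarith

lemma F_single (k : Fin d → ℝ) (i0 : Fin d) (t t' : ℝ) :
    |F (k + Pi.single i0 t) - F (k + Pi.single i0 t')| ≤ 2 * |t - t'| := by
  refine (F_sub _ _).trans (le_of_eq ?_)
  congr 1
  rw [Finset.sum_eq_single i0]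
  · simp
  · intro i _ hi
    simp [Pi.single_eq_of_ne hi]
  · intro h
    exact absurd (Finset.mem_univ _) h

/-- the momenta with energy near `E` -/
def A (d : ℕ) (E r : ℝ) : Set (Fin d → ℝ) :=
  {k | k ∈ Set.Icc (fun _ : Fin d => -Real.pi) (fun _ => Real.pi) ∧ |F k - E| ≤ r}

lemma A_meas (E r : ℝ) : MeasurableSet (A d E r) := by
  apply IsClosed.measurableSet
  exact isClosed_Icc.inter (isClosed_le ((F_cont.sub continuous_const).abs) continuous_const)

lemma A_fin (E r : ℝ) : volume (A d E r) ≠ ⊤ := by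
  have h1 : A d E r ⊆ Set.Icc (fun _ : Fin d => -Real.pi) (fun _ => Real.pi) := fun k hk => hk.1
  exact ((measure_mono h1).trans_lt isCompact_Icc.measure_lt_top).ne

lemma slab (hd : 0 < d) {E : ℝ} (hE : |E| < 2 * d) : ∃ c : ℝ, 0 < c ∧ ∀ r : ℝ, 0 < r → r ≤ 1 →
    c * r ≤ (volume (A d E r)).toReal := by
  have hd0 : (0 : ℝ) < d := by exact_mod_cast hd
  have hx : |E / (2 * d)| < 1 := by
    rw [abs_div, abs_of_pos (by positivity : (0 : ℝ) < 2 * d), div_lt_one (by positivity)]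
    exact hE
  rw [abs_lt] at hx
  obtain ⟨θ, hθ⟩ : ∃ θ : ℝ, θ = Real.arccos (E / (2 * d)) := ⟨_, rfl⟩
  have hcos : Real.cos θ = E / (2 * d) := by
    rw [hθ]
    exact Real.cos_arccos hx.1.le hx.2.le
  have hθ0 : 0 < θ := by rw [hθ]; exact Real.arccos_pos.2 hx.2
  have hθ1 : θ < Real.pi := by
    rw [hθ]
    refine lt_of_le_of_ne (Real.arccos_le_pi _) fun h => ?_
    rw [Real.arccos_eq_pi] at h
    linarith [hx.1]
  obtain ⟨ρ1, hρ1⟩ : ∃ ρ1 : ℝ, ρ1 = min θ (Real.pi - θ) / 2 := ⟨_, rfl⟩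
  have hρ10 : 0 < ρ1 := by
    rw [hρ1]
    have : 0 < min θ (Real.pi - θ) := lt_min hθ0 (by linarith)
    linarith
  have hρ1a : 2 * ρ1 ≤ θ := by
    rw [hρ1]
    linarith [min_le_left θ (Real.pi - θ)]
  have hρ1b : 2 * ρ1 ≤ Real.pi - θ := by
    rw [hρ1]
    linarith [min_le_right θ (Real.pi - θ)]
  have hg1 : Real.cos (θ + ρ1) < Real.cos θ :=
    Real.cos_lt_cos_of_nonneg_of_le_pi hθ0.le (by linarith) (by linarith)
  have hg2 : Real.cos θ < Real.cos (θ - ρ1) :=
    Real.cos_lt_cos_of_nonneg_of_le_pi (by linarith) hθ1.le (by linarith)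
  obtain ⟨g1, hg1'⟩ : ∃ g1 : ℝ, g1 = 2 * Real.cos θ - 2 * Real.cos (θ + ρ1) := ⟨_, rfl⟩
  obtain ⟨g2, hg2'⟩ : ∃ g2 : ℝ, g2 = 2 * Real.cos (θ - ρ1) - 2 * Real.cos θ := ⟨_, rfl⟩
  have hg10 : 0 < g1 := by linarith
  have hg20 : 0 < g2 := by linarith
  obtain ⟨ρ, hρ⟩ : ∃ ρ : ℝ, ρ = min ρ1 (min g1 g2 / (2 * d)) := ⟨_, rfl⟩
  have hρ0 : 0 < ρ := by
    rw [hρ]
    exact lt_min hρ10 (div_pos (lt_min hg10 hg20) (by positivity))
  have hρa : ρ ≤ ρ1 := by rw [hρ]; exact min_le_left _ _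
  have hρb : 2 * d * ρ ≤ min g1 g2 := by
    have : ρ ≤ min g1 g2 / (2 * d) := by rw [hρ]; exact min_le_right _ _
    rw [le_div_iff₀ (by positivity)] at this
    linarith
  have hρ1g : 2 * d * ρ ≤ g1 := hρb.trans (min_le_left _ _)
  have hρ2g : 2 * d * ρ ≤ g2 := hρb.trans (min_le_right _ _)
  obtain ⟨i0, -⟩ : ∃ i0 : Fin d, i0 = ⟨0, hd⟩ := ⟨_, rfl⟩
  -- the values at the centre
  have hF0 : ∀ t : ℝ, F ((fun _ : Fin d => θ) + Pi.single i0 t) =
      E + (2 * Real.cos (θ + t) - 2 * Real.cos θ) := by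
    intro t
    unfold F
    rw [← Finset.add_sum_erase Finset.univ _ (Finset.mem_univ i0)]
    have h1 : ∑ i ∈ Finset.univ.erase i0, 2 * Real.cos (((fun _ : Fin d => θ) +
        (Pi.single i0 t : Fin d → ℝ)) i) = ∑ _i ∈ Finset.univ.erase i0, 2 * Real.cos θ := by
      apply Finset.sum_congr rfl
      intro i hi
      rw [Pi.add_apply, Pi.single_eq_of_ne (Finset.ne_of_mem_erase hi), add_zero]
    rw [h1, Finset.sum_const, Finset.card_erase_of_mem (Finset.mem_univ i0), Finset.card_univ,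
      Fintype.card_fin, nsmul_eq_mul, Pi.add_apply, Pi.single_eq_same, Nat.cast_sub (by omega),
      hcos]
    push_cast
    field_simp
    ring
  have hbox : ∀ k : Fin d → ℝ, (∀ i, |k i - θ| ≤ ρ) → ∀ t : ℝ,
      |F (k + Pi.single i0 t) - F ((fun _ : Fin d => θ) + Pi.single i0 t)| ≤ 2 * d * ρ := by
    intro k hk t
    refine (F_sub _ _).trans ?_
    have h1 : ∑ i, |(k + (Pi.single i0 t : Fin d → ℝ)) i - ((fun _ : Fin d => θ) +
        (Pi.single i0 t : Fin d → ℝ)) i| ≤ ∑ _i : Fin d, ρ := by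
      refine Finset.sum_le_sum fun i _ => ?_
      rw [Pi.add_apply, Pi.add_apply, add_sub_add_right_eq_sub]
      exact hk i
    rw [Finset.sum_const, Finset.card_univ, Fintype.card_fin, nsmul_eq_mul] at h1
    linarith
  have hivt : ∀ k : Fin d → ℝ, (∀ i, |k i - θ| ≤ ρ) → ∃ t : ℝ, t ∈ Set.Icc (-ρ1) ρ1 ∧
      F (k + Pi.single i0 t) = E := by
    intro k hk
    have hc : Continuous fun t : ℝ => F (k + Pi.single i0 t) := by
      refine F_cont.comp (continuous_const.add ?_)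
      exact continuous_pi fun i => by
        by_cases hi : i = i0
        · subst hi
          simp only [Pi.single_eq_same]
          exact continuous_id
        · simp only [Pi.single_eq_of_ne hi]
          exact continuous_const
    have h1 := intermediate_value_Icc' (a := -ρ1) (b := ρ1) (by linarith) hc.continuousOn
    have h2 := hbox k hk ρ1
    have h3 := hbox k hk (-ρ1)
    rw [hF0, abs_le] at h2 h3
    have h4 : E ∈ Set.Icc (F (k + Pi.single i0 ρ1)) (F (k + Pi.single i0 (-ρ1))) := by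
      constructor
      · linarith [h2.2]
      · have h5 : θ + -ρ1 = θ - ρ1 := by ring
        rw [h5] at h3
        linarith [h3.1]
    obtain ⟨t, ht, ht2⟩ := h1 h4
    exact ⟨t, ht, ht2⟩
  have hin : ∀ k : Fin d → ℝ, (∀ i, |k i - θ| ≤ ρ) → ∀ t : ℝ, t ∈ Set.Icc (-ρ1) ρ1 →
      k + Pi.single i0 t ∈ Set.Icc (fun _ : Fin d => -Real.pi) (fun _ => Real.pi) := by
    intro k hk t ht
    have h1 : ∀ i, -ρ1 ≤ (Pi.single i0 t : Fin d → ℝ) i ∧ (Pi.single i0 t : Fin d → ℝ) i ≤ ρ1 := by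
      intro i
      by_cases hi : i = i0
      · rw [hi, Pi.single_eq_same]
        exact ht
      · rw [Pi.single_eq_of_ne hi]
        exact ⟨by linarith, hρ10.le⟩
    have h2 := Real.pi_pos
    constructor
    · intro i
      have h3 := hk i
      rw [abs_le] at h3
      have h4 := h1 i
      show -Real.pi ≤ k i + (Pi.single i0 t : Fin d → ℝ) i
      linarith [h3.1, h4.1]
    · intro i
      have h3 := hk i
      rw [abs_le] at h3
      have h4 := h1 i
      show k i + (Pi.single i0 t : Fin d → ℝ) i ≤ Real.pi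
      linarith [h3.2, h4.2]
  obtain ⟨b, hb⟩ : ∃ b : ℝ, b = (2 * ρ) ^ d := ⟨_, rfl⟩
  have hb0 : 0 < b := by rw [hb]; positivity
  have hvolb : (volume (Set.Icc (fun _ : Fin d => θ - ρ) (fun _ => θ + ρ))).toReal = b := by
    rw [Real.volume_Icc_pi_toReal (fun i => by linarith), hb]
    simp only [Finset.prod_const, Finset.card_univ, Fintype.card_fin]
    congr 1
    ring
  refine ⟨b / (4 * ρ1 + 3), by positivity, fun r hr hr1 => ?_⟩
  obtain ⟨n, hn⟩ : ∃ n : ℕ, n = ⌈4 * ρ1 / r⌉₊ + 1 := ⟨_, rfl⟩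
  have hn0 : (0 : ℝ) < n := by
    rw [hn]
    positivity
  have hn1 : 4 * ρ1 / r ≤ n := by
    rw [hn]
    push_cast
    linarith [Nat.le_ceil (4 * ρ1 / r)]
  have hn2 : (n : ℝ) ≤ 4 * ρ1 / r + 2 := by
    rw [hn]
    push_cast
    have := Nat.ceil_lt_add_one (a := 4 * ρ1 / r) (by positivity)
    linarith
  obtain ⟨tt, htt⟩ : ∃ tt : ℕ → ℝ, tt = fun j : ℕ => -ρ1 + (j : ℝ) * (2 * ρ1 / n) := ⟨_, rfl⟩
  have hcover : Set.Icc (fun _ : Fin d => θ - ρ) (fun _ => θ + ρ) ⊆
      ⋃ j ∈ Finset.range (n + 1), (fun k : Fin d → ℝ => k + Pi.single i0 (tt j)) ⁻¹' A d E r := by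
    intro k hk
    have hk' : ∀ i, |k i - θ| ≤ ρ := by
      intro i
      have h1 := hk.1 i
      have h2 := hk.2 i
      simp only at h1 h2
      rw [abs_le]
      constructor <;> linarith
    obtain ⟨t, ht, hFt⟩ := hivt k hk'
    obtain ⟨j, hj⟩ : ∃ j : ℕ, j = ⌊(t + ρ1) * n / (2 * ρ1)⌋₊ := ⟨_, rfl⟩
    have hpos : 0 ≤ (t + ρ1) * n / (2 * ρ1) := by
      have : 0 ≤ t + ρ1 := by linarith [ht.1]
      positivity
    have hj1 : (j : ℝ) ≤ (t + ρ1) * n / (2 * ρ1) := by rw [hj]; exact Nat.floor_le hpos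
    have hj2 : (t + ρ1) * n / (2 * ρ1) < j + 1 := by rw [hj]; exact Nat.lt_floor_add_one _
    have hj3 : (j : ℝ) ≤ n := by
      refine hj1.trans ?_
      rw [div_le_iff₀ (by positivity)]
      have : t + ρ1 ≤ 2 * ρ1 := by linarith [ht.2]
      nlinarith
    have h4 : j * (2 * ρ1 / n) ≤ t + ρ1 := by
      rw [le_div_iff₀ (by positivity)] at hj1
      rw [mul_div_assoc', div_le_iff₀ hn0]
      exact hj1
    have h5 : t + ρ1 ≤ (j + 1) * (2 * ρ1 / n) := by
      rw [div_lt_iff₀ (by positivity)] at hj2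
      rw [mul_div_assoc', le_div_iff₀ hn0]
      exact hj2.le
    have h6 : 2 * ρ1 / n ≤ r / 2 := by
      rw [div_le_iff₀ hr] at hn1
      rw [div_le_iff₀ hn0]
      linarith
    have h7 : j * (2 * ρ1 / n) ≤ 2 * ρ1 := by
      calc j * (2 * ρ1 / n) ≤ n * (2 * ρ1 / n) := by gcongr
        _ = 2 * ρ1 := by field_simp
    have h8 : 0 ≤ j * (2 * ρ1 / n) := by positivity
    have htj : tt j ∈ Set.Icc (-ρ1) ρ1 := by
      rw [htt]
      constructor
      · show -ρ1 ≤ -ρ1 + j * (2 * ρ1 / n)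
        linarith
      · show -ρ1 + j * (2 * ρ1 / n) ≤ ρ1
        linarith
    have h9 : |tt j - t| ≤ r / 2 := by
      rw [htt, abs_le]
      constructor
      · show -(r / 2) ≤ -ρ1 + j * (2 * ρ1 / n) - t
        have : (j + 1) * (2 * ρ1 / n) = j * (2 * ρ1 / n) + 2 * ρ1 / n := by ring
        linarith
      · show -ρ1 + j * (2 * ρ1 / n) - t ≤ r / 2
        linarith
    rw [Set.mem_iUnion₂]
    refine ⟨j, Finset.mem_range.2 ?_, ?_⟩
    · have : j ≤ n := by exact_mod_cast hj3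
      omega
    · refine ⟨hin k hk' _ htj, ?_⟩
      have h10 := F_single k i0 (tt j) t
      rw [hFt] at h10
      linarith
  have hmeas : volume (Set.Icc (fun _ : Fin d => θ - ρ) (fun _ => θ + ρ)) ≤
      ((n + 1 : ℕ) : ENNReal) * volume (A d E r) := by
    refine (measure_mono hcover).trans ((measure_biUnion_finset_le _ _).trans ?_)
    have h1 : ∀ j ∈ Finset.range (n + 1), volume ((fun k : Fin d → ℝ =>
        k + Pi.single i0 (tt j)) ⁻¹' A d E r) = volume (A d E r) := fun j _ =>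
      measure_preimage_add_right volume _ _
    rw [Finset.sum_congr rfl h1, Finset.sum_const, Finset.card_range, nsmul_eq_mul]
  have hreal : b ≤ (n + 1) * (volume (A d E r)).toReal := by
    have h1 := ENNReal.toReal_mono (ENNReal.mul_ne_top (ENNReal.natCast_ne_top _)
      (A_fin E r)) hmeas
    rw [hvolb, ENNReal.toReal_mul, ENNReal.toReal_natCast] at h1
    push_cast at h1
    exact h1
  have hv0 : 0 ≤ (volume (A d E r)).toReal := ENNReal.toReal_nonneg
  have h1 : ((n : ℝ) + 1) * r ≤ 4 * ρ1 + 3 := by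
    have h2 : (n : ℝ) * r ≤ 4 * ρ1 + 2 * r := by
      calc (n : ℝ) * r ≤ (4 * ρ1 / r + 2) * r := by gcongr
        _ = 4 * ρ1 + 2 * r := by field_simp
    nlinarith
  rw [div_mul_eq_mul_div, div_le_iff₀ (by positivity)]
  calc b * r ≤ ((n + 1) * (volume (A d E r)).toReal) * r := by gcongr
    _ = ((n + 1) * r) * (volume (A d E r)).toReal := by ring
    _ ≤ (4 * ρ1 + 3) * (volume (A d E r)).toReal := by gcongr
    _ = _ := mul_comm _ _

end Pps

open Pps in
/-- **the density of states is positive inside the spectrum** -/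
theorem pps (hD : T_DOS) : ∀ d : ℕ, 3 ≤ d → ∀ E : ℝ, |E| < 2 * (d : ℝ) → 0 < dn d E := by
  intro d hd E hE
  obtain ⟨hc, -, h0, -, -, hf⟩ := hD d hd
  by_contra hcon
  have hdn : dn d E = 0 := le_antisymm (not_lt.1 hcon) (h0 E)
  obtain ⟨c, hc0, hsl⟩ := slab (by omega : 0 < d) hE
  obtain ⟨w, hw⟩ : ∃ w : ℝ, w = (2 * Real.pi)⁻¹ ^ d * c := ⟨_, rfl⟩
  have hw0 : 0 < w := by rw [hw]; positivity
  obtain ⟨δ, hδ⟩ : ∃ δ : ℝ, δ = w / 16 := ⟨_, rfl⟩
  have hδ0 : 0 < δ := by rw [hδ]; positivity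
  obtain ⟨r0, hr0, h2⟩ := Metric.continuousAt_iff.1 (hc.continuousAt (x := E)) δ hδ0
  obtain ⟨r, hr⟩ : ∃ r : ℝ, r = min 1 (r0 / 4) := ⟨_, rfl⟩
  have hr00 : 0 < r := by rw [hr]; positivity
  have hr1 : r ≤ 1 := by rw [hr]; exact min_le_left _ _
  have hr2 : 2 * r < r0 := by
    have : r ≤ r0 / 4 := by rw [hr]; exact min_le_right _ _
    linarith
  obtain ⟨f, hfd⟩ : ∃ f : ℝ → ℝ, f = fun x => max 0 (2 - |x - E| / r) := ⟨_, rfl⟩
  have hfc : Continuous f := by
    rw [hfd]
    fun_prop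
  have hf0 : ∀ x, 0 ≤ f x := fun x => by rw [hfd]; exact le_max_left _ _
  have hf2 : ∀ x, f x ≤ 2 := fun x => by
    rw [hfd]
    apply max_le (by norm_num)
    have : 0 ≤ |x - E| / r := by positivity
    linarith
  have hf1 : ∀ x, |x - E| ≤ r → 1 ≤ f x := fun x hx => by
    rw [hfd]
    refine le_trans ?_ (le_max_right _ _)
    have : |x - E| / r ≤ 1 := by rwa [div_le_one hr00]
    linarith
  have hf3 : ∀ x, 2 * r < |x - E| → f x = 0 := fun x hx => by
    rw [hfd]
    apply max_eq_left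
    have : 2 ≤ |x - E| / r := by rw [le_div_iff₀ hr00]; exact hx.le
    linarith
  have hint := (hf f hfc).1
  -- the upper bound
  have hup : ∫ x : ℝ, f x * dn d x ≤ 8 * r * δ := by
    have h3 : ∀ x, f x * dn d x ≤ (Set.Icc (E - 2 * r) (E + 2 * r)).indicator
        (fun _ => 2 * δ) x := by
      intro x
      by_cases hx : x ∈ Set.Icc (E - 2 * r) (E + 2 * r)
      · rw [Set.indicator_of_mem hx]
        have h4 : |x - E| ≤ 2 * r := by
          rw [abs_le]
          constructor <;> linarith [hx.1, hx.2]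
        have h5 := h2 (x := x) (by rw [Real.dist_eq]; linarith)
        rw [hdn, Real.dist_eq, sub_zero] at h5
        have h6 : dn d x ≤ δ := (le_abs_self _).trans h5.le
        exact mul_le_mul (hf2 x) h6 (h0 x) (by norm_num)
      · rw [Set.indicator_of_notMem hx]
        have h4 : 2 * r < |x - E| := by
          by_contra h
          rw [not_lt, abs_le] at h
          exact hx ⟨by linarith [h.1], by linarith [h.2]⟩
        rw [hf3 x h4, zero_mul]
    have h7 : Integrable ((Set.Icc (E - 2 * r) (E + 2 * r)).indicator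
        (fun _ : ℝ => 2 * δ)) :=
      (integrable_indicator_iff measurableSet_Icc).2
        (integrableOn_const (by exact isCompact_Icc.measure_lt_top.ne))
    refine (integral_mono_of_nonneg (ae_of_all _ fun x => mul_nonneg (hf0 x) (h0 x)) h7
      (ae_of_all _ h3)).trans (le_of_eq ?_)
    rw [integral_indicator measurableSet_Icc, setIntegral_const, measureReal_def,
      Real.volume_Icc, smul_eq_mul, ENNReal.toReal_ofReal (by linarith)]
    ring
  -- the lower bound
  have hlow : c * r ≤ ∫ k in Set.Icc (fun _ : Fin d => -Real.pi) (fun _ => Real.pi),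
      f (∑ i, 2 * Real.cos (k i)) := by
    have hcc : Continuous fun k : Fin d → ℝ => f (∑ i, 2 * Real.cos (k i)) :=
      hfc.comp F_cont
    have h3 : IntegrableOn (fun k : Fin d → ℝ => f (∑ i, 2 * Real.cos (k i)))
        (Set.Icc (fun _ : Fin d => -Real.pi) (fun _ => Real.pi)) :=
      hcc.continuousOn.integrableOn_compact isCompact_Icc
    have hAs : A d E r ⊆ Set.Icc (fun _ : Fin d => -Real.pi) (fun _ => Real.pi) :=
      fun k hk => hk.1
    calc c * r ≤ (volume (A d E r)).toReal := hsl r hr00 hr1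
      _ = ∫ _k in A d E r, (1 : ℝ) := by
          rw [setIntegral_const, smul_eq_mul, mul_one, measureReal_def]
      _ ≤ ∫ k in A d E r, f (∑ i, 2 * Real.cos (k i)) := by
          refine setIntegral_mono_on (integrableOn_const (A_fin E r)) (h3.mono_set hAs)
            (A_meas E r) fun k hk => ?_
          exact hf1 _ hk.2
      _ ≤ _ := setIntegral_mono_set h3 (ae_of_all _ fun k => hf0 _)
          (Filter.Eventually.of_forall hAs)
  have hfin : w * r ≤ 8 * r * δ := by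
    calc w * r = (2 * Real.pi)⁻¹ ^ d * (c * r) := by rw [hw]; ring
      _ ≤ (2 * Real.pi)⁻¹ ^ d * ∫ k in Set.Icc (fun _ : Fin d => -Real.pi) (fun _ => Real.pi),
          f (∑ i, 2 * Real.cos (k i)) := by gcongr
      _ = ∫ x : ℝ, f x * dn d x := hint
      _ ≤ _ := hup
  have h9 : 8 * r * δ = w * r / 2 := by rw [hδ]; ring
  rw [h9] at hfin
  have : 0 < w * r := by positivity
  linarith

end Pool.Agent.T2h98.PS
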