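import Pool.Agent.T2h98.PS.Stm
import Pool.Agent.T2h98.KU.KRB

/-! The mean of the resolvent with a symbol. -/

set_option autoImplicit false
set_option linter.unusedSectionVars false

open scoped BigOperators Matrix Topology
open MeasureTheory ProbabilityTheory Filter

namespace Pool.Agent.T2h98.PS

open Pool.Agent.W788.MFP.Four (T e NN adj K NN_pos)
open Pool.Agent.W788.BK (nsq hs PP JJ hi Low cr nsq_nonneg nsq_eq)
open Pool.Agent.W240.BK (BC BM cs_int)
open Pool.Agent.T2h98.QD
open Pool.Agent.T2h98.AC (TX RX mX sy Rb Fk)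
open Pool.Agent.T2h98.KU

namespace PRBS

variable {d L : ℕ} [NeZero L]

/-- the inversion formula -/
theorem mo_Rb (E ε σ : ℝ) (z : T d L) :
    Mo (Rb (xb false E ε) σ) 0 z = ∫ V, RE false E ε σ V 0 z ∂(GP (T d L)) := by
  rw [mo_apply]
  have hN : ((NN d L : ℝ) : ℂ) ≠ 0 := by
    have : 0 < NN d L := NN_pos
    exact_mod_cast this.ne'
  have h1 : ∀ k : T d L, Rb (xb false E ε) σ k * (e k z * (starRingEnd ℂ) (e k 0)) =
      ∑ y, (∫ V, RE false E ε σ V 0 y ∂(GP (T d L))) * e k (z - y) := by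
    intro k
    unfold Rb sy
    rw [Finset.sum_mul]
    refine Finset.sum_congr rfl fun y _ => ?_
    have h2 : e k (0 : T d L) = 1 := by
      have h3 := Pool.Agent.W788.MFP.Four.e_normSq k (0 : T d L)
      have h4 := Pool.Agent.W788.MFP.Four.e_add k (0 : T d L) 0
      rw [add_zero] at h4
      have h5 : e k (0 : T d L) ≠ 0 := by
        intro h6
        rw [h6, zero_mul] at h3
        exact zero_ne_one h3
      exact (mul_eq_left₀ h5).1 h4.symm
    rw [h2, map_one, mul_one, KQ.e_sub, Complex.star_def]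
    have h3 : (∫ V, RE false E ε σ V 0 y ∂(GP (T d L))) =
      ∫ V, RX (xb false E ε) σ V 0 y ∂(GP (T d L)) := rfl
    rw [h3]
    ring
  rw [Finset.sum_congr rfl fun k _ => h1 k, Finset.sum_comm]
  have h2 : ∀ y : T d L, ∑ k, (∫ V, RE false E ε σ V 0 y ∂(GP (T d L))) * e k (z - y) =
      if y = z then ((NN d L : ℝ) : ℂ) * ∫ V, RE false E ε σ V 0 z ∂(GP (T d L)) else 0 := by
    intro y
    rw [← Finset.mul_sum, Pool.Agent.W788.MFP.Four.sum_e]
    by_cases hy : y = z
    · rw [if_pos hy, if_pos (by rw [hy, sub_self]), hy, mul_comm]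
    · rw [if_neg hy, if_neg (fun h => hy (sub_eq_zero.1 h).symm), mul_zero]
  rw [Finset.sum_congr rfl fun y _ => h2 y, Finset.sum_ite_eq' Finset.univ z
    (fun _ => ((NN d L : ℝ) : ℂ) * ∫ V, RE false E ε σ V 0 z ∂(GP (T d L))),
    if_pos (Finset.mem_univ _), inv_mul_cancel_left₀ hN]

variable (hR : T_KR)
include hR

/-- the mean of the resolvent -/
theorem mean_RE {E ε : ℝ} (σ : ℝ) (hε : 0 < ε) (x y : T d L) :
    ∫ V, RE false E ε σ V x y ∂(GP (T d L)) = Mo (Rb (xb false E ε) σ) x y := by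
  obtain ⟨-, -, -, -, -, -, -, -, h9, -⟩ := hR d L false E ε σ hε
  have h1 := (inv d L x).1 fun V => RE false E ε σ V 0 (y - x)
  have h2 : ∀ V : T d L → ℝ, RE false E ε σ (fun z => V (z + x)) 0 (y - x) =
      RE false E ε σ V x y := by
    intro V
    rw [h9 V x 0 (y - x), zero_add, sub_add_cancel]
  have h3 : Mo (Rb (xb false E ε) σ) x y = Mo (Rb (xb false E ε) σ) 0 (y - x) := by
    unfold Mo
    rw [Matrix.of_apply, Matrix.of_apply, sub_zero]
  rw [h3, mo_Rb, ← h1]
  exact integral_congr_ae (Filter.Eventually.of_forall fun V => (h2 V).symm)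

theorem star_RE {E ε : ℝ} (σ : ℝ) (hε : 0 < ε) (V : T d L → ℝ) :
    RE true E ε σ V = (RE false E ε σ V)ᴴ := by
  obtain ⟨h1, -⟩ := hR d L true E ε σ hε
  obtain ⟨h2, -⟩ := hR d L false E ε σ hε
  rw [h1 V, h2 V]
  rfl

/-- the mean of the imaginary part with a symbol -/
theorem mean_Iv {E ε : ℝ} (σ : ℝ) (hε : 0 < ε) (q : T d L → ℂ) :
    ∫ V, Iv q E ε σ V ∂(GP (T d L)) =
      ((NN d L : ℝ) : ℂ)⁻¹ * ∑ k : T d L, q k * ((Rb (xb false E ε) σ k).im : ℂ) := by
  have hb := KRBS.bc hR (d := d) (L := L) false (E := E) (σ := σ) hε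
  have e1 : ∀ V : T d L → ℝ, Iv q E ε σ V = ((NN d L : ℝ) : ℂ)⁻¹ *
      ((2 * Complex.I)⁻¹ * (∑ x, ∑ y, Mo q x y * RE false E ε σ V y x -
        ∑ x, ∑ y, Mo q x y * star (RE false E ε σ V x y))) := by
    intro V
    unfold Iv IR
    congr 1
    rw [Matrix.mul_smul, Matrix.trace_smul, Matrix.mul_sub, Matrix.trace_sub, smul_eq_mul,
      star_RE hR σ hε V]
    rfl
  have i1 : ∀ x y : T d L, Integrable (fun V : T d L → ℝ => Mo q x y * RE false E ε σ V y x)
      (GP (T d L)) := fun x y => (((BC.const _).mul (hb y x)).integrable _)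
  have i2 : ∀ x y : T d L, Integrable
      (fun V : T d L → ℝ => Mo q x y * star (RE false E ε σ V x y)) (GP (T d L)) := by
    intro x y
    refine Integrable.const_mul ?_ _
    exact (LinearIsometryEquiv.integrable_comp_iff Complex.conjLIE).2 ((hb x y).integrable _)
  have e2 : ∫ V, (∑ x, ∑ y, Mo q x y * RE false E ε σ V y x) ∂(GP (T d L)) =
      ∑ k : T d L, q k * Rb (xb false E ε) σ k := by
    rw [integral_finsetSum _ fun x _ => integrable_finsetSum _ fun y _ => i1 x y]
    have h1 : ∀ x : T d L, ∫ V, (∑ y, Mo q x y * RE false E ε σ V y x) ∂(GP (T d L)) =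
        ∑ y, Mo q x y * Mo (Rb (xb false E ε) σ) y x := by
      intro x
      rw [integral_finsetSum _ fun y _ => i1 x y]
      refine Finset.sum_congr rfl fun y _ => ?_
      rw [integral_const_mul, mean_RE hR σ hε]
    rw [Finset.sum_congr rfl fun x _ => h1 x]
    have h2 : (Mo q * Mo (Rb (xb false E ε) σ)).trace = ∑ k : T d L, q k * Rb (xb false E ε) σ k := by
      rw [mo_mul, mo_trace]
    exact h2
  have e3 : ∫ V, (∑ x, ∑ y, Mo q x y * star (RE false E ε σ V x y)) ∂(GP (T d L)) =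
      ∑ k : T d L, q k * (starRingEnd ℂ) (Rb (xb false E ε) σ k) := by
    rw [integral_finsetSum _ fun x _ => integrable_finsetSum _ fun y _ => i2 x y]
    have h1 : ∀ x : T d L, ∫ V, (∑ y, Mo q x y * star (RE false E ε σ V x y)) ∂(GP (T d L)) =
        ∑ y, Mo q x y * (Mo (Rb (xb false E ε) σ))ᴴ y x := by
      intro x
      rw [integral_finsetSum _ fun y _ => i2 x y]
      refine Finset.sum_congr rfl fun y _ => ?_
      rw [integral_const_mul, Matrix.conjTranspose_apply, ← mean_RE hR σ hε]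
      congr 1
      exact integral_conj
    rw [Finset.sum_congr rfl fun x _ => h1 x]
    have h2 : (Mo q * (Mo (Rb (xb false E ε) σ))ᴴ).trace =
        ∑ k : T d L, q k * (starRingEnd ℂ) (Rb (xb false E ε) σ k) := by
      rw [mo_star, mo_mul, mo_trace]
    exact h2
  rw [integral_congr_ae (Filter.Eventually.of_forall e1), integral_const_mul, integral_const_mul,
    integral_sub (integrable_finsetSum _ fun x _ => integrable_finsetSum _ fun y _ => i1 x y)
      (integrable_finsetSum _ fun x _ => integrable_finsetSum _ fun y _ => i2 x y), e2, e3,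
    ← Finset.sum_sub_distrib, Finset.mul_sum]
  congr 1
  refine Finset.sum_congr rfl fun k _ => ?_
  have h3 : Rb (xb false E ε) σ k - (starRingEnd ℂ) (Rb (xb false E ε) σ k) =
      2 * Complex.I * ((Rb (xb false E ε) σ k).im : ℂ) := by
    apply Complex.ext
    · simp
    · simp
      ring
  rw [← mul_sub, h3]
  have h4 : (2 * Complex.I : ℂ) ≠ 0 := mul_ne_zero two_ne_zero Complex.I_ne_zero
  field_simp

end PRBS

open PRBS in
theorem prb (hR : T_KR) (h1 : T_KV1) (hSD : Pool.Agent.T2h98.AC.T_SD) : T_PRB := by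
  intro d L _ σ δ ε t Q g p0 m0 ζ E Ω hP hS hG q hq
  have hkrb := (krb hR h1 hSD d L σ δ ε t Q g p0 m0 ζ E Ω hP hS hG).1
  have hε := hP.hε
  have hσ := hP.hσ
  have hg0 : 0 < g := by linarith [hP.hg1]
  have hN : 0 < NN d L := NN_pos
  have hm0 := hS.hm0
  have hζ := hS.hζ
  obtain ⟨m, hm⟩ : ∃ m, m = me d L false E ε σ := ⟨_, rfl⟩
  obtain ⟨G, hGd⟩ : ∃ G, G = Ga d L E ε σ := ⟨_, rfl⟩
  have hG2 := hG.h2
  rw [← hGd] at hG2
  have hG0 : 0 < G := lt_of_lt_of_le (by positivity) hG2
  have hX : ∀ k : T d L, ε ≤ -(xb false E ε k).im := by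
    intro k
    unfold xb
    simp
  -- the symbol of the mean field
  have hden : ∀ k : T d L, xb false E ε k - (σ : ℂ) ^ 2 * m =
      ((adj k - Es d L E ε σ : ℝ) : ℂ) - (G : ℂ) * Complex.I := by
    intro k
    rw [hGd, hm]
    unfold xb Es Ga
    simp only [cond_false]
    rw [← Complex.ofReal_pow]
    apply Complex.ext
    · simp only [Complex.sub_re, Complex.ofReal_re, Complex.re_ofReal_mul, Complex.I_re,
        mul_zero]
      ring
    · simp only [Complex.sub_im, Complex.ofReal_im, Complex.im_ofReal_mul, Complex.I_im, mul_one]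
      ring
  have hnorm : ∀ k : T d L, ‖xb false E ε k - (σ : ℂ) ^ 2 * m‖ = JJ (Es d L E ε σ) G k := by
    intro k
    rw [hden, Complex.norm_def, Complex.normSq_apply]
    unfold JJ
    congr 1
    simp
    ring
  have hJG : ∀ k : T d L, G ≤ JJ (Es d L E ε σ) G k := by
    intro k
    unfold JJ
    apply Real.le_sqrt_of_sq_le
    nlinarith [sq_nonneg (adj k - Es d L E ε σ)]
  have hmX : mX (d := d) (L := L) (xb false E ε) σ = m := by rw [hm]; rfl
  -- the equation
  have hsd : ∀ κ : T d L, (xb false E ε κ - (σ : ℂ) ^ 2 * m) * Rb (xb false E ε) σ κ =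
      1 + (σ : ℂ) ^ 2 * Fk (xb false E ε) σ κ := by
    intro κ
    have h := (hSD d L (xb false E ε) ε σ hε hX κ).1
    rw [hmX] at h
    exact h
  have hbe : ∀ k : T d L, Rb (xb false E ε) σ k - be false E ε σ k =
      be false E ε σ k * ((σ : ℂ) ^ 2 * Fk (xb false E ε) σ k) := by
    intro k
    have d1 := hsd k
    have d2 : xb false E ε k - (σ : ℂ) ^ 2 * m ≠ 0 := by
      intro h
      have d3 := hnorm k
      rw [h, norm_zero] at d3
      have := hJG k
      linarith
    unfold be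
    rw [← hm, ← mul_right_inj' d2, mul_sub, d1, mul_inv_cancel_left₀ d2, mul_inv_cancel₀ d2]
    ring
  have hbn : ∀ k : T d L, ‖be false E ε σ k‖ = (JJ (Es d L E ε σ) G k)⁻¹ := by
    intro k
    unfold be
    rw [← hm, norm_inv, hnorm]
  rw [mean_Iv hR σ hε q, ← mul_sub, ← Finset.sum_sub_distrib, norm_mul, norm_inv,
    Complex.norm_real, Real.norm_eq_abs, abs_of_pos hN]
  have h4 := hG.h4
  rw [← hGd] at h4
  calc (NN d L)⁻¹ * ‖∑ k : T d L, (q k * ((Rb (xb false E ε) σ k).im : ℂ) -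
      q k * ((be false E ε σ k).im : ℂ))‖ ≤
      (NN d L)⁻¹ * ∑ k : T d L, (JJ (Es d L E ε σ) G k)⁻¹ * (ζ / g) := by
        gcongr
        refine (norm_sum_le _ _).trans (Finset.sum_le_sum fun k _ => ?_)
        rw [← mul_sub, norm_mul, ← Complex.ofReal_sub, ← Complex.sub_im, Complex.norm_real,
          Real.norm_eq_abs]
        refine (mul_le_of_le_one_left (abs_nonneg _) (hq k)).trans ?_
        refine (Complex.abs_im_le_norm _).trans ?_
        rw [hbe, norm_mul, hbn]
        exact mul_le_mul_of_nonneg_left (hkrb k).2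
          (inv_nonneg.2 (hG0.le.trans (hJG k)))
    _ = (NN d L)⁻¹ * ((∑ k : T d L, (JJ (Es d L E ε σ) G k)⁻¹) * (ζ / g)) := by
        rw [Finset.sum_mul]
    _ ≤ (NN d L)⁻¹ * ((g * NN d L) * (ζ / g)) := by gcongr
    _ = ζ := by field_simp

end Pool.Agent.T2h98.PS
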