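import Pool.Agent.T2h98.PS.Stm

/-! The product of two resolvents in terms of the density of states. -/

set_option autoImplicit false
set_option linter.unusedSectionVars false

open scoped BigOperators Matrix Topology
open MeasureTheory ProbabilityTheory Filter

namespace Pool.Agent.T2h98.PS

open Pool.Agent.W788.MFP.Four (T e NN adj K)
open Pool.Agent.W788.BK (nsq hs PP JJ hi Low cr)
open Pool.Agent.T2h98.QD
open Pool.Agent.T2h98.AC (TX RX mX sy Rb Fk)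
open Pool.Agent.T2h98.KU

namespace Prel

theorem alg {Ip Iq Tq T1 tq t1 Uq U1 W e1 e2 : ℂ} {ε σ M B ζ : ℝ} (hε : 0 < ε)
    (hM : 0 < M) (h1 : T1 = t1 + (σ : ℂ) ^ 2 * (U1 * W) + e1)
    (h2 : Tq = tq + (σ : ℂ) ^ 2 * (Uq * W) + e2) (hT1 : (ε : ℂ) * T1 = Ip)
    (hU1 : (ε : ℂ) * U1 = (M : ℂ)) (hUq : (ε : ℂ) * Uq = Iq) (hIq : ‖Iq‖ ≤ M)
    (ht1 : ‖t1‖ ≤ B) (htq : ‖tq‖ ≤ B) (he1 : ‖e1‖ ≤ ζ / σ ^ 2) (he2 : ‖e2‖ ≤ ζ / σ ^ 2) :
    ‖(ε : ℂ) * Tq - Ip * Iq / (M : ℂ)‖ ≤ 2 * ε * (B + ζ / σ ^ 2) := by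
  have hMc : (M : ℂ) ≠ 0 := by exact_mod_cast hM.ne'
  have h3 : (ε : ℂ) * Tq - Ip * Iq / (M : ℂ) = (ε : ℂ) * (tq + e2) -
      (Iq / (M : ℂ)) * ((ε : ℂ) * (t1 + e1)) := by
    have h4 : Ip = (ε : ℂ) * (t1 + e1) + (σ : ℂ) ^ 2 * M * W := by
      rw [← hT1, h1, ← hU1]
      ring
    rw [h4, h2, ← hUq]
    field_simp
    ring
  rw [h3]
  have h4 : ‖Iq / (M : ℂ)‖ ≤ 1 := by
    rw [norm_div, Complex.norm_real, Real.norm_of_nonneg hM.le, div_le_one hM]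
    exact hIq
  have h5 : ‖(ε : ℂ) * (tq + e2)‖ ≤ ε * (B + ζ / σ ^ 2) := by
    rw [norm_mul, Complex.norm_real, Real.norm_of_nonneg hε.le]
    exact mul_le_mul_of_nonneg_left ((norm_add_le _ _).trans (add_le_add htq he2)) hε.le
  have h6 : ‖(ε : ℂ) * (t1 + e1)‖ ≤ ε * (B + ζ / σ ^ 2) := by
    rw [norm_mul, Complex.norm_real, Real.norm_of_nonneg hε.le]
    exact mul_le_mul_of_nonneg_left ((norm_add_le _ _).trans (add_le_add ht1 he1)) hε.le
  have h7 : ‖(Iq / (M : ℂ)) * ((ε : ℂ) * (t1 + e1))‖ ≤ ε * (B + ζ / σ ^ 2) := by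
    rw [norm_mul]
    calc _ ≤ 1 * ‖(ε : ℂ) * (t1 + e1)‖ := mul_le_mul_of_nonneg_right h4 (norm_nonneg _)
      _ ≤ _ := by rw [one_mul]; exact h6
  calc _ ≤ _ := norm_sub_le _ _
    _ ≤ ε * (B + ζ / σ ^ 2) + ε * (B + ζ / σ ^ 2) := add_le_add h5 h7
    _ = _ := by ring

theorem fin {ε σ M Γ m0 ζ B : ℝ} (hε : 0 < ε) (hσ : 0 < σ) (hM : 0 < M) (hm0 : 0 < m0)
    (hm1 : m0 ≤ 1) (hζ : 0 < ζ) (hζ1 : ζ ≤ 1 / 4) (hΓ : m0 * σ ^ 2 ≤ Γ) (hB : B = (M + ζ) / Γ) :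
    2 * ε * (B + ζ / σ ^ 2) ≤ 4 * (ε / σ ^ 2) * ((M + 1) / m0) := by
  have hσ2 : 0 < σ ^ 2 := by positivity
  have h1 : B ≤ (M + ζ) / (m0 * σ ^ 2) := by
    rw [hB]
    exact div_le_div_of_nonneg_left (by positivity) (by positivity) hΓ
  have h2 : ζ / σ ^ 2 ≤ ζ / (m0 * σ ^ 2) := by
    refine div_le_div_of_nonneg_left hζ.le (by positivity) ?_
    nlinarith
  calc 2 * ε * (B + ζ / σ ^ 2) ≤ 2 * ε * ((M + ζ) / (m0 * σ ^ 2) + ζ / (m0 * σ ^ 2)) :=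
        mul_le_mul_of_nonneg_left (add_le_add h1 h2) (by positivity)
    _ = (ε / σ ^ 2) * ((2 * M + 4 * ζ) / m0) := by
        field_simp
        ring
    _ ≤ (ε / σ ^ 2) * ((4 * (M + 1)) / m0) := by
        refine mul_le_mul_of_nonneg_left ?_ (by positivity)
        exact div_le_div_of_nonneg_right (by linarith) hm0.le
    _ = _ := by ring

section

variable {d L : ℕ} [NeZero L]

theorem be_facts (hR : T_KR) {ε : ℝ} (hε : 0 < ε) (E σ : ℝ) (k : T d L)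
    (hΓ : 0 < Ga d L E ε σ) :
    ‖be true E ε σ k‖ = ‖be false E ε σ k‖ ∧
    ‖be false E ε σ k‖ ^ 2 = (be false E ε σ k).im / Ga d L E ε σ := by
  obtain ⟨-, -, -, -, -, -, -, -, -, -, hf⟩ := hR d L false E ε σ hε
  obtain ⟨-, -, -, -, -, -, -, -, -, -, ht⟩ := hR d L true E ε σ hε
  rw [cond_false] at hf
  rw [cond_true] at ht
  have hme : me d L true E ε σ = star (me d L false E ε σ) := by rw [hf, ht]
  constructor
  · have h1 : be true E ε σ k = star (be false E ε σ k) := by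
      unfold be
      rw [star_inv₀, hme, star_sub, star_mul']
      congr 2
      · unfold xb
        rw [cond_false, cond_true]
        apply Complex.ext
        · simp
        · simp
      · congr 1
        rw [star_pow]
        congr 1
        exact (Complex.conj_ofReal σ).symm
    rw [h1, norm_star]
  · have hz : (xb false E ε k - (σ : ℂ) ^ 2 * me d L false E ε σ).im = -Ga d L E ε σ := by
      unfold xb Ga
      rw [cond_false]
      have h2 : ((σ : ℂ) ^ 2 * me d L false E ε σ).im = σ ^ 2 * (me d L false E ε σ).im := by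
        rw [← Complex.ofReal_pow, Complex.im_ofReal_mul]
      rw [Complex.sub_im, h2]
      simp
      ring
    unfold be
    rw [Complex.inv_im, hz, neg_neg, norm_inv, inv_pow, ← Complex.normSq_eq_norm_sq]
    field_simp

theorem tp_bound (hR : T_KR) {E ε σ ζ : ℝ} (hε : 0 < ε) (hΓ : 0 < Ga d L E ε σ)
    (hb : ‖me d L false E ε σ - ((NN d L : ℝ) : ℂ)⁻¹ * ∑ k : T d L, be false E ε σ k‖ ≤ ζ)
    (p q : T d L → ℂ) (hp : ∀ k, ‖p k‖ ≤ 1) (hq : ∀ k, ‖q k‖ ≤ 1) :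
    ‖tp p q E ε σ‖ ≤ ((me d L false E ε σ).im + ζ) / Ga d L E ε σ := by
  have hN : (0 : ℝ) < NN d L := Pool.Agent.W788.MFP.Four.NN_pos
  have h1 : ‖tp p q E ε σ‖ ≤ (NN d L)⁻¹ * ∑ k : T d L, ‖be false E ε σ k‖ ^ 2 := by
    unfold tp
    rw [norm_mul, norm_inv, Complex.norm_real, Real.norm_of_nonneg hN.le]
    refine mul_le_mul_of_nonneg_left ?_ (inv_nonneg.2 hN.le)
    refine (norm_sum_le _ _).trans (Finset.sum_le_sum fun k _ => ?_)
    rw [norm_mul, norm_mul, norm_mul, (be_facts hR hε E σ k hΓ).1, mul_assoc, ← sq]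
    calc ‖p k‖ * ‖q k‖ * ‖be false E ε σ k‖ ^ 2 ≤ 1 * ‖be false E ε σ k‖ ^ 2 :=
          mul_le_mul_of_nonneg_right (mul_le_one₀ (hp k) (norm_nonneg _) (hq k)) (sq_nonneg _)
      _ = _ := one_mul _
  refine h1.trans ?_
  rw [Finset.sum_congr rfl fun k _ => (be_facts hR hε E σ k hΓ).2, ← Finset.sum_div,
    ← mul_div_assoc]
  refine div_le_div_of_nonneg_right ?_ hΓ.le
  have h2 := (Complex.abs_im_le_norm _).trans hb
  have h3 : (((NN d L : ℝ) : ℂ)⁻¹ * ∑ k : T d L, be false E ε σ k).im =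
      (NN d L)⁻¹ * ∑ k : T d L, (be false E ε σ k).im := by
    rw [← Complex.ofReal_inv, Complex.im_ofReal_mul, Complex.im_sum]
  rw [Complex.sub_im, h3, abs_le] at h2
  linarith [h2.1]

end

end Prel

open Prel in
theorem prel (hM : T_PMAIN) (hW : T_PWD) (hRb : T_KRB) (hR : T_KR) : T_PREL := by
  intro d L _ σ δ ε t Q g p0 m0 ζ E Ω hP hS hG hme p q hp hq
  have hε := hP.hε
  have hσ := hP.hσ
  obtain ⟨w1, w2, w3, -, w5, w6, w7, w8⟩ := hW d L E ε σ hε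
  have hΓ : 0 < Ga d L E ε σ := lt_of_lt_of_le (by have := hS.hm0; positivity) hG.h2
  have hone : ∀ k : T d L, ‖(fun _ => 1 : T d L → ℂ) k‖ ≤ 1 := fun k => by simp
  have hb := (hRb d L σ δ ε t Q g p0 m0 ζ E Ω hP hS hG).2
  have hI : ∀ r : T d L → ℂ, (∀ k, ‖r k‖ ≤ 1) → ‖∫ V, Iv r E ε σ V ∂(GP (T d L))‖ ≤
      (me d L false E ε σ).im := by
    intro r hr
    rw [← w8]
    exact norm_integral_le_of_norm_le w7 (Eventually.of_forall fun V => (w3 V r r hr hr).1)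
  have hU : ∀ r : T d L → ℂ, (ε : ℂ) * ∫ V, Up r E ε σ V ∂(GP (T d L)) =
      ∫ V, Iv r E ε σ V ∂(GP (T d L)) := by
    intro r
    rw [w5, ← integral_const_mul]
    exact integral_congr_ae (Eventually.of_forall fun V => (w1 V r).1)
  have hT1 : (ε : ℂ) * ∫ V, Tp p (fun _ => 1) E ε σ V ∂(GP (T d L)) =
      ∫ V, Iv p E ε σ V ∂(GP (T d L)) := by
    rw [← integral_const_mul]
    exact integral_congr_ae (Eventually.of_forall fun V => (w1 V p).2)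
  have hU1 : (ε : ℂ) * ∫ V, Up (fun _ => 1) E ε σ V ∂(GP (T d L)) =
      ((me d L false E ε σ).im : ℂ) := by
    rw [hU, ← w8]
    exact (integral_congr_ae (Eventually.of_forall fun V => (w2 V).2)).trans
      integral_complex_ofReal
  have e1 := hM d L σ δ ε t Q g p0 m0 ζ E Ω hP hS hG p (fun _ => 1) hp hone
  have e2 := hM d L σ δ ε t Q g p0 m0 ζ E Ω hP hS hG p q hp hq
  refine (alg hε hme (add_sub_cancel _ _).symm (add_sub_cancel _ _).symm hT1 hU1 (hU q)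
    (hI q hq) (tp_bound hR hε hΓ hb p _ hp hone) (tp_bound hR hε hΓ hb p q hp hq) e1 e2).trans ?_
  exact fin hε hσ hme hS.hm0 hS.hm1 hS.hζ hS.hζ1 hG.h2 rfl

end Pool.Agent.T2h98.PS
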