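import Pool.Agent.T2h98.PS.Stm

/-! Riemann sums of continuous functions -/

set_option autoImplicit false

open scoped BigOperators Matrix Topology
open MeasureTheory ProbabilityTheory Filter

namespace Pool.Agent.T2h98.PS

open Pool.Agent.W788.MFP.Four (T e NN adj K)

/-- the small cube at `k` -/
def priC (d L : ℕ) [NeZero L] (k : T d L) : Set (Fin d → ℝ) :=
  Set.pi Set.univ fun i => Set.Ico (((k i).val : ℝ) / L) ((((k i).val : ℝ) + 1) / L)

theorem pri_meas (d L : ℕ) [NeZero L] (k : T d L) : MeasurableSet (priC d L k) :=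
  MeasurableSet.univ_pi fun _ => measurableSet_Ico

theorem pri_vol (d L : ℕ) [NeZero L] (k : T d L) :
    (volume : Measure (Fin d → ℝ)).real (priC d L k) = (NN d L)⁻¹ := by
  have hL : (0 : ℝ) < L := by exact_mod_cast Nat.pos_of_ne_zero (NeZero.ne L)
  unfold priC NN Measure.real
  rw [volume_pi_pi, ENNReal.toReal_prod]
  have : ∀ i : Fin d, (volume (Set.Ico (((k i).val : ℝ) / L) ((((k i).val : ℝ) + 1) / L))).toReal =
      (L : ℝ)⁻¹ := by
    intro i
    rw [Real.volume_Ico, ENNReal.toReal_ofReal]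
    · ring
    · rw [← sub_div]
      have : ((k i).val : ℝ) + 1 - (k i).val = 1 := by ring
      rw [this]
      positivity
  rw [Finset.prod_congr rfl fun i _ => this i, Finset.prod_const, Finset.card_univ,
    Fintype.card_fin, inv_pow]

theorem pri_disj (d L : ℕ) [NeZero L] :
    Pairwise (Function.onFun Disjoint (priC d L)) := by
  have hL : (0 : ℝ) < L := by exact_mod_cast Nat.pos_of_ne_zero (NeZero.ne L)
  intro k k' hne
  show Disjoint (priC d L k) (priC d L k')
  rw [Set.disjoint_left]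
  intro y hy hy'
  apply hne
  funext i
  have h1 := hy i (Set.mem_univ i)
  have h2 := hy' i (Set.mem_univ i)
  rw [Set.mem_Ico, div_le_iff₀ hL, lt_div_iff₀ hL] at h1 h2
  apply ZMod.val_injective L
  have h3 : ((k i).val : ℝ) < (k' i).val + 1 := by linarith [h1.1, h2.2]
  have h4 : ((k' i).val : ℝ) < (k i).val + 1 := by linarith [h2.1, h1.2]
  have h5 : (k i).val < (k' i).val + 1 := by exact_mod_cast h3
  have h6 : (k' i).val < (k i).val + 1 := by exact_mod_cast h4
  omega

theorem pri_union (d L : ℕ) [NeZero L] :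
    (⋃ k, priC d L k) = Set.pi Set.univ fun _ : Fin d => Set.Ico (0 : ℝ) 1 := by
  have hL : (0 : ℝ) < L := by exact_mod_cast Nat.pos_of_ne_zero (NeZero.ne L)
  ext y
  rw [Set.mem_iUnion]
  constructor
  · rintro ⟨k, hk⟩ i -
    have h1 := hk i (Set.mem_univ i)
    rw [Set.mem_Ico, div_le_iff₀ hL, lt_div_iff₀ hL] at h1
    have h2 : ((k i).val : ℝ) + 1 ≤ L := by exact_mod_cast ZMod.val_lt (k i)
    have h3 : (0 : ℝ) ≤ (k i).val := by positivity
    constructor
    · by_contra hneg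
      have := mul_neg_of_neg_of_pos (not_le.mp hneg) hL
      linarith [h1.1]
    · by_contra hneg
      have := mul_le_mul_of_nonneg_right (not_lt.mp hneg) hL.le
      linarith [h1.2]
  · intro hy
    refine ⟨fun i => ((⌊y i * L⌋₊ : ℕ) : ZMod L), fun i _ => ?_⟩
    have h1 := hy i (Set.mem_univ i)
    rw [Set.mem_Ico] at h1
    have h0 : 0 ≤ y i * L := mul_nonneg h1.1 hL.le
    have h2 : ⌊y i * L⌋₊ < L := by
      rw [Nat.floor_lt h0]
      calc y i * L < 1 * L := mul_lt_mul_of_pos_right h1.2 hL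
        _ = L := one_mul _
    rw [Set.mem_Ico, div_le_iff₀ hL, lt_div_iff₀ hL]
    simp only [ZMod.val_natCast, Nat.mod_eq_of_lt h2]
    exact ⟨Nat.floor_le h0, Nat.lt_floor_add_one _⟩

theorem T_PRI_holds : T_PRI := by
  intro d g hg η hη
  have hcpt : IsCompact (Set.Icc (0 : Fin d → ℝ) 1) := isCompact_Icc
  have huc : UniformContinuousOn g (Set.Icc (0 : Fin d → ℝ) 1) :=
    hcpt.uniformContinuousOn_of_continuous hg.continuousOn
  obtain ⟨δ, hδ, hδu⟩ := Metric.uniformContinuousOn_iff.mp huc η hη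
  obtain ⟨L0, hL0⟩ := exists_nat_gt δ⁻¹
  refine ⟨L0, fun L _ hL => ?_⟩
  have hLp : (0 : ℝ) < L := by exact_mod_cast Nat.pos_of_ne_zero (NeZero.ne L)
  have hN : 0 < NN d L := Pool.Agent.W788.MFP.Four.NN_pos
  have hcard : (Fintype.card (T d L) : ℝ) = NN d L := Pool.Agent.W788.MFP.Four.card_T
  have hLδ : (L : ℝ)⁻¹ < δ := by
    rw [inv_lt_comm₀ hLp hδ]
    exact hL0.trans_le (by exact_mod_cast hL)
  have hint : IntegrableOn g (Set.Icc (0 : Fin d → ℝ) 1) := hg.continuousOn.integrableOn_compact hcpt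
  have hIcc : ∫ k in Set.Icc (0 : Fin d → ℝ) 1, g k = ∑ k : T d L, ∫ y in priC d L k, g y := by
    have h1 : (Set.pi Set.univ fun _ : Fin d => Set.Ico (0 : ℝ) 1) =ᵐ[volume]
        Set.Icc (0 : Fin d → ℝ) 1 := by
      exact Measure.univ_pi_Ico_ae_eq_Icc (f := fun _ : Fin d => (0 : ℝ))
        (g := fun _ : Fin d => (1 : ℝ))
    rw [← setIntegral_congr_set h1, ← pri_union d L]
    rw [integral_iUnion_fintype (pri_meas d L) (pri_disj d L)]
    intro k
    refine hint.mono_set ?_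
    intro y hy
    have h2 : y ∈ Set.pi Set.univ fun _ : Fin d => Set.Ico (0 : ℝ) 1 := by
      rw [← pri_union d L]
      exact Set.mem_iUnion.mpr ⟨k, hy⟩
    exact ⟨fun i => (h2 i (Set.mem_univ i)).1, fun i => (h2 i (Set.mem_univ i)).2.le⟩
  have hsub : ∀ k : T d L, priC d L k ⊆ Set.Icc (0 : Fin d → ℝ) 1 := by
    intro k y hy
    have h2 : y ∈ Set.pi Set.univ fun _ : Fin d => Set.Ico (0 : ℝ) 1 := by
      rw [← pri_union d L]
      exact Set.mem_iUnion.mpr ⟨k, hy⟩
    exact ⟨fun i => (h2 i (Set.mem_univ i)).1, fun i => (h2 i (Set.mem_univ i)).2.le⟩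
  have hpt : ∀ k : T d L, (fun i => ((k i).val : ℝ) / L) ∈ priC d L k := by
    intro k i _
    rw [Set.mem_Ico]
    refine ⟨le_rfl, ?_⟩
    exact div_lt_div_of_pos_right (lt_add_one _) hLp
  have hfin : ∀ k : T d L, (volume : Measure (Fin d → ℝ)) (priC d L k) < ⊤ := fun k =>
    (measure_mono (hsub k)).trans_lt hcpt.measure_lt_top
  have hk : ∀ k : T d L, ‖((NN d L : ℝ) : ℂ)⁻¹ * g (fun i => ((k i).val : ℝ) / L) -
      ∫ y in priC d L k, g y‖ ≤ η * (NN d L)⁻¹ := by
    intro k
    have h1 : ((NN d L : ℝ) : ℂ)⁻¹ * g (fun i => ((k i).val : ℝ) / L) =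
        ∫ _ in priC d L k, g (fun i => ((k i).val : ℝ) / L) := by
      rw [setIntegral_const, pri_vol, Complex.real_smul, Complex.ofReal_inv]
    have h0 : IntegrableOn (fun _ : Fin d → ℝ => g (fun i => ((k i).val : ℝ) / L)) (priC d L k) :=
      integrableOn_const (hfin k).ne
    have h0' : IntegrableOn g (priC d L k) := hint.mono_set (hsub k)
    rw [h1, ← integral_sub h0 h0', ← pri_vol d L k]
    refine norm_setIntegral_le_of_norm_le_const (hfin k) ?_
    intro y hy
    rw [← dist_eq_norm]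
    refine (hδu _ (hsub k (hpt k)) _ (hsub k hy) ?_).le
    rw [dist_pi_lt_iff hδ]
    intro i
    have h2 := hy i (Set.mem_univ i)
    rw [Set.mem_Ico, add_div] at h2
    rw [Real.dist_eq, abs_lt]
    rw [one_div] at h2
    constructor <;> linarith [h2.1, h2.2]
  rw [hIcc, Finset.mul_sum, ← Finset.sum_sub_distrib]
  calc ‖∑ k : T d L, (((NN d L : ℝ) : ℂ)⁻¹ * g (fun i => ((k i).val : ℝ) / L) -
      ∫ y in priC d L k, g y)‖ ≤ ∑ _k : T d L, η * (NN d L)⁻¹ :=
        (norm_sum_le _ _).trans (Finset.sum_le_sum fun k _ => hk k)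
    _ = η := by
        rw [Finset.sum_const, Finset.card_univ, nsmul_eq_mul, hcard]
        field_simp

end Pool.Agent.T2h98.PS
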