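import Pool.Agent.T2h98.PS.Stm
import Pool.Agent.T2h98.KU.KSD

/-! PSD: the Schwinger-Dyson equation for the product of two resolvents. -/

set_option autoImplicit false
set_option linter.unusedSectionVars false

open scoped BigOperators Matrix Topology
open MeasureTheory ProbabilityTheory Filter

namespace Pool.Agent.T2h98.PS

open Pool.Agent.W788.MFP.Four (T e NN adj K)
open Pool.Agent.W788.BK (nsq hs PP JJ hi Low cr nsq_nonneg nsq_eq form_single)
open Pool.Agent.W240.BK (BC BM)
open Pool.Agent.T2h98.QD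
open Pool.Agent.T2h98.AC (TX RX mX sy Rb Fk)
open Pool.Agent.T2h98.KU

open KSDS in
theorem psd (hR : T_KR) (hI : T_IBP) : T_PSD := by
  intro d L _ p q E ε σ hε
  have hN : ((NN d L : ℝ) : ℂ) ≠ 0 := by
    exact_mod_cast (Pool.Agent.W788.MFP.Four.NN_pos (d := d) (L := L)).ne'
  obtain ⟨m1, hm1⟩ : ∃ m, m = me d L false E ε σ := ⟨_, rfl⟩
  obtain ⟨m2, hm2⟩ : ∃ m, m = me d L true E ε σ := ⟨_, rfl⟩
  have hP := md (d := d) (L := L) hR true E ε σ hε
  have hK1 : MD (fun V : T d L → ℝ => Mo q * RE true E ε σ V * Mo p)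
      (fun x V => Mo q * DR true E ε σ x V * Mo p) :=
    (((MD.const (Mo q)).mul hP).mul (MD.const (Mo p))).congr' fun y V => by
      simp only [Matrix.zero_mul, Matrix.mul_zero, zero_add, add_zero]
  have s1 := step hR hI false E ε σ hε hK1
  have hK2 : ∀ C : Matrix (T d L) (T d L) ℂ, MD (fun _ : T d L → ℝ => C) (fun _ _ => 0) :=
    fun C => MD.const C
  have s2 := step hR hI true E ε σ hε (hK2 (Mo p * Mo (be false E ε σ) * Mo q))
  have e1 : ∫ V, Tp p q E ε σ V ∂(GP (T d L)) = ((NN d L : ℝ) : ℂ)⁻¹ *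
      ∫ V, (Mo q * RE true E ε σ V * Mo p * RE false E ε σ V : Matrix (T d L) (T d L) ℂ).trace
        ∂(GP (T d L)) := by
    rw [← integral_const_mul]
    refine integral_congr_ae (Filter.Eventually.of_forall fun V => ?_)
    show Tp p q E ε σ V = ((NN d L : ℝ) : ℂ)⁻¹ *
      (Mo q * RE true E ε σ V * Mo p * RE false E ε σ V : Matrix (T d L) (T d L) ℂ).trace
    unfold Tp
    rw [mul_assoc (Mo p * RE false E ε σ V), Matrix.trace_mul_comm, ← mul_assoc]
  have e2 : ∫ V, (Mo q * RE true E ε σ V * Mo p * Mo (be false E ε σ) :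
        Matrix (T d L) (T d L) ℂ).trace ∂(GP (T d L)) =
      ∫ V, (Mo p * Mo (be false E ε σ) * Mo q * RE true E ε σ V :
        Matrix (T d L) (T d L) ℂ).trace ∂(GP (T d L)) := by
    refine integral_congr_ae (Filter.Eventually.of_forall fun V => ?_)
    show (Mo q * RE true E ε σ V * Mo p * Mo (be false E ε σ) :
        Matrix (T d L) (T d L) ℂ).trace = (Mo p * Mo (be false E ε σ) * Mo q * RE true E ε σ V :
        Matrix (T d L) (T d L) ℂ).trace
    rw [mul_assoc (Mo q * RE true E ε σ V), Matrix.trace_mul_comm, ← mul_assoc]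
  have e3 : ∫ V, (Mo p * Mo (be false E ε σ) * Mo q * Mo (be true E ε σ) :
      Matrix (T d L) (T d L) ℂ).trace ∂(GP (T d L)) =
      ((NN d L : ℝ) : ℂ) * tp p q E ε σ := by
    have hprob : IsProbabilityMeasure (GP (T d L)) := by
      unfold GP PP
      infer_instance
    rw [integral_const, probReal_univ, one_smul]
    unfold tp
    rw [mo_mul, mo_mul, mo_mul, mo_trace, mul_inv_cancel_left₀ hN]
    refine Finset.sum_congr rfl fun k _ => ?_
    ring
  have hTre : ∀ (b : Bool) (E : ℝ), TI fun V : T d L → ℝ => RE b E ε σ V := fun b E =>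
    TI.re hR b E ε σ hε
  have hTv : ∀ i : T d L → ℂ, TI fun _ : T d L → ℝ => (Mo i : Matrix (T d L) (T d L) ℂ) := fun i =>
    TI.mo _
  -- the sums
  have t1 : ∑ x, (∫ V, (RE false E ε σ V x x - m1) *
        (RE false E ε σ V * (Mo q * RE true E ε σ V * Mo p) * Mo (be false E ε σ) :
          Matrix (T d L) (T d L) ℂ) x x ∂(GP (T d L))) =
      ((NN d L : ℝ) : ℂ) * ∫ V, (RE false E ε σ V 0 0 - m1) * Zp p q E ε σ V
        ∂(GP (T d L)) := by
    rw [sum_tr (hTre false E) (((hTre false E).mul (((hTv q).mul (hTre true E)).mul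
      (hTv p))).mul (TI.mo (be false E ε σ))) fun z w => (z - m1) * w]
    congr 1
    refine integral_congr_ae (Filter.Eventually.of_forall fun V => ?_)
    show _ * (RE false E ε σ V * (Mo q * RE true E ε σ V * Mo p) * Mo (be false E ε σ) :
          Matrix (T d L) (T d L) ℂ) 0 0 = _ * (RE false E ε σ V * Mo q * RE true E ε σ V * Mo p *
          Mo (be false E ε σ) : Matrix (T d L) (T d L) ℂ) 0 0
    rw [← mul_assoc, ← mul_assoc]
  have t2 : ∑ x, (∫ V, (RE true E ε σ V x x - m2) *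
        (RE true E ε σ V * (Mo p * Mo (be false E ε σ) * Mo q) * Mo (be true E ε σ) :
          Matrix (T d L) (T d L) ℂ) x x ∂(GP (T d L))) =
      ((NN d L : ℝ) : ℂ) * ∫ V, (RE true E ε σ V 0 0 - m2) * Yp p q E ε σ V
        ∂(GP (T d L)) := by
    rw [sum_tr (hTre true E) (((hTre true E).mul (((hTv p).mul (TI.mo (be false E ε σ))).mul
      (hTv q))).mul (TI.mo (be true E ε σ))) fun z w => (z - m2) * w]
    congr 1
    refine integral_congr_ae (Filter.Eventually.of_forall fun V => ?_)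
    show _ * (RE true E ε σ V * (Mo p * Mo (be false E ε σ) * Mo q) * Mo (be true E ε σ) :
          Matrix (T d L) (T d L) ℂ) 0 0 = _ * (RE true E ε σ V * Mo p * Mo (be false E ε σ) *
          Mo q * Mo (be true E ε σ) : Matrix (T d L) (T d L) ℂ) 0 0
    rw [← mul_assoc, ← mul_assoc]
  have t3 : ∑ x, (∫ V, (RE false E ε σ V * (Mo q * DR true E ε σ x V * Mo p) *
        Mo (be false E ε σ) : Matrix (T d L) (T d L) ℂ) x x ∂(GP (T d L))) =
      -((σ : ℂ) * (((NN d L : ℝ) : ℂ) * ∫ V, Up q E ε σ V * Wp p E ε σ V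
        ∂(GP (T d L)))) := by
    have h1 := sum_tr (((hTre false E).mul (hTv q)).mul (hTre true E))
      (((hTre true E).mul (hTv p)).mul (TI.mo (be false E ε σ))) fun z w => z * w
    have h2 : ∫ V, Up q E ε σ V * Wp p E ε σ V ∂(GP (T d L)) =
        ∫ V, (RE false E ε σ V * Mo q * RE true E ε σ V : Matrix (T d L) (T d L) ℂ) 0 0 *
          (RE true E ε σ V * Mo p * Mo (be false E ε σ) : Matrix (T d L) (T d L) ℂ) 0 0
          ∂(GP (T d L)) := rfl
    rw [h2, ← h1, Finset.mul_sum, ← Finset.sum_neg_distrib]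
    refine Finset.sum_congr rfl fun x _ => ?_
    rw [← integral_const_mul, ← integral_neg]
    refine integral_congr_ae (Filter.Eventually.of_forall fun V => ?_)
    have h3 := outer (RE false E ε σ V) (RE true E ε σ V) (Mo q) (Mo p * Mo (be false E ε σ))
      (DR true E ε σ x V) (σ : ℂ) x rfl
    rw [← mul_assoc (RE true E ε σ V)] at h3
    refine Eq.trans ?_ h3
    show (RE false E ε σ V * (Mo q * DR true E ε σ x V * Mo p) *
        Mo (be false E ε σ) : Matrix (T d L) (T d L) ℂ) x x = (RE false E ε σ V *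
        (Mo q * DR true E ε σ x V * (Mo p * Mo (be false E ε σ))) : Matrix (T d L) (T d L) ℂ) x x
    rw [mul_assoc (RE false E ε σ V), mul_assoc (Mo q * DR true E ε σ x V)]
  have t4 : ∑ x : T d L, (∫ V, (RE true E ε σ V * (0 : Matrix (T d L) (T d L) ℂ) *
      Mo (be true E ε σ) : Matrix (T d L) (T d L) ℂ) x x ∂(GP (T d L))) = 0 := by
    simp
  rw [← hm1, t1, t3, e2] at s1
  rw [← hm2, t2, t4, e3] at s2
  rw [e1, s1, s2, ← hm1, ← hm2]
  field_simp
  ring

end Pool.Agent.T2h98.PS
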