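import Pool.Agent.T2h98.PS.PUa

/-! Two resolvents at a site: variance (helper69; adapted from `KU/ZH.lean` of helper38). -/

set_option autoImplicit false
set_option linter.all false

open scoped BigOperators Matrix Topology
open MeasureTheory ProbabilityTheory Filter

namespace Pool.Agent.T2h98.PS

open Pool.Agent.W788.MFP.Four (T e NN adj K)
open Pool.Agent.W788.BK (nsq hs PP JJ hi Low cr nsq_nonneg cs_star)
open Pool.Agent.W240.BK (BC BM cs_int)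
open Pool.Agent.T2h98.QD
open Pool.Agent.T2h98.AC (TX RX mX sy Rb Fk)
open Pool.Agent.T2h98.AC.CovH
open Pool.Agent.T2h98.KU
open Pool.Agent.T2h98.KU.PoH (bc var_ev im_nonneg im_dl im_moments entry)

open ZP in
theorem pu (hR : T_KR) (hQ : T_KQ2) (h1 : T_KV1) (hP : T_POIN) : T_PU := by
  intro d L _ σ δ ε t Q g p0 Ω hp hL q E hq hm1
  have hε := hp.hε
  have hσ := hp.hσ
  have hεδ : ε ≤ δ := hp.hεσ.trans hp.hσδ
  have hδ : 0 < δ := hε.trans_le hεδ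
  have hε1 : ε ≤ 1 := hεδ.trans hp.hδ1
  have hg1 := hp.hg1
  have hQ0 : 0 ≤ Q := by linarith [hp.hQ1]
  have hgd' : GD (fun V : T d L → ℝ => (RE false E ε σ V *ᵥ (Mo q *ᵥ (RE true E ε σ V *ᵥ dl 0))) 0)
    (DZ true E E ε σ q (dl 0)) := gdZ (d := d) (L := L) hR hε true E E σ q (dl 0)
  have hU : ∀ V : T d L → ℝ, Up q E ε σ V =
      (RE false E ε σ V *ᵥ (Mo q *ᵥ (RE true E ε σ V *ᵥ dl 0))) 0 := by
    intro V
    rw [Matrix.mulVec_mulVec, Matrix.mulVec_mulVec, entry]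
    unfold Up
    rw [Matrix.mul_assoc]
  have a1 := im_moments hR hε E σ hm1 (h1 d L σ δ ε t Q g p0 Ω hp hL false E hm1).2
  set r1 : (T d L → ℝ) → ℝ := fun V => (RE false E ε σ V 0 0).im with hr1
  have p1 : ∀ V, 0 ≤ r1 V := fun V => by
    simp only [hr1]
    rw [← im_dl]
    exact im_nonneg hR hε E σ V _
  have c1 : RC r1 := RC.im (bc (d := d) (L := L) hR hε false E σ 0 0)
  set A : ℝ := 64 * (σ ^ 2 * Q * (δ / ε) ^ 2) / ε ^ 2 with hA
  have hA0 : 0 ≤ A := by positivity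
  have cg : RC fun V => A * (g * (r1 V + r1 V) + (r1 V ^ 2 + r1 V ^ 2)) :=
    (RC.const A).mul (((RC.const g).mul (c1.add c1)).add (c1.sq.add c1.sq))
  have hgood : ∀ V ∈ Ω, ∑ y, ‖DZ true E E ε σ q (dl 0) y V‖ ^ 2 ≤
      A * (g * (r1 V + r1 V) + (r1 V ^ 2 + r1 V ^ 2)) := by
    intro V hV'
    have h3 := good hR hQ hp true hq E E (dl 0) hV' (z := g + r1 V)
      (hQ d L σ δ ε t Q g p0 Ω hp V hV' true E (dl 0)).2.2 (add_nonneg (by linarith) (p1 V))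
    rw [im_dl] at h3
    refine h3.trans (mul_le_mul_of_nonneg_left ?_ hA0)
    show (g + r1 V) * r1 V + r1 V * (g + r1 V) ≤ _
    nlinarith
  have hall : ∀ V : T d L → ℝ, ∑ y, ‖DZ true E E ε σ q (dl 0) y V‖ ^ 2 ≤
      4 * σ ^ 2 / ε ^ 6 := by
    intro V
    have := allV (σ := σ) hR hε true hq E E (dl 0) V
    rwa [nsq_dl, mul_one] at this
  have hvar := var_ev hP hgd' hp.hΩ hp.hP cg.integrable
    (fun V => by
      have := p1 V
      positivity) (by positivity : (0 : ℝ) ≤ 4 * σ ^ 2 / ε ^ 6) hgood hall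
  simp only [← hU] at hvar
  refine hvar.trans ?_
  rw [integral_const_mul]
  have i3 : ∫ V, (g * (r1 V + r1 V) + (r1 V ^ 2 + r1 V ^ 2)) ∂(GP (T d L)) ≤ 18 * g ^ 2 := by
    rw [integral_add ((RC.const g).mul (c1.add c1)).integrable (c1.sq.add c1.sq).integrable,
      integral_const_mul, integral_add c1.integrable c1.integrable,
      integral_add c1.sq.integrable c1.sq.integrable]
    nlinarith [a1.1, a1.2]
  have h4 := mul_le_mul_of_nonneg_left i3 hA0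
  have h5 : 4 * σ ^ 2 / ε ^ 6 * p0 ≤ 4 * (σ ^ 2 * Q * (δ / ε) ^ 2) * g ^ 2 / ε ^ 2 := by
    have h6 : 4 * σ ^ 2 / ε ^ 6 * p0 ≤ 4 * σ ^ 2 / ε ^ 6 * ε ^ 12 :=
      mul_le_mul_of_nonneg_left hp.hp (by positivity)
    have h7 : 4 * σ ^ 2 / ε ^ 6 * ε ^ 12 = 4 * σ ^ 2 * ε ^ 6 := by
      field_simp
    have h8 : ε ^ 6 ≤ 1 := pow_le_one₀ hε.le hε1
    have h9 : 4 * σ ^ 2 * ε ^ 6 ≤ 4 * σ ^ 2 := by nlinarith [sq_nonneg σ]
    have h10 := lam hp
    have h11 : (1 : ℝ) ≤ g ^ 2 / ε ^ 2 := by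
      rw [one_le_div (by positivity)]
      exact pow_le_pow_left₀ hε.le (hε1.trans hg1) 2
    have h12 : 4 * (σ ^ 2 * Q * (δ / ε) ^ 2) * g ^ 2 / ε ^ 2 =
        4 * (σ ^ 2 * Q * (δ / ε) ^ 2) * (g ^ 2 / ε ^ 2) := by ring
    rw [h12]
    have h13 : 0 ≤ 4 * (σ ^ 2 * Q * (δ / ε) ^ 2) := by positivity
    nlinarith [mul_le_mul_of_nonneg_left h11 h13]
  have h6 : A * (18 * g ^ 2) = 1152 * (σ ^ 2 * Q * (δ / ε) ^ 2) * g ^ 2 / ε ^ 2 := by
    rw [hA]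
    ring
  rw [h6] at h4
  have h7 : 1152 * (σ ^ 2 * Q * (δ / ε) ^ 2) * g ^ 2 / ε ^ 2 +
      4 * (σ ^ 2 * Q * (δ / ε) ^ 2) * g ^ 2 / ε ^ 2 ≤
      10000 * (σ ^ 2 * Q * (δ / ε) ^ 2) * g ^ 2 / ε ^ 2 := by
    rw [← add_div]
    apply div_le_div_of_nonneg_right _ (by positivity)
    have : 0 ≤ (σ ^ 2 * Q * (δ / ε) ^ 2) * g ^ 2 := by positivity
    nlinarith
  linarith

end Pool.Agent.T2h98.PS
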