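import Pool.Agent.T2h98.PS.Stm
import Pool.Agent.T2h98.KU.KSD

/-! Ward identities and simple bounds. -/

set_option autoImplicit false
set_option linter.unusedSectionVars false

open scoped BigOperators Matrix Topology
open MeasureTheory ProbabilityTheory Filter

namespace Pool.Agent.T2h98.PS

open Pool.Agent.W788.MFP.Four (T e NN adj K)
open Pool.Agent.W788.BK (nsq hs PP JJ hi Low cr hs_mul_left hs_mul_right hs_conj)
open Pool.Agent.W240.BK (BC BM)
open Pool.Agent.T2h98.QD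
open Pool.Agent.T2h98.AC (TX RX mX sy Rb Fk)
open Pool.Agent.T2h98.KU

namespace PWD

variable {d L : ℕ} [NeZero L]

theorem tr_bd {n : Type} [Fintype n] (A B : Matrix n n ℂ) (c : ℝ) (hA : hs A ≤ c) (hB : hs B ≤ c) :
    ‖(Aᴴ * B).trace‖ ≤ c := by
  have h1 : ‖(Aᴴ * B).trace‖ ≤ ∑ x, ∑ y, ‖A y x‖ * ‖B y x‖ := by
    unfold Matrix.trace
    refine (norm_sum_le _ _).trans (Finset.sum_le_sum fun x _ => ?_)
    rw [Matrix.diag_apply, Matrix.mul_apply]
    refine (norm_sum_le _ _).trans (Finset.sum_le_sum fun y _ => ?_)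
    rw [norm_mul, Matrix.conjTranspose_apply, norm_star]
  have h2 : ∑ x, ∑ y, ‖A y x‖ * ‖B y x‖ ≤ ∑ x, ∑ y, (‖A y x‖ ^ 2 + ‖B y x‖ ^ 2) / 2 :=
    Finset.sum_le_sum fun x _ => Finset.sum_le_sum fun y _ => by
      nlinarith [sq_nonneg (‖A y x‖ - ‖B y x‖)]
  have h3 : ∑ x, ∑ y, (‖A y x‖ ^ 2 + ‖B y x‖ ^ 2) / 2 = (hs A + hs B) / 2 := by
    have e1 : hs A = ∑ x, ∑ y, ‖A y x‖ ^ 2 := by
      unfold hs
      rw [Finset.sum_comm]
    have e2 : hs B = ∑ x, ∑ y, ‖B y x‖ ^ 2 := by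
      unfold hs
      rw [Finset.sum_comm]
    rw [e1, e2, ← Finset.sum_add_distrib, Finset.sum_div]
    refine Finset.sum_congr rfl fun x _ => ?_
    rw [← Finset.sum_add_distrib, Finset.sum_div]
  linarith

theorem tr_hs {n : Type} [Fintype n] (A : Matrix n n ℂ) : (A * Aᴴ).trace = ((hs A : ℝ) : ℂ) := by
  unfold Matrix.trace hs
  push_cast
  refine Finset.sum_congr rfl fun x _ => ?_
  rw [Matrix.diag_apply, Matrix.mul_apply]
  refine Finset.sum_congr rfl fun y _ => ?_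
  rw [Matrix.conjTranspose_apply, Complex.star_def, Complex.mul_conj, Complex.normSq_eq_norm_sq]
  push_cast
  rfl

theorem adjoint (hR : T_KR) (E ε σ : ℝ) (hε : 0 < ε) (V : T d L → ℝ) :
    RE true E ε σ V = (RE false E ε σ V)ᴴ := by
  rw [(hR d L true E ε σ hε).1 V, (hR d L false E ε σ hε).1 V]
  rfl

theorem tx_sub (E ε σ : ℝ) (V : T d L → ℝ) :
    TX (xb true E ε) σ V - TX (xb false E ε) σ V =
      ((2 * ε : ℝ) : ℂ) • (Complex.I • (1 : Matrix (T d L) (T d L) ℂ)) := by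
  unfold TX
  rw [add_sub_add_right_eq_sub, mo_sub, ← mo_one, mo_smul, mo_smul]
  congr 1
  funext k
  unfold xb
  simp only [cond_true, cond_false]
  push_cast
  ring

/-- the resolvent identity -/
theorem res_id (hR : T_KR) (E ε σ : ℝ) (hε : 0 < ε) (V : T d L → ℝ) :
    IR E ε σ V = (ε : ℂ) • (RE false E ε σ V * RE true E ε σ V) ∧
    IR E ε σ V = (ε : ℂ) • (RE true E ε σ V * RE false E ε σ V) := by
  obtain ⟨f1, f2⟩ := (hR d L false E ε σ hε).2.1 V
  obtain ⟨t1, t2⟩ := (hR d L true E ε σ hε).2.1 V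
  have hx := tx_sub (d := d) (L := L) E ε σ V
  obtain ⟨R, hRd⟩ : ∃ R, R = RE false E ε σ V := ⟨_, rfl⟩
  obtain ⟨S, hSd⟩ : ∃ S, S = RE true E ε σ V := ⟨_, rfl⟩
  obtain ⟨X, hXd⟩ : ∃ X, X = TX (xb false E ε) σ V := ⟨_, rfl⟩
  obtain ⟨Y, hYd⟩ : ∃ Y, Y = TX (xb true E ε) σ V := ⟨_, rfl⟩
  unfold IR
  rw [← hRd, ← hXd] at f1 f2
  rw [← hSd, ← hYd] at t1 t2
  rw [← hXd, ← hYd] at hx
  rw [← hRd, ← hSd]
  have k1 : R - S = R * (Y - X) * S := by
    rw [mul_sub, sub_mul, mul_assoc, t1, mul_one, f2, one_mul]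
  have k2 : R - S = S * (Y - X) * R := by
    rw [mul_sub, sub_mul, t2, one_mul, mul_assoc, f1, mul_one]
  have hi : (2 * Complex.I)⁻¹ * (((2 * ε : ℝ) : ℂ) * Complex.I) = (ε : ℂ) := by
    push_cast
    have := Complex.I_ne_zero
    field_simp
  constructor
  · rw [k1, hx, Matrix.mul_smul, Matrix.mul_smul, mul_one, Matrix.smul_mul, Matrix.smul_mul,
      smul_smul, smul_smul, mul_assoc (2 * Complex.I)⁻¹, hi]
  · rw [k2, hx, Matrix.mul_smul, Matrix.mul_smul, mul_one, Matrix.smul_mul, Matrix.smul_mul,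
      smul_smul, smul_smul, mul_assoc (2 * Complex.I)⁻¹, hi]

theorem hBM (hR : T_KR) (b : Bool) (E ε σ : ℝ) (hε : 0 < ε) :
    BM fun V : T d L → ℝ => RE b E ε σ V := by
  obtain ⟨-, -, -, -, -, h6, h7, -⟩ := hR d L b E ε σ hε
  exact fun x y => ⟨h7 x y, ε⁻¹, fun V => h6 V x y⟩

theorem nsq_le (q : T d L → ℂ) (hq : ∀ k, ‖q k‖ ≤ 1) (w : T d L → ℂ) :
    nsq (Mo q *ᵥ w) ≤ 1 * nsq w :=
  nsq_mo q 1 (fun k => by
    have h1 := hq k
    have h2 := norm_nonneg (q k)
    nlinarith) w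

theorem nsq_le' (q : T d L → ℂ) (hq : ∀ k, ‖q k‖ ≤ 1) (w : T d L → ℂ) :
    nsq ((Mo q)ᴴ *ᵥ w) ≤ 1 * nsq w := by
  rw [mo_star]
  exact nsq_le _ (fun k => by rw [RCLike.norm_conj]; exact hq k) w

theorem bm_smul {c : ℂ} {A : (T d L → ℝ) → Matrix (T d L) (T d L) ℂ} (hA : BM A) :
    BM fun V => c • A V := fun i j => (BC.const c).mul (hA i j)

end PWD

open PWD in
theorem t_PWD (hR : T_KR) : T_PWD := by
  intro d L _ E ε σ hε
  have hN : (0 : ℝ) < NN d L := Pool.Agent.W788.MFP.Four.NN_pos (d := d) (L := L)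
  have hNi : (0 : ℝ) ≤ (NN d L : ℝ)⁻¹ := by positivity
  have hadj : ∀ V : T d L → ℝ, RE true E ε σ V = (RE false E ε σ V)ᴴ := adjoint hR E ε σ hε
  have hF : BM fun V : T d L → ℝ => RE false E ε σ V := hBM hR false E ε σ hε
  have hT : BM fun V : T d L → ℝ => RE true E ε σ V := hBM hR true E ε σ hε
  have hIR1 : ∀ V : T d L → ℝ, IR E ε σ V =
      (ε : ℂ) • (RE false E ε σ V * RE true E ε σ V) := fun V => (res_id hR E ε σ hε V).1
  have hIR2 : ∀ V : T d L → ℝ, IR E ε σ V =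
      (ε : ℂ) • (RE true E ε σ V * RE false E ε σ V) := fun V => (res_id hR E ε σ hε V).2
  have hIRb : BM fun V : T d L → ℝ => IR E ε σ V := by
    have : (fun V : T d L → ℝ => IR E ε σ V) =
        fun V => (ε : ℂ) • (RE false E ε σ V * RE true E ε σ V) := funext hIR1
    rw [this]
    exact bm_smul (hF.mul hT)
  -- the trace of the imaginary part
  have htr : ∀ V : T d L → ℝ, (IR E ε σ V).trace = ((ε * hs (RE false E ε σ V) : ℝ) : ℂ) := by
    intro V
    rw [hIR1, hadj, Matrix.trace_smul, tr_hs, smul_eq_mul]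
    push_cast
    rfl
  have hDS : ∀ V : T d L → ℝ, DS E ε σ V = (NN d L : ℝ)⁻¹ * (ε * hs (RE false E ε σ V)) := by
    intro V
    unfold DS
    rw [htr, ← Complex.ofReal_inv, ← Complex.ofReal_mul, Complex.ofReal_re]
  have hDS' : ∀ V : T d L → ℝ, (DS E ε σ V : ℂ) = ((NN d L : ℝ) : ℂ)⁻¹ * (IR E ε σ V).trace := by
    intro V
    rw [hDS, htr]
    push_cast
    rfl
  have c1 : ∀ (V : T d L → ℝ) (q : T d L → ℂ),
      (ε : ℂ) * Tp (fun _ => 1) q E ε σ V = Iv q E ε σ V ∧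
      (ε : ℂ) * Tp q (fun _ => 1) E ε σ V = Iv q E ε σ V := by
    intro V q
    constructor
    · unfold Tp Iv
      rw [mo_one, one_mul, hIR2, mul_assoc (RE false E ε σ V), Matrix.trace_mul_comm,
        mul_assoc (Mo q), Matrix.mul_smul, Matrix.trace_smul, smul_eq_mul]
      ring
    · unfold Tp Iv
      rw [mo_one, mul_one, hIR1, mul_assoc (Mo q), Matrix.mul_smul, Matrix.trace_smul, smul_eq_mul]
      ring
  have hTpb : ∀ p q : T d L → ℂ, BC fun V : T d L → ℝ => Tp p q E ε σ V := by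
    intro p q
    unfold Tp
    exact (BC.const _).mul ((((BM.const (Mo p)).mul hF).mul (BM.const (Mo q))).mul hT).trace
  have hIvb : ∀ q : T d L → ℂ, BC fun V : T d L → ℝ => Iv q E ε σ V := by
    intro q
    unfold Iv
    exact (BC.const _).mul ((BM.const (Mo q)).mul hIRb).trace
  have hDSb : Integrable (fun V : T d L → ℝ => DS E ε σ V) (GP (T d L)) := by
    unfold DS
    exact (((BC.const _).mul hIRb.trace).integrable _).re
  refine ⟨c1, ?_, ?_, ?_, ?_, ?_, hDSb, ?_⟩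
  · intro V
    refine ⟨?_, ?_⟩
    · rw [hDS]
      exact mul_nonneg hNi (mul_nonneg hε.le (Pool.Agent.W788.BK.hs_nonneg _))
    · unfold Iv
      rw [mo_one, one_mul, hDS']
  · intro V p q hp hq
    have hb : ∀ p q : T d L → ℂ, (∀ k, ‖p k‖ ≤ 1) → (∀ k, ‖q k‖ ≤ 1) →
        ε * ‖Tp p q E ε σ V‖ ≤ DS E ε σ V := by
      intro p q hp hq
      have h1 : ‖(Mo p * RE false E ε σ V * Mo q * RE true E ε σ V).trace‖ ≤
          hs (RE false E ε σ V) := by
        rw [Matrix.trace_mul_comm, hadj]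
        refine tr_bd _ _ _ le_rfl ?_
        refine (hs_mul_right (Mo q) (Mo p * RE false E ε σ V) 1 (nsq_le' q hq)).trans ?_
        rw [one_mul]
        refine (hs_mul_left (Mo p) (RE false E ε σ V) 1 (nsq_le p hp)).trans ?_
        rw [one_mul]
      unfold Tp
      rw [norm_mul, norm_inv, Complex.norm_real, Real.norm_eq_abs, abs_of_pos hN, hDS]
      calc ε * ((NN d L : ℝ)⁻¹ * ‖(Mo p * RE false E ε σ V * Mo q * RE true E ε σ V).trace‖)
          ≤ ε * ((NN d L : ℝ)⁻¹ * hs (RE false E ε σ V)) := by gcongr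
        _ = _ := by ring
    refine ⟨?_, hb p q hp hq⟩
    rw [← (c1 V q).1, norm_mul, Complex.norm_real, Real.norm_eq_abs, abs_of_pos hε]
    exact hb (fun _ => 1) q (fun _ => by simp) hq
  · intro V q
    unfold Iv
    have h1 : Mo (fun k => star (q k)) * IR E ε σ V = (IR E ε σ V * Mo q)ᴴ := by
      rw [Matrix.conjTranspose_mul, mo_star]
      congr 1
      rw [hIR1, hadj, Matrix.conjTranspose_smul, Matrix.conjTranspose_mul,
        Matrix.conjTranspose_conjTranspose]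
      congr 1
      rw [Complex.star_def, Complex.conj_ofReal]
    rw [h1, Matrix.trace_conjTranspose, Matrix.trace_mul_comm (IR E ε σ V), star_mul']
    congr 1
    rw [star_inv₀, Complex.star_def, Complex.conj_ofReal]
  · intro q
    have hTIF := KSDS.TI.re (d := d) (L := L) hR false E ε σ hε
    have hTIT := KSDS.TI.re (d := d) (L := L) hR true E ε σ hε
    have h1 := KSDS.sum_tr (((hTIF).mul (KSDS.TI.mo q)).mul hTIT)
      (((hTIF).mul (KSDS.TI.mo q)).mul hTIT) (fun a _ => a)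
    have hNc : ((NN d L : ℝ) : ℂ) ≠ 0 := by exact_mod_cast hN.ne'
    have h2 : ∫ V, Tp (fun _ => 1) q E ε σ V ∂(GP (T d L)) = ((NN d L : ℝ) : ℂ)⁻¹ *
        ∑ x, ∫ V, (RE false E ε σ V * Mo q * RE true E ε σ V : Matrix (T d L) (T d L) ℂ) x x
          ∂(GP (T d L)) := by
      have hprob : IsProbabilityMeasure (GP (T d L)) := by
        unfold GP PP
        infer_instance
      rw [← integral_finsetSum _ (fun x _ =>
        (((hF.mul (BM.const (Mo q))).mul hT) x x).integrable _), ← integral_const_mul]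
      refine integral_congr_ae (Filter.Eventually.of_forall fun V => ?_)
      show Tp (fun _ => 1) q E ε σ V = _
      unfold Tp
      rw [mo_one, one_mul]
      rfl
    rw [h2, h1, inv_mul_cancel_left₀ hNc]
    rfl
  · intro p q
    exact ⟨(hTpb p q).integrable _, (hIvb q).integrable _⟩
  · have hTIF := KSDS.TI.re (d := d) (L := L) hR false E ε σ hε
    have h1 := KSDS.sum_tr hTIF hTIF (fun a _ => ((a.im : ℝ) : ℂ))
    have hNc : ((NN d L : ℝ) : ℂ) ≠ 0 := by exact_mod_cast hN.ne'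
    have h3 : ∀ V : T d L → ℝ, (DS E ε σ V : ℂ) = ((NN d L : ℝ) : ℂ)⁻¹ *
        ∑ x, (((RE false E ε σ V x x).im : ℝ) : ℂ) := by
      intro V
      rw [hDS']
      congr 1
      unfold Matrix.trace
      refine Finset.sum_congr rfl fun x _ => ?_
      rw [Matrix.diag_apply]
      unfold IR
      rw [Matrix.smul_apply, Matrix.sub_apply, hadj, Matrix.conjTranspose_apply, smul_eq_mul,
        Complex.star_def, Complex.sub_conj]
      have := Complex.I_ne_zero
      field_simp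
      push_cast
      ring
    have hint : ∀ x : T d L, Integrable (fun V : T d L → ℝ =>
        (((RE false E ε σ V x x).im : ℝ) : ℂ)) (GP (T d L)) := fun x =>
      (((hF x x).integrable _).im).ofReal
    have h4 : ((∫ V : T d L → ℝ, DS E ε σ V ∂(GP (T d L)) : ℝ) : ℂ) =
        ∫ V : T d L → ℝ, (((RE false E ε σ V 0 0).im : ℝ) : ℂ) ∂(GP (T d L)) := by
      rw [← integral_complex_ofReal]
      have h5 : ∫ V : T d L → ℝ, ((DS E ε σ V : ℝ) : ℂ) ∂(GP (T d L)) =
          ((NN d L : ℝ) : ℂ)⁻¹ * ∑ x, ∫ V, (((RE false E ε σ V x x).im : ℝ) : ℂ)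
            ∂(GP (T d L)) := by
        rw [← integral_finsetSum _ (fun x _ => hint x),
          ← integral_const_mul]
        exact integral_congr_ae (Filter.Eventually.of_forall h3)
      rw [h5, h1, inv_mul_cancel_left₀ hNc]
    have h6 : (me d L false E ε σ).im = ∫ V, (RE false E ε σ V 0 0).im ∂(GP (T d L)) := by
      show (∫ V, RE false E ε σ V 0 0 ∂(GP (T d L))).im = _
      exact (integral_im ((hF 0 0).integrable _)).symm
    rw [h6]
    rw [integral_complex_ofReal] at h4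
    exact_mod_cast h4

end Pool.Agent.T2h98.PS
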