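import Pool.Agent.T2h98.PS.Stm

/-! The densities with weights. -/

set_option autoImplicit false
set_option linter.unusedSectionVars false

open scoped BigOperators Matrix Topology
open MeasureTheory ProbabilityTheory Filter

namespace Pool.Agent.T2h98.PS

open Pool.Agent.W788.MFP.Four (T e NN adj K)
open Pool.Agent.W788.BK (nsq hs PP JJ hi Low cr)
open Pool.Agent.T2h98.QD
open Pool.Agent.T2h98.AC (TX RX mX sy Rb Fk)
open Pool.Agent.T2h98.KU

namespace PWMP

theorem cqm_le {d L : ℕ} [NeZero L] (m : Fin d → ℤ) (k : T d L) : |cqm m k| ≤ 1 := by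
  unfold cqm
  rw [Finset.abs_prod]
  refine Finset.prod_le_one (fun i _ => abs_nonneg _) fun i _ => ?_
  refine (Complex.abs_re_le_norm _).trans ?_
  exact (AddChar.norm_apply (ZMod.stdAddChar (N := L)) _).le

theorem im_inv (a Γ : ℝ) : (((a : ℝ) : ℂ) - (Γ : ℂ) * Complex.I)⁻¹.im = Γ / (a ^ 2 + Γ ^ 2) := by
  rw [Complex.inv_im, Complex.normSq_apply]
  simp only [Complex.sub_re, Complex.sub_im, Complex.mul_re, Complex.mul_im, Complex.ofReal_re,
    Complex.ofReal_im, Complex.I_re, Complex.I_im]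
  have e1 : (a - (Γ * 0 - 0 * 1)) * (a - (Γ * 0 - 0 * 1)) +
      (0 - (Γ * 1 + 0 * 0)) * (0 - (Γ * 1 + 0 * 0)) = a ^ 2 + Γ ^ 2 := by ring
  rw [e1]
  congr 1
  ring

/-- the imaginary part of a weighted sum -/
theorem im_sum {d L : ℕ} [NeZero L] (c : T d L → ℝ) (E Γ : ℝ) :
    (((NN d L : ℝ) : ℂ)⁻¹ * ∑ k : T d L, ((c k : ℝ) : ℂ) *
      (((adj k - E : ℝ) : ℂ) - (Γ : ℂ) * Complex.I)⁻¹).im =
    (NN d L)⁻¹ * ∑ k : T d L, c k * (Γ / ((adj k - E) ^ 2 + Γ ^ 2)) := by
  rw [← Complex.ofReal_inv, Complex.im_ofReal_mul, Complex.im_sum]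
  congr 1
  refine Finset.sum_congr rfl fun k _ => ?_
  rw [Complex.im_ofReal_mul, im_inv]

theorem exL (r : ℝ) (hr : 0 < r) : ∃ L : ℕ, 0 < L ∧ 1 / (L : ℝ) ≤ (r / 2) ^ (1 + (1 : ℝ)) := by
  have h1 : 0 < (r / 2) ^ (1 + (1 : ℝ)) := by positivity
  obtain ⟨n, hn⟩ := exists_nat_one_div_lt h1
  refine ⟨n + 1, Nat.succ_pos _, ?_⟩
  push_cast
  exact hn.le

end PWMP

open PWMP

theorem pwm (hC : T_PCAU) (hK : T_KCAU) : T_PWM := by
  intro d hd m
  constructor
  · have h1 : Continuous (cm d m) := by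
      rw [Metric.continuous_iff]
      intro E η hη
      obtain ⟨r, hr, h⟩ := hC d hd m 1 (η / 3) one_pos (by positivity)
      refine ⟨r, hr, fun E' hE' => ?_⟩
      obtain ⟨L, hL0, hL⟩ := exL r hr
      have : NeZero L := ⟨hL0.ne'⟩
      rw [Real.dist_eq] at hE'
      have a1 := h E' E (r / 2) L hE' (by positivity) (by linarith) hL
      have a2 := h E E (r / 2) L (by rwa [sub_self, abs_zero]) (by positivity) (by linarith) hL
      rw [dist_eq_norm]
      set S := ((NN d L : ℝ) : ℂ)⁻¹ * ∑ k : T d L, ((cqm m k : ℝ) : ℂ) *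
        (((adj k - E : ℝ) : ℂ) - ((r / 2 : ℝ) : ℂ) * Complex.I)⁻¹ with hS
      calc ‖cm d m E' - cm d m E‖ = ‖(S - cm d m E) - (S - cm d m E')‖ := by
            congr 1
            ring
        _ ≤ ‖S - cm d m E‖ + ‖S - cm d m E'‖ := norm_sub_le _ _
        _ < η := by linarith
    unfold wm
    exact (Complex.continuous_im.comp h1).div_const _
  · intro E
    have hpi := Real.pi_pos
    have key : |(cm d m E).im| ≤ Real.pi * dn d E := by
      refine le_of_forall_pos_le_add fun η hη => ?_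
      obtain ⟨r1, hr1, h1⟩ := hC d hd m 1 (η / 2) one_pos (by positivity)
      obtain ⟨h0, hK2⟩ := hK d hd
      obtain ⟨r2, hr2, h2⟩ := hK2 1 (η / 2) one_pos (by positivity)
      set r := min r1 r2 with hr
      have hr0 : 0 < r := lt_min hr1 hr2
      obtain ⟨L, hL0, hL⟩ := exL r hr0
      have : NeZero L := ⟨hL0.ne'⟩
      have l1 : r ≤ r1 := min_le_left _ _
      have l2 : r ≤ r2 := min_le_right _ _
      have a1 := h1 E E (r / 2) L (by rwa [sub_self, abs_zero]) (by positivity) (by linarith) hL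
      have a2 := (h2 E E (r / 2) L (by rwa [sub_self, abs_zero]) (by positivity) (by linarith) hL).1
      have b1 := (Complex.abs_im_le_norm _).trans a1
      have b2 := (Complex.abs_im_le_norm _).trans a2
      rw [Complex.sub_im, im_sum] at b1
      rw [Complex.sub_im, (h0 E).1] at b2
      have e2 : (((NN d L : ℝ) : ℂ)⁻¹ * ∑ k : T d L,
          (((adj k - E : ℝ) : ℂ) - ((r / 2 : ℝ) : ℂ) * Complex.I)⁻¹).im =
          (NN d L)⁻¹ * ∑ k : T d L, 1 * ((r / 2) / ((adj k - E) ^ 2 + (r / 2) ^ 2)) := by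
        rw [← im_sum]
        simp only [Complex.ofReal_one, one_mul]
      rw [e2] at b2
      have hN := Pool.Agent.W788.MFP.Four.NN_pos (d := d) (L := L)
      have e3 : |(NN d L)⁻¹ * ∑ k : T d L, cqm m k * ((r / 2) / ((adj k - E) ^ 2 + (r / 2) ^ 2))| ≤
          (NN d L)⁻¹ * ∑ k : T d L, 1 * ((r / 2) / ((adj k - E) ^ 2 + (r / 2) ^ 2)) := by
        rw [abs_mul, abs_of_pos (inv_pos.2 hN)]
        refine mul_le_mul_of_nonneg_left ?_ (inv_nonneg.2 hN.le)
        refine (Finset.abs_sum_le_sum_abs _ _).trans (Finset.sum_le_sum fun k _ => ?_)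
        have p1 : 0 ≤ (r / 2) / ((adj k - E) ^ 2 + (r / 2) ^ 2) := by positivity
        rw [abs_mul, abs_of_nonneg p1]
        exact mul_le_mul_of_nonneg_right (cqm_le m k) p1
      rw [abs_le] at b1 b2 e3 ⊢
      constructor <;> linarith [b1.1, b1.2, b2.1, b2.2, e3.1, e3.2]
    unfold wm
    rw [abs_div, abs_of_pos hpi, div_le_iff₀ hpi]
    linarith

end Pool.Agent.T2h98.PS
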