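import Pool.Agent.T2h98.PS.Stm
import Pool.Agent.T2h98.KU.ZH
import Pool.Agent.T2h98.QD.MoA

/-! PZ: two resolvents applied to a vector: variance. -/

set_option autoImplicit false
set_option linter.all false

open scoped BigOperators Matrix Topology
open MeasureTheory ProbabilityTheory Filter

namespace Pool.Agent.T2h98.PS.PZ

open Pool.Agent.W788.MFP.Four (T e NN adj K)
open Pool.Agent.W788.BK (nsq hs PP JJ hi Low cr nsq_nonneg cs_star)
open Pool.Agent.W240.BK (BC BM cs_int)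
open Pool.Agent.T2h98.QD
open Pool.Agent.T2h98.AC (TX RX mX sy Rb Fk)
open Pool.Agent.T2h98.AC.CovH
open Pool.Agent.T2h98.KU
open Pool.Agent.T2h98.KU.PoH
open Pool.Agent.T2h98.KU.ZH (lam)

variable {d L : ℕ} [NeZero L]

/-- the reflected symbol, with the opposite sign -/
def ng (q : T d L → ℂ) : T d L → ℂ := fun k => -q (-k)

theorem ng_le {q : T d L → ℂ} (hq : ∀ k, ‖q k‖ ≤ 1) : ∀ k, ‖ng q k‖ ≤ 1 := fun k => by
  unfold ng
  rw [norm_neg]
  exact hq _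

theorem mo_tr (q : T d L → ℂ) : (Mo q)ᵀ = -(Mo (ng q)) := by
  ext x y
  rw [Matrix.transpose_apply, Matrix.neg_apply]
  simp only [Mo, Matrix.of_apply, ng]
  rw [← mul_neg, ← Finset.sum_neg_distrib]
  congr 1
  rw [← Equiv.sum_comp (Equiv.neg (T d L))]
  refine Finset.sum_congr rfl fun k _ => ?_
  rw [Equiv.neg_apply, neg_mul, neg_neg]
  congr 1
  unfold e
  congr 1
  refine Finset.sum_congr rfl fun i _ => ?_
  rw [Pi.neg_apply, Pi.sub_apply, Pi.sub_apply]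
  ring

theorem nsq_q {q : T d L → ℂ} (hq : ∀ k, ‖q k‖ ≤ 1) (w : T d L → ℂ) :
    nsq (Mo q *ᵥ w) ≤ 4 * nsq w := by
  have h := nsq_mo q 1 (fun k => pow_le_one₀ (norm_nonneg _) (hq k)) w
  have h2 := nsq_nonneg w
  linarith

/-- the transpose of `R₁ q P` -/
theorem tr (hR : T_KR) {ε : ℝ} (hε : 0 < ε) (E σ : ℝ) (q : T d L → ℂ)
    (V : T d L → ℝ) (x y : T d L) :
    (RE false E ε σ V *ᵥ (Mo q *ᵥ (RE true E ε σ V *ᵥ dl y))) x =
      -(RE true E ε σ V *ᵥ (Mo (ng q) *ᵥ (RE false E ε σ V *ᵥ dl x))) y := by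
  have t1 := (hR d L false E ε σ hε).2.2.1 V
  have t2 := (hR d L true E ε σ hε).2.2.1 V
  have t3 := mo_tr q
  rw [Matrix.mulVec_mulVec, Matrix.mulVec_mulVec, Matrix.mulVec_mulVec, Matrix.mulVec_mulVec,
    entry, entry]
  have h1 : ((RE false E ε σ V * (Mo q * RE true E ε σ V) : Matrix (T d L) (T d L) ℂ))ᵀ =
      -(RE true E ε σ V * (Mo (ng q) * RE false E ε σ V)) := by
    rw [Matrix.transpose_mul, Matrix.transpose_mul, t1, t2, t3, Matrix.mul_neg, Matrix.neg_mul,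
      Matrix.mul_assoc]
  have h2 := congrFun (congrFun h1 y) x
  rw [Matrix.transpose_apply, Matrix.neg_apply, ← Matrix.mul_assoc, ← Matrix.mul_assoc] at h2
  exact h2

/-- the derivative of `(R₁ q P f) 0` -/
noncomputable def DZ (q : T d L → ℂ) (E ε σ : ℝ) (f : T d L → ℂ) (y : T d L)
    (V : T d L → ℝ) : ℂ :=
  -((σ : ℂ) * ((RE false E ε σ V *ᵥ dl 0) y *
        (RE false E ε σ V *ᵥ (Mo q *ᵥ (RE true E ε σ V *ᵥ f))) y -
        (RE true E ε σ V *ᵥ (Mo (ng q) *ᵥ (RE false E ε σ V *ᵥ dl 0))) y *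
          (RE true E ε σ V *ᵥ f) y))

theorem gd (hR : T_KR) {ε : ℝ} (hε : 0 < ε) (E σ : ℝ) (q : T d L → ℂ) (f : T d L → ℂ) :
    GD (fun V : T d L → ℝ => (RE false E ε σ V *ᵥ (Mo q *ᵥ (RE true E ε σ V *ᵥ f))) 0)
      (DZ q E ε σ f) := by
  have h1 := ((md (d := d) (L := L) hR hε false E σ).mul (MD.const (Mo q))).mul
    (md (d := d) (L := L) hR hε true E σ)
  have h2 := h1.vec f 0
  simp only [Matrix.mul_assoc, ← Matrix.mulVec_mulVec, Matrix.add_mulVec, Matrix.mul_zero,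
    add_zero] at h2
  refine h2.congr' fun y V => ?_
  rw [Pi.add_apply, dm_vec, dm_vec, smul_vec, smul_vec, Pi.smul_apply, Pi.smul_apply,
    smul_eq_mul, smul_eq_mul, tr hR hε]
  have t1 := (hR d L false E ε σ hε).2.2.1 V
  have h3 : (RE false E ε σ V *ᵥ dl y) 0 = (RE false E ε σ V *ᵥ dl 0) y := by
    rw [entry, entry]
    have h4 := congrFun (congrFun t1 y) 0
    rw [Matrix.transpose_apply] at h4
    exact h4
  rw [h3]
  unfold DZ
  ring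

theorem good (hR : T_KR) (hQ : T_KQ2) {σ δ ε t Q g p0 : ℝ} {Ω : Set (T d L → ℝ)}
    (hp : ParK d L σ δ ε t Q g p0 Ω) {q : T d L → ℂ} (hq : ∀ k, ‖q k‖ ≤ 1) (E : ℝ) (f : T d L → ℂ)
    {V : T d L → ℝ} (hVΩ : V ∈ Ω) {z : ℝ}
    (hz : qf (J0 E δ) (RE true E ε σ V *ᵥ f) ≤ 4 * (δ / ε) * z) (hz0 : 0 ≤ z) :
    ∑ y, ‖DZ q E ε σ f y V‖ ^ 2 ≤ 256 * (σ ^ 2 * Q * (δ / ε) ^ 2) / ε ^ 2 *
      ((g + (RE false E ε σ V 0 0).im) * (star f ⬝ᵥ (RE false E ε σ V *ᵥ f)).im +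
        (RE false E ε σ V 0 0).im * z) := by
  have hε := hp.hε
  have hεδ : ε ≤ δ := hp.hεσ.trans hp.hσδ
  have hδ : 0 < δ := hε.trans_le hεδ
  have hQ0 : 0 ≤ Q := by linarith [hp.hQ1]
  have hg0 : 0 ≤ g := by linarith [hp.hg1]
  have hx0 := im_nonneg hR hε E σ V f
  have hr0 : 0 ≤ (RE false E ε σ V 0 0).im := by
    rw [← im_dl]
    exact im_nonneg hR hε E σ V _
  have n1 : nsq (RE true E ε σ V *ᵥ f) = (star f ⬝ᵥ (RE false E ε σ V *ᵥ f)).im / ε := by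
    rw [← (hR d L true E ε σ hε).2.2.2.1 V f]
    field_simp
  have n2 : nsq (RE false E ε σ V *ᵥ dl 0) = (RE false E ε σ V 0 0).im / ε := by
    rw [← im_dl, ← (hR d L false E ε σ hε).2.2.2.1 V (dl 0)]
    field_simp
  generalize hxx : (star f ⬝ᵥ (RE false E ε σ V *ᵥ f)).im = x at *
  generalize hrr : (RE false E ε σ V 0 0).im = r at *
  have q1 := (hQ d L σ δ ε t Q g p0 Ω hp V hVΩ false E (dl 0)).2.2
  rw [hrr] at q1
  have q2 := (hQ d L σ δ ε t Q g p0 Ω hp V hVΩ false E (Mo q *ᵥ (RE true E ε σ V *ᵥ f))).2.1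
  have q3 := (hQ d L σ δ ε t Q g p0 Ω hp V hVΩ true E (Mo (ng q) *ᵥ (RE false E ε σ V *ᵥ dl 0))).2.1
  have v1 := nsq_q hq (RE true E ε σ V *ᵥ f)
  have v2 := nsq_q (ng_le hq) (RE false E ε σ V *ᵥ dl 0)
  rw [n1] at v1
  rw [n2] at v2
  have q2' : qf (J0 E δ) (RE false E ε σ V *ᵥ (Mo q *ᵥ (RE true E ε σ V *ᵥ f))) ≤
      32 * (δ / ε ^ 2) * (x / ε) :=
    q2.trans (by nlinarith [mul_le_mul_of_nonneg_left v1 (by positivity : 0 ≤ 8 * (δ / ε ^ 2))])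
  have q3' : qf (J0 E δ) (RE true E ε σ V *ᵥ (Mo (ng q) *ᵥ (RE false E ε σ V *ᵥ dl 0))) ≤
      32 * (δ / ε ^ 2) * (r / ε) :=
    q3.trans (by nlinarith [mul_le_mul_of_nonneg_left v2 (by positivity : 0 ≤ 8 * (δ / ε ^ 2))])
  have s1 := hp.hQ E (RE false E ε σ V *ᵥ dl 0)
    (RE false E ε σ V *ᵥ (Mo q *ᵥ (RE true E ε σ V *ᵥ f)))
  have s2 := hp.hQ E (RE true E ε σ V *ᵥ (Mo (ng q) *ᵥ (RE false E ε σ V *ᵥ dl 0)))
    (RE true E ε σ V *ᵥ f)
  have m1 := mul_le_mul q1 q2' (EMBS.qf0_nonneg (E := E) hδ _) (by positivity)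
  have m2 := mul_le_mul q3' hz (EMBS.qf0_nonneg (E := E) hδ _) (by positivity)
  have t1 := s1.trans (mul_le_mul_of_nonneg_left m1 hQ0)
  have t2 := s2.trans (mul_le_mul_of_nonneg_left m2 hQ0)
  unfold DZ
  refine (sumD σ _ _ _ _).trans ?_
  refine (mul_le_mul_of_nonneg_left (add_le_add t1 t2) (by positivity : 0 ≤ 2 * σ ^ 2)).trans
    (le_of_eq ?_)
  field_simp
  ring

theorem allV (hR : T_KR) {σ ε : ℝ} (hε : 0 < ε) {q : T d L → ℂ} (hq : ∀ k, ‖q k‖ ≤ 1) (E : ℝ)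
    (f : T d L → ℂ) (V : T d L → ℝ) :
    ∑ y, ‖DZ q E ε σ f y V‖ ^ 2 ≤ 16 * σ ^ 2 * nsq f / ε ^ 6 := by
  have n1 := (hR d L true E ε σ hε).2.2.2.2.1 V f
  have n2 := (hR d L false E ε σ hε).2.2.2.2.1 V (dl 0)
  rw [nsq_dl] at n2
  have v1 := nsq_q hq (RE true E ε σ V *ᵥ f)
  have v2 := nsq_q (ng_le hq) (RE false E ε σ V *ᵥ dl 0)
  have n3 := (hR d L false E ε σ hε).2.2.2.2.1 V (Mo q *ᵥ (RE true E ε σ V *ᵥ f))
  have n4 := (hR d L true E ε σ hε).2.2.2.2.1 V (Mo (ng q) *ᵥ (RE false E ε σ V *ᵥ dl 0))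
  have hN := nsq_nonneg f
  have k3 : nsq (RE false E ε σ V *ᵥ (Mo q *ᵥ (RE true E ε σ V *ᵥ f))) ≤ 4 * (nsq f / ε ^ 2) / ε ^ 2 := by
    refine n3.trans (div_le_div_of_nonneg_right ?_ (by positivity))
    linarith
  have k4 : nsq (RE true E ε σ V *ᵥ (Mo (ng q) *ᵥ (RE false E ε σ V *ᵥ dl 0))) ≤
      4 * (1 / ε ^ 2) / ε ^ 2 := by
    refine n4.trans (div_le_div_of_nonneg_right ?_ (by positivity))
    linarith
  unfold DZ
  refine (sumD σ _ _ _ _).trans ?_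
  have m1 := mul_le_mul n2 k3 (nsq_nonneg _) (by positivity)
  have m2 := mul_le_mul k4 n1 (nsq_nonneg _) (by positivity)
  refine (mul_le_mul_of_nonneg_left (add_le_add ((sum_le_nsq _ _).trans m1)
    ((sum_le_nsq _ _).trans m2)) (by positivity : 0 ≤ 2 * σ ^ 2)).trans (le_of_eq ?_)
  field_simp
  ring

end Pool.Agent.T2h98.PS.PZ

namespace Pool.Agent.T2h98.PS

open Pool.Agent.W788.MFP.Four (T e NN adj K)
open Pool.Agent.W788.BK (nsq hs PP JJ hi Low cr nsq_nonneg cs_star)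
open Pool.Agent.W240.BK (BC BM cs_int)
open Pool.Agent.T2h98.QD
open Pool.Agent.T2h98.AC (TX RX mX sy Rb Fk)
open Pool.Agent.T2h98.AC.CovH
open Pool.Agent.T2h98.KU
open Pool.Agent.T2h98.KU.PoH
open Pool.Agent.T2h98.KU.ZH (lam)
open PZ

theorem pz (hR : T_KR) (hQ : T_KQ2) (h1 : T_KV1) (hP : T_POIN) : T_PZ := by
  intro d L _ σ δ ε t Q g p0 E Ω hp hL hG0 hGδ hm1 f hx2 q hq
  have hε := hp.hε
  have hσ := hp.hσ
  have hεδ : ε ≤ δ := hp.hεσ.trans hp.hσδ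
  have hδ : 0 < δ := hε.trans_le hεδ
  have hδ1 := hp.hδ1
  have hε1 : ε ≤ 1 := hεδ.trans hp.hδ1
  have hg1 := hp.hg1
  have hQ0 : 0 ≤ Q := by linarith [hp.hQ1]
  have hgd' : GD (fun V : T d L → ℝ => (RE false E ε σ V *ᵥ (Mo q *ᵥ (RE true E ε σ V *ᵥ f))) 0)
    (DZ q E ε σ f) := gd (d := d) (L := L) hR hε E σ q f
  have a1 := im_moments hR hε E σ hm1 (h1 d L σ δ ε t Q g p0 Ω hp hL false E hm1).2
  set G : ℝ := Ga d L E ε σ with hG
  set N : ℝ := nsq f with hN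
  have hN0 : 0 ≤ N := nsq_nonneg f
  set r1 : (T d L → ℝ) → ℝ := fun V => (RE false E ε σ V 0 0).im with hr1
  set x : (T d L → ℝ) → ℝ := fun V => (star f ⬝ᵥ (RE false E ε σ V *ᵥ f)).im with hx
  have p1 : ∀ V, 0 ≤ r1 V := fun V => by
    simp only [hr1]
    rw [← im_dl]
    exact im_nonneg hR hε E σ V _
  have p2 : ∀ V, 0 ≤ x V := fun V => im_nonneg hR hε E σ V f
  have c1 : RC r1 := RC.im (bc (d := d) (L := L) hR hε false E σ 0 0)
  have c2 : RC x := RC.im ((md (d := d) (L := L) hR hε false E σ).form (star f) f).bF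
  set A : ℝ := 256 * (σ ^ 2 * Q * (δ / ε) ^ 2) / ε ^ 2 with hA
  have hA0 : 0 ≤ A := by positivity
  have cg1 : RC fun V => g + r1 V := (RC.const g).add c1
  have cg2 : RC fun V => N / δ + x V := (RC.const (N / δ)).add c2
  have cg : RC fun V => 2 * A * ((g + r1 V) * (N / δ + x V)) := (RC.const (2 * A)).mul (cg1.mul cg2)
  have hgood : ∀ V ∈ Ω, ∑ y, ‖DZ q E ε σ f y V‖ ^ 2 ≤
      2 * A * ((g + r1 V) * (N / δ + x V)) := by
    intro V hV'
    have hxV := p2 V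
    have hrV := p1 V
    have hz : qf (J0 E δ) (RE true E ε σ V *ᵥ f) ≤ 4 * (δ / ε) * (N / δ + x V) := by
      refine (hQ d L σ δ ε t Q g p0 Ω hp V hV' true E f).1.trans ?_
      show 4 * (N / δ + (δ / ε) * x V) ≤ _
      have h2 : 1 ≤ δ / ε := (one_le_div hε).2 hεδ
      have h3 : 0 ≤ N / δ := by positivity
      nlinarith
    have h3 := good hR hQ hp hq E f hV' hz (by positivity)
    refine h3.trans ?_
    show A * ((g + r1 V) * x V + r1 V * (N / δ + x V)) ≤ _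
    have h4 : (g + r1 V) * x V + r1 V * (N / δ + x V) ≤ 2 * ((g + r1 V) * (N / δ + x V)) := by
      have h5 : 0 ≤ N / δ := by positivity
      have h6 : 0 ≤ g * (N / δ) := by positivity
      have h7 : 0 ≤ g * x V := by positivity
      have h8 : 0 ≤ r1 V * (N / δ) := by positivity
      nlinarith
    nlinarith [mul_le_mul_of_nonneg_left h4 hA0]
  have hall := allV (σ := σ) hR hε hq E f
  have hvar := var_ev hP hgd' hp.hΩ hp.hP cg.integrable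
    (fun V => by
      have := p1 V
      have := p2 V
      positivity) (by positivity : (0 : ℝ) ≤ 16 * σ ^ 2 * nsq f / ε ^ 6) hgood hall
  refine hvar.trans ?_
  rw [integral_const_mul]
  have hNG : N / δ ≤ N / G := div_le_div_of_nonneg_left hN0 hG0 hGδ
  have hNδ : 0 ≤ N / δ := by positivity
  have hNG0 : 0 ≤ N / G := by positivity
  -- the mean of the product
  have i3 : ∫ V, (g + r1 V) * (N / δ + x V) ∂(GP (T d L)) ≤ 57 * (g * (N / G)) := by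
    have h2 := cs_int (m := T d L) (gaussianReal 0 1) (a := fun V => g + r1 V)
      (b := fun V => N / δ + x V) cg1.sq.integrable cg2.sq.integrable (cg1.mul cg2).integrable
    have h3 : ∫ V, (g + r1 V) ^ 2 ∂(GP (T d L)) ≤ 16 * g ^ 2 := by
      have h4 : ∀ V, (g + r1 V) ^ 2 ≤ 2 * g ^ 2 + 2 * r1 V ^ 2 := fun V => by
        nlinarith [sq_nonneg (g - r1 V)]
      obtain ⟨j1, j2⟩ := int_a2 (μ := GP (T d L)) (2 * g ^ 2) 2 c1.sq.integrable
      refine (integral_mono cg1.sq.integrable j1 h4).trans ?_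
      rw [j2]
      linarith [a1.1]
    have h5 : ∫ V, (N / δ + x V) ^ 2 ∂(GP (T d L)) ≤ 202 * (N / G) ^ 2 := by
      have h4 : ∀ V, (N / δ + x V) ^ 2 ≤ 2 * (N / δ) ^ 2 + 2 * x V ^ 2 := fun V => by
        nlinarith [sq_nonneg (N / δ - x V)]
      obtain ⟨j1, j2⟩ := int_a2 (μ := GP (T d L)) (2 * (N / δ) ^ 2) 2 c2.sq.integrable
      refine (integral_mono cg2.sq.integrable j1 h4).trans ?_
      rw [j2]
      have h6 : (N / δ) ^ 2 ≤ (N / G) ^ 2 := pow_le_pow_left₀ hNδ hNG 2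
      have h7 : ∫ V, x V ^ 2 ∂(GP (T d L)) ≤ 100 * (N / G) ^ 2 := hx2
      linarith
    have h6 : (∫ V, (g + r1 V) * (N / δ + x V) ∂(GP (T d L))) ^ 2 ≤ (57 * (g * (N / G))) ^ 2 := by
      refine h2.trans ?_
      refine (mul_le_mul h3 h5 (integral_nonneg fun V => sq_nonneg _) (by positivity)).trans ?_
      have : 0 ≤ (g * (N / G)) ^ 2 := by positivity
      nlinarith
    exact le_of_sq_le_sq h6 (by positivity)
  have h4 := mul_le_mul_of_nonneg_left i3 (mul_nonneg zero_le_two hA0)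
  have e1 : 2 * A * (57 * (g * (N / G))) =
      29184 * (σ ^ 2 * Q * (δ / ε) ^ 2 * g * N / (ε ^ 2 * G)) := by
    rw [hA]
    field_simp
    ring
  rw [e1] at h4
  have h5 : 16 * σ ^ 2 * nsq f / ε ^ 6 * p0 ≤
      16 * (σ ^ 2 * Q * (δ / ε) ^ 2 * g * N / (ε ^ 2 * G)) := by
    have h6 : 16 * σ ^ 2 * N / ε ^ 6 * p0 ≤ 16 * σ ^ 2 * N / ε ^ 6 * ε ^ 12 :=
      mul_le_mul_of_nonneg_left hp.hp (by positivity)
    have h7 : 16 * σ ^ 2 * N / ε ^ 6 * ε ^ 12 = 16 * (σ ^ 2 * N) * ε ^ 6 := by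
      field_simp
    have h8 : ε ^ 6 ≤ 1 := pow_le_one₀ hε.le hε1
    have h9 : 0 ≤ σ ^ 2 * N := by positivity
    have h10 := lam hp
    have h11 : (1 : ℝ) ≤ g / (ε ^ 2 * G) := by
      rw [one_le_div (by positivity)]
      have h12 : ε ^ 2 * G ≤ 1 := mul_le_one₀ (pow_le_one₀ hε.le hε1) hG0.le (hGδ.trans hδ1)
      linarith
    have h12 : σ ^ 2 * Q * (δ / ε) ^ 2 * g * N / (ε ^ 2 * G) =
        (σ ^ 2 * Q * (δ / ε) ^ 2) * N * (g / (ε ^ 2 * G)) := by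
      field_simp
    rw [h12]
    have h13 : σ ^ 2 * N ≤ (σ ^ 2 * Q * (δ / ε) ^ 2) * N := mul_le_mul_of_nonneg_right h10 hN0
    have h14 : (σ ^ 2 * Q * (δ / ε) ^ 2) * N * 1 ≤ (σ ^ 2 * Q * (δ / ε) ^ 2) * N *
        (g / (ε ^ 2 * G)) := mul_le_mul_of_nonneg_left h11 (by positivity)
    nlinarith
  have e2 : (10 : ℝ) ^ 5 * (σ ^ 2 * Q * (δ / ε) ^ 2) * g * N / (ε ^ 2 * G) =
      10 ^ 5 * (σ ^ 2 * Q * (δ / ε) ^ 2 * g * N / (ε ^ 2 * G)) := by ring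
  rw [e2]
  have h6 : 0 ≤ σ ^ 2 * Q * (δ / ε) ^ 2 * g * N / (ε ^ 2 * G) := by positivity
  nlinarith

end Pool.Agent.T2h98.PS
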