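import Pool.Agent.T2h98.PS.PA
import Pool.Agent.T2h98.PS.PB
import Pool.Agent.T2h98.PS.PBE
import Pool.Agent.T2h98.PS.PCAU
import Pool.Agent.T2h98.PS.PCO
import Pool.Agent.T2h98.PS.PCT
import Pool.Agent.T2h98.PS.PDE
import Pool.Agent.T2h98.PS.PEG
import Pool.Agent.T2h98.PS.PEI
import Pool.Agent.T2h98.PS.PEX
import Pool.Agent.T2h98.PS.PFU
import Pool.Agent.T2h98.PS.PJL
import Pool.Agent.T2h98.PS.PLI
import Pool.Agent.T2h98.PS.PLM
import Pool.Agent.T2h98.PS.PMAIN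
import Pool.Agent.T2h98.PS.PPO
import Pool.Agent.T2h98.PS.PPS
import Pool.Agent.T2h98.PS.PRB
import Pool.Agent.T2h98.PS.PREL
import Pool.Agent.T2h98.PS.PRI
import Pool.Agent.T2h98.PS.PSD
import Pool.Agent.T2h98.PS.PSY
import Pool.Agent.T2h98.PS.PTO
import Pool.Agent.T2h98.PS.PU
import Pool.Agent.T2h98.PS.PWD
import Pool.Agent.T2h98.PS.PWM
import Pool.Agent.T2h98.PS.PZ
import Pool.Agent.T2h98.KU.All

/-! All parts: quantum ergodicity in phase space. -/

set_option autoImplicit false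

namespace Pool.Agent.T2h98.PS.All

open Pool.Agent.T2h98.QD Pool.Agent.T2h98.QD.QE Pool.Agent.T2h98.KU Pool.Agent.T2h98.PS

theorem pegA : T_PEG := peg kr

theorem pcauA : T_PCAU := pcau pbe pjl

theorem pwmA : T_PWM := pwm pcauA kcauA

theorem pwdA : T_PWD := t_PWD kr

theorem pfuA : T_PFU := t_PFU kr pwdA pegA t_PEX t_PEI

theorem pdeA : T_PDE := T_PDE_of pegA t_PEI t_PSY

theorem pctA : T_PCT := t_PCT pegA T_PPO_holds U.dosF t_PEI

theorem puA : T_PU := pu kr kq2A kv1A poin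

theorem pzA : T_PZ := pz kr kq2A kv1A poin

theorem pmainA : T_PMAIN := pmain (psd kr ibp) puA pzA kv1A krbA kxfA kwA kr

theorem prbA : T_PRB := prb kr kv1A (Pool.Agent.T2h98.AC.sd Pool.Agent.T2h98.AC.rx ibp)

theorem prelA : T_PREL := prel pmainA pwdA krbA kr

theorem pliA : T_PLI := t_PLI kgeA prelA prbA pcauA pwdA t_PSY pwmA U.dosF

theorem ptoA : T_PTO := pto pliA pfuA pwmA U.dosF (lap U.dosF) pwdA

theorem paA : T_PA := pa t_PEX ptoA pfuA pdeA (pco t_PSY) pctA T_PPO_holds pwmA U.dosF t_PSY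

theorem pbA : T_PB := pb paA qeF pwmA

theorem plmA : T_PLM := plm T_PRI_holds pcauA kcauA t_PSY

end Pool.Agent.T2h98.PS.All
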