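import Pool.Agent.T2h98.PS.Stm

/-! Slowly varying functions and shifts (PA). -/

set_option autoImplicit false
set_option linter.unusedSectionVars false

open scoped BigOperators Matrix Topology
open MeasureTheory ProbabilityTheory Filter

namespace Pool.Agent.T2h98.PS

open Pool.Agent.W788.MFP.Four (T e NN adj K)
open Pool.Agent.W788.BK (nsq hs PP JJ hi Low cr)
open Pool.Agent.T2h98.QD
open Pool.Agent.T2h98.KU

namespace Pa

/-- powers of `σ` tend to zero -/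
lemma rpow_small {p : ℝ} (hp : 0 < p) {r : ℝ} (hr : 0 < r) : ∀ᶠ σ : ℝ in 𝓝[>] 0, σ ^ p < r := by
  have h1 : Tendsto (fun σ : ℝ => σ ^ p) (𝓝 0) (𝓝 ((0 : ℝ) ^ p)) :=
    Real.continuousAt_rpow_const 0 p (Or.inr hp.le)
  rw [Real.zero_rpow hp.ne'] at h1
  exact (h1.mono_left nhdsWithin_le_nhds).eventually_lt_const hr

variable {d : ℕ} {m : Fin d → ℤ} {c0 : ℝ}

lemma cf_cont (hd : 3 ≤ d) (hM : T_PWM) (hD : T_DOS) (hc0 : 0 < c0) : Continuous (cf d m c0) := by
  have h1 := (hM d hd m).1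
  have h2 := (hD d hd).1
  unfold cf
  exact h1.div (h2.max continuous_const) fun E => (lt_of_lt_of_le hc0 (le_max_right _ _)).ne'

lemma cf_le (hd : 3 ≤ d) (hM : T_PWM) (hc0 : 0 < c0) (E : ℝ) : |cf d m c0 E| ≤ 1 := by
  have h1 := (hM d hd m).2 E
  have h2 : 0 < max (dn d E) c0 := lt_of_lt_of_le hc0 (le_max_right _ _)
  unfold cf
  rw [abs_div, abs_of_pos h2, div_le_one h2]
  exact h1.trans (le_max_left _ _)

lemma cf_supp (hd : 3 ≤ d) (hM : T_PWM) (hD : T_DOS) : HasCompactSupport (cf d m c0) := by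
  refine HasCompactSupport.intro (K := Set.Icc (-(2 * (d : ℝ))) (2 * d)) isCompact_Icc
    fun E hE => ?_
  have h1 : 2 * (d : ℝ) ≤ |E| := by
    by_contra h
    rw [not_le, abs_lt] at h
    exact hE ⟨h.1.le, h.2.le⟩
  have h2 := ((hD d hd).2.2.2.2.1 E h1).1
  have h3 := (hM d hd m).2 E
  rw [h2] at h3
  have h4 : wm d m E = 0 := abs_nonpos_iff.1 h3
  unfold cf
  rw [h4, zero_div]

end Pa

open Pa in
/-- **slowly varying functions and shifts** -/
theorem pa (hX : T_PEX) (hT : T_PTO) (hF : T_PFU) (hE : T_PDE) (hC : T_PCO) (hN : T_PCT)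
    (hP : T_PPO) (hM : T_PWM) (hD : T_DOS) (hS : T_PSY) : T_PA := by
  classical
  intro κ d hd a ha m η hη
  have hd0 : (0 : ℝ) < d := by exact_mod_cast (by omega : 0 < d)
  obtain ⟨h, hh⟩ : ∃ h : ℝ, h = min (a / 2) (1 / 4) := ⟨_, rfl⟩
  have hh0 : 0 < h := by rw [hh]; positivity
  have hh1 : h < 1 / 3 := by
    rw [hh]
    exact lt_of_le_of_lt (min_le_right _ _) (by norm_num)
  have hha : h < a := by
    rw [hh]
    exact lt_of_le_of_lt (min_le_left _ _) (by linarith)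
  obtain ⟨t1, ht1⟩ : ∃ t1 : ℝ, t1 = η ^ 3 / 8 := ⟨_, rfl⟩
  obtain ⟨t2, ht2⟩ : ∃ t2 : ℝ, t2 = η / 2 := ⟨_, rfl⟩
  have ht10 : 0 < t1 := by rw [ht1]; positivity
  have ht20 : 0 < t2 := by rw [ht2]; positivity
  obtain ⟨τ, hτ⟩ : ∃ τ : ℝ, τ = η / 2 * min t1 t2 := ⟨_, rfl⟩
  have hτ0 : 0 < τ := by rw [hτ]; positivity
  obtain ⟨c0, hc0⟩ : ∃ c0 : ℝ, c0 = τ / (400 * d) := ⟨_, rfl⟩
  have hc00 : 0 < c0 := by rw [hc0]; positivity
  have hc0d : 100 * d * c0 = τ / 4 := by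
    rw [hc0]
    field_simp
    norm_num
  obtain ⟨η1, hη1⟩ : ∃ η1 : ℝ, η1 = τ / 16 := ⟨_, rfl⟩
  have hη10 : 0 < η1 := by rw [hη1]; positivity
  have ccont := cf_cont (m := m) hd hM hD hc00
  have cle := cf_le (m := m) hd hM hc00
  have csup := cf_supp (m := m) (c0 := c0) hd hM hD
  obtain ⟨ε1, hε1, hP1⟩ := hP.1 _ ccont csup η1 hη10
  obtain ⟨ε2, hε2, hP2⟩ := hP.1 (fun E => cf d m c0 E ^ 2) (ccont.pow 2)
    (csup.comp_left (g := fun x : ℝ => x ^ 2) (by norm_num)) η1 hη10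
  obtain ⟨ε3, hε3, hN3⟩ := hN d hd c0 hc00
  have hsm : 0 < Real.sqrt (η ^ 3 / 8) / d := by positivity
  filter_upwards [hT κ d hd h hh0 hh1 a ha m c0 η1 hc00 hη10, self_mem_nhdsWithin,
    rpow_small (p := 2 + h) (by linarith) hε1, rpow_small (p := 2 + h) (by linarith) hε2,
    rpow_small (p := 2 + h) (by linarith) hε3, rpow_small (p := a - h) (by linarith) hsm]
    with σ hTσ hσ0 hs1 hs2 hs3 hs4 L _ hL1 hL2
  have hσ0' : 0 < σ := hσ0
  have hN0 := Pool.Agent.W788.MFP.Four.NN_pos (d := d) (L := L)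
  obtain ⟨ε, hε⟩ : ∃ ε : ℝ, ε = σ ^ (2 + h) := ⟨_, rfl⟩
  rw [← hε] at hs1 hs2 hs3
  have hε0 : 0 < ε := by rw [hε]; positivity
  obtain ⟨hT1, hT2⟩ := hTσ L hL1 hL2
  rw [← hε] at hT1 hT2
  obtain ⟨hF1, hF2, hF3, hF4, hF5, hF6, hF7, hF8⟩ :=
    hF d L m (cf d m c0) ε σ hε0 hσ0' ccont cle
  have hSm : MeasurableSet {E : ℝ | dn d E < 2 * c0} :=
    measurableSet_lt (hD d hd).1.measurable measurable_const
  obtain ⟨hS1, hS2⟩ := hF8 _ hSm
  have hprob : IsProbabilityMeasure (GP (T d L)) := by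
    show IsProbabilityMeasure (Measure.pi fun _ : T d L => gaussianReal 0 1)
    infer_instance
  obtain ⟨Y, hY⟩ : ∃ Y : (T d L → ℝ) → ℝ, Y = fun V => Real.pi⁻¹ *
    (∫ E : ℝ, Ph m (cf d m c0) ε σ V E) + 3 * η1 := ⟨_, rfl⟩
  obtain ⟨Z, hZ⟩ : ∃ Z : (T d L → ℝ) → ℝ, Z = fun V =>
    ∫ E in {E : ℝ | dn d E < 2 * c0}, DS E ε σ V := ⟨_, rfl⟩
  have hDE : ∀ (V : T d L → ℝ) (u : T d L → T d L → ℂ) (w : T d L → ℝ), EB σ V u w →
      (NN d L)⁻¹ * ∑ j, ∑ l, ‖Xm m (cf d m c0) ε u w j l‖ ^ 2 ≤ Y V := by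
    intro V u w hE'
    rw [hY]
    exact hE d L m (cf d m c0) ε σ η1 hε0 ccont cle (hP1 ε hε0 hs1) (hP2 ε hε0 hs2) V u w hE'
  have hY0 : ∀ V, 0 ≤ Y V := by
    intro V
    obtain ⟨u, w, huw⟩ := hX d L σ V
    refine le_trans ?_ (hDE V u w huw)
    positivity
  have hDS0 : ∀ (V : T d L → ℝ) (E : ℝ), 0 ≤ DS E ε σ V := by
    intro V E
    have := (abs_nonneg _).trans (hF1 V E)
    linarith
  have hZ0 : ∀ V, 0 ≤ Z V := by
    intro V
    rw [hZ]
    exact integral_nonneg fun E => hDS0 V E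
  have hYi : Integrable Y (GP (T d L)) := by
    rw [hY]
    exact (hF2.const_mul _).add (integrable_const _)
  have hYint : ∫ V, Y V ∂(GP (T d L)) ≤ η / 2 * t1 := by
    have h1 : ∫ V, Y V ∂(GP (T d L)) = Real.pi⁻¹ * (∫ V : T d L → ℝ,
        (∫ E : ℝ, Ph m (cf d m c0) ε σ V E) ∂(GP (T d L))) + 3 * η1 := by
      rw [hY]
      simp only
      rw [integral_add (hF2.const_mul _) (integrable_const _), integral_const_mul,
        integral_const]
      simp
    have h2 : Real.pi⁻¹ ≤ 1 := inv_le_one_of_one_le₀ (by linarith [Real.pi_gt_three])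
    have h3 : 0 ≤ Real.pi⁻¹ := by positivity
    have h4 : Real.pi⁻¹ * (∫ V : T d L → ℝ,
        (∫ E : ℝ, Ph m (cf d m c0) ε σ V E) ∂(GP (T d L))) ≤ η1 + 100 * d * c0 := by
      calc _ ≤ Real.pi⁻¹ * (η1 + 100 * d * c0) := mul_le_mul_of_nonneg_left hT1 h3
        _ ≤ 1 * (η1 + 100 * d * c0) := mul_le_mul_of_nonneg_right h2 (by positivity)
        _ = _ := one_mul _
    have h5 : τ ≤ η / 2 * t1 := by
      rw [hτ]
      exact mul_le_mul_of_nonneg_left (min_le_left _ _) (by positivity)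
    rw [h1]
    linarith
  have hZint : ∫ V, Z V ∂(GP (T d L)) ≤ η / 2 * t2 := by
    have h5 : τ ≤ η / 2 * t2 := by
      rw [hτ]
      exact mul_le_mul_of_nonneg_left (min_le_right _ _) (by positivity)
    rw [hZ]
    simp only
    rw [hS2]
    linarith
  have hZi : Integrable Z (GP (T d L)) := by
    rw [hZ]
    exact hS1
  have hm1 := mul_meas_ge_le_integral_of_nonneg (ae_of_all _ hY0) hYi t1
  have hm2 := mul_meas_ge_le_integral_of_nonneg (ae_of_all _ hZ0) hZi t2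
  have hm1' : (GP (T d L)).real {V | t1 ≤ Y V} ≤ η / 2 := by
    have := hm1.trans hYint
    rw [mul_comm (η / 2)] at this
    exact le_of_mul_le_mul_left this ht10
  have hm2' : (GP (T d L)).real {V | t2 ≤ Z V} ≤ η / 2 := by
    have := hm2.trans hZint
    rw [mul_comm (η / 2)] at this
    exact le_of_mul_le_mul_left this ht20
  obtain ⟨B, hB⟩ : ∃ B : Set (T d L → ℝ), B = {V | t1 ≤ Y V} ∪ {V | t2 ≤ Z V} := ⟨_, rfl⟩
  have hBm : (GP (T d L)).real (toMeasurable (GP (T d L)) B) ≤ η := by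
    have h1 : (GP (T d L)).real (toMeasurable (GP (T d L)) B) = (GP (T d L)).real B := by
      rw [measureReal_def, measureReal_def, measure_toMeasurable]
    rw [h1, hB]
    exact (measureReal_union_le _ _).trans (by linarith)
  refine ⟨(toMeasurable (GP (T d L)) B)ᶜ, (measurableSet_toMeasurable _ _).compl, ?_, ?_⟩
  · rw [probReal_compl_eq_one_sub (measurableSet_toMeasurable _ _)]
    linarith
  intro V hV u w hEB
  have hVB : V ∉ B := fun h => hV (subset_toMeasurable _ _ h)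
  have hV1 : Y V < t1 := by
    by_contra h
    exact hVB (by rw [hB]; exact Or.inl (not_lt.1 h))
  have hV2 : Z V < t2 := by
    by_contra h
    exact hVB (by rw [hB]; exact Or.inr (not_lt.1 h))
  -- few small densities
  have hct : ({j | dn d (w j) < c0}.ncard : ℝ) ≤ η / 2 * NN d L := by
    have h1 := hN3 ε hε0 hs3 L σ V u w hEB
    have h2 : ∫ E in {E : ℝ | dn d E < 2 * c0}, DS E ε σ V = Z V := by rw [hZ]
    rw [h2] at h1
    refine h1.trans ?_
    rw [mul_comm]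
    apply mul_le_mul_of_nonneg_right _ hN0.le
    have h3 : 2 / Real.pi ≤ 1 := by
      rw [div_le_one Real.pi_pos]
      linarith [Real.pi_gt_three]
    have h4 : 0 ≤ 2 / Real.pi := by positivity
    calc 2 / Real.pi * Z V ≤ 1 * Z V := mul_le_mul_of_nonneg_right h3 (hZ0 V)
      _ ≤ η / 2 := by
          rw [one_mul]
          linarith
  have hfin : ∀ s : Set (T d L), s.Finite := fun s => Set.toFinite s
  refine ⟨?_, ?_⟩
  · have h1 : {j | dn d (w j) = 0} ⊆ {j | dn d (w j) < c0} := by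
      intro j hj
      have hj' : dn d (w j) = 0 := hj
      show dn d (w j) < c0
      rw [hj']
      exact hc00
    have h2 : ({j | dn d (w j) = 0}.ncard : ℝ) ≤ ({j | dn d (w j) < c0}.ncard : ℝ) := by
      exact_mod_cast Set.ncard_le_ncard h1 (hfin _)
    have h3 : 0 ≤ η / 2 * NN d L := by positivity
    calc _ ≤ _ := h2
      _ ≤ η / 2 * NN d L := hct
      _ ≤ η * NN d L := by linarith
  intro f hf1 hf2
  have hco := hC d L m (cf d m c0) ε σ (σ ^ (2 + a)) hε0 (by positivity) V u w hEB f hf1 hf2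
  obtain ⟨v, hv⟩ : ∃ v : T d L → ℂ, v = fun j =>
    ∑ x, f x * (star (u j x) * (Mo (chm m) *ᵥ u j) x) -
    (cf d m c0 (w j) : ℂ) * ∑ x, f x * ((‖u j x‖ ^ 2 : ℝ) : ℂ) := ⟨_, rfl⟩
  have hv2 : ∑ j, ‖v j‖ ^ 2 ≤ η ^ 3 / 2 * NN d L := by
    have h1 : (NN d L)⁻¹ * ∑ j, ‖v j‖ ^ 2 ≤ η ^ 3 / 2 := by
      have h2 : (NN d L)⁻¹ * ∑ j, ‖v j‖ ^ 2 ≤
          2 * ((NN d L)⁻¹ * ∑ j, ∑ l, ‖Xm m (cf d m c0) ε u w j l‖ ^ 2) +
            2 * (d * σ ^ (2 + a) / ε) ^ 2 := by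
        rw [hv]
        exact hco
      have h3 := hDE V u w hEB
      have h4 : (d * σ ^ (2 + a) / ε) ^ 2 ≤ η ^ 3 / 8 := by
        have h5 : d * σ ^ (2 + a) / ε = d * σ ^ (a - h) := by
          rw [hε, mul_div_assoc, ← Real.rpow_sub hσ0']
          congr 2
          ring
        have h6 : d * σ ^ (a - h) ≤ Real.sqrt (η ^ 3 / 8) := by
          rw [lt_div_iff₀ hd0] at hs4
          linarith
        rw [h5]
        calc (d * σ ^ (a - h)) ^ 2 ≤ Real.sqrt (η ^ 3 / 8) ^ 2 :=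
              pow_le_pow_left₀ (by positivity) h6 2
          _ = η ^ 3 / 8 := Real.sq_sqrt (by positivity)
      linarith
    rw [inv_mul_le_iff₀ hN0] at h1
    linarith
  have hcount := QE.count_le v hη hv2
  have hcount2 : η ^ 3 / 2 * NN d L / η ^ 2 = η / 2 * NN d L := by
    field_simp
  rw [hcount2] at hcount
  have hsub : {j | η < ‖∑ x, f x * (star (u j x) * u j (x + fun i => ((m i : ℤ) : ZMod L))) -
      ((wm d m (w j) / dn d (w j) : ℝ) : ℂ) * ∑ x, f x * ((‖u j x‖ ^ 2 : ℝ) : ℂ)‖} ⊆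
      {j | dn d (w j) < c0} ∪ ((Finset.univ.filter fun j => η < ‖v j‖ : Finset (T d L)) :
        Set (T d L)) := by
    intro j hj
    by_cases h1 : dn d (w j) < c0
    · exact Or.inl h1
    · right
      rw [Finset.coe_filter]
      refine ⟨Finset.mem_univ _, ?_⟩
      have h2 : cf d m c0 (w j) = wm d m (w j) / dn d (w j) := by
        unfold cf
        rw [max_eq_left (not_lt.1 h1)]
      have h3 : ∀ x, (Mo (chm m) *ᵥ u j) x = u j (x + fun i => ((m i : ℤ) : ZMod L)) :=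
        fun x => (hS d L m).2.2.1 (u j) x
      rw [hv]
      simp only [h2, h3]
      exact hj
  have h1 : ({j | η < ‖∑ x, f x * (star (u j x) * u j (x + fun i => ((m i : ℤ) : ZMod L))) -
      ((wm d m (w j) / dn d (w j) : ℝ) : ℂ) * ∑ x, f x * ((‖u j x‖ ^ 2 : ℝ) : ℂ)‖}.ncard : ℝ) ≤
      (({j | dn d (w j) < c0} ∪ ((Finset.univ.filter fun j => η < ‖v j‖ : Finset (T d L)) :
        Set (T d L)) : Set (T d L)).ncard : ℝ) := by
    exact_mod_cast Set.ncard_le_ncard hsub (hfin _)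
  have h2 : (({j | dn d (w j) < c0} ∪ ((Finset.univ.filter fun j => η < ‖v j‖ : Finset (T d L)) :
        Set (T d L)) : Set (T d L)).ncard : ℝ) ≤ ({j | dn d (w j) < c0}.ncard : ℝ) +
        ((Finset.univ.filter fun j => η < ‖v j‖).card : ℝ) := by
    have := Set.ncard_union_le {j | dn d (w j) < c0}
      ((Finset.univ.filter fun j => η < ‖v j‖ : Finset (T d L)) : Set (T d L))
    rw [Set.ncard_coe_finset] at this
    exact_mod_cast this
  calc _ ≤ _ := h1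
    _ ≤ _ := h2
    _ ≤ η / 2 * NN d L + η / 2 * NN d L := add_le_add hct hcount
    _ = η * NN d L := by ring

end Pool.Agent.T2h98.PS
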