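import Pool.Agent.T2h98.PS.Stm
import Pool.Agent.T2h98.KU.KMAIN

/-! The mean field approximation of the product of two resolvents. -/

set_option autoImplicit false
set_option linter.unusedSectionVars false

open scoped BigOperators Matrix Topology
open MeasureTheory ProbabilityTheory Filter

namespace Pool.Agent.T2h98.PS

open Pool.Agent.W788.MFP.Four (T e NN adj K)
open Pool.Agent.W788.BK (nsq hs PP JJ hi Low cr)
open Pool.Agent.T2h98.QD
open Pool.Agent.T2h98.AC (TX RX mX sy Rb Fk)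
open Pool.Agent.T2h98.KU
open KEFP KMAINP

theorem pmain (hSD : T_PSD) (hU : T_PU) (hZ : T_PZ) (h1 : T_KV1) (hRb : T_KRB) (hX : T_KXF)
    (hW : T_KW) (hR : T_KR) : T_PMAIN := by
  intro d L _ σ δ ε t Q g p0 m0 ζ E Ω hP hS hG p q hp hq
  have hσ := hP.hσ
  have hε := hP.hε
  have hm0 := hS.hm0
  have hg1 := hP.hg1
  have hQ1 := hP.hQ1
  set G := Ga d L E ε σ with hGdef
  have hGa : 0 < G := lt_of_lt_of_le (by positivity) hG.h2
  set Lam : ℝ := σ ^ 2 * Q * (δ / ε) ^ 2 with hLam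
  have hLam0 : 0 ≤ Lam := by positivity
  set s : ℝ := σ ^ 2 / ε with hs
  have hs1 : 1 ≤ s := by
    rw [hs, le_div_iff₀ hε, one_mul]
    exact hP.hεσ
  have hk1 : 10 ^ 7 * Lam * s * g ^ 4 ≤ m0 ^ 3 * ζ ^ 2 := hS.k1
  have hm3 : m0 ^ 3 ≤ 1 := pow_le_one₀ hm0.le hS.hm1
  have hζ0 := hS.hζ
  have hζ1 := hS.hζ1
  have hg4 : 1 ≤ g ^ 4 := one_le_pow₀ hg1
  have h100 : 100 * Lam ≤ 1 := by
    have e1 : Lam ≤ Lam * s * g ^ 4 := by
      calc Lam = Lam * 1 * 1 := by ring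
        _ ≤ Lam * s * g ^ 4 := by gcongr
    have e2 : m0 ^ 3 * ζ ^ 2 ≤ 1 := mul_le_one₀ hm3 (by positivity) (pow_le_one₀ hζ0.le (by linarith))
    nlinarith
  -- vectors
  set w₁ : T d L → ℂ := Mo (be false E ε σ) *ᵥ dl 0 with hw₁
  set w₂ : T d L → ℂ := Mo (be true E ε σ) *ᵥ dl 0 with hw₂
  set f : T d L → ℂ := Mo p *ᵥ w₁ with hf
  set f' : T d L → ℂ := Mo p *ᵥ (Mo (be false E ε σ) *ᵥ (Mo q *ᵥ w₂)) with hf'
  have hp2 : ∀ k, ‖p k‖ ^ 2 ≤ 1 := fun k => pow_le_one₀ (norm_nonneg _) (hp k)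
  have hq2 : ∀ k, ‖q k‖ ^ 2 ≤ 1 := fun k => pow_le_one₀ (norm_nonneg _) (hq k)
  have hgG : 0 ≤ g / G := by positivity
  have nf : nsq f ≤ 4 * (g / G) := by
    have e1 := nsq_mo p 1 hp2 w₁
    have e2 := nsq_be hR false hε hσ hm0 hG
    linarith
  have nf' : nsq f' ≤ 16 * g / (G ^ 2 * G) := by
    have e1 := nsq_mo p 1 hp2 (Mo (be false E ε σ) *ᵥ (Mo q *ᵥ w₂))
    have e2 := nsq_mo (be false E ε σ) (1 / G ^ 2) (fun k => be_sq_le hR false hε hGa k)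
      (Mo q *ᵥ w₂)
    have e3 := nsq_mo q 1 hq2 w₂
    have e4 := nsq_be hR true hε hσ hm0 hG
    calc nsq f' ≤ 1 * (1 / G ^ 2 * (1 * (g / G))) := by
          refine e1.trans (mul_le_mul_of_nonneg_left (e2.trans ?_) (by norm_num))
          refine mul_le_mul_of_nonneg_left (e3.trans ?_) (by positivity)
          exact mul_le_mul_of_nonneg_left e4 (by norm_num)
      _ ≤ 16 * (1 * (1 / G ^ 2 * (1 * (g / G)))) := by
          have : 0 ≤ 1 * (1 / G ^ 2 * (1 * (g / G))) := by positivity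
          linarith
      _ = _ := by
        field_simp
  have nf0 : 0 ≤ nsq f := Finset.sum_nonneg fun i _ => by positivity
  have nf0' : 0 ≤ nsq f' := Finset.sum_nonneg fun i _ => by positivity
  -- the functions
  have eW : ∀ V : T d L → ℝ, Wp p E ε σ V = (RE true E ε σ V *ᵥ f) 0 := by
    intro V
    unfold Wp
    refine (col _).trans ?_
    rw [← Matrix.mulVec_mulVec, ← Matrix.mulVec_mulVec]
  have eY : ∀ V : T d L → ℝ, Yp p q E ε σ V = (RE true E ε σ V *ᵥ f') 0 := by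
    intro V
    unfold Yp
    refine (col _).trans ?_
    rw [← Matrix.mulVec_mulVec, ← Matrix.mulVec_mulVec, ← Matrix.mulVec_mulVec,
      ← Matrix.mulVec_mulVec]
  have eZ : ∀ V : T d L → ℝ, Zp p q E ε σ V =
      (RE false E ε σ V *ᵥ (Mo q *ᵥ (RE true E ε σ V *ᵥ f))) 0 := by
    intro V
    unfold Zp
    refine (col _).trans ?_
    rw [← Matrix.mulVec_mulVec, ← Matrix.mulVec_mulVec, ← Matrix.mulVec_mulVec,
      ← Matrix.mulVec_mulVec]
  -- the bounds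
  have hRb2 := fun κ => ((hRb d L σ δ ε t Q g p0 m0 ζ E Ω hP hS hG).1 κ).1
  have hXf := hX d L σ δ ε t Q g p0 E Ω hP h100 hGa hG.h3 hRb2
  obtain ⟨bW, -⟩ := hW d L σ δ ε t Q g p0 E Ω hP h100 hGa hG.h3 hG.h1 f (hXf f) true
  obtain ⟨-, bY⟩ := hW d L σ δ ε t Q g p0 E Ω hP h100 hGa hG.h3 hG.h1 f' (hXf f') true
  have bZ := hZ d L σ δ ε t Q g p0 E Ω hP h100 hGa hG.h3 hG.h1 f (hXf f) q hq
  have bU := hU d L σ δ ε t Q g p0 Ω hP h100 q E hq hG.h1
  have b1 := (h1 d L σ δ ε t Q g p0 Ω hP h100 false E hG.h1).1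
  have b2 := (h1 d L σ δ ε t Q g p0 Ω hP h100 true E hG.h1).1
  -- bounded continuous functions
  have cR1 := bc_RE (d := d) (L := L) hR false E σ hε
  have cR2 := bc_RE (d := d) (L := L) hR true E σ hε
  have cc : ∀ M : Matrix (T d L) (T d L) ℂ, ∀ x y, BC (fun _ : T d L → ℝ => M x y) :=
    fun M x y => BC.const _
  have cW : BC (fun V : T d L → ℝ => (RE true E ε σ V *ᵥ f) 0) :=
    bc_mulVec (A := fun V => RE true E ε σ V) (v := fun _ => f) cR2 (fun x => BC.const _) 0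
  have cY : BC (fun V : T d L → ℝ => (RE true E ε σ V *ᵥ f') 0) :=
    bc_mulVec (A := fun V => RE true E ε σ V) (v := fun _ => f') cR2 (fun x => BC.const _) 0
  have cZ : BC (fun V : T d L → ℝ => (RE false E ε σ V *ᵥ (Mo q *ᵥ (RE true E ε σ V *ᵥ f))) 0) :=
    bc_mulVec (A := fun V => RE false E ε σ V) (v := fun V => Mo q *ᵥ (RE true E ε σ V *ᵥ f)) cR1
      (bc_mulVec (A := fun _ => Mo q) (v := fun V => RE true E ε σ V *ᵥ f) (cc _)
        (bc_mulVec (A := fun V => RE true E ε σ V) (v := fun _ => f) cR2 (fun x => BC.const _))) 0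
  have cU : BC (fun V : T d L → ℝ => Up q E ε σ V) :=
    BC.matmul (A := fun V => RE false E ε σ V * Mo q) (B := fun V => RE true E ε σ V)
      (BC.matmul (A := fun V => RE false E ε σ V) (B := fun _ => Mo q) cR1 (cc _)) cR2 0 0
  have cD1 : BC (fun V : T d L → ℝ => RE false E ε σ V 0 0 - me d L false E ε σ) := by
    simpa only [sub_eq_add_neg] using (cR1 0 0).add (BC.const (-me d L false E ε σ))
  have cD2 : BC (fun V : T d L → ℝ => RE true E ε σ V 0 0 - me d L true E ε σ) := by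
    simpa only [sub_eq_add_neg] using (cR2 0 0).add (BC.const (-me d L true E ε σ))
  -- first term
  have t1 := cs cD2 cY
  -- second term
  have hprob : IsProbabilityMeasure (GP (T d L)) := by
    unfold GP PP
    infer_instance
  set mZ := ∫ W, (RE false E ε σ W *ᵥ (Mo q *ᵥ (RE true E ε σ W *ᵥ f))) 0 ∂(GP (T d L)) with hmZ
  have cZ' : BC (fun V : T d L → ℝ =>
      (RE false E ε σ V *ᵥ (Mo q *ᵥ (RE true E ε σ V *ᵥ f))) 0 - mZ) := by
    simpa only [sub_eq_add_neg] using cZ.add (BC.const (-mZ))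
  have t2 := cs cD1 cZ'
  have t2' : ∫ V, (RE false E ε σ V 0 0 - me d L false E ε σ) *
      ((RE false E ε σ V *ᵥ (Mo q *ᵥ (RE true E ε σ V *ᵥ f))) 0 - mZ) ∂(GP (T d L)) =
      ∫ V, (RE false E ε σ V 0 0 - me d L false E ε σ) *
      (RE false E ε σ V *ᵥ (Mo q *ᵥ (RE true E ε σ V *ᵥ f))) 0 ∂(GP (T d L)) := by
    have e0 : ∫ V, (RE false E ε σ V 0 0 - me d L false E ε σ) ∂(GP (T d L)) = 0 := by
      rw [integral_sub (cR1 0 0).integrable (integrable_const _), integral_const, probReal_univ,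
        one_smul]
      exact sub_self _
    have e1 : ∀ V : T d L → ℝ, (RE false E ε σ V 0 0 - me d L false E ε σ) *
      ((RE false E ε σ V *ᵥ (Mo q *ᵥ (RE true E ε σ V *ᵥ f))) 0 - mZ) =
      (RE false E ε σ V 0 0 - me d L false E ε σ) *
      (RE false E ε σ V *ᵥ (Mo q *ᵥ (RE true E ε σ V *ᵥ f))) 0 -
      (RE false E ε σ V 0 0 - me d L false E ε σ) * mZ := fun V => by ring
    simp only [e1]
    rw [integral_sub (cD1.mul cZ).integrable (cD1.mul (BC.const mZ)).integrable,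
      integral_mul_const, e0, zero_mul, sub_zero]
  rw [t2'] at t2
  -- third term
  set mU := ∫ W, Up q E ε σ W ∂(GP (T d L)) with hmU
  set mW := ∫ W, (RE true E ε σ W *ᵥ f) 0 ∂(GP (T d L)) with hmW
  have cU' : BC (fun V : T d L → ℝ => Up q E ε σ V - mU) := by
    simpa only [sub_eq_add_neg] using cU.add (BC.const (-mU))
  have cW' : BC (fun V : T d L → ℝ => (RE true E ε σ V *ᵥ f) 0 - mW) := by
    simpa only [sub_eq_add_neg] using cW.add (BC.const (-mW))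
  have t3 := cs cU' cW'
  have t3' : ∫ V, (Up q E ε σ V - mU) * ((RE true E ε σ V *ᵥ f) 0 - mW) ∂(GP (T d L)) =
      (∫ V, Up q E ε σ V * (RE true E ε σ V *ᵥ f) 0 ∂(GP (T d L))) - mU * mW := by
    have e1 : ∀ V : T d L → ℝ, (Up q E ε σ V - mU) * ((RE true E ε σ V *ᵥ f) 0 - mW) =
      (Up q E ε σ V * (RE true E ε σ V *ᵥ f) 0 - mU * (RE true E ε σ V *ᵥ f) 0) -
      (Up q E ε σ V - mU) * mW := fun V => by ring
    have i1 : Integrable (fun V : T d L → ℝ => Up q E ε σ V * (RE true E ε σ V *ᵥ f) 0)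
      (GP (T d L)) := (cU.mul cW).integrable
    have i2 : Integrable (fun V : T d L → ℝ => mU * (RE true E ε σ V *ᵥ f) 0) (GP (T d L)) :=
      ((BC.const mU).mul cW).integrable
    have i3 : Integrable (fun V : T d L → ℝ => (Up q E ε σ V - mU) * mW) (GP (T d L)) :=
      (cU'.mul (BC.const mW)).integrable
    have i12 : Integrable (fun V : T d L → ℝ => Up q E ε σ V * (RE true E ε σ V *ᵥ f) 0 -
      mU * (RE true E ε σ V *ᵥ f) 0) (GP (T d L)) := i1.sub i2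
    have e0 : ∫ V : T d L → ℝ, (Up q E ε σ V - mU) ∂(GP (T d L)) = 0 := by
      rw [integral_sub cU.integrable (integrable_const _), integral_const, probReal_univ,
        one_smul, ← hmU, sub_self]
    simp only [e1]
    rw [integral_sub i12 i3, integral_sub i1 i2, integral_mul_const, integral_const_mul, e0,
      zero_mul, sub_zero, ← hmW]
  rw [t3'] at t3
  have emW : ∫ V, Wp p E ε σ V ∂(GP (T d L)) = mW := by
    rw [hmW]
    exact integral_congr_ae (Filter.Eventually.of_forall fun V => eW V)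
  -- the equation
  have hsd := hSD d L p q E ε σ hε
  simp only [eW, eY, eZ] at hsd
  set A₁ := ∫ V, (RE true E ε σ V 0 0 - me d L true E ε σ) * (RE true E ε σ V *ᵥ f') 0 ∂(GP (T d L))
    with hA₁
  set A₂ := ∫ V, (RE false E ε σ V 0 0 - me d L false E ε σ) *
      (RE false E ε σ V *ᵥ (Mo q *ᵥ (RE true E ε σ V *ᵥ f))) 0 ∂(GP (T d L)) with hA₂
  set A₃' := ∫ V, Up q E ε σ V * (RE true E ε σ V *ᵥ f) 0 ∂(GP (T d L)) with hA₃'
  set A₃ := A₃' - mU * mW with hA₃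
  rw [hsd, emW]
  have e5 : tp p q E ε σ + (σ : ℂ) ^ 2 * A₁ + (σ : ℂ) ^ 2 * A₂ + (σ : ℂ) ^ 2 * A₃' -
      (tp p q E ε σ + (σ : ℂ) ^ 2 * (mU * mW)) = (σ : ℂ) ^ 2 * (A₁ + A₂ + A₃) := by
    rw [hA₃]
    ring
  rw [e5, norm_mul, norm_pow, Complex.norm_real, Real.norm_eq_abs, abs_of_pos hσ]
  -- numerical bounds
  set u : ℝ := m0 * σ ^ 2 with hu
  have hu0 : 0 < u := by positivity
  have hX7 : 10 ^ 7 * (Lam * s * g ^ 4) ≤ m0 ^ 3 * ζ ^ 2 := by linarith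
  have hg0 : 0 ≤ g := by linarith
  have hs0 : 0 ≤ s := by linarith
  have hm4 : m0 ^ 4 ≤ 1 := pow_le_one₀ hm0.le hS.hm1
  -- A₁
  have q1 : (σ ^ 4 * ‖A₁‖) ^ 2 ≤ (7 / 100 * ζ) ^ 2 := by
    have e1 : ‖A₁‖ ^ 2 ≤ (1000 * Lam * g ^ 2) * (3 * g / ε * (16 * g / (u ^ 2 * u))) := by
      refine t1.trans ?_
      refine mul_le_mul b2 (bY.trans ?_) (integral_nonneg fun V => by positivity) (by positivity)
      refine mul_le_mul_of_nonneg_left (nf'.trans ?_) (by positivity)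
      have := hG.h2
      gcongr
    have e2 : (σ ^ 4) ^ 2 * ((1000 * Lam * g ^ 2) * (3 * g / ε * (16 * g / (u ^ 2 * u)))) =
        48000 * (Lam * s * g ^ 4) / m0 ^ 3 := by
      rw [hu, hs]
      field_simp
      ring
    have e3 : 48000 * (Lam * s * g ^ 4) / m0 ^ 3 ≤ (7 / 100 * ζ) ^ 2 := by
      rw [div_le_iff₀ (by positivity)]
      nlinarith [mul_pos (pow_pos hm0 3) (pow_pos hζ0 2)]
    rw [mul_pow]
    calc (σ ^ 4) ^ 2 * ‖A₁‖ ^ 2 ≤ (σ ^ 4) ^ 2 *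
          ((1000 * Lam * g ^ 2) * (3 * g / ε * (16 * g / (u ^ 2 * u)))) :=
        mul_le_mul_of_nonneg_left e1 (by positivity)
      _ ≤ _ := by rw [e2]; exact e3
  have hXX : (Lam * s) ^ 2 * g ^ 4 ≤ (m0 ^ 3 * ζ ^ 2 / 10 ^ 7) ^ 2 := by
    have e1 : Lam * s * g ^ 4 ≤ m0 ^ 3 * ζ ^ 2 / 10 ^ 7 := by
      rw [le_div_iff₀ (by norm_num)]
      linarith
    calc (Lam * s) ^ 2 * g ^ 4 ≤ (Lam * s) ^ 2 * (g ^ 4 * g ^ 4) := by
          refine mul_le_mul_of_nonneg_left ?_ (by positivity)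
          nlinarith
      _ = (Lam * s * g ^ 4) ^ 2 := by ring
      _ ≤ _ := pow_le_pow_left₀ (by positivity) e1 2
  have hζ4 : m0 ^ 4 * ζ ^ 4 ≤ ζ ^ 2 / 16 := by
    have e1 : ζ ^ 2 ≤ 1 / 16 := by nlinarith
    have e2 : ζ ^ 4 = ζ ^ 2 * ζ ^ 2 := by ring
    have e3 : 0 ≤ ζ ^ 2 := by positivity
    calc m0 ^ 4 * ζ ^ 4 ≤ 1 * ζ ^ 4 := mul_le_mul_of_nonneg_right hm4 (by positivity)
      _ ≤ _ := by rw [e2]; nlinarith
  -- A₂
  have q2 : (σ ^ 4 * ‖A₂‖) ^ 2 ≤ (1 / 100 * ζ) ^ 2 := by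
    have e1 : ‖A₂‖ ^ 2 ≤ (1000 * Lam * g ^ 2) *
        (10 ^ 5 * Lam * g * (4 * (g / u)) / (ε ^ 2 * u)) := by
      refine t2.trans ?_
      refine mul_le_mul b1 (bZ.trans ?_) (integral_nonneg fun V => by positivity) (by positivity)
      have := hG.h2
      have : nsq f ≤ 4 * (g / u) := nf.trans (by gcongr)
      gcongr
    have e2 : (σ ^ 4) ^ 2 * ((1000 * Lam * g ^ 2) *
        (10 ^ 5 * Lam * g * (4 * (g / u)) / (ε ^ 2 * u))) =
        4 * 10 ^ 8 * ((Lam * s) ^ 2 * g ^ 4) / m0 ^ 2 := by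
      rw [hu, hs]
      field_simp
      ring
    have e3 : 4 * 10 ^ 8 * ((Lam * s) ^ 2 * g ^ 4) / m0 ^ 2 ≤ (1 / 100 * ζ) ^ 2 := by
      calc 4 * 10 ^ 8 * ((Lam * s) ^ 2 * g ^ 4) / m0 ^ 2
          ≤ 4 * 10 ^ 8 * (m0 ^ 3 * ζ ^ 2 / 10 ^ 7) ^ 2 / m0 ^ 2 := by gcongr
        _ = 4 / 10 ^ 6 * (m0 ^ 4 * ζ ^ 4) := by
          field_simp
        _ ≤ _ := by nlinarith [sq_nonneg ζ]
    rw [mul_pow]
    calc (σ ^ 4) ^ 2 * ‖A₂‖ ^ 2 ≤ (σ ^ 4) ^ 2 * ((1000 * Lam * g ^ 2) *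
        (10 ^ 5 * Lam * g * (4 * (g / u)) / (ε ^ 2 * u))) :=
        mul_le_mul_of_nonneg_left e1 (by positivity)
      _ ≤ _ := by rw [e2]; exact e3
  -- A₃
  have q3 : (σ ^ 4 * ‖A₃‖) ^ 2 ≤ (1 / 100 * ζ) ^ 2 := by
    have e1 : ‖A₃‖ ^ 2 ≤ (10000 * Lam * g ^ 2 / ε ^ 2) *
        (2000 * Lam * g * (4 * (g / u)) / u) := by
      refine t3.trans ?_
      refine mul_le_mul bU (bW.trans ?_) (integral_nonneg fun V => by positivity) (by positivity)
      have := hG.h2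
      have : nsq f ≤ 4 * (g / u) := nf.trans (by gcongr)
      gcongr
    have e2 : (σ ^ 4) ^ 2 * ((10000 * Lam * g ^ 2 / ε ^ 2) *
        (2000 * Lam * g * (4 * (g / u)) / u)) =
        8 * 10 ^ 7 * ((Lam * s) ^ 2 * g ^ 4) / m0 ^ 2 := by
      rw [hu, hs]
      field_simp
      ring
    have e3 : 8 * 10 ^ 7 * ((Lam * s) ^ 2 * g ^ 4) / m0 ^ 2 ≤ (1 / 100 * ζ) ^ 2 := by
      calc 8 * 10 ^ 7 * ((Lam * s) ^ 2 * g ^ 4) / m0 ^ 2
          ≤ 8 * 10 ^ 7 * (m0 ^ 3 * ζ ^ 2 / 10 ^ 7) ^ 2 / m0 ^ 2 := by gcongr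
        _ = 8 / 10 ^ 7 * (m0 ^ 4 * ζ ^ 4) := by
          field_simp
        _ ≤ _ := by nlinarith [sq_nonneg ζ]
    rw [mul_pow]
    calc (σ ^ 4) ^ 2 * ‖A₃‖ ^ 2 ≤ (σ ^ 4) ^ 2 * ((10000 * Lam * g ^ 2 / ε ^ 2) *
        (2000 * Lam * g * (4 * (g / u)) / u)) :=
        mul_le_mul_of_nonneg_left e1 (by positivity)
      _ ≤ _ := by rw [e2]; exact e3
  have r1 := (pow_le_pow_iff_left₀ (by positivity) (by positivity) two_ne_zero).1 q1
  have r2 := (pow_le_pow_iff_left₀ (by positivity) (by positivity) two_ne_zero).1 q2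
  have r3 := (pow_le_pow_iff_left₀ (by positivity) (by positivity) two_ne_zero).1 q3
  rw [le_div_iff₀ (by positivity)]
  have r4 : ‖A₁ + A₂ + A₃‖ ≤ ‖A₁‖ + ‖A₂‖ + ‖A₃‖ := by
    refine (norm_add_le _ _).trans ?_
    have := norm_add_le A₁ A₂
    linarith
  calc σ ^ 2 * ‖A₁ + A₂ + A₃‖ * σ ^ 2 = σ ^ 4 * ‖A₁ + A₂ + A₃‖ := by ring
    _ ≤ σ ^ 4 * (‖A₁‖ + ‖A₂‖ + ‖A₃‖) := mul_le_mul_of_nonneg_left r4 (by positivity)
    _ = σ ^ 4 * ‖A₁‖ + σ ^ 4 * ‖A₂‖ + σ ^ 4 * ‖A₃‖ := by ring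
    _ ≤ ζ := by linarith

end Pool.Agent.T2h98.PS
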