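import Pool.Agent.T2h98.PS.Stm
import Pool.Agent.T2h98.KU.ZH
import Pool.Agent.T2h98.QD.MoA

/-! Products of two resolvents with a Fourier multiplier: bounds of the derivative (helper69; adapted
from `KU/PoH.lean`, `KU/ZH.lean` of helper38). -/

set_option autoImplicit false
set_option linter.all false

open scoped BigOperators Matrix Topology
open MeasureTheory ProbabilityTheory Filter

namespace Pool.Agent.T2h98.PS.ZP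

open Pool.Agent.W788.MFP.Four (T e NN adj K)
open Pool.Agent.W788.BK (nsq hs PP JJ hi Low cr nsq_nonneg cs_star)
open Pool.Agent.W240.BK (BC BM cs_int)
open Pool.Agent.T2h98.QD
open Pool.Agent.T2h98.AC (TX RX mX sy Rb Fk)
open Pool.Agent.T2h98.AC.CovH
open Pool.Agent.T2h98.KU
open Pool.Agent.T2h98.KU.PoH

variable {d L : ℕ} [NeZero L]

/-- the reflected symbol -/
def ng (q : T d L → ℂ) (k : T d L) : ℂ := q (-k)

theorem mo_tr (q : T d L → ℂ) : (Mo q)ᵀ = Mo (ng q) := by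
  ext x y
  rw [Matrix.transpose_apply]
  unfold Mo
  rw [Matrix.of_apply, Matrix.of_apply]
  congr 1
  rw [← Equiv.sum_comp (Equiv.neg (T d L))]
  refine Finset.sum_congr rfl fun k _ => ?_
  rw [Equiv.neg_apply]
  show q (-k) * e (-k) (x - y) = q (-k) * e k (y - x)
  congr 1
  unfold e
  congr 1
  refine Finset.sum_congr rfl fun i _ => ?_
  simp only [Pi.neg_apply, Pi.sub_apply]
  ring

theorem nsq_q {q : T d L → ℂ} (hq : ∀ k, ‖q k‖ ≤ 1) (w : T d L → ℂ) : nsq (Mo q *ᵥ w) ≤ nsq w := by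
  have h := nsq_mo q 1 (fun k => pow_le_one₀ (norm_nonneg _) (hq k)) w
  rwa [one_mul] at h

theorem anti (hR : T_KR) {ε : ℝ} (hε : 0 < ε) (b : Bool) (E₁ E₂ σ : ℝ) (q : T d L → ℂ)
    (V : T d L → ℝ) (x y : T d L) :
    (RE false E₁ ε σ V *ᵥ (Mo q *ᵥ (RE b E₂ ε σ V *ᵥ dl y))) x =
      (RE b E₂ ε σ V *ᵥ (Mo (ng q) *ᵥ (RE false E₁ ε σ V *ᵥ dl x))) y := by
  have t1 := (hR d L false E₁ ε σ hε).2.2.1 V
  have t2 := (hR d L b E₂ ε σ hε).2.2.1 V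
  have t3 := mo_tr q
  rw [Matrix.mulVec_mulVec, Matrix.mulVec_mulVec, Matrix.mulVec_mulVec, Matrix.mulVec_mulVec,
    entry, entry]
  have h1 : ((RE false E₁ ε σ V * (Mo q * RE b E₂ ε σ V) : Matrix (T d L) (T d L) ℂ))ᵀ =
      (RE b E₂ ε σ V * (Mo (ng q) * RE false E₁ ε σ V)) := by
    rw [Matrix.transpose_mul, Matrix.transpose_mul, t1, t2, t3,
      Matrix.mul_assoc]
  have h2 := congrFun (congrFun h1 y) x
  rw [Matrix.transpose_apply, ← Matrix.mul_assoc, ← Matrix.mul_assoc] at h2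
  exact h2

/-- the derivative of `(R₁ q P f) 0` -/
noncomputable def DZ (b : Bool) (E₁ E₂ ε σ : ℝ) (q : T d L → ℂ) (f : T d L → ℂ) (y : T d L)
    (V : T d L → ℝ) : ℂ :=
  -((σ : ℂ) * ((RE false E₁ ε σ V *ᵥ dl 0) y *
        (RE false E₁ ε σ V *ᵥ (Mo q *ᵥ (RE b E₂ ε σ V *ᵥ f))) y +
        (RE b E₂ ε σ V *ᵥ (Mo (ng q) *ᵥ (RE false E₁ ε σ V *ᵥ dl 0))) y *
          (RE b E₂ ε σ V *ᵥ f) y))

theorem gdZ (hR : T_KR) {ε : ℝ} (hε : 0 < ε) (b : Bool) (E₁ E₂ σ : ℝ) (q : T d L → ℂ)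
    (f : T d L → ℂ) :
    GD (fun V : T d L → ℝ => (RE false E₁ ε σ V *ᵥ (Mo q *ᵥ (RE b E₂ ε σ V *ᵥ f))) 0)
      (DZ b E₁ E₂ ε σ q f) := by
  have h1 := ((md (d := d) (L := L) hR hε false E₁ σ).mul (MD.const (Mo q))).mul
    (md (d := d) (L := L) hR hε b E₂ σ)
  have h2 := h1.vec f 0
  simp only [Matrix.mul_assoc, ← Matrix.mulVec_mulVec, Matrix.add_mulVec, Matrix.mul_zero,
    add_zero] at h2
  refine h2.congr' fun y V => ?_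
  unfold DZ
  rw [Pi.add_apply, dm_vec, dm_vec, smul_vec, smul_vec, Pi.smul_apply, Pi.smul_apply,
    smul_eq_mul, smul_eq_mul, anti hR hε]
  have t1 := (hR d L false E₁ ε σ hε).2.2.1 V
  have h3 : (RE false E₁ ε σ V *ᵥ dl y) 0 = (RE false E₁ ε σ V *ᵥ dl 0) y := by
    rw [entry, entry]
    have h4 := congrFun (congrFun t1 y) 0
    rw [Matrix.transpose_apply] at h4
    exact h4
  rw [h3]
  ring

/-- norm of the derivative -/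
theorem sumD (σ : ℝ) (a b p q : T d L → ℂ) :
    ∑ y, ‖-((σ : ℂ) * (a y * b y + p y * q y))‖ ^ 2 ≤
      2 * σ ^ 2 * (∑ y, ‖a y‖ ^ 2 * ‖b y‖ ^ 2 + ∑ y, ‖p y‖ ^ 2 * ‖q y‖ ^ 2) := by
  have h := Pool.Agent.T2h98.KU.PoH.sumD σ a b (fun y => -p y) q
  simpa only [neg_mul, sub_neg_eq_add, norm_neg] using h

theorem good (hR : T_KR) (hQ : T_KQ2) {σ δ ε t Q g p0 : ℝ} {Ω : Set (T d L → ℝ)}
    (hp : ParK d L σ δ ε t Q g p0 Ω) (b : Bool) {q : T d L → ℂ} (hq : ∀ k, ‖q k‖ ≤ 1) (E₁ E₂ : ℝ)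
    (f : T d L → ℂ)
    {V : T d L → ℝ} (hVΩ : V ∈ Ω) {z : ℝ}
    (hz : qf (J0 E₂ δ) (RE b E₂ ε σ V *ᵥ f) ≤ 4 * (δ / ε) * z) (hz0 : 0 ≤ z) :
    ∑ y, ‖DZ b E₁ E₂ ε σ q f y V‖ ^ 2 ≤ 64 * (σ ^ 2 * Q * (δ / ε) ^ 2) / ε ^ 2 *
      ((g + (RE false E₁ ε σ V 0 0).im) * (star f ⬝ᵥ (RE false E₂ ε σ V *ᵥ f)).im +
        (RE false E₁ ε σ V 0 0).im * z) := by
  have hε := hp.hε
  have hεδ : ε ≤ δ := hp.hεσ.trans hp.hσδ
  have hδ : 0 < δ := hε.trans_le hεδ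
  have hQ0 : 0 ≤ Q := by linarith [hp.hQ1]
  have hg0 : 0 ≤ g := by linarith [hp.hg1]
  have hx0 := im_nonneg hR hε E₂ σ V f
  have hr0 : 0 ≤ (RE false E₁ ε σ V 0 0).im := by
    rw [← im_dl]
    exact im_nonneg hR hε E₁ σ V _
  have hq' : ∀ k, ‖ng q k‖ ≤ 1 := fun k => hq (-k)
  have n1 : nsq (RE b E₂ ε σ V *ᵥ f) = (star f ⬝ᵥ (RE false E₂ ε σ V *ᵥ f)).im / ε := by
    rw [← (hR d L b E₂ ε σ hε).2.2.2.1 V f]
    field_simp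
  have n2 : nsq (RE false E₁ ε σ V *ᵥ dl 0) = (RE false E₁ ε σ V 0 0).im / ε := by
    rw [← im_dl, ← (hR d L false E₁ ε σ hε).2.2.2.1 V (dl 0)]
    field_simp
  generalize hxx : (star f ⬝ᵥ (RE false E₂ ε σ V *ᵥ f)).im = x at *
  generalize hrr : (RE false E₁ ε σ V 0 0).im = r at *
  have q1 := (hQ d L σ δ ε t Q g p0 Ω hp V hVΩ false E₁ (dl 0)).2.2
  rw [hrr] at q1
  have q2 := (hQ d L σ δ ε t Q g p0 Ω hp V hVΩ false E₁ (Mo q *ᵥ (RE b E₂ ε σ V *ᵥ f))).2.1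
  have q3 := (hQ d L σ δ ε t Q g p0 Ω hp V hVΩ b E₂ (Mo (ng q) *ᵥ (RE false E₁ ε σ V *ᵥ dl 0))).2.1
  have v1 := nsq_q hq (RE b E₂ ε σ V *ᵥ f)
  have v2 := nsq_q hq' (RE false E₁ ε σ V *ᵥ dl 0)
  rw [n1] at v1
  rw [n2] at v2
  have q2' : qf (J0 E₁ δ) (RE false E₁ ε σ V *ᵥ (Mo q *ᵥ (RE b E₂ ε σ V *ᵥ f))) ≤
      8 * (δ / ε ^ 2) * (x / ε) :=
    q2.trans (mul_le_mul_of_nonneg_left v1 (by positivity : 0 ≤ 8 * (δ / ε ^ 2)))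
  have q3' : qf (J0 E₂ δ) (RE b E₂ ε σ V *ᵥ (Mo (ng q) *ᵥ (RE false E₁ ε σ V *ᵥ dl 0))) ≤
      8 * (δ / ε ^ 2) * (r / ε) :=
    q3.trans (mul_le_mul_of_nonneg_left v2 (by positivity : 0 ≤ 8 * (δ / ε ^ 2)))
  have s1 := hp.hQ E₁ (RE false E₁ ε σ V *ᵥ dl 0)
    (RE false E₁ ε σ V *ᵥ (Mo q *ᵥ (RE b E₂ ε σ V *ᵥ f)))
  have s2 := hp.hQ E₂ (RE b E₂ ε σ V *ᵥ (Mo (ng q) *ᵥ (RE false E₁ ε σ V *ᵥ dl 0)))
    (RE b E₂ ε σ V *ᵥ f)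
  have m1 := mul_le_mul q1 q2' (EMBS.qf0_nonneg (E := E₁) hδ _) (by positivity)
  have m2 := mul_le_mul q3' hz (EMBS.qf0_nonneg (E := E₂) hδ _) (by positivity)
  have t1 := s1.trans (mul_le_mul_of_nonneg_left m1 hQ0)
  have t2 := s2.trans (mul_le_mul_of_nonneg_left m2 hQ0)
  unfold DZ
  refine (sumD σ _ _ _ _).trans ?_
  refine (mul_le_mul_of_nonneg_left (add_le_add t1 t2) (by positivity : 0 ≤ 2 * σ ^ 2)).trans
    (le_of_eq ?_)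
  field_simp
  ring

theorem allV (hR : T_KR) {σ ε : ℝ} (hε : 0 < ε) (b : Bool) {q : T d L → ℂ}
    (hq : ∀ k, ‖q k‖ ≤ 1) (E₁ E₂ : ℝ) (f : T d L → ℂ) (V : T d L → ℝ) :
    ∑ y, ‖DZ b E₁ E₂ ε σ q f y V‖ ^ 2 ≤ 4 * σ ^ 2 * nsq f / ε ^ 6 := by
  have hq' : ∀ k, ‖ng q k‖ ≤ 1 := fun k => hq (-k)
  have n1 := (hR d L b E₂ ε σ hε).2.2.2.2.1 V f
  have n2 := (hR d L false E₁ ε σ hε).2.2.2.2.1 V (dl 0)
  rw [nsq_dl] at n2
  have v1 := nsq_q hq (RE b E₂ ε σ V *ᵥ f)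
  have v2 := nsq_q hq' (RE false E₁ ε σ V *ᵥ dl 0)
  have n3 := (hR d L false E₁ ε σ hε).2.2.2.2.1 V (Mo q *ᵥ (RE b E₂ ε σ V *ᵥ f))
  have n4 := (hR d L b E₂ ε σ hε).2.2.2.2.1 V (Mo (ng q) *ᵥ (RE false E₁ ε σ V *ᵥ dl 0))
  have hN := nsq_nonneg f
  have k3 : nsq (RE false E₁ ε σ V *ᵥ (Mo q *ᵥ (RE b E₂ ε σ V *ᵥ f))) ≤ (nsq f / ε ^ 2) / ε ^ 2 := by
    refine n3.trans (div_le_div_of_nonneg_right ?_ (by positivity))
    linarith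
  have k4 : nsq (RE b E₂ ε σ V *ᵥ (Mo (ng q) *ᵥ (RE false E₁ ε σ V *ᵥ dl 0))) ≤
      (1 / ε ^ 2) / ε ^ 2 := by
    refine n4.trans (div_le_div_of_nonneg_right ?_ (by positivity))
    linarith
  unfold DZ
  refine (sumD σ _ _ _ _).trans ?_
  have m1 := mul_le_mul n2 k3 (nsq_nonneg _) (by positivity)
  have m2 := mul_le_mul k4 n1 (nsq_nonneg _) (by positivity)
  refine (mul_le_mul_of_nonneg_left (add_le_add ((sum_le_nsq _ _).trans m1)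
    ((sum_le_nsq _ _).trans m2)) (by positivity : 0 ≤ 2 * σ ^ 2)).trans (le_of_eq ?_)
  field_simp
  ring

/-- comparison of `σ²` with the small parameter -/
theorem lam {σ δ ε t Q g p0 : ℝ} {Ω : Set (T d L → ℝ)} (hp : ParK d L σ δ ε t Q g p0 Ω) :
    σ ^ 2 ≤ σ ^ 2 * Q * (δ / ε) ^ 2 := Pool.Agent.T2h98.KU.ZH.lam hp

end Pool.Agent.T2h98.PS.ZP
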