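import Pool.Agent.T2h98.KU.Stm
import Pool.Agent.T2h98.QD.QEF

/-! Quantum ergodicity in phase space on tori: definitions and statements of the parts. -/

set_option autoImplicit false
set_option linter.unusedSectionVars false

open scoped BigOperators Matrix Topology
open MeasureTheory ProbabilityTheory Filter

namespace Pool.Agent.T2h98.PS

open Pool.Agent.W788.MFP.Four (T e NN adj K)
open Pool.Agent.W788.BK (nsq hs PP JJ hi Low cr)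
open Pool.Agent.T2h98.QD
open Pool.Agent.T2h98.AC (TX RX mX sy Rb Fk)
open Pool.Agent.T2h98.KU

section

variable {d L : ℕ} [NeZero L]

/-- two resolvents at a site -/
noncomputable def Up (q : T d L → ℂ) (E ε σ : ℝ) (V : T d L → ℝ) : ℂ :=
  (RE false E ε σ V * Mo q * RE true E ε σ V : Matrix (T d L) (T d L) ℂ) 0 0

/-- one resolvent and the mean field resolvent -/
noncomputable def Wp (p : T d L → ℂ) (E ε σ : ℝ) (V : T d L → ℝ) : ℂ :=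
  (RE true E ε σ V * Mo p * Mo (be false E ε σ) : Matrix (T d L) (T d L) ℂ) 0 0

/-- one resolvent and two mean field resolvents -/
noncomputable def Yp (p q : T d L → ℂ) (E ε σ : ℝ) (V : T d L → ℝ) : ℂ :=
  (RE true E ε σ V * Mo p * Mo (be false E ε σ) * Mo q * Mo (be true E ε σ) :
    Matrix (T d L) (T d L) ℂ) 0 0

/-- two resolvents and the mean field resolvent -/
noncomputable def Zp (p q : T d L → ℂ) (E ε σ : ℝ) (V : T d L → ℝ) : ℂ :=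
  (RE false E ε σ V * Mo q * RE true E ε σ V * Mo p * Mo (be false E ε σ) :
    Matrix (T d L) (T d L) ℂ) 0 0

/-- the mean field value -/
noncomputable def tp (p q : T d L → ℂ) (E ε σ : ℝ) : ℂ :=
  ((NN d L : ℝ) : ℂ)⁻¹ * ∑ k : T d L, p k * q k * be false E ε σ k * be true E ε σ k

/-- `p R q R^*` per volume, before taking the mean -/
noncomputable def Tp (p q : T d L → ℂ) (E ε σ : ℝ) (V : T d L → ℝ) : ℂ :=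
  ((NN d L : ℝ) : ℂ)⁻¹ * (Mo p * RE false E ε σ V * Mo q * RE true E ε σ V).trace

/-- `q Im R` per volume, before taking the mean -/
noncomputable def Iv (q : T d L → ℂ) (E ε σ : ℝ) (V : T d L → ℝ) : ℂ :=
  ((NN d L : ℝ) : ℂ)⁻¹ * (Mo q * IR E ε σ V).trace

/-- `Im R` per volume -/
noncomputable def DS (E ε σ : ℝ) (V : T d L → ℝ) : ℝ :=
  (((NN d L : ℝ) : ℂ)⁻¹ * (IR E ε σ V).trace).re

/-- the symbol of the shift `u ↦ u(· + m)` -/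
noncomputable def chm (m : Fin d → ℤ) (k : T d L) : ℂ := e k fun i => -((m i : ℤ) : ZMod L)

/-- its even part -/
noncomputable def cqm (m : Fin d → ℤ) (k : T d L) : ℝ :=
  ∏ i, (ZMod.stdAddChar (((m i : ℤ) : ZMod L) * k i) : ℂ).re

/-- orthonormal basis of eigenvectors -/
def EB (σ : ℝ) (V : T d L → ℝ) (u : T d L → T d L → ℂ) (w : T d L → ℝ) : Prop :=
  (∀ j, HT σ V *ᵥ u j = (w j : ℂ) • u j) ∧ ∀ j k, star (u j) ⬝ᵥ u k = if j = k then 1 else 0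

/-- the integrand of the variance -/
noncomputable def Ph (m : Fin d → ℤ) (c : ℝ → ℝ) (ε σ : ℝ) (V : T d L → ℝ) (E : ℝ) : ℝ :=
  ε * (Tp (fun k => star (chm m k)) (chm m) E ε σ V).re - 2 * c E * (Iv (chm m) E ε σ V).re +
    c E ^ 2 * DS E ε σ V

/-- `⟨u_j, T u_l⟩ 2ε / (2ε - i (E_j - E_l)) - c(E_j) δ_{jl}` -/
noncomputable def Xm (m : Fin d → ℤ) (c : ℝ → ℝ) (ε : ℝ) (u : T d L → T d L → ℂ) (w : T d L → ℝ)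
    (j l : T d L) : ℂ :=
  (star (u j) ⬝ᵥ (Mo (chm m) *ᵥ u l)) *
    (((2 * ε : ℝ) : ℂ) / (((2 * ε : ℝ) : ℂ) - ((w j - w l : ℝ) : ℂ) * Complex.I)) -
    if j = l then (c (w j) : ℂ) else 0

end

/-- the mean of `cos (n k) exp(2 i s cos k)` -/
noncomputable def jm (n : ℤ) (s : ℝ) : ℂ := ((2 * Real.pi : ℝ) : ℂ)⁻¹ *
  ∫ k in (-Real.pi)..Real.pi, ((Real.cos (n * k) : ℝ) : ℂ) *
    Complex.exp (((2 * s * Real.cos k : ℝ) : ℂ) * Complex.I)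

/-- the boundary values of the Cauchy transform with the weight `∏ cos (m_i k_i)` -/
noncomputable def cm (d : ℕ) (m : Fin d → ℤ) (E : ℝ) : ℂ := Complex.I *
  ∫ s in Set.Ioi (0 : ℝ), Complex.exp (((E * s : ℝ) : ℂ) * Complex.I) * ∏ i, jm (m i) (-s)

/-- the density with the weight `∏ cos (m_i k_i)` -/
noncomputable def wm (d : ℕ) (m : Fin d → ℤ) (E : ℝ) : ℝ := (cm d m E).im / Real.pi

/-- the microcanonical mean, cut off -/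
noncomputable def cf (d : ℕ) (m : Fin d → ℤ) (c0 E : ℝ) : ℝ := wm d m E / max (dn d E) c0

/-- the Lorentz function of the energy of the momentum `2 π k` -/
noncomputable def lz (d : ℕ) (E Γ : ℝ) (k : Fin d → ℝ) : ℝ :=
  Γ / ((∑ i, 2 * Real.cos (2 * Real.pi * k i) - E) ^ 2 + Γ ^ 2)

/-- the smoothed microcanonical mean of `exp(i m k)` -/
noncomputable def mia (d : ℕ) (m : Fin d → ℤ) (E Γ : ℝ) : ℂ :=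
  (∫ k in Set.Icc (0 : Fin d → ℝ) 1, Complex.exp ((2 * Real.pi * ∑ i, (m i : ℝ) * k i : ℝ) *
    Complex.I) * ((lz d E Γ k : ℝ) : ℂ)) / ∫ k in Set.Icc (0 : Fin d → ℝ) 1, ((lz d E Γ k : ℝ) : ℂ)

/-! ## A. The product of two resolvents -/

/-- the Schwinger-Dyson equation -/
def T_PSD : Prop := ∀ (d L : ℕ) [NeZero L] (p q : T d L → ℂ) (E ε σ : ℝ), 0 < ε →
  ∫ V, Tp p q E ε σ V ∂(GP (T d L)) = tp p q E ε σ +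
    (σ : ℂ) ^ 2 * (∫ V, (RE true E ε σ V 0 0 - me d L true E ε σ) * Yp p q E ε σ V
      ∂(GP (T d L))) +
    (σ : ℂ) ^ 2 * (∫ V, (RE false E ε σ V 0 0 - me d L false E ε σ) * Zp p q E ε σ V
      ∂(GP (T d L))) +
    (σ : ℂ) ^ 2 * (∫ V, Up q E ε σ V * Wp p E ε σ V ∂(GP (T d L)))

/-- two resolvents at a site: variance -/
def T_PU : Prop := ∀ (d L : ℕ) [NeZero L] (σ δ ε t Q g p0 : ℝ) (Ω : Set (T d L → ℝ)),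
  ParK d L σ δ ε t Q g p0 Ω → 100 * (σ ^ 2 * Q * (δ / ε) ^ 2) ≤ 1 → ∀ (q : T d L → ℂ) (E : ℝ),
  (∀ k, ‖q k‖ ≤ 1) → ‖me d L false E ε σ‖ ≤ 2 * g →
  ∫ V, ‖Up q E ε σ V - ∫ W, Up q E ε σ W ∂(GP (T d L))‖ ^ 2 ∂(GP (T d L)) ≤
    10000 * (σ ^ 2 * Q * (δ / ε) ^ 2) * g ^ 2 / ε ^ 2

/-- two resolvents applied to a vector: variance -/
def T_PZ : Prop := ∀ (d L : ℕ) [NeZero L] (σ δ ε t Q g p0 E : ℝ) (Ω : Set (T d L → ℝ)),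
  ParK d L σ δ ε t Q g p0 Ω → 100 * (σ ^ 2 * Q * (δ / ε) ^ 2) ≤ 1 → 0 < Ga d L E ε σ →
  Ga d L E ε σ ≤ δ → ‖me d L false E ε σ‖ ≤ 2 * g → ∀ f : T d L → ℂ,
  ∫ V, (star f ⬝ᵥ (RE false E ε σ V *ᵥ f)).im ^ 2 ∂(GP (T d L)) ≤
    100 * (nsq f / Ga d L E ε σ) ^ 2 → ∀ q : T d L → ℂ, (∀ k, ‖q k‖ ≤ 1) →
  ∫ V, ‖(RE false E ε σ V *ᵥ (Mo q *ᵥ (RE true E ε σ V *ᵥ f))) 0 -
      ∫ W, (RE false E ε σ W *ᵥ (Mo q *ᵥ (RE true E ε σ W *ᵥ f))) 0 ∂(GP (T d L))‖ ^ 2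
      ∂(GP (T d L)) ≤
    10 ^ 5 * (σ ^ 2 * Q * (δ / ε) ^ 2) * g * nsq f / (ε ^ 2 * Ga d L E ε σ)

/-- the mean field equation -/
def T_PMAIN : Prop := ∀ (d L : ℕ) [NeZero L] (σ δ ε t Q g p0 m0 ζ E : ℝ)
  (Ω : Set (T d L → ℝ)), ParK d L σ δ ε t Q g p0 Ω → SmK σ ε δ Q g m0 ζ →
  GE d L σ δ ε g m0 E → ∀ p q : T d L → ℂ, (∀ k, ‖p k‖ ≤ 1) → (∀ k, ‖q k‖ ≤ 1) →
  ‖∫ V, Tp p q E ε σ V ∂(GP (T d L)) - (tp p q E ε σ + (σ : ℂ) ^ 2 *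
    ((∫ V, Up q E ε σ V ∂(GP (T d L))) * ∫ V, Wp p E ε σ V ∂(GP (T d L))))‖ ≤ ζ / σ ^ 2

/-- Ward identities, simple bounds -/
def T_PWD : Prop := ∀ (d L : ℕ) [NeZero L] (E ε σ : ℝ), 0 < ε →
  (∀ (V : T d L → ℝ) (q : T d L → ℂ), (ε : ℂ) * Tp (fun _ => 1) q E ε σ V = Iv q E ε σ V ∧
    (ε : ℂ) * Tp q (fun _ => 1) E ε σ V = Iv q E ε σ V) ∧
  (∀ V : T d L → ℝ, 0 ≤ DS E ε σ V ∧ Iv (fun _ => 1) E ε σ V = (DS E ε σ V : ℂ)) ∧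
  (∀ (V : T d L → ℝ) (p q : T d L → ℂ), (∀ k, ‖p k‖ ≤ 1) → (∀ k, ‖q k‖ ≤ 1) →
    ‖Iv q E ε σ V‖ ≤ DS E ε σ V ∧ ε * ‖Tp p q E ε σ V‖ ≤ DS E ε σ V) ∧
  (∀ (V : T d L → ℝ) (q : T d L → ℂ), Iv (fun k => star (q k)) E ε σ V = star (Iv q E ε σ V)) ∧
  (∀ q : T d L → ℂ, ∫ V, Up q E ε σ V ∂(GP (T d L)) =
    ∫ V, Tp (fun _ => 1) q E ε σ V ∂(GP (T d L))) ∧
  (∀ p q : T d L → ℂ, Integrable (fun V : T d L → ℝ => Tp p q E ε σ V) (GP (T d L)) ∧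
    Integrable (fun V : T d L → ℝ => Iv q E ε σ V) (GP (T d L))) ∧
  Integrable (fun V : T d L → ℝ => DS E ε σ V) (GP (T d L)) ∧
  ∫ V : T d L → ℝ, DS E ε σ V ∂(GP (T d L)) = (me d L false E ε σ).im

/-- the mean of the resolvent with a symbol -/
def T_PRB : Prop := ∀ (d L : ℕ) [NeZero L] (σ δ ε t Q g p0 m0 ζ E : ℝ) (Ω : Set (T d L → ℝ)),
  ParK d L σ δ ε t Q g p0 Ω → SmK σ ε δ Q g m0 ζ → GE d L σ δ ε g m0 E →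
  ∀ q : T d L → ℂ, (∀ k, ‖q k‖ ≤ 1) →
  ‖∫ V, Iv q E ε σ V ∂(GP (T d L)) -
    ((NN d L : ℝ) : ℂ)⁻¹ * ∑ k : T d L, q k * ((be false E ε σ k).im : ℂ)‖ ≤ ζ

/-- the product of two resolvents -/
def T_PREL : Prop := ∀ (d L : ℕ) [NeZero L] (σ δ ε t Q g p0 m0 ζ E : ℝ)
  (Ω : Set (T d L → ℝ)), ParK d L σ δ ε t Q g p0 Ω → SmK σ ε δ Q g m0 ζ →
  GE d L σ δ ε g m0 E → 0 < (me d L false E ε σ).im → ∀ p q : T d L → ℂ, (∀ k, ‖p k‖ ≤ 1) →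
  (∀ k, ‖q k‖ ≤ 1) →
  ‖(ε : ℂ) * ∫ V, Tp p q E ε σ V ∂(GP (T d L)) - (∫ V, Iv p E ε σ V ∂(GP (T d L))) *
    (∫ V, Iv q E ε σ V ∂(GP (T d L))) / ((me d L false E ε σ).im : ℂ)‖ ≤
    4 * (ε / σ ^ 2) * (((me d L false E ε σ).im + 1) / m0)

/-! ## B. Sums over the momenta -/

/-- characters -/
def T_PSY : Prop := ∀ (d L : ℕ) [NeZero L] (m : Fin d → ℤ),
  (∀ k : T d L, ‖chm m k‖ = 1 ∧ |cqm m k| ≤ 1) ∧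
  (∀ F : ℝ → ℂ, ∑ k : T d L, chm m k * F (adj k) = ∑ k : T d L, ((cqm m k : ℝ) : ℂ) * F (adj k)) ∧
  (∀ (u : T d L → ℂ) (x : T d L), (Mo (chm m) *ᵥ u) x = u (x + fun i => ((m i : ℤ) : ZMod L))) ∧
  ∀ q : T d L → ℂ, Mo (fun k => star (q k)) = (Mo q)ᴴ

/-- Bessel functions: decay -/
def T_PBE : Prop := ∀ n : ℤ, Continuous (jm n) ∧ (∀ s, ‖jm n s‖ ≤ 1) ∧
  (∀ s, jm n (-s) = star (jm n s)) ∧ (∀ s, jm 0 s = jb s) ∧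
  ∃ C : ℝ, 0 < C ∧ ∀ s : ℝ, ‖jm n s‖ ≤ C / Real.sqrt (1 + |s|)

/-- Bessel functions: Riemann sums, exponentially small errors -/
def T_PJL : Prop := ∀ n : ℤ, ∃ C : ℝ, 0 < C ∧ ∀ (L : ℕ) [NeZero L] (s : ℝ), 16 * |s| ≤ L →
  ‖((L : ℂ)⁻¹ * ∑ j : ZMod L, (((ZMod.stdAddChar ((n : ZMod L) * j) : ℂ).re : ℝ) : ℂ) *
    Complex.exp (((2 * s * cr j : ℝ) : ℂ) * Complex.I)) - jm n s‖ ≤ C * (1 / 2) ^ L

/-- Cauchy sums -/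
def T_PCAU : Prop := ∀ d : ℕ, 3 ≤ d → ∀ (m : Fin d → ℤ) (θ η : ℝ), 0 < θ → 0 < η →
  ∃ r : ℝ, 0 < r ∧ ∀ (E E' Γ : ℝ) (L : ℕ) [NeZero L], |E - E'| < r → 0 < Γ → Γ < r →
  1 / (L : ℝ) ≤ Γ ^ (1 + θ) →
  ‖((NN d L : ℝ) : ℂ)⁻¹ * ∑ k : T d L, ((cqm m k : ℝ) : ℂ) *
    (((adj k - E' : ℝ) : ℂ) - (Γ : ℂ) * Complex.I)⁻¹ - cm d m E‖ ≤ η

/-- the densities with weights -/
def T_PWM : Prop := ∀ d : ℕ, 3 ≤ d → ∀ m : Fin d → ℤ, Continuous (wm d m) ∧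
  ∀ E : ℝ, |wm d m E| ≤ dn d E

/-- Riemann sums of continuous functions -/
def T_PRI : Prop := ∀ (d : ℕ) (g : (Fin d → ℝ) → ℂ), Continuous g → ∀ η : ℝ, 0 < η →
  ∃ L0 : ℕ, ∀ (L : ℕ) [NeZero L], L0 ≤ L →
  ‖((NN d L : ℝ) : ℂ)⁻¹ * ∑ k : T d L, g (fun i => ((k i).val : ℝ) / L) -
    ∫ k in Set.Icc (0 : Fin d → ℝ) 1, g k‖ ≤ η

/-- the microcanonical mean -/
def T_PLM : Prop := ∀ d : ℕ, 3 ≤ d → ∀ (m : Fin d → ℤ) (E : ℝ), 0 < dn d E →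
  Tendsto (mia d m E) (𝓝[>] 0) (𝓝 ((wm d m E / dn d E : ℝ) : ℂ))

/-! ## C. Eigenvectors -/

/-- there are eigenvectors -/
def T_PEX : Prop := ∀ (d L : ℕ) [NeZero L] (σ : ℝ) (V : T d L → ℝ),
  ∃ (u : T d L → T d L → ℂ) (w : T d L → ℝ), EB σ V u w

/-- expressions in terms of the eigenvectors -/
def T_PEG : Prop := ∀ (d L : ℕ) [NeZero L] (E ε σ : ℝ), 0 < ε → ∀ (V : T d L → ℝ)
  (u : T d L → T d L → ℂ) (w : T d L → ℝ), EB σ V u w →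
  DS E ε σ V = (NN d L)⁻¹ * ∑ j, ε / ((w j - E) ^ 2 + ε ^ 2) ∧
  (∀ q : T d L → ℂ, Iv q E ε σ V = ((NN d L : ℝ) : ℂ)⁻¹ * ∑ j, (star (u j) ⬝ᵥ (Mo q *ᵥ u j)) *
    ((ε / ((w j - E) ^ 2 + ε ^ 2) : ℝ) : ℂ)) ∧
  ∀ p q : T d L → ℂ, Tp p q E ε σ V = ((NN d L : ℝ) : ℂ)⁻¹ * ∑ j, ∑ l,
    (star (u j) ⬝ᵥ (Mo p *ᵥ u l)) * (star (u l) ⬝ᵥ (Mo q *ᵥ u j)) *
      ((((w l - E : ℝ) : ℂ) - (ε : ℂ) * Complex.I)⁻¹ *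
        (((w j - E : ℝ) : ℂ) + (ε : ℂ) * Complex.I)⁻¹)

/-- integrals over the energy -/
def T_PEI : Prop := ∀ (a b ε : ℝ), 0 < ε →
  Integrable (fun E : ℝ => (((a - E : ℝ) : ℂ) - (ε : ℂ) * Complex.I)⁻¹ *
    (((b - E : ℝ) : ℂ) + (ε : ℂ) * Complex.I)⁻¹) ∧
  ∫ E : ℝ, (((a - E : ℝ) : ℂ) - (ε : ℂ) * Complex.I)⁻¹ *
    (((b - E : ℝ) : ℂ) + (ε : ℂ) * Complex.I)⁻¹ = 2 * Real.pi * Complex.I /
      (((b - a : ℝ) : ℂ) + ((2 * ε : ℝ) : ℂ) * Complex.I) ∧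
  Integrable (fun E : ℝ => ε / ((a - E) ^ 2 + ε ^ 2)) ∧
  ∫ E : ℝ, ε / ((a - E) ^ 2 + ε ^ 2) = Real.pi

/-- Poisson integrals of continuous functions -/
def T_PPO : Prop := (∀ c : ℝ → ℝ, Continuous c → HasCompactSupport c → ∀ η : ℝ, 0 < η →
    ∃ ε0 : ℝ, 0 < ε0 ∧ ∀ ε : ℝ, 0 < ε → ε < ε0 → ∀ x : ℝ,
    |c x - Real.pi⁻¹ * ∫ E : ℝ, c E * (ε / ((x - E) ^ 2 + ε ^ 2))| ≤ η) ∧
  ∀ r : ℝ, 0 < r → ∃ ε0 : ℝ, 0 < ε0 ∧ ∀ ε : ℝ, 0 < ε → ε < ε0 → ∀ (x : ℝ) (S : Set ℝ),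
    MeasurableSet S → (∀ y, |x - y| < r → y ∈ S) →
    1 / 2 ≤ Real.pi⁻¹ * ∫ E in S, ε / ((x - E) ^ 2 + ε ^ 2)

/-- the variance in terms of the integral over the energy -/
def T_PDE : Prop := ∀ (d L : ℕ) [NeZero L] (m : Fin d → ℤ) (c : ℝ → ℝ) (ε σ η : ℝ), 0 < ε →
  Continuous c → (∀ E, |c E| ≤ 1) →
  (∀ x, |c x - Real.pi⁻¹ * ∫ E : ℝ, c E * (ε / ((x - E) ^ 2 + ε ^ 2))| ≤ η) →
  (∀ x, |c x ^ 2 - Real.pi⁻¹ * ∫ E : ℝ, c E ^ 2 * (ε / ((x - E) ^ 2 + ε ^ 2))| ≤ η) →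
  ∀ (V : T d L → ℝ) (u : T d L → T d L → ℂ) (w : T d L → ℝ), EB σ V u w →
  (NN d L)⁻¹ * ∑ j, ∑ l, ‖Xm m c ε u w j l‖ ^ 2 ≤
    Real.pi⁻¹ * (∫ E : ℝ, Ph m c ε σ V E) + 3 * η

/-- slowly varying functions -/
def T_PCO : Prop := ∀ (d L : ℕ) [NeZero L] (m : Fin d → ℤ) (c : ℝ → ℝ) (ε σ ℓ : ℝ), 0 < ε →
  0 ≤ ℓ → ∀ (V : T d L → ℝ) (u : T d L → T d L → ℂ) (w : T d L → ℝ), EB σ V u w →
  ∀ f : T d L → ℂ, (∀ x, ‖f x‖ ≤ 1) → (∀ x i, ‖f (x + Pi.single i 1) - f x‖ ≤ ℓ) →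
  (NN d L)⁻¹ * ∑ j, ‖∑ x, f x * (star (u j x) * (Mo (chm m) *ᵥ u j) x) -
    (c (w j) : ℂ) * ∑ x, f x * ((‖u j x‖ ^ 2 : ℝ) : ℂ)‖ ^ 2 ≤
    2 * ((NN d L)⁻¹ * ∑ j, ∑ l, ‖Xm m c ε u w j l‖ ^ 2) + 2 * (d * ℓ / ε) ^ 2

/-- counting of eigenvalues -/
def T_PCT : Prop := ∀ d : ℕ, 3 ≤ d → ∀ c0 : ℝ, 0 < c0 → ∃ ε0 : ℝ, 0 < ε0 ∧ ∀ ε : ℝ, 0 < ε →
  ε < ε0 → ∀ (L : ℕ) [NeZero L] (σ : ℝ) (V : T d L → ℝ) (u : T d L → T d L → ℂ)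
  (w : T d L → ℝ), EB σ V u w →
  ({j | dn d (w j) < c0}.ncard : ℝ) ≤
    NN d L * (2 / Real.pi * ∫ E in {E : ℝ | dn d E < 2 * c0}, DS E ε σ V)

/-- exchange of the integrals -/
def T_PFU : Prop := ∀ (d L : ℕ) [NeZero L] (m : Fin d → ℤ) (c : ℝ → ℝ) (ε σ : ℝ), 0 < ε → 0 < σ →
  Continuous c → (∀ E, |c E| ≤ 1) →
  (∀ (V : T d L → ℝ) (E : ℝ), |Ph m c ε σ V E| ≤ 4 * DS E ε σ V) ∧
  Integrable (fun V : T d L → ℝ => ∫ E : ℝ, Ph m c ε σ V E) (GP (T d L)) ∧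
  ∫ V : T d L → ℝ, (∫ E : ℝ, Ph m c ε σ V E) ∂(GP (T d L)) =
    ∫ E : ℝ, ∫ V : T d L → ℝ, Ph m c ε σ V E ∂(GP (T d L)) ∧
  Integrable (fun E : ℝ => ∫ V : T d L → ℝ, Ph m c ε σ V E ∂(GP (T d L))) ∧
  Integrable (fun E : ℝ => (me d L false E ε σ).im) ∧
  (∀ E : ℝ, 0 ≤ (me d L false E ε σ).im) ∧
  ∫ E : ℝ, (me d L false E ε σ).im = Real.pi ∧
  ∀ S : Set ℝ, MeasurableSet S →
    Integrable (fun V : T d L → ℝ => ∫ E in S, DS E ε σ V) (GP (T d L)) ∧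
    ∫ V : T d L → ℝ, (∫ E in S, DS E ε σ V) ∂(GP (T d L)) = ∫ E in S, (me d L false E ε σ).im

/-! ## D. Conclusion -/

/-- good energies -/
def T_PLI : Prop := ∀ (κ : ℕ) (d : ℕ), 3 ≤ d → ∀ h : ℝ, 0 < h → h < 1 / 3 → ∀ a : ℝ, 0 < a →
  ∀ (m : Fin d → ℤ) (c0 η : ℝ), 0 < c0 → 0 < η → ∀ᶠ σ : ℝ in 𝓝[>] 0,
  ∀ (L : ℕ) [NeZero L], σ ^ (-2 - a) ≤ (L : ℝ) → (L : ℝ) ≤ σ ^ (-(κ : ℝ)) →
  ∀ E : ℝ, c0 ≤ dn d E →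
    |∫ V : T d L → ℝ, Ph m (cf d m c0) (σ ^ (2 + h)) σ V E ∂(GP (T d L))| ≤ η ∧
    |(me d L false E (σ ^ (2 + h)) σ).im - Real.pi * dn d E| ≤ η

/-- all energies -/
def T_PTO : Prop := ∀ (κ : ℕ) (d : ℕ), 3 ≤ d → ∀ h : ℝ, 0 < h → h < 1 / 3 → ∀ a : ℝ, 0 < a →
  ∀ (m : Fin d → ℤ) (c0 η : ℝ), 0 < c0 → 0 < η → ∀ᶠ σ : ℝ in 𝓝[>] 0,
  ∀ (L : ℕ) [NeZero L], σ ^ (-2 - a) ≤ (L : ℝ) → (L : ℝ) ≤ σ ^ (-(κ : ℝ)) →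
    ∫ V : T d L → ℝ, (∫ E : ℝ, Ph m (cf d m c0) (σ ^ (2 + h)) σ V E) ∂(GP (T d L)) ≤
      η + 100 * d * c0 ∧
    ∫ E in {E : ℝ | dn d E < 2 * c0}, (me d L false E (σ ^ (2 + h)) σ).im ≤ η + 100 * d * c0

/-- slowly varying functions and shifts, tori of any polynomial size -/
def T_PA : Prop := ∀ (κ : ℕ) (d : ℕ), 3 ≤ d → ∀ a : ℝ, 0 < a → ∀ (m : Fin d → ℤ) (η : ℝ),
  0 < η → ∀ᶠ σ : ℝ in 𝓝[>] 0,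
  ∀ (L : ℕ) [NeZero L], σ ^ (-2 - a) ≤ (L : ℝ) → (L : ℝ) ≤ σ ^ (-(κ : ℝ)) →
  ∃ Ω : Set (T d L → ℝ), MeasurableSet Ω ∧ 1 - η ≤ (GP (T d L)).real Ω ∧
    ∀ V ∈ Ω, ∀ (u : T d L → T d L → ℂ) (w : T d L → ℝ), EB σ V u w →
    ({j | dn d (w j) = 0}.ncard : ℝ) ≤ η * NN d L ∧
    ∀ f : T d L → ℂ, (∀ x, ‖f x‖ ≤ 1) →
    (∀ x i, ‖f (x + Pi.single i 1) - f x‖ ≤ σ ^ (2 + a)) →
    ({j | η < ‖∑ x, f x * (star (u j x) * u j (x + fun i => ((m i : ℤ) : ZMod L))) -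
      ((wm d m (w j) / dn d (w j) : ℝ) : ℂ) * ∑ x, f x * ((‖u j x‖ ^ 2 : ℝ) : ℂ)‖}.ncard : ℝ) ≤
      η * NN d L

/-- quantum ergodicity in phase space, smaller tori -/
def T_PB : Prop := ∀ (d : ℕ), 3 ≤ d → ∀ a b : ℝ, 0 < a → b < (if d = 3 then 1 / 5 else 2 / 5) →
  ∀ (m : Fin d → ℤ) (f : (Fin d → UnitAddCircle) → ℂ), Continuous f → ∀ η : ℝ, 0 < η →
  ∀ᶠ σ : ℝ in 𝓝[>] 0, ∀ (L : ℕ) [NeZero L], σ ^ (-2 - a) ≤ (L : ℝ) → (L : ℝ) ≤ σ ^ (-2 - b) →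
    ∃ Ω : Set (T d L → ℝ), MeasurableSet Ω ∧ 1 - η ≤ (GP (T d L)).real Ω ∧
      ∀ V ∈ Ω, ∀ (u : T d L → T d L → ℂ) (w : T d L → ℝ), EB σ V u w →
      ({j | η < ‖∑ x, f (QE.pt x) * (star (u j x) * u j (x + fun i => ((m i : ℤ) : ZMod L))) -
        ((wm d m (w j) / dn d (w j) : ℝ) : ℂ) *
          ∫ x in Set.Icc (0 : Fin d → ℝ) 1, f (fun i => (x i : UnitAddCircle))‖}.ncard : ℝ) ≤
        η * NN d L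

end Pool.Agent.T2h98.PS
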